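import Pool.Agent.Helper378.PD.Base
set_option autoImplicit false
open MeasureTheory
namespace Pool.Agent.Helper378.PD
namespace A1
section meanaux

/-- bounded functions -/
def bddSub (A : Type) : Submodule ℝ (A → ℝ) where
  carrier := {f | ∃ C : ℝ, ∀ x, |f x| ≤ C}
  add_mem' := by
    rintro f g ⟨C, hC⟩ ⟨D, hD⟩
    exact ⟨C + D, fun x => (abs_add_le _ _).trans (add_le_add (hC x) (hD x))⟩
  zero_mem' := ⟨0, fun x => by simp⟩
  smul_mem' := by
    rintro c f ⟨C, hC⟩
    refine ⟨|c| * C, fun x => ?_⟩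
    rw [Pi.smul_apply, smul_eq_mul, abs_mul]
    exact mul_le_mul_of_nonneg_left (hC x) (abs_nonneg _)

/-- upper bounds of averages of translates -/
def upSet (A : Type) [CommGroup A] (f : A → ℝ) : Set ℝ :=
  {r | ∃ (ι : Type) (_ : Fintype ι) (_ : Nonempty ι) (s : ι → A),
    ∀ x, ∑ i, f (s i * x) ≤ r * Fintype.card ι}

theorem upSet_const {A : Type} [CommGroup A] {f : A → ℝ} {C : ℝ} (h : ∀ x, f x ≤ C) :
    C ∈ upSet A f :=
  ⟨Unit, inferInstance, inferInstance, fun _ => 1, fun x => by simpa using h x⟩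

theorem upSet_lb {A : Type} [CommGroup A] {f : A → ℝ} {C : ℝ} (h : ∀ x, C ≤ f x) :
    ∀ r ∈ upSet A f, C ≤ r := by
  rintro r ⟨ι, _, _, s, hs⟩
  have h1 := hs 1
  have h2 : ∑ _i : ι, C ≤ ∑ i, f (s i * 1) := Finset.sum_le_sum fun i _ => h _
  rw [Finset.sum_const, nsmul_eq_mul, Finset.card_univ] at h2
  have hc : (0 : ℝ) < Fintype.card ι := by exact_mod_cast Fintype.card_pos
  have h3 : C * Fintype.card ι ≤ r * Fintype.card ι := by linarith
  exact le_of_mul_le_mul_right h3 hc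

theorem upSet_add {A : Type} [CommGroup A] {f g : A → ℝ} {r t : ℝ} (hr : r ∈ upSet A f)
    (ht : t ∈ upSet A g) : r + t ∈ upSet A (f + g) := by
  obtain ⟨ι, _, _, s, hs⟩ := hr
  obtain ⟨κ, _, _, u, hu⟩ := ht
  refine ⟨ι × κ, inferInstance, inferInstance, fun p => s p.1 * u p.2, fun x => ?_⟩
  rw [Fintype.card_prod]
  simp only [Pi.add_apply, Finset.sum_add_distrib]
  have h1 : ∑ p : ι × κ, f (s p.1 * u p.2 * x) ≤ r * Fintype.card ι * Fintype.card κ := by
    rw [Fintype.sum_prod_type_right]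
    calc ∑ j, ∑ i, f (s i * u j * x) ≤ ∑ _j : κ, r * Fintype.card ι := by
          refine Finset.sum_le_sum fun j _ => ?_
          have := hs (u j * x)
          simpa only [mul_assoc] using this
      _ = r * Fintype.card ι * Fintype.card κ := by
          rw [Finset.sum_const, nsmul_eq_mul, Finset.card_univ]; ring
  have h2 : ∑ p : ι × κ, g (s p.1 * u p.2 * x) ≤ t * Fintype.card κ * Fintype.card ι := by
    rw [Fintype.sum_prod_type]
    calc ∑ i, ∑ j, g (s i * u j * x) ≤ ∑ _i : ι, t * Fintype.card κ := by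
          refine Finset.sum_le_sum fun i _ => ?_
          have := hu (s i * x)
          have e : ∀ j, s i * u j * x = u j * (s i * x) := fun j => by
            rw [mul_comm (s i) (u j), mul_assoc]
          simpa only [e] using this
      _ = t * Fintype.card κ * Fintype.card ι := by
          rw [Finset.sum_const, nsmul_eq_mul, Finset.card_univ]; ring
  push_cast
  linarith

theorem upSet_smul {A : Type} [CommGroup A] {f : A → ℝ} {r c : ℝ} (hc : 0 < c)
    (hr : r ∈ upSet A f) : c * r ∈ upSet A (c • f) := by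
  obtain ⟨ι, _, _, s, hs⟩ := hr
  refine ⟨ι, inferInstance, inferInstance, s, fun x => ?_⟩
  simp only [Pi.smul_apply, smul_eq_mul, ← Finset.mul_sum]
  rw [mul_assoc]
  exact mul_le_mul_of_nonneg_left (hs x) hc.le

/-- the sublinear functional -/
noncomputable def upN (A : Type) [CommGroup A] (f : A → ℝ) : ℝ := sInf (upSet A f)

theorem upN_le {A : Type} [CommGroup A] {f : A → ℝ} {C r : ℝ} (h : ∀ x, |f x| ≤ C)
    (hr : r ∈ upSet A f) : upN A f ≤ r :=
  csInf_le ⟨-C, fun _ hs => upSet_lb (fun x => (abs_le.1 (h x)).1) _ hs⟩ hr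

theorem le_upN {A : Type} [CommGroup A] {f : A → ℝ} {C r : ℝ} (h : ∀ x, |f x| ≤ C)
    (hr : ∀ t ∈ upSet A f, r ≤ t) : r ≤ upN A f :=
  le_csInf ⟨C, upSet_const fun x => (abs_le.1 (h x)).2⟩ hr

theorem upN_smul_le {A : Type} [CommGroup A] {f : A → ℝ} {C c : ℝ} (hc : 0 < c)
    (h : ∀ x, |f x| ≤ C) : upN A (c • f) ≤ c * upN A f := by
  have hb : ∀ x, |(c • f) x| ≤ c * C := fun x => by
    rw [Pi.smul_apply, smul_eq_mul, abs_mul, abs_of_pos hc]
    exact mul_le_mul_of_nonneg_left (h x) hc.le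
  have h1 : upN A (c • f) / c ≤ upN A f := by
    refine le_upN h fun t ht => ?_
    rw [div_le_iff₀ hc, mul_comm]
    exact upN_le hb (upSet_smul hc ht)
  rw [div_le_iff₀ hc] at h1
  linarith

theorem upN_add_le {A : Type} [CommGroup A] {f g : A → ℝ} {C D : ℝ}
    (h : ∀ x, |f x| ≤ C) (h' : ∀ x, |g x| ≤ D) : upN A (f + g) ≤ upN A f + upN A g := by
  have hb : ∀ x, |(f + g) x| ≤ C + D := fun x =>
    (abs_add_le _ _).trans (add_le_add (h x) (h' x))
  have h1 : ∀ t ∈ upSet A g, upN A (f + g) - t ≤ upN A f := by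
    intro t ht
    refine le_upN h fun r hr => ?_
    have := upN_le hb (upSet_add hr ht)
    linarith
  have h2 : upN A (f + g) - upN A f ≤ upN A g := by
    refine le_upN h' fun t ht => ?_
    have := h1 t ht
    linarith
  linarith

end meanaux

theorem exists_mean (A : Type) [CommGroup A] : HasMean A := by
  classical
  set N : bddSub A → ℝ := fun f => upN A (f : A → ℝ) with hN
  have hom : ∀ c : ℝ, 0 < c → ∀ x, N (c • x) = c * N x := by
    intro c hc x
    obtain ⟨C, hC⟩ := x.2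
    apply le_antisymm
    · exact upN_smul_le hc hC
    · have h1 : upN A (c⁻¹ • (c • (x : A → ℝ))) ≤ c⁻¹ * upN A (c • (x : A → ℝ)) := by
        refine upN_smul_le (C := c * C) (inv_pos.2 hc) fun y => ?_
        rw [Pi.smul_apply, smul_eq_mul, abs_mul, abs_of_pos hc]
        exact mul_le_mul_of_nonneg_left (hC y) hc.le
      rw [smul_smul, inv_mul_cancel₀ hc.ne', one_smul] at h1
      have h2 : c * upN A (x : A → ℝ) ≤ c * (c⁻¹ * upN A (c • (x : A → ℝ))) :=
        mul_le_mul_of_nonneg_left h1 hc.le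
      rw [← mul_assoc, mul_inv_cancel₀ hc.ne', one_mul] at h2
      exact h2
  have hadd : ∀ x y, N (x + y) ≤ N x + N y := by
    intro x y
    obtain ⟨C, hC⟩ := x.2
    obtain ⟨D, hD⟩ := y.2
    exact upN_add_le hC hD
  obtain ⟨g, -, hg⟩ := exists_extension_of_le_sublinear
    (⟨⊥, 0⟩ : (bddSub A) →ₗ.[ℝ] ℝ) N hom hadd (by
      rintro ⟨x, hx⟩
      have hx0 : x = 0 := by simpa using hx
      subst hx0
      show (0 : ℝ) ≤ N 0
      exact le_upN (C := 0) (fun y => by simp) (upSet_lb fun y => by simp))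
  have hle : ∀ (f : A → ℝ) (hf : f ∈ bddSub A) (r : ℝ), r ∈ upSet A f → g ⟨f, hf⟩ ≤ r := by
    intro f hf r hr
    obtain ⟨C, hC⟩ := hf
    exact (hg _).trans (upN_le hC hr)
  refine ⟨fun f => if h : f ∈ bddSub A then g ⟨f, h⟩ else 0, ?_, ?_, ?_, ?_, ?_⟩
  · intro f h C hf hh
    have hf' : f ∈ bddSub A := ⟨C, hf⟩
    have hh' : h ∈ bddSub A := ⟨C, hh⟩
    have hs : (fun x => f x + h x) ∈ bddSub A := (bddSub A).add_mem hf' hh'
    simp only [dif_pos hf', dif_pos hh', dif_pos hs]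
    rw [← map_add]
    rfl
  · intro f C c hf
    have hf' : f ∈ bddSub A := ⟨C, hf⟩
    have hs : (fun x => c * f x) ∈ bddSub A := (bddSub A).smul_mem c hf'
    simp only [dif_pos hf', dif_pos hs]
    rw [← smul_eq_mul, ← map_smul]
    rfl
  · intro f C hf h0
    have hf' : f ∈ bddSub A := ⟨C, hf⟩
    simp only [dif_pos hf']
    have hs : (-f) ∈ bddSub A := (bddSub A).neg_mem hf'
    have h1 : g ⟨-f, hs⟩ ≤ 0 := hle _ hs 0 (upSet_const fun x => by
      rw [Pi.neg_apply]; linarith [h0 x])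
    have h2 : g ⟨-f, hs⟩ = - g ⟨f, hf'⟩ := by
      rw [← map_neg]
      rfl
    linarith
  · have h1 : (fun _ => 1 : A → ℝ) ∈ bddSub A := ⟨1, fun x => by simp⟩
    simp only [dif_pos h1]
    have hs : (-(fun _ => 1 : A → ℝ)) ∈ bddSub A := (bddSub A).neg_mem h1
    have h2 : g ⟨_, h1⟩ ≤ 1 := hle _ h1 1 (upSet_const fun x => le_rfl)
    have h3 : g ⟨-(fun _ => 1 : A → ℝ), hs⟩ ≤ -1 := hle _ hs (-1) (upSet_const fun x => by
      rw [Pi.neg_apply])
    have h4 : g ⟨-(fun _ => 1 : A → ℝ), hs⟩ = - g ⟨_, h1⟩ := by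
      rw [← map_neg]
      rfl
    linarith
  · intro f C a hf
    have hf' : f ∈ bddSub A := ⟨C, hf⟩
    have hs : (fun x => f (a * x)) ∈ bddSub A := ⟨C, fun x => hf _⟩
    simp only [dif_pos hf', dif_pos hs]
    have key : ∀ (u v : A → ℝ) (hu : u ∈ bddSub A) (hv : v ∈ bddSub A),
        (∀ n : ℕ, 0 < n → ∀ x, ∑ i : Fin n, (u - v) (a ^ (i : ℕ) * x) ≤ 2 * C) →
        g ⟨u, hu⟩ ≤ g ⟨v, hv⟩ := by
      intro u v hu hv h
      have hd : u - v ∈ bddSub A := (bddSub A).sub_mem hu hv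
      have h1 : ∀ n : ℕ, 0 < n → g ⟨u - v, hd⟩ ≤ 2 * C / n := by
        intro n hn
        refine hle _ hd _ ⟨Fin n, inferInstance, ⟨⟨0, hn⟩⟩, fun i => a ^ (i : ℕ), fun x => ?_⟩
        have hn' : (n : ℝ) ≠ 0 := by exact_mod_cast hn.ne'
        rw [Fintype.card_fin, div_mul_cancel₀ _ hn']
        exact h n hn x
      have h2 : g ⟨u - v, hd⟩ ≤ 0 := by
        have ht : Filter.Tendsto (fun n : ℕ => 2 * C / (n : ℝ)) Filter.atTop (nhds 0) :=
          tendsto_const_div_atTop_nhds_zero_nat _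
        refine ge_of_tendsto ht ?_
        filter_upwards [Filter.eventually_gt_atTop 0] with n hn
        exact h1 n hn
      have h3 : g ⟨u - v, hd⟩ = g ⟨u, hu⟩ - g ⟨v, hv⟩ := by
        rw [← map_sub]
        rfl
      linarith
    have tel : ∀ (n : ℕ) (x : A), ∑ i : Fin n, (f (a * (a ^ (i : ℕ) * x)) - f (a ^ (i : ℕ) * x))
        = f (a ^ n * x) - f x := by
      intro n x
      rw [Fin.sum_univ_eq_sum_range (fun i => f (a * (a ^ i * x)) - f (a ^ i * x)) n]
      have e : ∀ i : ℕ, f (a * (a ^ i * x)) = f (a ^ (i + 1) * x) := fun i => by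
        rw [← mul_assoc, pow_succ']
      simp only [e]
      rw [Finset.sum_range_sub (fun i => f (a ^ i * x))]
      simp
    apply le_antisymm
    · apply key
      intro n _ x
      have := tel n x
      simp only [Pi.sub_apply]
      rw [this]
      have h1 := abs_le.1 (hf (a ^ n * x))
      have h2 := abs_le.1 (hf x)
      linarith [h1.2, h2.1]
    · apply key
      intro n _ x
      have := tel n x
      have e : ∑ i : Fin n, (f - fun x => f (a * x)) (a ^ (i : ℕ) * x)
          = - ∑ i : Fin n, (f (a * (a ^ (i : ℕ) * x)) - f (a ^ (i : ℕ) * x)) := by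
        rw [← Finset.sum_neg_distrib]
        refine Finset.sum_congr rfl fun i _ => ?_
        simp only [Pi.sub_apply]
        ring
      rw [e, this]
      have h1 := abs_le.1 (hf (a ^ n * x))
      have h2 := abs_le.1 (hf x)
      linarith [h1.1, h2.2]

end A1
export A1 (exists_mean)
end Pool.Agent.Helper378.PD
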