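import Pool.Agent.Helper378.PD.Base
set_option autoImplicit false
open MeasureTheory
namespace Pool.Agent.Helper378.PD
namespace A2
/-- properties of a mean -/
structure IsMean {A : Type} [CommGroup A] (M : (A → ℝ) → ℝ) : Prop where
  add : ∀ (f g : A → ℝ) (C : ℝ), (∀ x, |f x| ≤ C) → (∀ x, |g x| ≤ C) →
      M (fun x => f x + g x) = M f + M g
  smul : ∀ (f : A → ℝ) (C c : ℝ), (∀ x, |f x| ≤ C) → M (fun x => c * f x) = c * M f
  nonneg : ∀ (f : A → ℝ) (C : ℝ), (∀ x, |f x| ≤ C) → (∀ x, 0 ≤ f x) → 0 ≤ M f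
  one : M (fun _ => 1) = 1
  inv : ∀ (f : A → ℝ) (C : ℝ) (a : A), (∀ x, |f x| ≤ C) → M (fun x => f (a * x)) = M f

theorem IsMean.const {A : Type} [CommGroup A] {M : (A → ℝ) → ℝ} (h : IsMean M) (c : ℝ) :
    M (fun _ => c) = c := by
  have := h.smul (fun _ => 1) 1 c (by intro x; simp)
  simpa [h.one] using this

theorem IsMean.mono {A : Type} [CommGroup A] {M : (A → ℝ) → ℝ} (h : IsMean M)
    {f g : A → ℝ} {C : ℝ} (hf : ∀ x, |f x| ≤ C) (hg : ∀ x, |g x| ≤ C)
    (hfg : ∀ x, f x ≤ g x) : M f ≤ M g := by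
  have h1 := h.smul f C (-1) hf
  have h2 := h.add g (fun x => -1 * f x) C hg (by intro x; simpa using hf x)
  have h3 := h.nonneg (fun x => g x + -1 * f x) (C + C)
    (fun x => (abs_add_le _ _).trans (add_le_add (hg x) (by simpa using hf x)))
    (fun x => by linarith [hfg x])
  linarith

theorem IsMean.bound {A : Type} [CommGroup A] {M : (A → ℝ) → ℝ} (h : IsMean M)
    {f : A → ℝ} {C : ℝ} (hC : 0 ≤ C) (hf : ∀ x, |f x| ≤ C) : |M f| ≤ C := by
  have h1 := h.mono (f := f) (g := fun _ => C) hf (fun x => by rw [abs_of_nonneg hC])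
    (fun x => (abs_le.1 (hf x)).2)
  have h2 := h.mono (f := fun _ => -C) (g := f) (C := C)
    (fun x => by rw [abs_neg, abs_of_nonneg hC]) hf (fun x => (abs_le.1 (hf x)).1)
  rw [h.const] at h1 h2
  exact abs_le.2 ⟨h2, h1⟩

theorem IsMean.sum {A : Type} [CommGroup A] {M : (A → ℝ) → ℝ} (h : IsMean M) {ι : Type}
    (s : Finset ι) (f : ι → A → ℝ) (C : ι → ℝ) (hf : ∀ i x, |f i x| ≤ C i) :
    M (fun x => ∑ i ∈ s, f i x) = ∑ i ∈ s, M (f i) := by
  classical
  induction s using Finset.induction_on with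
  | empty => simpa using h.const 0
  | insert a s ha ih =>
    simp only [Finset.sum_insert ha]
    have hb : ∀ x, |∑ i ∈ s, f i x| ≤ ∑ i ∈ s, C i := fun x =>
      (Finset.abs_sum_le_sum_abs _ _).trans (Finset.sum_le_sum fun i _ => hf i x)
    rw [h.add (f a) (fun x => ∑ i ∈ s, f i x) (max (C a) (∑ i ∈ s, C i))
      (fun x => (hf a x).trans (le_max_left _ _)) (fun x => (hb x).trans (le_max_right _ _)), ih]

/-- conjugation on K -/
noncomputable def cj (z : K) : K := ⟨(starRingEnd ℂ) (z : ℂ), by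
  obtain ⟨_, a, b, rfl⟩ := z
  exact ⟨a, -b, by simp⟩⟩

theorem cj_coe (z : K) : ((cj z : K) : ℂ) = (starRingEnd ℂ) (z : ℂ) := rfl

noncomputable def u (t : Kˣ) : K := cj t / t

theorem u_mul (s t : Kˣ) : u (s * t) = u s * u t := by
  unfold u
  rw [div_mul_div_comm]
  congr 1
  apply Subtype.ext
  simp [cj_coe]

theorem u_norm (t : Kˣ) : ‖((u t : K) : ℂ)‖ = 1 := by
  unfold u
  have ht : ((t : K) : ℂ) ≠ 0 := by
    intro h
    exact t.ne_zero (Subtype.ext h)
  rw [show (((cj (t : K) / (t : K) : K)) : ℂ) = ((cj (t : K) : K) : ℂ) / ((t : K) : ℂ) from rfl,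
    cj_coe, norm_div, Complex.norm_conj, div_self (norm_ne_zero_iff.2 ht)]

theorem u_surj (r : K) (hr : ‖(r : ℂ)‖ = 1) : ∃ s : Kˣ, u s = r := by
  by_cases h : r = -1
  · let iK : K := ⟨Complex.I, 0, 1, by simp⟩
    have hi : iK ≠ 0 := by
      intro hc
      have := congrArg (fun z : K => (z : ℂ)) hc
      exact Complex.I_ne_zero this
    refine ⟨Units.mk0 iK hi, ?_⟩
    unfold u
    rw [Units.val_mk0, div_eq_iff hi, h]
    apply Subtype.ext
    rw [cj_coe]
    simp [iK]
  · have hs : (1 : K) + cj r ≠ 0 := by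
      intro hc
      apply h
      have h1 : (1 : ℂ) + (starRingEnd ℂ) (r : ℂ) = 0 := congrArg (fun z : K => (z : ℂ)) hc
      have h2 := congrArg (starRingEnd ℂ) h1
      simp only [map_add, map_one, Complex.conj_conj, map_zero] at h2
      apply Subtype.ext
      have : (r : ℂ) = -1 := by linear_combination h2
      rw [this]
      rfl
    refine ⟨Units.mk0 _ hs, ?_⟩
    unfold u
    rw [Units.val_mk0, div_eq_iff hs]
    apply Subtype.ext
    have h1 : (r : ℂ) * (starRingEnd ℂ) (r : ℂ) = 1 := by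
      rw [Complex.mul_conj, Complex.normSq_eq_norm_sq, hr]
      simp
    have h2 : ((cj (1 + cj r) : K) : ℂ) = 1 + (r : ℂ) := by
      rw [cj_coe]
      change (starRingEnd ℂ) ((1 : ℂ) + (starRingEnd ℂ) (r : ℂ)) = _
      rw [map_add, map_one, Complex.conj_conj]
    rw [h2]
    change (1 : ℂ) + r = (r : ℂ) * ((1 : ℂ) + (starRingEnd ℂ) (r : ℂ))
    linear_combination -h1

/-- the quadratic form of a colouring -/
theorem quad {n m : ℕ} (hn : 0 < n) (k : Fin m → Fin n) (c : Fin m → ℝ) :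
    0 ≤ ∑ i, ∑ j, c i * c j * ((if k j = k i then (1 : ℝ) else 0) - 1 / n) := by
  classical
  have h1 : ∑ i, ∑ j, c i * c j * ((if k j = k i then (1 : ℝ) else 0) - 1 / n) =
      ∑ l : Fin n, (∑ i, if k i = l then c i else 0) ^ 2 - (∑ i, c i) ^ 2 / n := by
    have h2 : ∀ l : Fin n, (∑ i, if k i = l then c i else 0) ^ 2 =
        ∑ i, ∑ j, (if k i = l then c i else 0) * (if k j = l then c j else 0) := by
      intro l
      rw [sq, Finset.sum_mul_sum]
    have h3 : (∑ i, c i) ^ 2 / n = ∑ i, ∑ j, c i * c j * (1 / n) := by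
      rw [sq, Finset.sum_mul_sum]
      simp only [← Finset.sum_mul]
      ring
    have h7 : ∑ l : Fin n, ∑ i, ∑ j, (if k i = l then c i else 0) *
        (if k j = l then c j else 0) =
        ∑ i, ∑ j, ∑ l : Fin n, (if k i = l then c i else 0) * (if k j = l then c j else 0) := by
      rw [Finset.sum_comm]
      refine Finset.sum_congr rfl fun i _ => ?_
      rw [Finset.sum_comm]
    rw [h3]
    simp only [h2]
    rw [h7, ← Finset.sum_sub_distrib]
    refine Finset.sum_congr rfl fun i _ => ?_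
    rw [← Finset.sum_sub_distrib]
    refine Finset.sum_congr rfl fun j _ => ?_
    have h4 : ∑ l : Fin n, (if k i = l then c i else 0) * (if k j = l then c j else 0) =
        c i * c j * (if k j = k i then (1 : ℝ) else 0) := by
      rw [Finset.sum_eq_single (k i)]
      · simp only [if_true]
        split_ifs <;> simp
      · intro b _ hb
        rw [if_neg (Ne.symm hb)]
        simp
      · intro h
        exact absurd (Finset.mem_univ _) h
    rw [h4]
    ring
  rw [h1]
  have h5 : ∑ i, c i = ∑ l : Fin n, ∑ i, if k i = l then c i else 0 := by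
    rw [Finset.sum_comm]
    refine Finset.sum_congr rfl fun i _ => ?_
    simp
  have h6 := sq_sum_le_card_mul_sum_sq (s := (Finset.univ : Finset (Fin n)))
    (f := fun l => ∑ i, if k i = l then c i else 0)
  rw [← h5, Finset.card_univ, Fintype.card_fin] at h6
  have hn' : (0 : ℝ) < n := by exact_mod_cast hn
  rw [sub_nonneg, div_le_iff₀ hn', mul_comm]
  exact h6

theorem IsMean.aff {A : Type} [CommGroup A] {M : (A → ℝ) → ℝ} (h : IsMean M)
    {g : A → ℝ} {C : ℝ} (hC : 0 ≤ C) (hg : ∀ x, |g x| ≤ C) (b c : ℝ) :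
    M (fun x => b * (g x - c)) = b * (M g - c) := by
  have h1 := h.add g (fun _ => -c) (C + |c|)
    (fun x => (hg x).trans (le_add_of_nonneg_right (abs_nonneg _)))
    (fun x => by rw [abs_neg]; exact le_add_of_nonneg_left hC)
  have h2 := h.smul (fun x => g x + -c) (C + |c|) b
    (fun x => (abs_add_le _ _).trans (add_le_add (hg x) (by rw [abs_neg])))
  rw [h1, h.const] at h2
  simpa [sub_eq_add_neg] using h2

noncomputable def phi {n : ℕ} (c : K → Fin n) (Mx : (Multiplicative K → ℝ) → ℝ) (v : K) : ℝ :=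
  Mx (fun x => if c (x.toAdd + v) = c x.toAdd then 1 else 0) - 1 / n

theorem phi_sub {n : ℕ} (c : K → Fin n) {Mx : (Multiplicative K → ℝ) → ℝ} (h : IsMean Mx)
    (p q : K) : phi c Mx (p - q) =
      Mx (fun x => if c (x.toAdd + p) = c (x.toAdd + q) then 1 else 0) - 1 / n := by
  unfold phi
  rw [← h.inv (fun x => if c (x.toAdd + (p - q)) = c x.toAdd then 1 else 0) 1
    (Multiplicative.ofAdd q) (fun x => by split_ifs <;> simp)]
  congr 2
  funext x
  have e1 : (Multiplicative.ofAdd q * x).toAdd + (p - q) = x.toAdd + p := by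
    rw [toAdd_mul, toAdd_ofAdd]
    ring
  have e2 : (Multiplicative.ofAdd q * x).toAdd = x.toAdd + q := by
    rw [toAdd_mul, toAdd_ofAdd, add_comm]
  rw [e1, e2]

theorem phi_bound {n : ℕ} (hn : 0 < n) (c : K → Fin n) {Mx : (Multiplicative K → ℝ) → ℝ}
    (h : IsMean Mx) (v : K) : |phi c Mx v| ≤ 2 := by
  unfold phi
  have h1 : |Mx (fun x => if c (x.toAdd + v) = c x.toAdd then 1 else 0)| ≤ 1 :=
    h.bound zero_le_one (fun x => by split_ifs <;> simp)
  have hn' : (1 : ℝ) ≤ n := by exact_mod_cast hn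
  have h2 : |(1 : ℝ) / n| ≤ 1 := by
    rw [abs_of_nonneg (by positivity), div_le_one (by linarith)]
    exact hn'
  have h3 := abs_sub (Mx (fun x => if c (x.toAdd + v) = c x.toAdd then 1 else 0)) (1 / n)
  linarith

theorem phi_psd {n : ℕ} (hn : 0 < n) (c : K → Fin n) {Mx : (Multiplicative K → ℝ) → ℝ}
    (h : IsMean Mx) {m : ℕ} (y : Fin m → K) (a : Fin m → ℝ) :
    0 ≤ ∑ i, ∑ j, a i * a j * phi c Mx (y i - y j) := by
  have e1 : ∀ i j, a i * a j * phi c Mx (y i - y j) = Mx (fun x => a i * a j *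
      ((if c (x.toAdd + y i) = c (x.toAdd + y j) then (1 : ℝ) else 0) - 1 / n)) := by
    intro i j
    rw [h.aff zero_le_one (fun x => by split_ifs <;> simp), phi_sub c h]
  have hb : ∀ (i j : Fin m) (x : Multiplicative K), |a i * a j *
      ((if c (x.toAdd + y i) = c (x.toAdd + y j) then (1 : ℝ) else 0) - 1 / n)| ≤
      |a i * a j| * 2 := by
    intro i j x
    rw [abs_mul]
    refine mul_le_mul_of_nonneg_left ?_ (abs_nonneg _)
    have hn' : (1 : ℝ) ≤ n := by exact_mod_cast hn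
    have h2 : (0 : ℝ) ≤ 1 / n := by positivity
    have h3 : (1 : ℝ) / n ≤ 1 := by
      rw [div_le_one (by linarith)]
      exact hn'
    rw [abs_le]
    split_ifs <;> constructor <;> linarith
  have e2 : ∑ i, ∑ j, a i * a j * phi c Mx (y i - y j) = Mx (fun x => ∑ i, ∑ j, a i * a j *
      ((if c (x.toAdd + y i) = c (x.toAdd + y j) then (1 : ℝ) else 0) - 1 / n)) := by
    rw [h.sum Finset.univ (fun i x => ∑ j, a i * a j *
      ((if c (x.toAdd + y i) = c (x.toAdd + y j) then (1 : ℝ) else 0) - 1 / n))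
      (fun i => ∑ j, |a i * a j| * 2) (fun i x => (Finset.abs_sum_le_sum_abs _ _).trans
        (Finset.sum_le_sum fun j _ => hb i j x))]
    refine Finset.sum_congr rfl fun i _ => ?_
    rw [h.sum Finset.univ (fun j x => a i * a j *
      ((if c (x.toAdd + y i) = c (x.toAdd + y j) then (1 : ℝ) else 0) - 1 / n))
      (fun j => |a i * a j| * 2) (fun j x => hb i j x)]
    exact Finset.sum_congr rfl fun j _ => e1 i j
  rw [e2]
  refine h.nonneg _ (∑ i, ∑ j, |a i * a j| * 2) (fun x => ?_) (fun x => ?_)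
  · refine (Finset.abs_sum_le_sum_abs _ _).trans (Finset.sum_le_sum fun i _ => ?_)
    exact (Finset.abs_sum_le_sum_abs _ _).trans (Finset.sum_le_sum fun j _ => hb i j x)
  · have := quad hn (fun i => c (x.toAdd + y i)) a
    refine this.trans (le_of_eq ?_)
    refine Finset.sum_congr rfl fun i _ => Finset.sum_congr rfl fun j _ => ?_
    congr 2
    by_cases hc : c (x.toAdd + y i) = c (x.toAdd + y j)
    · rw [if_pos hc, if_pos hc.symm]
    · rw [if_neg hc, if_neg (Ne.symm hc)]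

noncomputable def FF {n : ℕ} (c : K → Fin n) (Mx : (Multiplicative K → ℝ) → ℝ)
    (Mt : (Kˣ → ℝ) → ℝ) (v : K) : ℝ :=
  Mt (fun t => phi c Mx (u t * v)) * (1 - 1 / (n : ℝ))⁻¹

theorem FF_pd {n : ℕ} (hn : 2 ≤ n) (c : K → Fin n) {Mx : (Multiplicative K → ℝ) → ℝ}
    {Mt : (Kˣ → ℝ) → ℝ} (hx : IsMean Mx) (ht : IsMean Mt) : IsPD (FF c Mx Mt) := by
  have hn' : (2 : ℝ) ≤ n := by exact_mod_cast hn
  have hn0 : 0 < n := by omega
  have hpos : (0 : ℝ) < 1 - 1 / n := by
    have : (1 : ℝ) / n ≤ 1 / 2 := one_div_le_one_div_of_le (by norm_num) hn'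
    linarith
  refine ⟨?_, ?_, ?_⟩
  · unfold FF
    have h1 : ∀ t : Kˣ, phi c Mx (u t * 0) = 1 - 1 / n := by
      intro t
      unfold phi
      rw [mul_zero]
      simp only [add_zero, if_true]
      rw [hx.one]
    simp only [h1]
    rw [ht.const, mul_inv_cancel₀ hpos.ne']
  · intro v w hvw
    unfold FF
    congr 1
    by_cases hw : w = 0
    · have hv : v = 0 := by
        rw [hw] at hvw
        have : ‖(v : ℂ)‖ = 0 := by rw [hvw]; simp
        exact Subtype.ext (norm_eq_zero.1 this)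
      rw [hv, hw]
    · have hw' : (w : ℂ) ≠ 0 := fun h => hw (Subtype.ext h)
      obtain ⟨s, hs⟩ := u_surj (v / w) (by
        rw [show (((v / w : K)) : ℂ) = (v : ℂ) / (w : ℂ) from rfl, norm_div, hvw,
          div_self (norm_ne_zero_iff.2 hw')])
      have h1 : v = u s * w := by rw [hs, div_mul_cancel₀ _ hw]
      have h2 := ht.inv (fun t => phi c Mx (u t * w)) 2 s (fun t => phi_bound hn0 c hx _)
      rw [← h2]
      congr 1
      funext t
      rw [u_mul, h1]
      congr 1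
      ring
  · intro m x a
    unfold FF
    have hb : ∀ (i j : Fin m) (t : Kˣ), |a i * a j * phi c Mx (u t * (x i - x j))| ≤
        |a i * a j| * 2 := by
      intro i j t
      rw [abs_mul]
      exact mul_le_mul_of_nonneg_left (phi_bound hn0 c hx _) (abs_nonneg _)
    have e1 : ∑ i, ∑ j, a i * a j * (Mt (fun t => phi c Mx (u t * (x i - x j))) *
        (1 - 1 / (n : ℝ))⁻¹) = Mt (fun t => ∑ i, ∑ j, a i * a j *
          phi c Mx (u t * (x i - x j))) * (1 - 1 / (n : ℝ))⁻¹ := by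
      rw [ht.sum Finset.univ (fun i t => ∑ j, a i * a j * phi c Mx (u t * (x i - x j)))
        (fun i => ∑ j, |a i * a j| * 2) (fun i t => (Finset.abs_sum_le_sum_abs _ _).trans
        (Finset.sum_le_sum fun j _ => hb i j t)), Finset.sum_mul]
      refine Finset.sum_congr rfl fun i _ => ?_
      rw [ht.sum Finset.univ (fun j t => a i * a j * phi c Mx (u t * (x i - x j)))
        (fun j => |a i * a j| * 2) (fun j t => hb i j t), Finset.sum_mul]
      refine Finset.sum_congr rfl fun j _ => ?_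
      rw [ht.smul _ 2 (a i * a j) (fun t => phi_bound hn0 c hx _)]
      ring
    rw [e1]
    refine mul_nonneg (ht.nonneg _ (∑ i, ∑ j, |a i * a j| * 2) (fun t => ?_) (fun t => ?_))
      (inv_nonneg.2 hpos.le)
    · refine (Finset.abs_sum_le_sum_abs _ _).trans (Finset.sum_le_sum fun i _ => ?_)
      exact (Finset.abs_sum_le_sum_abs _ _).trans (Finset.sum_le_sum fun j _ => hb i j t)
    · have := phi_psd hn0 c hx (fun i => u t * x i) a
      simpa only [mul_sub] using this

theorem FF_val {n : ℕ} (c : K → Fin n) {Mx : (Multiplicative K → ℝ) → ℝ}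
    {Mt : (Kˣ → ℝ) → ℝ} (hx : IsMean Mx) (ht : IsMean Mt) (v : K)
    (hv : ∀ x y : K, ‖((x - y : K) : ℂ)‖ = ‖(v : ℂ)‖ → c x ≠ c y) :
    FF c Mx Mt v = (-(1 / n)) * (1 - 1 / (n : ℝ))⁻¹ := by
  unfold FF
  have h1 : ∀ t : Kˣ, phi c Mx (u t * v) = -(1 / n) := by
    intro t
    unfold phi
    have h2 : ∀ x : Multiplicative K, ¬ c (x.toAdd + u t * v) = c x.toAdd := by
      intro x
      apply hv
      rw [add_sub_cancel_left, show (((u t * v : K)) : ℂ) = (u t : ℂ) * (v : ℂ) from rfl,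
        norm_mul, u_norm, one_mul]
    simp only [h2, if_false]
    rw [hx.const]
    ring
  simp only [h1]
  rw [ht.const]

theorem result_of_key (hM : ∀ (A : Type) [CommGroup A], HasMean A) (hkey : Key) (J : ℕ) :
    ∃ H : Finset ℝ, H.card = J ∧ (∀ h ∈ H, 0 < h) ∧
      ∀ (n : ℕ) (col : EuclideanSpace ℝ (Fin 2) → Fin n),
        (∀ x y, dist x y ∈ H → col x ≠ col y) → 2 ^ J ≤ n := by
  classical
  obtain ⟨h, hh0, hhi, hF⟩ := hkey J (1 / 2 ^ (J + 1)) (by positivity)
  refine ⟨Finset.univ.image (fun i => ((h i : ℚ) : ℝ)), ?_, ?_, ?_⟩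
  · rw [Finset.card_image_of_injective _ (fun i j hij => hhi (Rat.cast_injective hij))]
    simp
  · intro x hx
    simp only [Finset.mem_image, Finset.mem_univ, true_and] at hx
    obtain ⟨i, rfl⟩ := hx
    exact_mod_cast hh0 i
  · intro n col hcol
    have hn1 : 1 ≤ n := by
      have := (col 0).2
      omega
    rcases Nat.eq_zero_or_pos J with hJ | hJ
    · subst hJ
      simpa using hn1
    set P := Complex.orthonormalBasisOneI.repr with hP
    set c : K → Fin n := fun z => col (P (z : ℂ)) with hc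
    have hcK : ∀ i : Fin J, ∀ x y : K,
        ‖((x - y : K) : ℂ)‖ = ‖(((h i : ℚ) : K) : ℂ)‖ → c x ≠ c y := by
      intro i x y hxy
      apply hcol
      rw [Finset.mem_image]
      refine ⟨i, Finset.mem_univ _, ?_⟩
      rw [LinearIsometryEquiv.dist_map, dist_eq_norm]
      have e1 : (x : ℂ) - y = ((x - y : K) : ℂ) := rfl
      have e2 : (((h i : ℚ) : K) : ℂ) = ((h i : ℝ) : ℂ) := by simp
      rw [e1, hxy, e2, Complex.norm_real, Real.norm_of_nonneg (by exact_mod_cast (hh0 i).le)]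
    have hn2 : 2 ≤ n := by
      have h1 := hcK ⟨0, hJ⟩ (((h ⟨0, hJ⟩ : ℚ) : K)) 0 (by rw [sub_zero])
      by_contra hlt
      apply h1
      have : n = 1 := by omega
      subst this
      exact Subsingleton.elim _ _
    obtain ⟨Mx, x1, x2, x3, x4, x5⟩ := hM (Multiplicative K)
    obtain ⟨Mt, t1, t2, t3, t4, t5⟩ := hM Kˣ
    have hx : IsMean Mx := ⟨x1, x2, x3, x4, x5⟩
    have ht : IsMean Mt := ⟨t1, t2, t3, t4, t5⟩
    have hk := hF (FF c Mx Mt) (FF_pd hn2 c hx ht)
    have hval : ∀ i : Fin J, FF c Mx Mt ((h i : ℚ) : K) = (-(1 / n)) * (1 - 1 / (n : ℝ))⁻¹ :=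
      fun i => FF_val c hx ht _ (hcK i)
    simp only [hval] at hk
    rw [← Finset.sum_mul] at hk
    have hgeo : ∑ i : Fin J, (2 : ℝ) ^ (i : ℕ) = 2 ^ J - 1 := by
      rw [Fin.sum_univ_eq_sum_range (fun i => (2 : ℝ) ^ i), geom_sum_eq (by norm_num)]
      norm_num
    rw [hgeo] at hk
    have hn' : (2 : ℝ) ≤ n := by exact_mod_cast hn2
    have e3 : (-(1 / (n : ℝ))) * (1 - 1 / (n : ℝ))⁻¹ = -(1 / ((n : ℝ) - 1)) := by
      have h1 : (n : ℝ) ≠ 0 := by linarith
      have h2 : (n : ℝ) - 1 ≠ 0 := by linarith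
      have h3 : (1 : ℝ) - 1 / n = (n - 1) / n := by field_simp
      rw [h3]
      field_simp
    rw [e3] at hk
    by_contra hlt
    have hlt' : (n : ℝ) + 1 ≤ 2 ^ J := by
      have : n + 1 ≤ 2 ^ J := by omega
      exact_mod_cast this
    have hpos : (0 : ℝ) < (n : ℝ) - 1 := by linarith
    have h5 : ((2 : ℝ) ^ J - 1) / ((n : ℝ) - 1) ≤ 1 + 1 / 2 ^ (J + 1) := by
      have e4 : ((2 : ℝ) ^ J - 1) * -(1 / ((n : ℝ) - 1)) = -(((2 : ℝ) ^ J - 1) / ((n : ℝ) - 1)) := by
        ring
      rw [e4] at hk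
      linarith
    rw [div_le_iff₀ hpos] at h5
    have h6 : (1 : ℝ) / 2 ^ (J + 1) * ((n : ℝ) - 1) < 1 := by
      rw [div_mul_eq_mul_div, one_mul, div_lt_one (by positivity), pow_succ]
      have : (0 : ℝ) < 2 ^ J := by positivity
      linarith
    nlinarith
end A2
export A2 (result_of_key)
end Pool.Agent.Helper378.PD
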