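import Pool.Agent.Helper378.PD.Base
set_option autoImplicit false
open MeasureTheory
namespace Pool.Agent.Helper378.PD
namespace B1
theorem krein_milman_reduction (J : ℕ) (v : Fin J → K) (c : Fin J → ℝ) (C : ℝ)
    (h : ∀ F ∈ Set.extremePoints ℝ {F : K → ℝ | IsPD F}, C ≤ ∑ i, c i * F (v i))
    (F : K → ℝ) (hF : IsPD F) : C ≤ ∑ i, c i * F (v i) := by
  have hconv : Convex ℝ {F : K → ℝ | IsPD F} := by
    intro F hF G hG a b ha hb hab
    have hF' : IsPD F := hF
    have hG' : IsPD G := hG
    show IsPD (a • F + b • G)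
    refine ⟨?_, ?_, ?_⟩
    · simp only [Pi.add_apply, Pi.smul_apply, smul_eq_mul, hF'.one, hG'.one]
      linarith
    · intro v w hvw
      simp only [Pi.add_apply, Pi.smul_apply, smul_eq_mul, hF'.rad v w hvw, hG'.rad v w hvw]
    · intro n x c
      have h1 := hF'.psd n x c
      have h2 := hG'.psd n x c
      have e : ∑ i, ∑ j, c i * c j * (a • F + b • G) (x i - x j) =
          a * (∑ i, ∑ j, c i * c j * F (x i - x j)) +
          b * (∑ i, ∑ j, c i * c j * G (x i - x j)) := by
        rw [Finset.mul_sum, Finset.mul_sum, ← Finset.sum_add_distrib]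
        refine Finset.sum_congr rfl fun i _ => ?_
        rw [Finset.mul_sum, Finset.mul_sum, ← Finset.sum_add_distrib]
        refine Finset.sum_congr rfl fun j _ => ?_
        simp only [Pi.add_apply, Pi.smul_apply, smul_eq_mul]
        ring
      rw [e]
      exact add_nonneg (mul_nonneg ha h1) (mul_nonneg hb h2)
  have hbd : ∀ G : K → ℝ, IsPD G → ∀ v : K, G v ∈ Set.Icc (-1 : ℝ) 1 := by
    intro G hG v
    have hneg : G (-v) = G v := hG.rad _ _ (by simp)
    have h1 := hG.psd 2 ![0, v] ![1, 1]
    have h2 := hG.psd 2 ![0, v] ![1, -1]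
    simp only [Fin.sum_univ_two, Matrix.cons_val_zero, Matrix.cons_val_one, sub_self, zero_sub,
      sub_zero, hG.one, hneg] at h1 h2
    constructor
    · linarith
    · linarith
  have hclosed : IsClosed {F : K → ℝ | IsPD F} := by
    have h1 : IsClosed {F : K → ℝ | F 0 = 1} := isClosed_eq (continuous_apply 0) continuous_const
    have h2 : ∀ v w : K, ‖(v : ℂ)‖ = ‖(w : ℂ)‖ → IsClosed {F : K → ℝ | F v = F w} :=
      fun v w _ => isClosed_eq (continuous_apply v) (continuous_apply w)
    have h3 : ∀ (n : ℕ) (x : Fin n → K) (c : Fin n → ℝ),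
        IsClosed {F : K → ℝ | 0 ≤ ∑ i, ∑ j, c i * c j * F (x i - x j)} := by
      intro n x c
      refine isClosed_le continuous_const ?_
      exact continuous_finsetSum _ fun i _ => continuous_finsetSum _ fun j _ =>
        continuous_const.mul (continuous_apply _)
    have hall : IsClosed ({F : K → ℝ | F 0 = 1} ∩
        ((⋂ v : K, ⋂ w : K, ⋂ _ : ‖(v : ℂ)‖ = ‖(w : ℂ)‖, {F : K → ℝ | F v = F w}) ∩
        (⋂ n : ℕ, ⋂ x : Fin n → K, ⋂ c : Fin n → ℝ,
          {F : K → ℝ | 0 ≤ ∑ i, ∑ j, c i * c j * F (x i - x j)}))) := by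
      refine h1.inter (IsClosed.inter ?_ ?_)
      · exact isClosed_iInter fun v => isClosed_iInter fun w => isClosed_iInter fun h => h2 v w h
      · exact isClosed_iInter fun n => isClosed_iInter fun x => isClosed_iInter fun c => h3 n x c
    convert hall using 1
    ext G
    constructor
    · intro hG
      have hG' : IsPD G := hG
      refine ⟨hG'.one, ?_, ?_⟩
      · simp only [Set.mem_iInter]
        exact fun v w h => hG'.rad v w h
      · simp only [Set.mem_iInter]
        exact fun n x c => hG'.psd n x c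
    · rintro ⟨g1, g2, g3⟩
      simp only [Set.mem_iInter] at g2 g3
      exact ⟨g1, fun v w h => g2 v w h, fun n x c => g3 n x c⟩
  have hcomp : IsCompact {F : K → ℝ | IsPD F} := by
    have h1 : IsCompact (Set.pi Set.univ (fun _ : K => Set.Icc (-1 : ℝ) 1)) :=
      isCompact_univ_pi fun _ => isCompact_Icc
    refine h1.of_isClosed_subset hclosed ?_
    intro G hG v _
    exact hbd G hG v
  have hKM := closure_convexHull_extremePoints hcomp hconv
  have hHclosed : IsClosed {F : K → ℝ | C ≤ ∑ i, c i * F (v i)} :=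
    isClosed_le continuous_const
      (continuous_finsetSum _ fun i _ => continuous_const.mul (continuous_apply _))
  have hHconv : Convex ℝ {F : K → ℝ | C ≤ ∑ i, c i * F (v i)} := by
    intro F hF G hG a b ha hb hab
    have hF' : C ≤ ∑ i, c i * F (v i) := hF
    have hG' : C ≤ ∑ i, c i * G (v i) := hG
    show C ≤ ∑ i, c i * (a • F + b • G) (v i)
    have e : ∑ i, c i * (a • F + b • G) (v i) =
        a * (∑ i, c i * F (v i)) + b * (∑ i, c i * G (v i)) := by
      rw [Finset.mul_sum, Finset.mul_sum, ← Finset.sum_add_distrib]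
      refine Finset.sum_congr rfl fun i _ => ?_
      simp only [Pi.add_apply, Pi.smul_apply, smul_eq_mul]
      ring
    rw [e]
    have e2 : C = a * C + b * C := by rw [← add_mul, hab, one_mul]
    rw [e2]
    exact add_le_add (mul_le_mul_of_nonneg_left hF' ha) (mul_le_mul_of_nonneg_left hG' hb)
  have hsub : {F : K → ℝ | IsPD F} ⊆ {F : K → ℝ | C ≤ ∑ i, c i * F (v i)} := by
    rw [← hKM]
    refine closure_minimal ?_ hHclosed
    exact convexHull_min (fun G hG => h G hG) hHconv
  exact hsub hF

end B1
export B1 (krein_milman_reduction)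
end Pool.Agent.Helper378.PD
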