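import Pool.Agent.Helper378.PD.Base
set_option autoImplicit false
open MeasureTheory
namespace Pool.Agent.Helper378.PD
namespace B2
/-- invariant mean, bundled -/
structure IsMean {A : Type} [CommGroup A] (M : (A → ℝ) → ℝ) : Prop where
  add : ∀ (f g : A → ℝ) (C : ℝ), (∀ x, |f x| ≤ C) → (∀ x, |g x| ≤ C) →
      M (fun x => f x + g x) = M f + M g
  smul : ∀ (f : A → ℝ) (C c : ℝ), (∀ x, |f x| ≤ C) → M (fun x => c * f x) = c * M f
  pos : ∀ (f : A → ℝ) (C : ℝ), (∀ x, |f x| ≤ C) → (∀ x, 0 ≤ f x) → 0 ≤ M f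
  one : M (fun _ => 1) = 1
  inv : ∀ (f : A → ℝ) (C : ℝ) (a : A), (∀ x, |f x| ≤ C) → M (fun x => f (a * x)) = M f

section mean

variable {A : Type} [CommGroup A] {M : (A → ℝ) → ℝ}

theorem IsMean.const (hM : IsMean M) (c : ℝ) : M (fun _ => c) = c := by
  have h := hM.smul (fun _ => 1) 1 c (fun _ => by simp)
  rw [hM.one, mul_one] at h
  exact h

theorem IsMean.sum (hM : IsMean M) {ι : Type*} (s : Finset ι) (a : ι → ℝ) (f : ι → A → ℝ)
    (C : ℝ) (hf : ∀ k t, |f k t| ≤ C) :
    M (fun t => ∑ k ∈ s, a k * f k t) = ∑ k ∈ s, a k * M (f k) := by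
  classical
  induction s using Finset.induction_on with
  | empty =>
    simp only [Finset.sum_empty]
    exact hM.const 0
  | insert k s hk ih =>
    rw [Finset.sum_insert hk]
    have e : (fun t => ∑ k ∈ insert k s, a k * f k t) =
        fun t => (fun t => a k * f k t) t + (fun t => ∑ k ∈ s, a k * f k t) t := by
      funext t
      rw [Finset.sum_insert hk]
    have hC : ∀ t : A, 0 ≤ C := fun t => (abs_nonneg _).trans (hf k t)
    rw [e, hM.add _ _ (|a k| * C + ∑ k ∈ s, |a k| * C), ih, hM.smul _ C _ (hf k)]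
    · intro t
      have h1 : |a k * f k t| ≤ |a k| * C := by
        rw [abs_mul]
        exact mul_le_mul_of_nonneg_left (hf k t) (abs_nonneg _)
      have h2 : 0 ≤ ∑ k ∈ s, |a k| * C :=
        Finset.sum_nonneg fun i _ => mul_nonneg (abs_nonneg _) (hC t)
      linarith
    · intro t
      have h1 : |∑ k ∈ s, a k * f k t| ≤ ∑ k ∈ s, |a k| * C := by
        refine (Finset.abs_sum_le_sum_abs _ _).trans (Finset.sum_le_sum fun i _ => ?_)
        rw [abs_mul]
        exact mul_le_mul_of_nonneg_left (hf i t) (abs_nonneg _)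
      have h2 : 0 ≤ |a k| * C := mul_nonneg (abs_nonneg _) (hC t)
      linarith

theorem IsMean.exists_le (hM : IsMean M) (f : A → ℝ) (C : ℝ) (hf : ∀ x, |f x| ≤ C) (η : ℝ)
    (hη : 0 < η) : ∃ t, f t ≤ M f + η := by
  by_contra hcon
  push Not at hcon
  have h1 := hM.pos (fun t => f t + (-(M f + η))) (C + |M f + η|) (fun t => by
      refine (abs_add_le _ _).trans ?_
      rw [abs_neg]
      exact add_le_add (hf t) le_rfl) (fun t => by linarith [hcon t])
  have h2 := hM.add f (fun _ => -(M f + η)) (C + |M f + η|)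
    (fun t => (hf t).trans (by linarith [abs_nonneg (M f + η)]))
    (fun t => by
      rw [abs_neg]
      linarith [(abs_nonneg _).trans (hf t)])
  rw [hM.const] at h2
  rw [h2] at h1
  linarith

end mean

/-- the norm one element `conj t / t` -/
noncomputable def uu (t : Kˣ) : K :=
  ⟨(starRingEnd ℂ) ((t : K) : ℂ) / ((t : K) : ℂ), by
    apply K.div_mem
    · obtain ⟨a, b, h⟩ := (t : K).2
      exact ⟨a, -b, by rw [h]; simp⟩
    · exact (t : K).2⟩

theorem coe_uu (t : Kˣ) : ((uu t : K) : ℂ) =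
    (starRingEnd ℂ) ((t : K) : ℂ) / ((t : K) : ℂ) := rfl

theorem unit_ne (t : Kˣ) : ((t : K) : ℂ) ≠ 0 := by
  have := t.ne_zero
  exact_mod_cast this

theorem norm_uu (t : Kˣ) : ‖((uu t : K) : ℂ)‖ = 1 := by
  rw [coe_uu, norm_div, RCLike.norm_conj, div_self]
  rw [norm_ne_zero_iff]
  exact unit_ne t

theorem uu_mul (s t : Kˣ) : uu (s * t) = uu s * uu t := by
  apply Subtype.ext
  rw [Subfield.coe_mul, coe_uu, coe_uu, coe_uu, Units.val_mul, Subfield.coe_mul, map_mul,
    mul_div_mul_comm]

theorem exists_uu (r : K) (hr : ‖(r : ℂ)‖ = 1) : ∃ s : Kˣ, uu s = r := by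
  have hrr : (r : ℂ) * (starRingEnd ℂ) (r : ℂ) = 1 := by
    rw [Complex.mul_conj, Complex.normSq_eq_norm_sq, hr]
    norm_num
  by_cases h : (r : ℂ) = -1
  · have hI : Complex.I ∈ K := ⟨0, 1, by simp⟩
    have hI0 : (⟨Complex.I, hI⟩ : K) ≠ 0 := by
      intro h0
      have := congrArg (Subtype.val) h0
      exact Complex.I_ne_zero this
    refine ⟨Units.mk0 ⟨Complex.I, hI⟩ hI0, ?_⟩
    apply Subtype.ext
    rw [coe_uu, Units.val_mk0, h]
    show (starRingEnd ℂ) Complex.I / Complex.I = -1
    rw [Complex.conj_I, neg_div, div_self Complex.I_ne_zero]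
  · have hc : (starRingEnd ℂ) (r : ℂ) ∈ K := by
      obtain ⟨a, b, h⟩ := r.2
      exact ⟨a, -b, by rw [h]; simp⟩
    have h0 : (1 : ℂ) + (starRingEnd ℂ) (r : ℂ) ≠ 0 := by
      intro h0
      apply h
      have h1 : (starRingEnd ℂ) (r : ℂ) = -1 := by linear_combination h0
      have h2 := congrArg (starRingEnd ℂ) h1
      rw [Complex.conj_conj, map_neg, map_one] at h2
      exact h2
    have hs0 : (⟨1 + (starRingEnd ℂ) (r : ℂ), K.add_mem K.one_mem hc⟩ : K) ≠ 0 := by
      intro h1
      exact h0 (congrArg (Subtype.val) h1)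
    refine ⟨Units.mk0 _ hs0, ?_⟩
    apply Subtype.ext
    rw [coe_uu, Units.val_mk0]
    show (starRingEnd ℂ) (1 + (starRingEnd ℂ) (r : ℂ)) / (1 + (starRingEnd ℂ) (r : ℂ)) = (r : ℂ)
    rw [map_add, map_one, Complex.conj_conj, div_eq_iff h0]
    linear_combination -hrr

theorem IsPD.psd' {F : K → ℝ} (hF : ∀ (n : ℕ) (x : Fin n → K) (c : Fin n → ℝ),
    0 ≤ ∑ i, ∑ j, c i * c j * F (x i - x j)) {ι : Type} [Fintype ι] (x : ι → K) (c : ι → ℝ) :
    0 ≤ ∑ i, ∑ j, c i * c j * F (x i - x j) := by
  have e := Fintype.equivFin ι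
  have h := hF (Fintype.card ι) (x ∘ e.symm) (c ∘ e.symm)
  refine h.trans_eq ?_
  rw [← e.symm.sum_comp]
  refine Finset.sum_congr rfl fun i _ => ?_
  rw [← e.symm.sum_comp]
  rfl

/-- positive semidefinite functions -/
theorem psd_bound {F : K → ℝ} (hrad : ∀ v w : K, ‖(v : ℂ)‖ = ‖(w : ℂ)‖ → F v = F w)
    (hF : ∀ (n : ℕ) (x : Fin n → K) (c : Fin n → ℝ),
    0 ≤ ∑ i, ∑ j, c i * c j * F (x i - x j)) (x : K) : |F x| ≤ F 0 := by
  have hneg : F (-x) = F x := hrad _ _ (by simp)
  have h1 := hF 2 ![x, 0] ![1, 1]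
  have h2 := hF 2 ![x, 0] ![1, -1]
  simp only [Fin.sum_univ_two, Matrix.cons_val_zero, Matrix.cons_val_one, sub_self,
    sub_zero, zero_sub, hneg, one_mul, mul_one, Matrix.cons_val_fin_one, neg_mul, mul_neg,
    neg_neg] at h1 h2
  rw [abs_le]
  constructor <;> linarith

theorem extreme_mean_bound (hM : HasMean Kˣ) (F : K → ℝ)
    (hF : F ∈ Set.extremePoints ℝ {F : K → ℝ | IsPD F}) (v : K) (ε : ℝ) (hε : 0 < ε) :
    ∃ (n : ℕ) (b : Fin n → K), 0 < n ∧ (∀ i, ‖(b i : ℂ)‖ = 1) ∧
      ∑ i, ∑ j, F ((b i - b j) * v) ≤ (n : ℝ) ^ 2 * (F v ^ 2 + ε) := by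
  classical
  obtain ⟨M, m1, m2, m3, m4, m5⟩ := hM
  have hm : IsMean M := ⟨m1, m2, m3, m4, m5⟩
  have hPD : IsPD F := hF.1
  have hb : ∀ x, |F x| ≤ 1 := fun x => hPD.one ▸ psd_bound hPD.rad hPD.psd x
  obtain ⟨I', hI'⟩ := exists_uu (-1) (by simp)
  have hneg : ∀ t, uu (I' * t) = - uu t := fun t => by rw [uu_mul, hI']; ring
  set Fv : K → ℝ := fun x => M (fun t => F (x + uu t * v)) with hFv
  have hFvneg : ∀ x, M (fun t => F (x - uu t * v)) = Fv x := by
    intro x
    have h := hm.inv (fun t => F (x + uu t * v)) 1 I' (fun t => hb _)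
    show M (fun t => F (x - uu t * v)) = M (fun t => F (x + uu t * v))
    rw [← h]
    congr 1
    funext t
    rw [hneg]
    congr 1
    ring
  -- radial
  have hFvrad : ∀ x y : K, ‖(x : ℂ)‖ = ‖(y : ℂ)‖ → Fv x = Fv y := by
    intro x y hxy
    by_cases hy : y = 0
    · have hx : x = 0 := by
        rw [hy] at hxy
        have : (x : ℂ) = 0 := by
          rw [← norm_eq_zero, hxy]
          simp
        exact_mod_cast this
      rw [hx, hy]
    · have hyc : (y : ℂ) ≠ 0 := by exact_mod_cast hy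
      obtain ⟨s, hs⟩ := exists_uu (x / y) (by
        rw [Subfield.coe_div, norm_div, hxy, div_self]
        rw [norm_ne_zero_iff]
        exact hyc)
      have hxs : x = uu s * y := by
        rw [hs, div_mul_cancel₀ _ hy]
      have h := hm.inv (fun t => F (x + uu t * v)) 1 s (fun t => hb _)
      show M (fun t => F (x + uu t * v)) = M (fun t => F (y + uu t * v))
      rw [← h]
      congr 1
      funext t
      apply hPD.rad
      have e : x + uu (s * t) * v = uu s * (y + uu t * v) := by
        rw [uu_mul, hxs]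
        ring
      rw [e, Subfield.coe_mul, norm_mul, norm_uu, one_mul]
  have hFv0 : Fv 0 = F v := by
    show M (fun t => F (0 + uu t * v)) = F v
    have e : (fun t => F (0 + uu t * v)) = fun _ => F v := by
      funext t
      apply hPD.rad
      rw [zero_add, Subfield.coe_mul, norm_mul, norm_uu, one_mul]
    rw [e, hm.const]
  -- positive semidefiniteness
  have hG : ∀ σ : ℝ, σ ^ 2 = 1 → ∀ (n : ℕ) (x : Fin n → K) (c : Fin n → ℝ),
      0 ≤ ∑ i, ∑ j, c i * c j * (F (x i - x j) + σ * Fv (x i - x j)) := by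
    intro σ hσ n x c
    -- the form for fixed t
    have hpt : ∀ t : Kˣ, 0 ≤ ∑ i, ∑ j, c i * c j *
        (F (x i - x j) + σ * ((F (x i - x j + uu t * v) + F (x i - x j - uu t * v)) / 2)) := by
      intro t
      have h := IsPD.psd' hPD.psd (ι := Fin n ⊕ Fin n)
        (Sum.elim x (fun i => x i + uu t * v)) (Sum.elim c (fun i => σ * c i))
      simp only [Fintype.sum_sum_type, Sum.elim_inl, Sum.elim_inr] at h
      rw [← Finset.sum_add_distrib] at h
      have h' : (∑ i, ((∑ j, c i * c j * F (x i - x j) +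
            ∑ j, c i * (σ * c j) * F (x i - (x j + uu t * v))) +
          (∑ j, σ * c i * c j * F (x i + uu t * v - x j) +
            ∑ j, σ * c i * (σ * c j) * F (x i + uu t * v - (x j + uu t * v))))) =
          2 * ∑ i, ∑ j, c i * c j *
        (F (x i - x j) + σ * ((F (x i - x j + uu t * v) + F (x i - x j - uu t * v)) / 2)) := by
        rw [Finset.mul_sum]
        refine Finset.sum_congr rfl fun i _ => ?_
        rw [← Finset.sum_add_distrib, ← Finset.sum_add_distrib, ← Finset.sum_add_distrib,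
          Finset.mul_sum]
        refine Finset.sum_congr rfl fun j _ => ?_
        have e1 : x i - (x j + uu t * v) = x i - x j - uu t * v := by ring
        have e2 : x i + uu t * v - x j = x i - x j + uu t * v := by ring
        have e3 : x i + uu t * v - (x j + uu t * v) = x i - x j := by ring
        rw [e1, e2, e3]
        linear_combination (c i * c j * F (x i - x j)) * hσ
      rw [h'] at h
      linarith
    -- the mean of the form
    have hmean : M (fun t => ∑ p : Fin n × Fin n, (c p.1 * c p.2) *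
        (F (x p.1 - x p.2) + σ * ((F (x p.1 - x p.2 + uu t * v) +
          F (x p.1 - x p.2 - uu t * v)) / 2))) =
        ∑ p : Fin n × Fin n, (c p.1 * c p.2) * (F (x p.1 - x p.2) + σ * Fv (x p.1 - x p.2)) := by
      have hσ1 : |σ| = 1 := by
        rw [← Real.sqrt_sq_eq_abs, hσ, Real.sqrt_one]
      have hbb : ∀ (y z : K), |(F y + F z) / 2| ≤ 1 := by
        intro y z
        have a := abs_le.1 (hb y)
        have b := abs_le.1 (hb z)
        rw [abs_le]
        constructor <;> linarith
      rw [hm.sum Finset.univ (fun p : Fin n × Fin n => c p.1 * c p.2)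
        (fun p t => F (x p.1 - x p.2) + σ * ((F (x p.1 - x p.2 + uu t * v) +
          F (x p.1 - x p.2 - uu t * v)) / 2)) 2]
      · refine Finset.sum_congr rfl fun p _ => ?_
        congr 1
        rw [hm.add (fun _ => F (x p.1 - x p.2)) (fun t => σ * ((F (x p.1 - x p.2 + uu t * v) +
          F (x p.1 - x p.2 - uu t * v)) / 2)) 1 (fun _ => hb _), hm.const,
          hm.smul (fun t => ((F (x p.1 - x p.2 + uu t * v) +
          F (x p.1 - x p.2 - uu t * v)) / 2)) 1 σ (fun _ => hbb _ _)]
        · congr 2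
          have e : (fun t => ((F (x p.1 - x p.2 + uu t * v) +
              F (x p.1 - x p.2 - uu t * v)) / 2)) =
              fun t => (fun t => (1 / 2 : ℝ) * F (x p.1 - x p.2 + uu t * v)) t +
                (fun t => (1 / 2 : ℝ) * F (x p.1 - x p.2 - uu t * v)) t := by
            funext t
            ring
          have hhalf : ∀ y : K, |(1 / 2 : ℝ) * F y| ≤ 1 := by
            intro y
            have a := abs_le.1 (hb y)
            rw [abs_le]
            constructor <;> linarith
          rw [e, hm.add _ _ 1 (fun _ => hhalf _) (fun _ => hhalf _),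
            hm.smul _ 1 _ (fun _ => hb _), hm.smul _ 1 _ (fun _ => hb _), hFvneg]
          show 1 / 2 * Fv (x p.1 - x p.2) + 1 / 2 * Fv (x p.1 - x p.2) = Fv (x p.1 - x p.2)
          ring
        · intro t
          rw [abs_mul, hσ1, one_mul]
          exact hbb _ _
      · intro p t
        refine (abs_add_le _ _).trans ?_
        rw [abs_mul, hσ1, one_mul]
        linarith [hb (x p.1 - x p.2), hbb (x p.1 - x p.2 + uu t * v) (x p.1 - x p.2 - uu t * v)]
    rw [← Fintype.sum_prod_type' (f := fun i j => c i * c j *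
      (F (x i - x j) + σ * Fv (x i - x j))), ← hmean]
    refine hm.pos _ (∑ p : Fin n × Fin n, |c p.1 * c p.2| * 2) ?_ ?_
    · intro t
      refine (Finset.abs_sum_le_sum_abs _ _).trans (Finset.sum_le_sum fun p _ => ?_)
      rw [abs_mul]
      refine mul_le_mul_of_nonneg_left ?_ (abs_nonneg _)
      have hσ1 : |σ| = 1 := by
        rw [← Real.sqrt_sq_eq_abs, hσ, Real.sqrt_one]
      refine (abs_add_le _ _).trans ?_
      rw [abs_mul, hσ1, one_mul]
      have a := hb (x p.1 - x p.2)
      have b := abs_le.1 (hb (x p.1 - x p.2 + uu t * v))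
      have d := abs_le.1 (hb (x p.1 - x p.2 - uu t * v))
      have : |(F (x p.1 - x p.2 + uu t * v) + F (x p.1 - x p.2 - uu t * v)) / 2| ≤ 1 := by
        rw [abs_le]
        constructor <;> linarith
      linarith
    · intro t
      rw [Fintype.sum_prod_type]
      exact hpt t
  -- the product formula
  have hprod : ∀ x, Fv x = F v * F x := by
    have hGrad : ∀ σ : ℝ, ∀ x y : K, ‖(x : ℂ)‖ = ‖(y : ℂ)‖ →
        F x + σ * Fv x = F y + σ * Fv y := by
      intro σ x y h
      rw [hPD.rad x y h, hFvrad x y h]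
    have hv := abs_le.1 (hb v)
    intro x
    rcases eq_or_lt_of_le hv.2 with h1 | h1
    · have h := psd_bound (F := fun x => F x + (-1) * Fv x) (hGrad (-1)) (hG (-1) (by norm_num)) x
      simp only [hPD.one, hFv0, h1] at h
      have h' : F x + -1 * Fv x = 0 := by
        apply abs_eq_zero.1
        apply le_antisymm _ (abs_nonneg _)
        linarith
      rw [h1]
      linarith
    rcases eq_or_lt_of_le hv.1 with h2 | h2
    · have h := psd_bound (F := fun x => F x + 1 * Fv x) (hGrad 1) (hG 1 (by norm_num)) x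
      simp only [hPD.one, hFv0, ← h2] at h
      have h' : F x + 1 * Fv x = 0 := by
        apply abs_eq_zero.1
        apply le_antisymm _ (abs_nonneg _)
        linarith
      rw [← h2]
      linarith
    -- the generic case
    have hp : 0 < 1 + F v := by linarith
    have hq : 0 < 1 - F v := by linarith
    have mk : ∀ σ : ℝ, σ ^ 2 = 1 → 0 < 1 + σ * F v →
        IsPD (fun x => (1 + σ * F v)⁻¹ * (F x + σ * Fv x)) := by
      intro σ hσ hpos
      refine ⟨?_, ?_, ?_⟩
      · show (1 + σ * F v)⁻¹ * (F 0 + σ * Fv 0) = 1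
        rw [hPD.one, hFv0, inv_mul_cancel₀ hpos.ne']
      · intro a b hab
        show (1 + σ * F v)⁻¹ * (F a + σ * Fv a) = (1 + σ * F v)⁻¹ * (F b + σ * Fv b)
        rw [hGrad σ a b hab]
      · intro n x c
        have h := hG σ hσ n x c
        have e : ∑ i, ∑ j, c i * c j * ((1 + σ * F v)⁻¹ * (F (x i - x j) + σ * Fv (x i - x j))) =
            (1 + σ * F v)⁻¹ * ∑ i, ∑ j, c i * c j * (F (x i - x j) + σ * Fv (x i - x j)) := by
          rw [Finset.mul_sum]
          refine Finset.sum_congr rfl fun i _ => ?_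
          rw [Finset.mul_sum]
          refine Finset.sum_congr rfl fun j _ => ?_
          ring
        show 0 ≤ ∑ i, ∑ j, c i * c j * ((1 + σ * F v)⁻¹ * (F (x i - x j) + σ * Fv (x i - x j)))
        rw [e]
        exact mul_nonneg (inv_nonneg.2 hpos.le) h
    have ha := mk 1 (by norm_num) (by linarith)
    have hb' := mk (-1) (by norm_num) (by linarith)
    have hseg : F ∈ openSegment ℝ (fun x => (1 + 1 * F v)⁻¹ * (F x + 1 * Fv x))
        (fun x => (1 + (-1) * F v)⁻¹ * (F x + (-1) * Fv x)) := by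
      refine ⟨(1 + F v) / 2, (1 - F v) / 2, by linarith, by linarith, by ring, ?_⟩
      funext x
      show (1 + F v) / 2 * ((1 + 1 * F v)⁻¹ * (F x + 1 * Fv x)) +
        (1 - F v) / 2 * ((1 + (-1) * F v)⁻¹ * (F x + (-1) * Fv x)) = F x
      have e1 : (1 : ℝ) + 1 * F v = 1 + F v := by ring
      have e2 : (1 : ℝ) + (-1) * F v = 1 - F v := by ring
      rw [e1, e2]
      field_simp
      ring
    have hext := (mem_extremePoints.1 hF).2 _ ha _ hb' hseg
    have h := congrFun hext.1 x
    simp only [one_mul] at h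
    field_simp at h
    linarith
  -- step 2
  have hstep2 : ∀ b : K, ‖(b : ℂ)‖ = 1 → M (fun t => F ((b - uu t) * v)) = F v ^ 2 := by
    intro b hb1
    have e : (fun t => F ((b - uu t) * v)) = fun t => F (b * v - uu t * v) := by
      funext t
      rw [sub_mul]
    rw [e, hFvneg, hprod, sq]
    congr 1
    apply hPD.rad
    rw [Subfield.coe_mul, norm_mul, hb1, one_mul]
  have hstep3 : ∀ (n : ℕ) (b : Fin n → K), (∀ i, ‖(b i : ℂ)‖ = 1) → ∃ s : Kˣ,
      ∑ i, F ((b i - uu s) * v) ≤ (n : ℝ) * (F v ^ 2 + ε / 2) := by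
    intro n b hb1
    rcases Nat.eq_zero_or_pos n with hn | hn
    · subst hn
      exact ⟨1, by simp⟩
    have hn' : (0 : ℝ) < n := by exact_mod_cast hn
    have hs := hm.sum Finset.univ (fun _ : Fin n => (1 : ℝ)) (fun i t => F ((b i - uu t) * v)) 1
      (fun _ _ => hb _)
    obtain ⟨s, hs'⟩ := hm.exists_le (fun t => ∑ i : Fin n, 1 * F ((b i - uu t) * v)) n
      (fun t => by
        refine (Finset.abs_sum_le_sum_abs _ _).trans ?_
        refine (Finset.sum_le_sum (g := fun _ => (1 : ℝ)) fun i _ => ?_).trans ?_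
        · rw [one_mul]
          exact hb _
        · simp) (n * (ε / 2)) (by positivity)
    refine ⟨s, ?_⟩
    rw [hs] at hs'
    simp only [one_mul] at hs'
    refine hs'.trans_eq ?_
    rw [Finset.sum_congr rfl (fun i _ => hstep2 (b i) (hb1 i))]
    simp only [Finset.sum_const, Finset.card_univ, Fintype.card_fin, nsmul_eq_mul]
    ring
  have hgreedy : ∀ n : ℕ, ∃ b : Fin n → K, (∀ i, ‖(b i : ℂ)‖ = 1) ∧
      ∑ i, ∑ j, F ((b i - b j) * v) ≤ n + (n : ℝ) ^ 2 * (F v ^ 2 + ε / 2) := by
    intro n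
    induction n with
    | zero => exact ⟨fun i => 0, fun i => i.elim0, by simp⟩
    | succ n ih =>
      obtain ⟨b, hb1, hb2⟩ := ih
      obtain ⟨s, hs⟩ := hstep3 n b hb1
      refine ⟨Fin.cons (uu s) b, ?_, ?_⟩
      · intro i
        refine Fin.cases ?_ (fun i => ?_) i
        · exact norm_uu s
        · exact hb1 i
      · rw [Fin.sum_univ_succ]
        simp only [Fin.cons_zero, Fin.sum_univ_succ, Fin.cons_succ, sub_self, zero_mul, hPD.one]
        rw [Finset.sum_add_distrib]
        have hsym : ∑ i, F ((uu s - b i) * v) = ∑ i, F ((b i - uu s) * v) := by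
          refine Finset.sum_congr rfl fun i _ => ?_
          apply hPD.rad
          have : (uu s - b i) * v = -((b i - uu s) * v) := by ring
          rw [this]
          simp
        rw [hsym]
        push_cast
        have hc : 0 ≤ F v ^ 2 + ε / 2 := by positivity
        nlinarith
  obtain ⟨n, hn⟩ := exists_nat_gt (2 / ε)
  have hn0 : (0 : ℝ) < n := lt_trans (by positivity) hn
  obtain ⟨b, hb1, hb2⟩ := hgreedy n
  refine ⟨n, b, by exact_mod_cast hn0, hb1, hb2.trans ?_⟩
  have h1 : 2 < n * ε := by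
    rw [div_lt_iff₀ hε] at hn
    exact hn
  nlinarith

end B2
export B2 (extreme_mean_bound)
end Pool.Agent.Helper378.PD
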