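import Mathlib
set_option autoImplicit false
open MeasureTheory
namespace Pool.Agent.Helper378.PD

abbrev Gi := GaussianInt

/-- the field ℚ(i) inside ℂ -/
def K : Subfield ℂ where
  carrier := {z | ∃ a b : ℚ, z = (a : ℂ) + (b : ℂ) * Complex.I}
  mul_mem' := by
    rintro _ _ ⟨a, b, rfl⟩ ⟨c, d, rfl⟩
    refine ⟨a * c - b * d, a * d + b * c, ?_⟩
    push_cast
    linear_combination (b * d : ℂ) * Complex.I_sq
  one_mem' := ⟨1, 0, by simp⟩
  add_mem' := by
    rintro _ _ ⟨a, b, rfl⟩ ⟨c, d, rfl⟩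
    exact ⟨a + c, b + d, by push_cast; ring⟩
  zero_mem' := ⟨0, 0, by simp⟩
  neg_mem' := by
    rintro _ ⟨a, b, rfl⟩
    exact ⟨-a, -b, by push_cast; ring⟩
  inv_mem' := by
    rintro _ ⟨a, b, rfl⟩
    by_cases h : a ^ 2 + b ^ 2 = 0
    · have ha : a = 0 := by nlinarith [sq_nonneg a, sq_nonneg b]
      have hb : b = 0 := by nlinarith [sq_nonneg a, sq_nonneg b]
      exact ⟨0, 0, by simp [ha, hb]⟩
    · refine ⟨a / (a ^ 2 + b ^ 2), -b / (a ^ 2 + b ^ 2), ?_⟩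
      have h' : ((a : ℂ) ^ 2 + (b : ℂ) ^ 2) ≠ 0 := by exact_mod_cast h
      apply inv_eq_of_mul_eq_one_right
      push_cast
      field_simp
      linear_combination (-(b:ℂ)^2) * Complex.I_sq

/-- radial positive definite functions on ℚ(i), normalised -/
structure IsPD (F : K → ℝ) : Prop where
  one : F 0 = 1
  rad : ∀ v w : K, ‖(v : ℂ)‖ = ‖(w : ℂ)‖ → F v = F w
  psd : ∀ (n : ℕ) (x : Fin n → K) (c : Fin n → ℝ), 0 ≤ ∑ i, ∑ j, c i * c j * F (x i - x j)

/-- an invariant mean on a commutative group -/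
def HasMean (A : Type) [CommGroup A] : Prop :=
  ∃ M : (A → ℝ) → ℝ,
    (∀ (f g : A → ℝ) (C : ℝ), (∀ x, |f x| ≤ C) → (∀ x, |g x| ≤ C) →
      M (fun x => f x + g x) = M f + M g) ∧
    (∀ (f : A → ℝ) (C c : ℝ), (∀ x, |f x| ≤ C) → M (fun x => c * f x) = c * M f) ∧
    (∀ (f : A → ℝ) (C : ℝ), (∀ x, |f x| ≤ C) → (∀ x, 0 ≤ f x) → 0 ≤ M f) ∧
    M (fun _ => 1) = 1 ∧
    (∀ (f : A → ℝ) (C : ℝ) (a : A), (∀ x, |f x| ≤ C) → M (fun x => f (a * x)) = M f)

/-- the key inequality -/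
def Key : Prop := ∀ (J : ℕ) (ε : ℝ), 0 < ε → ∃ h : Fin J → ℚ, (∀ i, 0 < h i) ∧
  Function.Injective h ∧ ∀ F : K → ℝ, IsPD F →
    -(1 + ε) ≤ ∑ i : Fin J, (2 : ℝ) ^ (i : ℕ) * F ((h i : ℚ) : K)

abbrev T2 := AddCircle (1:ℝ) × AddCircle (1:ℝ)

noncomputable instance instSMulGi : SMul Gi T2 :=
  ⟨fun z t => (z.re • t.1 - z.im • t.2, z.im • t.1 + z.re • t.2)⟩

theorem smul_def (z : Gi) (t : T2) : z • t = (z.re • t.1 - z.im • t.2, z.im • t.1 + z.re • t.2) := rfl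

noncomputable instance instModGi : Module Gi T2 where
  one_smul t := by
    rw [smul_def]; ext <;> simp
  mul_smul z w t := by
    rw [smul_def, smul_def, smul_def]
    ext
    · simp only [Zsqrtd.re_mul, Zsqrtd.im_mul]
      module
    · simp only [Zsqrtd.re_mul, Zsqrtd.im_mul]
      module
  smul_zero z := by
    rw [smul_def]; ext <;> simp
  smul_add z s t := by
    rw [smul_def, smul_def, smul_def]; ext
    · simp only [Prod.fst_add, Prod.snd_add]; module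
    · simp only [Prod.fst_add, Prod.snd_add]; module
  add_smul z w t := by
    rw [smul_def, smul_def, smul_def]; ext
    · simp only [Zsqrtd.re_add, Zsqrtd.im_add, Prod.fst_add]; module
    · simp only [Zsqrtd.re_add, Zsqrtd.im_add, Prod.snd_add]; module
  zero_smul t := by
    rw [smul_def]; ext <;> simp

/-- the basic character of the torus -/
noncomputable def E (t : T2) : ℂ := (AddCircle.toCircle t.1 : ℂ)

/-- radial positive definite data: `a D w` is the value of the function at `w / D` -/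
structure Rad (a : Gi → Gi → ℝ) : Prop where
  zero : ∀ D, D ≠ 0 → a D 0 = 1
  norm : ∀ D D' w w' : Gi, D ≠ 0 → D' ≠ 0 → w.norm * D'.norm = w'.norm * D.norm → a D w = a D' w'
  psd : ∀ D, D ≠ 0 → ∀ (n : ℕ) (x : Fin n → Gi) (c : Fin n → ℝ),
    0 ≤ ∑ i, ∑ j, c i * c j * a D (x i - x j)
  supp : ∀ D w, D ≠ 0 → 4 * D.norm ≤ w.norm → a D w = 0

/-- all Gaussian integers with both coordinates of absolute value at most `R` -/
noncomputable def box (R : ℕ) : Finset Gi :=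
  (Finset.Icc (-(R:ℤ)) R ×ˢ Finset.Icc (-(R:ℤ)) R).image (fun p => (⟨p.1, p.2⟩ : Gi))

/-- the density of level `D` -/
noncomputable def f (a : Gi → Gi → ℝ) (D : Gi) (t : T2) : ℝ :=
  ∑ w ∈ box (2 * (D.re.natAbs + D.im.natAbs)), a D w * (E (w • t)).re

/-- the measure of level `D` -/
noncomputable def nu (a : Gi → Gi → ℝ) (D : Gi) : Measure T2 :=
  (volume : Measure T2).withDensity (fun t => ENNReal.ofReal (f a D t))

/-- entropy deficiency -/
noncomputable def dd (a : Gi → Gi → ℝ) (D : Gi) : ℝ :=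
  Real.log D.norm - ∫ t, f a D t * Real.log (f a D t)


/-- Gaussian integers inside ℚ(i) -/
def toK (w : Gi) : K := ⟨GaussianInt.toComplex w, (w.re : ℚ), (w.im : ℚ), by
  simp [GaussianInt.toComplex_def]⟩

/-- the lens function: normalised area of the intersection of two unit discs -/
noncomputable def lens (v : ℂ) : ℝ :=
  (volume (Metric.ball (0:ℂ) 1 ∩ Metric.ball v 1)).toReal / (volume (Metric.ball (0:ℂ) 1)).toReal

/-- windowed values -/
noncomputable def aOf (F : K → ℝ) (D w : Gi) : ℝ := F (toK w / toK D) * lens ((toK w / toK D : K) : ℂ)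

/-- the Gaussian prime above 5 -/
def pp : Gi := ⟨2, 1⟩

/-- `UU A a` is `P * conj (5 a + i) / (5 a + i)` with `P = ∏_{b < A} (25 b ^ 2 + 1)` -/
def UU (A a : ℕ) : Gi :=
  (⟨5 * a, -1⟩ : Gi) ^ 2 * (∏ b ∈ (Finset.range A).erase a, ((25 * b ^ 2 + 1 : ℕ) : Gi))

/-- the averaging property of extreme functions -/
def EB (F : K → ℝ) : Prop := ∀ (v : K) (ε : ℝ), 0 < ε → ∃ (n : ℕ) (b : Fin n → K), 0 < n ∧
  (∀ i, ‖(b i : ℂ)‖ = 1) ∧ ∑ i, ∑ j, F ((b i - b j) * v) ≤ (n : ℝ) ^ 2 * (F v ^ 2 + ε)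


/-- torsion point of order at most M -/
def Tor (M : ℕ) (α : T2) : Prop := ∃ k : ℕ, 1 ≤ k ∧ k ≤ M ∧ (k : ℤ) • α = 0

/-- the torsion point is coprime to z -/
def Cop (z : Gi) (α : T2) : Prop := ∃ y : Gi, y • (z • α) = α

/-- points near a torsion point of small order -/
def SS (M : ℕ) (ρ : ℝ) : Set T2 := {t | ∃ α, Tor M α ∧ ‖t - α‖ ≤ ρ}

/-- points near a torsion point of small order coprime to z -/
def AA (z : Gi) (M : ℕ) (ρ : ℝ) : Set T2 := {t | ∃ α, Tor M α ∧ Cop z α ∧ ‖t - α‖ ≤ ρ}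

/-- a bound for the norm of multiplication by z -/
noncomputable def cz (z : Gi) : ℝ := ((z.re.natAbs + z.im.natAbs : ℕ) : ℝ)

/-- projection of the plane onto the torus -/
noncomputable def proj (e : ℂ) : T2 := ((e.re : AddCircle (1:ℝ)), (e.im : AddCircle (1:ℝ)))

/-- the arithmetic phase: `y m` is an inverse of `m ^ 2 + Y ^ 2` modulo `κ` -/
noncomputable def ph (κ : ℕ) (a1 a2 : ℤ) (Y : ℕ) (y : ℕ → ℤ) (m : ℕ) : ℂ :=
  Complex.exp (2 * Real.pi * Complex.I *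
    (((y m * (((m:ℤ) ^ 2 - (Y:ℤ) ^ 2) * a1 + 2 * (m:ℤ) * (Y:ℤ) * a2) : ℤ) : ℂ) / (κ : ℂ)))

/-- the archimedean phase -/
noncomputable def GG (T : ℂ) (x : ℝ) : ℂ :=
  Complex.exp (2 * Real.pi * Complex.I * (((T * ((x : ℂ) - Complex.I) / ((x : ℂ) + Complex.I)).re : ℝ) : ℂ))

end Pool.Agent.Helper378.PD
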