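import Pool.Agent.Helper378.PD.Base
set_option autoImplicit false
open MeasureTheory
namespace Pool.Agent.Helper378.PD
namespace C1
theorem vb_pos : 0 < (volume (Metric.ball (0:ℂ) 1)).toReal := by
  apply ENNReal.toReal_pos
  · exact (Metric.measure_ball_pos volume (0:ℂ) one_pos).ne'
  · exact measure_ball_lt_top.ne

theorem lens_zero : lens 0 = 1 := by
  unfold lens
  rw [Set.inter_self, div_self vb_pos.ne']

theorem lens_nonneg (v : ℂ) : 0 ≤ lens v := by unfold lens; positivity

theorem lens_le_one (v : ℂ) : lens v ≤ 1 := by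
  unfold lens
  rw [div_le_one vb_pos]
  exact ENNReal.toReal_mono measure_ball_lt_top.ne (measure_mono Set.inter_subset_left)

theorem lens_eq_zero (v : ℂ) (hv : 2 ≤ ‖v‖) : lens v = 0 := by
  unfold lens
  have : Metric.ball (0:ℂ) 1 ∩ Metric.ball v 1 = ∅ := by
    apply Set.disjoint_iff_inter_eq_empty.1
    apply Metric.ball_disjoint_ball
    rw [dist_zero_left]; linarith
  rw [this]; simp

theorem lens_norm (v w : ℂ) (h : ‖v‖ = ‖w‖) : lens v = lens w := by
  by_cases hw : w = 0
  · subst hw
    rw [norm_zero, norm_eq_zero] at h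
    rw [h]
  have hv : v ≠ 0 := by
    rintro rfl
    rw [norm_zero] at h
    exact hw (norm_eq_zero.1 h.symm)
  have hc : ‖w / v‖ = 1 := by
    rw [norm_div, h, div_self (norm_ne_zero_iff.2 hw)]
  let c : Circle := ⟨w / v, by simpa [Submonoid.unitSphere] using hc⟩
  have he : rotation c v = w := by
    rw [rotation_apply]
    change (w / v) * v = w
    field_simp
  have h1 : (rotation c) ⁻¹' (Metric.ball 0 1 ∩ Metric.ball w 1) =
      Metric.ball 0 1 ∩ Metric.ball v 1 := by
    ext x
    simp only [Set.mem_preimage, Set.mem_inter_iff, Metric.mem_ball]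
    rw [← he, LinearIsometryEquiv.dist_map, dist_zero_right, dist_zero_right,
      LinearIsometryEquiv.norm_map]
  have h2 := (rotation c).measurePreserving.measure_preimage
    (s := Metric.ball 0 1 ∩ Metric.ball w 1)
    (Metric.isOpen_ball.measurableSet.inter Metric.isOpen_ball.measurableSet).nullMeasurableSet
  unfold lens
  rw [← h1, h2]

theorem lens_ge (v : ℂ) : 1 - lens v ≤ 2 * ‖v‖ := by
  by_cases hv : 1 ≤ ‖v‖
  · have := lens_nonneg v; linarith
  · push Not at hv
    have h1 : Metric.ball (0:ℂ) (1 - ‖v‖) ⊆ Metric.ball (0:ℂ) 1 ∩ Metric.ball v 1 := by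
      intro x hx
      rw [Metric.mem_ball, dist_zero_right] at hx
      refine ⟨?_, ?_⟩
      · rw [Metric.mem_ball, dist_zero_right]; linarith [norm_nonneg v]
      · rw [Metric.mem_ball, dist_eq_norm]
        linarith [norm_sub_le x v]
    have h2 : (volume (Metric.ball (0:ℂ) (1 - ‖v‖))).toReal ≤
        (volume (Metric.ball (0:ℂ) 1 ∩ Metric.ball v 1)).toReal :=
      ENNReal.toReal_mono
        ((measure_mono Set.inter_subset_left).trans_lt measure_ball_lt_top).ne (measure_mono h1)
    have hr : ∀ r : ℝ, 0 ≤ r → (volume (Metric.ball (0:ℂ) r)).toReal = r ^ 2 * Real.pi := by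
      intro r hr
      rw [Complex.volume_ball]
      simp [ENNReal.toReal_ofReal hr]
    have h5 : (1 - ‖v‖)^2 ≤ lens v := by
      unfold lens
      rw [le_div_iff₀ vb_pos, hr 1 zero_le_one]
      rw [hr _ (by linarith)] at h2
      linarith
    nlinarith [norm_nonneg v, sq_nonneg ‖v‖]

theorem lens_int (z z' : ℂ) :
    lens (z - z') * (volume (Metric.ball (0:ℂ) 1)).toReal =
      ∫ s, (Metric.ball z 1).indicator (fun _ => (1:ℝ)) s *
        (Metric.ball z' 1).indicator (fun _ => (1:ℝ)) s := by
  have h1 : (fun s => (Metric.ball z 1).indicator (fun _ => (1:ℝ)) s *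
        (Metric.ball z' 1).indicator (fun _ => (1:ℝ)) s) =
      (Metric.ball z 1 ∩ Metric.ball z' 1).indicator (fun _ => (1:ℝ)) := by
    funext s
    by_cases h1 : s ∈ Metric.ball z 1 <;> by_cases h2 : s ∈ Metric.ball z' 1 <;>
      simp [Set.indicator, h1, h2]
  rw [h1]
  have h2 : MeasurableSet (Metric.ball z 1 ∩ Metric.ball z' 1) :=
    Metric.isOpen_ball.measurableSet.inter Metric.isOpen_ball.measurableSet
  rw [integral_indicator h2]
  simp only [integral_const, MeasurableSet.univ, measureReal_restrict_apply, Set.univ_inter,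
    smul_eq_mul, mul_one]
  unfold lens
  rw [div_mul_cancel₀ _ vb_pos.ne']
  have h3 := measure_preimage_add_right volume (-z') (Metric.ball (0:ℂ) 1 ∩ Metric.ball (z - z') 1)
  have h4 : (fun h => h + -z') ⁻¹' (Metric.ball (0:ℂ) 1 ∩ Metric.ball (z - z') 1) =
      Metric.ball z 1 ∩ Metric.ball z' 1 := by
    ext x
    simp only [Set.mem_preimage, Set.mem_inter_iff, Metric.mem_ball, dist_eq_norm]
    have e1 : x + -z' - 0 = x - z' := by ring
    have e2 : x + -z' - (z - z') = x - z := by ring
    rw [e1, e2]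
    exact and_comm
  rw [← h3, h4]
  rfl

theorem ind_integrable (z z' : ℂ) :
    Integrable (fun s => (Metric.ball z 1).indicator (fun _ => (1:ℝ)) s *
        (Metric.ball z' 1).indicator (fun _ => (1:ℝ)) s) := by
  have h1 : (fun s => (Metric.ball z 1).indicator (fun _ => (1:ℝ)) s *
        (Metric.ball z' 1).indicator (fun _ => (1:ℝ)) s) =
      (Metric.ball z 1 ∩ Metric.ball z' 1).indicator (fun _ => (1:ℝ)) := by
    funext s
    by_cases h1 : s ∈ Metric.ball z 1 <;> by_cases h2 : s ∈ Metric.ball z' 1 <;>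
      simp [Set.indicator, h1, h2]
  rw [h1]
  have h2 : MeasurableSet (Metric.ball z 1 ∩ Metric.ball z' 1) :=
    Metric.isOpen_ball.measurableSet.inter Metric.isOpen_ball.measurableSet
  rw [integrable_indicator_iff h2]
  have h3 : volume (Metric.ball z 1 ∩ Metric.ball z' 1) ≠ ⊤ :=
    ((measure_mono Set.inter_subset_left).trans_lt measure_ball_lt_top).ne
  have h4 : ‖(1:ℝ)‖ₑ ≠ ⊤ := by simp
  exact integrableOn_const (C := (1:ℝ)) (hs := h3) (hC := h4)

theorem psd_window (F : K → ℝ) (hF : IsPD F) (n : ℕ) (y : Fin n → K) (c : Fin n → ℝ) :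
    0 ≤ ∑ i, ∑ j, c i * c j * (F (y i - y j) * lens ((y i - y j : K) : ℂ)) := by
  have hV := vb_pos
  have key : (∑ i, ∑ j, c i * c j * (F (y i - y j) * lens ((y i - y j : K) : ℂ))) *
      (volume (Metric.ball (0:ℂ) 1)).toReal =
      ∫ s, ∑ i, ∑ j, (c i * (Metric.ball (y i : ℂ) 1).indicator (fun _ => (1:ℝ)) s) *
        (c j * (Metric.ball (y j : ℂ) 1).indicator (fun _ => (1:ℝ)) s) * F (y i - y j) := by
    rw [integral_finset_sum]
    · rw [Finset.sum_mul]
      refine Finset.sum_congr rfl fun i _ => ?_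
      rw [integral_finset_sum]
      · rw [Finset.sum_mul]
        refine Finset.sum_congr rfl fun j _ => ?_
        have e1 : (fun s => (c i * (Metric.ball (y i : ℂ) 1).indicator (fun _ => (1:ℝ)) s) *
            (c j * (Metric.ball (y j : ℂ) 1).indicator (fun _ => (1:ℝ)) s) * F (y i - y j)) =
            fun s => (c i * c j * F (y i - y j)) *
              ((Metric.ball (y i : ℂ) 1).indicator (fun _ => (1:ℝ)) s *
              (Metric.ball (y j : ℂ) 1).indicator (fun _ => (1:ℝ)) s) := by
          funext s; ring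
        rw [e1, integral_const_mul, ← lens_int]
        have e2 : ((y i - y j : K) : ℂ) = (y i : ℂ) - (y j : ℂ) := rfl
        rw [e2]
        ring
      · intro j _
        have e1 : (fun s => (c i * (Metric.ball (y i : ℂ) 1).indicator (fun _ => (1:ℝ)) s) *
            (c j * (Metric.ball (y j : ℂ) 1).indicator (fun _ => (1:ℝ)) s) * F (y i - y j)) =
            fun s => (c i * c j * F (y i - y j)) *
              ((Metric.ball (y i : ℂ) 1).indicator (fun _ => (1:ℝ)) s *
              (Metric.ball (y j : ℂ) 1).indicator (fun _ => (1:ℝ)) s) := by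
          funext s; ring
        rw [e1]
        exact (ind_integrable _ _).const_mul _
    · intro i _
      apply integrable_finset_sum
      intro j _
      have e1 : (fun s => (c i * (Metric.ball (y i : ℂ) 1).indicator (fun _ => (1:ℝ)) s) *
          (c j * (Metric.ball (y j : ℂ) 1).indicator (fun _ => (1:ℝ)) s) * F (y i - y j)) =
          fun s => (c i * c j * F (y i - y j)) *
            ((Metric.ball (y i : ℂ) 1).indicator (fun _ => (1:ℝ)) s *
            (Metric.ball (y j : ℂ) 1).indicator (fun _ => (1:ℝ)) s) := by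
        funext s; ring
      rw [e1]
      exact (ind_integrable _ _).const_mul _
  have h2 : 0 ≤ (∑ i, ∑ j, c i * c j * (F (y i - y j) * lens ((y i - y j : K) : ℂ))) *
      (volume (Metric.ball (0:ℂ) 1)).toReal := by
    rw [key]
    exact integral_nonneg fun s => hF.psd n y
      (fun i => c i * (Metric.ball (y i : ℂ) 1).indicator (fun _ => (1:ℝ)) s)
  exact nonneg_of_mul_nonneg_left h2 hV

theorem abs_F_le (F : K → ℝ) (hF : IsPD F) (v : K) : |F v| ≤ 1 := by
  have h1 : F (-v) = F v := hF.rad _ _ (by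
    have : ((-v : K) : ℂ) = -(v : ℂ) := rfl
    rw [this, norm_neg])
  have h2 := hF.psd 2 ![0, v] ![1, 1]
  have h3 := hF.psd 2 ![0, v] ![1, -1]
  simp [Fin.sum_univ_two, hF.one, h1] at h2 h3
  rw [abs_le]
  constructor <;> linarith

theorem norm_toC (w : Gi) : ‖GaussianInt.toComplex w‖ ^ 2 = (w.norm : ℝ) := by
  rw [GaussianInt.intCast_real_norm, Complex.normSq_eq_norm_sq]

theorem coe_toK_div (w D : Gi) :
    ((toK w / toK D : K) : ℂ) = GaussianInt.toComplex w / GaussianInt.toComplex D := rfl

theorem toC_ne (D : Gi) (hD : D ≠ 0) : 0 < ‖GaussianInt.toComplex D‖ := by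
  rw [norm_pos_iff]
  intro h
  exact hD (GaussianInt.toComplex_eq_zero.1 h)

theorem toK_sub (w w' : Gi) : toK (w - w') = toK w - toK w' := by
  apply Subtype.ext
  exact map_sub GaussianInt.toComplex w w'

theorem toK_zero : toK 0 = 0 := by
  apply Subtype.ext
  exact map_zero GaussianInt.toComplex

theorem window (F : K → ℝ) (hF : IsPD F) :
    Rad (aOf F) ∧ ∀ D w : Gi, D ≠ 0 →
      |aOf F D w - F (toK w / toK D)| ≤ 2 * ‖((toK w / toK D : K) : ℂ)‖ := by
  refine ⟨⟨?_, ?_, ?_, ?_⟩, ?_⟩
  · intro D _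
    unfold aOf
    rw [toK_zero, zero_div, hF.one]
    have : ((0 : K) : ℂ) = 0 := rfl
    rw [this, lens_zero, mul_one]
  · intro D D' w w' hD hD' hn
    have h1 : ‖((toK w / toK D : K) : ℂ)‖ = ‖((toK w' / toK D' : K) : ℂ)‖ := by
      rw [coe_toK_div, coe_toK_div, norm_div, norm_div,
        div_eq_div_iff (toC_ne D hD).ne' (toC_ne D' hD').ne']
      have h2 : (‖GaussianInt.toComplex w‖ * ‖GaussianInt.toComplex D'‖) ^ 2 =
          (‖GaussianInt.toComplex w'‖ * ‖GaussianInt.toComplex D‖) ^ 2 := by
        rw [mul_pow, mul_pow, norm_toC, norm_toC, norm_toC, norm_toC]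
        exact_mod_cast hn
      exact (pow_left_inj₀ (by positivity) (by positivity) two_ne_zero).1 h2
    unfold aOf
    rw [hF.rad _ _ h1, lens_norm _ _ h1]
  · intro D hD n x c
    have h1 := psd_window F hF n (fun i => toK (x i) / toK D) c
    have h2 : ∀ i j, aOf F D (x i - x j) = F (toK (x i) / toK D - toK (x j) / toK D) *
        lens ((toK (x i) / toK D - toK (x j) / toK D : K) : ℂ) := by
      intro i j
      unfold aOf
      rw [toK_sub, sub_div]
    simp only [h2]
    exact h1
  · intro D w hD hn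
    unfold aOf
    have h1 : 2 ≤ ‖((toK w / toK D : K) : ℂ)‖ := by
      rw [coe_toK_div, norm_div, le_div_iff₀ (toC_ne D hD)]
      have h2 : (2 * ‖GaussianInt.toComplex D‖) ^ 2 ≤ ‖GaussianInt.toComplex w‖ ^ 2 := by
        rw [mul_pow, norm_toC, norm_toC]
        have : (4 * D.norm : ℤ) ≤ w.norm := hn
        have h3 : ((4 * D.norm : ℤ) : ℝ) ≤ (w.norm : ℝ) := by exact_mod_cast this
        push_cast at h3
        linarith
      exact (pow_le_pow_iff_left₀ (by positivity) (by positivity) two_ne_zero).1 h2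
    rw [lens_eq_zero _ h1, mul_zero]
  · intro D w hD
    unfold aOf
    have h1 := abs_F_le F hF (toK w / toK D)
    have h2 := lens_ge ((toK w / toK D : K) : ℂ)
    have h3 := lens_le_one ((toK w / toK D : K) : ℂ)
    have h4 : F (toK w / toK D) * lens ((toK w / toK D : K) : ℂ) - F (toK w / toK D) =
        -(F (toK w / toK D) * (1 - lens ((toK w / toK D : K) : ℂ))) := by ring
    rw [h4, abs_neg, abs_mul, abs_of_nonneg (show 0 ≤ 1 - lens ((toK w / toK D : K) : ℂ) by linarith)]
    calc |F (toK w / toK D)| * (1 - lens ((toK w / toK D : K) : ℂ))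
        ≤ 1 * (1 - lens ((toK w / toK D : K) : ℂ)) :=
          mul_le_mul_of_nonneg_right h1 (by linarith)
      _ ≤ _ := by rw [one_mul]; exact h2

end C1
export C1 (window)
end Pool.Agent.Helper378.PD
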