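import Pool.Agent.Helper378.PD.Base
set_option autoImplicit false
open MeasureTheory
namespace Pool.Agent.Helper378.PD
namespace D1
/-! TARGETS -/

theorem E_zero : E 0 = 1 := by
  simp [E]

theorem E_add (s t : T2) : E (s + t) = E s * E t := by
  simp [E, AddCircle.toCircle_add]

theorem norm_E (t : T2) : ‖E t‖ = 1 := by
  simp [E]

theorem E_neg (t : T2) : E (-t) = (starRingEnd ℂ) (E t) := by
  simp only [E, Prod.fst_neg, AddCircle.toCircle_neg]
  exact Circle.coe_inv_eq_conj _

theorem continuous_E : Continuous E := by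
  unfold E
  exact (continuous_induced_dom : Continuous (fun z : Circle => (z : ℂ))).comp
    (AddCircle.continuous_toCircle.comp continuous_fst)

theorem continuous_smulGi (z : Gi) : Continuous (fun t : T2 => z • t) := by
  simp only [smul_def]
  fun_prop

theorem toCircle_half : ((AddCircle.toCircle (((1 / 2 : ℝ) : ℝ) : AddCircle (1 : ℝ)) : Circle) : ℂ) = -1 := by
  rw [AddCircle.toCircle_apply_mk, Circle.coe_exp]
  have : (((2 * Real.pi / 1 * (1 / 2) : ℝ) : ℂ)) = (Real.pi : ℂ) := by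
    push_cast
    ring
  rw [this]
  exact Complex.exp_pi_mul_I

theorem volT2_eq : (volume : Measure T2) =
    (volume : Measure (AddCircle (1:ℝ))).prod (volume : Measure (AddCircle (1:ℝ))) := rfl

instance isAddLeftInvariant_T2 : (volume : Measure T2).IsAddLeftInvariant := by
  rw [volT2_eq]
  infer_instance

instance isProb_T2 : IsProbabilityMeasure (volume : Measure T2) := by
  rw [volT2_eq]
  have : IsProbabilityMeasure (volume : Measure (AddCircle (1:ℝ))) :=
    ⟨by rw [AddCircle.measure_univ]; simp⟩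
  infer_instance

theorem integral_E (w : Gi) : ∫ t : T2, E (w • t) = if w = 0 then 1 else 0 := by
  split_ifs with hw
  · subst hw
    simp only [zero_smul, E_zero]
    simp
  · have hs : ∃ s : T2, E (w • s) = -1 := by
      by_cases hre : w.re = 0
      · have him : w.im ≠ 0 := by
          intro him
          apply hw
          ext
          · exact hre
          · exact him
        have himR : (w.im : ℝ) ≠ 0 := by exact_mod_cast him
        refine ⟨(0, (((1 / (2 * w.im) : ℝ)) : AddCircle (1 : ℝ))), ?_⟩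
        rw [smul_def, E]
        simp only [hre, zero_smul, zero_sub]
        rw [AddCircle.toCircle_neg, ← AddCircle.coe_zsmul]
        have : w.im • (1 / (2 * (w.im : ℝ))) = 1 / 2 := by
          rw [zsmul_eq_mul]
          field_simp
        rw [this, Circle.coe_inv, toCircle_half]
        norm_num
      · have hreR : (w.re : ℝ) ≠ 0 := by exact_mod_cast hre
        refine ⟨((((1 / (2 * w.re) : ℝ)) : AddCircle (1 : ℝ)), 0), ?_⟩
        rw [smul_def, E]
        simp only [smul_zero, sub_zero]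
        rw [← AddCircle.coe_zsmul]
        have : w.re • (1 / (2 * (w.re : ℝ))) = 1 / 2 := by
          rw [zsmul_eq_mul]
          field_simp
        rw [this, toCircle_half]
    obtain ⟨s, hs⟩ := hs
    have h1 : ∫ t : T2, E (w • (s + t)) = ∫ t : T2, E (w • t) :=
      integral_add_left_eq_self (fun t : T2 => E (w • t)) s
    have h2 : ∫ t : T2, E (w • (s + t)) = - ∫ t : T2, E (w • t) := by
      rw [← integral_neg]
      congr 1
      funext t
      rw [smul_add, E_add, hs]
      ring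
    have h3 : ∫ t : T2, E (w • t) = - ∫ t : T2, E (w • t) := by rw [← h2, h1]
    linear_combination (1 / 2 : ℂ) * h3

theorem norm_zsmul_le_aux (n : ℤ) (x : AddCircle (1 : ℝ)) : ‖n • x‖ ≤ (n.natAbs : ℝ) * ‖x‖ := by
  have h := norm_zsmul_le n x
  have h2 : ‖n‖ = (n.natAbs : ℝ) := by
    rw [Int.norm_eq_abs]
    rw [Nat.cast_natAbs, Int.cast_abs]
  rwa [h2] at h

theorem norm_smulGi_le (z : Gi) (t : T2) :
    ‖z • t‖ ≤ ((z.re.natAbs + z.im.natAbs : ℕ) : ℝ) * ‖t‖ := by
  rw [smul_def, Prod.norm_def]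
  have h1 : ‖t.1‖ ≤ ‖t‖ := norm_fst_le t
  have h2 : ‖t.2‖ ≤ ‖t‖ := norm_snd_le t
  have ha := norm_zsmul_le_aux z.re t.1
  have hb := norm_zsmul_le_aux z.im t.2
  have hc := norm_zsmul_le_aux z.im t.1
  have hd := norm_zsmul_le_aux z.re t.2
  have e1 : (z.re.natAbs : ℝ) * ‖t.1‖ ≤ (z.re.natAbs : ℝ) * ‖t‖ :=
    mul_le_mul_of_nonneg_left h1 (by positivity)
  have e2 : (z.im.natAbs : ℝ) * ‖t.2‖ ≤ (z.im.natAbs : ℝ) * ‖t‖ :=
    mul_le_mul_of_nonneg_left h2 (by positivity)
  have e3 : (z.im.natAbs : ℝ) * ‖t.1‖ ≤ (z.im.natAbs : ℝ) * ‖t‖ :=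
    mul_le_mul_of_nonneg_left h1 (by positivity)
  have e4 : (z.re.natAbs : ℝ) * ‖t.2‖ ≤ (z.re.natAbs : ℝ) * ‖t‖ :=
    mul_le_mul_of_nonneg_left h2 (by positivity)
  push_cast
  apply max_le
  · have := norm_sub_le (z.re • t.1) (z.im • t.2)
    show ‖z.re • t.1 - z.im • t.2‖ ≤ _
    nlinarith
  · have := norm_add_le (z.im • t.1) (z.re • t.2)
    show ‖z.im • t.1 + z.re • t.2‖ ≤ _
    nlinarith

theorem norm_toCircle_sub_one_le (x : AddCircle (1 : ℝ)) :
    ‖(AddCircle.toCircle x : ℂ) - 1‖ ≤ 2 * Real.pi * ‖x‖ := by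
  obtain ⟨r, rfl⟩ := QuotientAddGroup.mk_surjective x
  have hx : ((r - round r : ℝ) : AddCircle (1 : ℝ)) = (r : AddCircle (1 : ℝ)) := by
    rw [AddCircle.coe_sub]
    have : (((round r : ℤ) : ℝ) : AddCircle (1 : ℝ)) = 0 := by
      rw [AddCircle.coe_eq_zero_iff]
      exact ⟨round r, by simp⟩
    rw [this, sub_zero]
  have hn : ‖(r : AddCircle (1 : ℝ))‖ = |r - round r| := by
    rw [AddCircle.norm_eq]
    simp
  show ‖(AddCircle.toCircle (r : AddCircle (1 : ℝ)) : ℂ) - 1‖ ≤ 2 * Real.pi * ‖(r : AddCircle (1 : ℝ))‖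
  rw [hn, ← hx, AddCircle.toCircle_apply_mk, Circle.coe_exp]
  have h := Real.norm_exp_I_mul_ofReal_sub_one_le (x := 2 * Real.pi / 1 * (r - round r))
  rw [mul_comm Complex.I] at h
  refine h.trans ?_
  rw [Real.norm_eq_abs, abs_mul]
  have : |2 * Real.pi / 1| = 2 * Real.pi := by
    rw [div_one, abs_of_pos Real.two_pi_pos]
  rw [this]

theorem norm_E_sub_le (s t : T2) : ‖E s - E t‖ ≤ 2 * Real.pi * ‖s - t‖ := by
  have h1 : E s - E t = E t * (E (s - t) - 1) := by
    have : E s = E t * E (s - t) := by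
      rw [← E_add]
      congr 1
      abel
    rw [this]
    ring
  rw [h1, norm_mul, norm_E, one_mul]
  have h2 := norm_toCircle_sub_one_le (s - t).1
  have h3 : ‖(s - t).1‖ ≤ ‖s - t‖ := norm_fst_le _
  refine (show ‖E (s - t) - 1‖ ≤ _ from h2).trans ?_
  exact mul_le_mul_of_nonneg_left h3 Real.two_pi_pos.le

end D1
export D1 (E_zero E_add E_neg norm_E continuous_E continuous_smulGi integral_E norm_smulGi_le norm_E_sub_le)
end Pool.Agent.Helper378.PD
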