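import Pool.Agent.Helper378.PD.Base
import Pool.Agent.Helper378.PD.D1
set_option autoImplicit false
open MeasureTheory
namespace Pool.Agent.Helper378.PD
namespace D2
/-! TARGETS -/

open BoundedContinuousFunction

/-- the characters as bounded continuous functions -/
noncomputable def chi (w : Gi) : T2 →ᵇ ℂ :=
  BoundedContinuousFunction.ofNormedAddCommGroup (fun t => E (w • t))
    (continuous_E.comp (continuous_smulGi w)) 1 (fun t => (norm_E _).le)

theorem chi_apply (w : Gi) (t : T2) : chi w t = E (w • t) := rfl

theorem chi_mul (w w' : Gi) : chi w * chi w' = chi (w + w') := by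
  ext t
  rw [BoundedContinuousFunction.mul_apply, chi_apply, chi_apply, chi_apply, add_smul, E_add]

theorem chi_star (w : Gi) : star (chi w) = chi (-w) := by
  ext t
  rw [BoundedContinuousFunction.star_apply, chi_apply, chi_apply, neg_smul, E_neg]
  rfl

theorem chi_zero : chi 0 = 1 := by
  ext t
  rw [chi_apply, zero_smul, E_zero]
  rfl

/-- the trigonometric polynomials -/
noncomputable def trig : StarSubalgebra ℂ (T2 →ᵇ ℂ) where
  carrier := (Submodule.span ℂ (Set.range chi) : Set (T2 →ᵇ ℂ))
  mul_mem' := by
    intro a b ha hb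
    have h1 : ∀ w, ∀ b ∈ Submodule.span ℂ (Set.range chi),
        chi w * b ∈ Submodule.span ℂ (Set.range chi) := by
      intro w b hb
      induction hb using Submodule.span_induction with
      | mem x hx =>
        obtain ⟨w', rfl⟩ := hx
        rw [chi_mul]
        exact Submodule.subset_span ⟨_, rfl⟩
      | zero => rw [mul_zero]; exact Submodule.zero_mem _
      | add x y _ _ hx hy => rw [mul_add]; exact Submodule.add_mem _ hx hy
      | smul c x _ hx => rw [mul_smul_comm]; exact Submodule.smul_mem _ c hx
    have ha' : a ∈ Submodule.span ℂ (Set.range chi) := ha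
    have hb' : b ∈ Submodule.span ℂ (Set.range chi) := hb
    show a * b ∈ Submodule.span ℂ (Set.range chi)
    clear ha hb
    induction ha' using Submodule.span_induction with
    | mem x hx =>
      obtain ⟨w', rfl⟩ := hx
      exact h1 w' b hb'
    | zero => rw [zero_mul]; exact Submodule.zero_mem _
    | add x y _ _ hx hy => rw [add_mul]; exact Submodule.add_mem _ hx hy
    | smul c x _ hx => rw [smul_mul_assoc]; exact Submodule.smul_mem _ c hx
  one_mem' := by
    show (1 : T2 →ᵇ ℂ) ∈ Submodule.span ℂ (Set.range chi)
    rw [← chi_zero]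
    exact Submodule.subset_span ⟨_, rfl⟩
  add_mem' := fun ha hb => Submodule.add_mem _ ha hb
  zero_mem' := Submodule.zero_mem _
  algebraMap_mem' := by
    intro c
    show algebraMap ℂ (T2 →ᵇ ℂ) c ∈ Submodule.span ℂ (Set.range chi)
    rw [Algebra.algebraMap_eq_smul_one, ← chi_zero]
    exact Submodule.smul_mem _ c (Submodule.subset_span ⟨_, rfl⟩)
  star_mem' := by
    intro a ha
    have ha' : a ∈ Submodule.span ℂ (Set.range chi) := ha
    show star a ∈ Submodule.span ℂ (Set.range chi)
    clear ha
    induction ha' using Submodule.span_induction with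
    | mem x hx =>
      obtain ⟨w', rfl⟩ := hx
      rw [chi_star]
      exact Submodule.subset_span ⟨_, rfl⟩
    | zero => rw [star_zero]; exact Submodule.zero_mem _
    | add x y _ _ hx hy => rw [star_add]; exact Submodule.add_mem _ hx hy
    | smul c x _ hx => rw [star_smul]; exact Submodule.smul_mem _ _ hx

theorem chi_mem (w : Gi) : chi w ∈ trig := by
  show chi w ∈ Submodule.span ℂ (Set.range chi)
  exact Submodule.subset_span ⟨_, rfl⟩

theorem exists_sep {s t : T2} (hst : s ≠ t) : ∃ w, chi w s ≠ chi w t := by
  by_contra hc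
  push Not at hc
  apply hst
  have hinj := AddCircle.injective_toCircle (T := (1 : ℝ)) one_ne_zero
  have h1 := hc 1
  have h2 := hc ⟨0, 1⟩
  rw [chi_apply, chi_apply, one_smul, one_smul] at h1
  have e1 : s.1 = t.1 := hinj (Subtype.ext h1)
  have h3 : ((⟨0, 1⟩ : Gi) • s).1 = ((⟨0, 1⟩ : Gi) • t).1 := hinj (Subtype.ext h2)
  rw [smul_def, smul_def] at h3
  have e2 : s.2 = t.2 := by
    simpa using h3
  exact Prod.ext e1 e2

theorem measure_ext (μ ν : Measure T2) [IsFiniteMeasure μ] [IsFiniteMeasure ν]
    (h : ∀ w : Gi, ∫ t, E (w • t) ∂μ = ∫ t, E (w • t) ∂ν) : μ = ν := by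
  have hsep : (trig.map (toContinuousMapStarₐ ℂ)).SeparatesPoints := by
    intro s t hst
    obtain ⟨w, hw⟩ := exists_sep hst
    use chi w
    simp only [StarSubalgebra.coe_toSubalgebra, StarSubalgebra.coe_map, Set.mem_image,
      SetLike.mem_coe, exists_exists_and_eq_and, ne_eq]
    exact ⟨⟨chi w, chi_mem w, rfl⟩, hw⟩
  refine ext_of_forall_mem_subalgebra_integral_eq_of_polish (𝕜 := ℂ) (A := trig) hsep ?_
  intro g hg
  have hg' : g ∈ Submodule.span ℂ (Set.range chi) := hg
  clear hg
  induction hg' using Submodule.span_induction with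
  | mem x hx =>
    obtain ⟨w, rfl⟩ := hx
    exact h w
  | zero => simp
  | add x y _ _ hx hy =>
    simp only [BoundedContinuousFunction.add_apply]
    rw [integral_add (x.integrable μ) (y.integrable μ),
      integral_add (x.integrable ν) (y.integrable ν), hx, hy]
  | smul c x _ hx =>
    simp only [BoundedContinuousFunction.smul_apply]
    rw [integral_smul, integral_smul, hx]

end D2
export D2 (measure_ext)
end Pool.Agent.Helper378.PD
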