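import Pool.Agent.Helper378.PD.Base
import Pool.Agent.Helper378.PD.D1
set_option autoImplicit false
open MeasureTheory
namespace Pool.Agent.Helper378.PD
namespace D3
/-! TARGETS -/

/-- the Gaussian integer of a pair of integers -/
def px (p : ℤ × ℤ) : Gi := ⟨p.1, p.2⟩

theorem psd_fin (b : Gi → ℝ)
    (hb : ∀ (n : ℕ) (x : Fin n → Gi) (c : Fin n → ℝ), 0 ≤ ∑ i, ∑ j, c i * c j * b (x i - x j))
    (Q : Finset (ℤ × ℤ)) (c : ℤ × ℤ → ℝ) :
    0 ≤ ∑ p ∈ Q, ∑ q ∈ Q, c p * c q * b (px p - px q) := by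
  obtain ⟨e⟩ : Nonempty (Fin Q.card ≃ Q) := ⟨Q.equivFin.symm⟩
  have h := hb Q.card (fun i => px (e i)) (fun i => c (e i))
  have e1 : ∀ p : ℤ × ℤ, ∑ j, c p * c (e j) * b (px p - px (e j)) =
      ∑ q ∈ Q, c p * c q * b (px p - px q) := by
    intro p
    rw [← Finset.sum_coe_sort Q]
    exact Equiv.sum_comp e (fun q : Q => c p * c q * b (px p - px q))
  simp only [e1] at h
  rw [← Finset.sum_coe_sort Q]
  have h2 := Equiv.sum_comp e (fun p : Q => ∑ q ∈ Q, c p * c q * b (px p - px q))
  rw [← h2]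
  exact h

/-- the square `[0,N)^2` -/
noncomputable def sq (N : ℕ) : Finset (ℤ × ℤ) := Finset.Ico (0 : ℤ) N ×ˢ Finset.Ico (0 : ℤ) N

/-- number of pairs with difference `w` -/
noncomputable def cnt (N : ℕ) (w : Gi) : ℕ := ((sq N ×ˢ sq N).filter (fun pq => px pq.1 - px pq.2 = w)).card

theorem cnt_le (N : ℕ) (w : Gi) : cnt N w ≤ N * N := by
  have h1 : cnt N w ≤ (sq N).card := by
    unfold cnt
    apply Finset.card_le_card_of_injOn (fun pq => pq.1)
    · intro pq hpq
      rw [Finset.mem_coe, Finset.mem_filter, Finset.mem_product] at hpq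
      exact hpq.1.1
    · intro pq hpq pq' hpq' h
      rw [Finset.mem_coe, Finset.mem_filter] at hpq hpq'
      have h1 := hpq.2
      have h2 := hpq'.2
      simp only at h
      rw [← h2, h] at h1
      have h3 : px pq.2 = px pq'.2 := by
        have := sub_right_inj.1 h1
        exact this
      unfold px at h3
      have h4 := congrArg Zsqrtd.re h3
      have h5 := congrArg Zsqrtd.im h3
      simp only at h4 h5
      exact Prod.ext h (Prod.ext h4 h5)
  have h2 : (sq N).card = N * N := by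
    unfold sq
    rw [Finset.card_product, Int.card_Ico]
    simp
  omega

theorem le_cnt (N : ℕ) (w : Gi) :
    (N : ℤ) * N - 2 * (|w.re| + |w.im|) * N ≤ cnt N w := by
  have ha := abs_nonneg w.re
  have hb := abs_nonneg w.im
  have ha1 := le_abs_self w.re
  have ha2 := neg_abs_le w.re
  have hb1 := le_abs_self w.im
  have hb2 := neg_abs_le w.im
  obtain ⟨u, hu⟩ : ∃ u, u = |w.re| := ⟨_, rfl⟩
  obtain ⟨v, hv⟩ : ∃ v, v = |w.im| := ⟨_, rfl⟩
  rw [← hu] at ha ha1 ha2 ⊢
  rw [← hv] at hb hb1 hb2 ⊢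
  have hN : (0 : ℤ) ≤ N := Int.natCast_nonneg N
  by_cases h1 : (N : ℤ) ≤ 2 * (u + v)
  · have h2 : (N : ℤ) * N - 2 * (u + v) * N ≤ 0 := by nlinarith
    have h3 : (0 : ℤ) ≤ cnt N w := Int.natCast_nonneg _
    linarith
  · push Not at h1
    have h2 : (Finset.Ico u (N - u) ×ˢ Finset.Ico v (N - v)).card ≤ cnt N w := by
      unfold cnt
      apply Finset.card_le_card_of_injOn (fun p => (p, (p.1 - w.re, p.2 - w.im)))
      · intro p hp
        rw [Finset.mem_coe, Finset.mem_product, Finset.mem_Ico, Finset.mem_Ico] at hp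
        rw [Finset.mem_coe, Finset.mem_filter, Finset.mem_product]
        unfold sq
        rw [Finset.mem_product, Finset.mem_product, Finset.mem_Ico, Finset.mem_Ico, Finset.mem_Ico,
          Finset.mem_Ico]
        refine ⟨⟨⟨⟨?_, ?_⟩, ⟨?_, ?_⟩⟩, ⟨⟨?_, ?_⟩, ⟨?_, ?_⟩⟩⟩, ?_⟩
        · simp only; omega
        · simp only; omega
        · simp only; omega
        · simp only; omega
        · simp only; omega
        · simp only; omega
        · simp only; omega
        · simp only; omega
        · unfold px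
          ext
          · simp
          · simp
      · intro p _ q _ h
        exact (Prod.ext_iff.1 h).1
    rw [Finset.card_product, Int.card_Ico, Int.card_Ico] at h2
    have h3 : (((N : ℤ) - u - u).toNat : ℤ) = N - 2 * u := by
      rw [Int.toNat_of_nonneg (by omega)]
      ring
    have h4 : (((N : ℤ) - v - v).toNat : ℤ) = N - 2 * v := by
      rw [Int.toNat_of_nonneg (by omega)]
      ring
    have h5 : ((N : ℤ) - 2 * u) * (N - 2 * v) ≤ cnt N w := by
      rw [← h3, ← h4]
      exact_mod_cast h2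
    nlinarith

theorem tendsto_cnt (w : Gi) :
    Filter.Tendsto (fun N : ℕ => (cnt N w : ℝ) / ((N : ℝ) * N)) Filter.atTop (nhds 1) := by
  have h1 : Filter.Tendsto (fun N : ℕ => 1 - (2 * (|w.re| + |w.im|) : ℤ) / (N : ℝ)) Filter.atTop
      (nhds (1 - 0)) := by
    apply Filter.Tendsto.sub tendsto_const_nhds
    exact tendsto_const_div_atTop_nhds_zero_nat _
  rw [sub_zero] at h1
  apply tendsto_of_tendsto_of_tendsto_of_le_of_le' h1 tendsto_const_nhds
  · filter_upwards [Filter.eventually_gt_atTop 0] with N hN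
    have hN' : (0 : ℝ) < N := by exact_mod_cast hN
    have h2 := le_cnt N w
    have h3 : (N : ℝ) * N - ((2 * (|w.re| + |w.im|) : ℤ) : ℝ) * N ≤ cnt N w := by exact_mod_cast h2
    rw [le_div_iff₀ (by positivity)]
    have e : (1 - ((2 * (|w.re| + |w.im|) : ℤ) : ℝ) / N) * (N * N) =
        (N : ℝ) * N - ((2 * (|w.re| + |w.im|) : ℤ) : ℝ) * N := by
      field_simp
    rw [e]
    exact h3
  · filter_upwards [Filter.eventually_gt_atTop 0] with N hN
    have hN' : (0 : ℝ) < N := by exact_mod_cast hN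
    rw [div_le_one (by positivity)]
    exact_mod_cast cnt_le N w

theorem trig_nonneg (b : Gi → ℝ) (S : Finset Gi) (hS : ∀ w, w ∉ S → b w = 0)
    (hb : ∀ (n : ℕ) (x : Fin n → Gi) (c : Fin n → ℝ), 0 ≤ ∑ i, ∑ j, c i * c j * b (x i - x j))
    (t : T2) : 0 ≤ ∑ w ∈ S, b w * (E (w • t)).re := by
  have key : ∀ N : ℕ, 0 ≤ ∑ w ∈ S, b w * (E (w • t)).re * (cnt N w : ℝ) := by
    intro N
    have h1 := psd_fin b hb (sq N) (fun p => (E (px p • t)).re)
    have h2 := psd_fin b hb (sq N) (fun p => (E (px p • t)).im)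
    have h3 : ∀ p q, (E (px p • t)).re * (E (px q • t)).re * b (px p - px q) +
        (E (px p • t)).im * (E (px q • t)).im * b (px p - px q) =
        b (px p - px q) * (E ((px p - px q) • t)).re := by
      intro p q
      rw [sub_smul, sub_eq_add_neg (px p • t), E_add, E_neg, Complex.mul_re, Complex.conj_re,
        Complex.conj_im]
      ring
    have h4 : 0 ≤ ∑ p ∈ sq N, ∑ q ∈ sq N, b (px p - px q) * (E ((px p - px q) • t)).re := by
      calc (0 : ℝ) ≤ ∑ p ∈ sq N, ∑ q ∈ sq N, (E (px p • t)).re * (E (px q • t)).re * b (px p - px q) +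
            ∑ p ∈ sq N, ∑ q ∈ sq N, (E (px p • t)).im * (E (px q • t)).im * b (px p - px q) :=
            add_nonneg h1 h2
        _ = _ := by
            rw [← Finset.sum_add_distrib]
            apply Finset.sum_congr rfl
            intro p _
            rw [← Finset.sum_add_distrib]
            apply Finset.sum_congr rfl
            intro q _
            exact h3 p q
    have h5 : ∀ v : Gi, b v * (E (v • t)).re = ∑ w ∈ S, if v = w then b w * (E (w • t)).re else 0 := by
      intro v
      rw [Finset.sum_ite_eq]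
      split_ifs with hv
      · rfl
      · rw [hS v hv, zero_mul]
    have h6 : ∑ p ∈ sq N, ∑ q ∈ sq N, b (px p - px q) * (E ((px p - px q) • t)).re =
        ∑ w ∈ S, b w * (E (w • t)).re * (cnt N w : ℝ) := by
      rw [← Finset.sum_product']
      rw [Finset.sum_congr rfl (fun (x : (ℤ × ℤ) × (ℤ × ℤ)) _ => h5 (px x.1 - px x.2))]
      rw [Finset.sum_comm]
      apply Finset.sum_congr rfl
      intro w _
      rw [← Finset.sum_filter, Finset.sum_const, nsmul_eq_mul, mul_comm]
      rfl
    rw [← h6]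
    exact h4
  have hlim : Filter.Tendsto (fun N : ℕ => ∑ w ∈ S, b w * (E (w • t)).re * ((cnt N w : ℝ) / ((N : ℝ) * N)))
      Filter.atTop (nhds (∑ w ∈ S, b w * (E (w • t)).re * 1)) := by
    apply tendsto_finsetSum
    intro w _
    exact (tendsto_cnt w).const_mul _
  simp only [mul_one] at hlim
  apply ge_of_tendsto' hlim
  intro N
  have e : ∑ w ∈ S, b w * (E (w • t)).re * ((cnt N w : ℝ) / ((N : ℝ) * N)) =
      (∑ w ∈ S, b w * (E (w • t)).re * (cnt N w : ℝ)) / ((N : ℝ) * N) := by
    rw [Finset.sum_div]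
    apply Finset.sum_congr rfl
    intro w _
    ring
  rw [e]
  exact div_nonneg (key N) (by positivity)

end D3
export D3 (trig_nonneg)
end Pool.Agent.Helper378.PD
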