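import Pool.Agent.Helper378.PD.Base
import Pool.Agent.Helper378.PD.D1
import Pool.Agent.Helper378.PD.D3
set_option autoImplicit false
open MeasureTheory
namespace Pool.Agent.Helper378.PD
namespace D4
/-! TARGETS -/

theorem norm_eqZ (w : Gi) : w.norm = w.re * w.re + w.im * w.im := by
  rw [Zsqrtd.norm_def]; ring

theorem norm_pos_of_ne (D : Gi) (hD : D ≠ 0) : 1 ≤ D.norm := by
  have h : 0 < D.norm := by
    rw [norm_eqZ]
    by_cases h1 : D.re = 0
    · have h2 : D.im ≠ 0 := by
        intro h2; apply hD; ext <;> simp [h1, h2]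
      have := mul_self_pos.2 h2
      nlinarith [mul_self_nonneg D.re]
    · have := mul_self_pos.2 h1
      nlinarith [mul_self_nonneg D.im]
  omega

theorem mem_box_iff (R : ℕ) (w : Gi) :
    w ∈ box R ↔ (-(R:ℤ) ≤ w.re ∧ w.re ≤ R) ∧ (-(R:ℤ) ≤ w.im ∧ w.im ≤ R) := by
  unfold box
  simp only [Finset.mem_image, Finset.mem_product, Finset.mem_Icc, Prod.exists]
  constructor
  · rintro ⟨a, b, ⟨h1, h2⟩, rfl⟩
    exact ⟨h1, h2⟩
  · rintro ⟨h1, h2⟩
    exact ⟨w.re, w.im, ⟨h1, h2⟩, by ext <;> rfl⟩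

theorem card_box_le (R : ℕ) : (box R).card ≤ (2 * R + 1) ^ 2 := by
  unfold box
  refine Finset.card_image_le.trans ?_
  rw [Finset.card_product, Int.card_Icc]
  have : ((R:ℤ) + 1 - (-(R:ℤ))).toNat = 2 * R + 1 := by omega
  rw [this]; exact le_of_eq (by ring)


theorem a_even (a : Gi → Gi → ℝ) (ha : Rad a) (D : Gi) (hD : D ≠ 0) (w : Gi) : a D (-w) = a D w := by
  exact ha.norm D D (-w) w hD hD (by rw [Zsqrtd.norm_neg])

theorem a_abs_le (a : Gi → Gi → ℝ) (ha : Rad a) (D : Gi) (hD : D ≠ 0) (w : Gi) : |a D w| ≤ 1 := by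
  have h1 := ha.psd D hD 2 ![0, w] ![1, 1]
  have h2 := ha.psd D hD 2 ![0, w] ![1, -1]
  simp only [Fin.sum_univ_two, Matrix.cons_val_zero, Matrix.cons_val_one, sub_self, zero_sub,
    sub_zero, ha.zero D hD, a_even a ha D hD w] at h1 h2
  rw [abs_le]
  constructor <;> linarith

theorem a_eq_zero_of_notMem_box (a : Gi → Gi → ℝ) (ha : Rad a) (D : Gi) (hD : D ≠ 0) (w : Gi)
    (hw : w ∉ box (2 * (D.re.natAbs + D.im.natAbs))) : a D w = 0 := by
  apply ha.supp D w hD
  rw [mem_box_iff] at hw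
  rw [norm_eqZ, norm_eqZ]
  set p := D.re.natAbs with hp
  set q := D.im.natAbs with hq
  have hp2 : D.re * D.re = (p:ℤ) * p := by rw [hp]; exact (Int.natAbs_mul_self' D.re).symm
  have hq2 : D.im * D.im = (q:ℤ) * q := by rw [hq]; exact (Int.natAbs_mul_self' D.im).symm
  rw [hp2, hq2]
  push_cast at hw
  have hp0 : (0:ℤ) ≤ p := Int.natCast_nonneg _
  have hq0 : (0:ℤ) ≤ q := Int.natCast_nonneg _
  have hpq : (0:ℤ) ≤ p * q := mul_nonneg hp0 hq0
  have key : ∀ x : ℤ, (2 * ((p:ℤ) + q)) < x ∨ x < -(2 * ((p:ℤ) + q)) →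
      4 * ((p:ℤ) * p + q * q) ≤ x * x := by
    intro x hx
    rcases hx with hx | hx
    · nlinarith
    · nlinarith
  have hcase : ((2 * ((p:ℤ) + q)) < w.re ∨ w.re < -(2 * ((p:ℤ) + q)))
      ∨ ((2 * ((p:ℤ) + q)) < w.im ∨ w.im < -(2 * ((p:ℤ) + q))) := by
    by_contra hc
    push Not at hc
    exact hw ⟨⟨hc.1.2, hc.1.1⟩, ⟨hc.2.2, hc.2.1⟩⟩
  rcases hcase with h | h
  · have := key _ h
    nlinarith [mul_self_nonneg w.im]
  · have := key _ h
    nlinarith [mul_self_nonneg w.re]

theorem f_nonneg (a : Gi → Gi → ℝ) (ha : Rad a) (D : Gi) (hD : D ≠ 0) (t : T2) : 0 ≤ f a D t := by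
  exact trig_nonneg (a D) _ (fun w hw => a_eq_zero_of_notMem_box a ha D hD w hw) (ha.psd D hD) t

theorem f_continuous (a : Gi → Gi → ℝ) (ha : Rad a) (D : Gi) (hD : D ≠ 0) : Continuous (f a D) := by
  unfold f
  refine continuous_finsetSum _ fun w _ => ?_
  exact continuous_const.mul (Complex.continuous_re.comp (continuous_E.comp (continuous_smulGi w)))

/-- the small set of contributing frequencies -/
theorem exists_small (a : Gi → Gi → ℝ) (ha : Rad a) (D : Gi) (hD : D ≠ 0) :
    ∃ S : Finset Gi, (S.card : ℝ) ≤ 25 * D.norm ∧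
      (∀ w ∈ S, ((w.re.natAbs + w.im.natAbs : ℕ) : ℝ) ≤ 4 * Real.sqrt D.norm) ∧
      ∀ t, f a D t = ∑ w ∈ S, a D w * (E (w • t)).re := by
  have hN := norm_pos_of_ne D hD
  obtain ⟨N, hN'⟩ : ∃ N : ℕ, D.norm = (N:ℤ) := ⟨D.norm.toNat, by omega⟩
  have hN1 : 1 ≤ N := by omega
  set m := Nat.sqrt (4 * N) with hm
  have hm2 : m * m ≤ 4 * N := Nat.sqrt_le _
  have hm3 : m ≤ 2 * N := by
    by_contra h
    push Not at h
    nlinarith
  have hmr : (m:ℝ) ≤ 2 * Real.sqrt N := by
    have h1 : ((m:ℝ)) ^ 2 ≤ (2 * Real.sqrt N) ^ 2 := by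
      rw [mul_pow, Real.sq_sqrt (by positivity)]
      have : ((m * m : ℕ) : ℝ) ≤ ((4 * N : ℕ) : ℝ) := by exact_mod_cast hm2
      push_cast at this
      nlinarith
    exact le_of_sq_le_sq h1 (by positivity)
  refine ⟨(box (2 * (D.re.natAbs + D.im.natAbs))).filter (fun w => w.norm < 4 * D.norm), ?_, ?_, ?_⟩
  · have hsub : (box (2 * (D.re.natAbs + D.im.natAbs))).filter (fun w => w.norm < 4 * D.norm)
        ⊆ box m := by
      intro w hw
      have hw2 := (Finset.mem_filter.1 hw).2
      rw [norm_eqZ w, hN'] at hw2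
      rw [mem_box_iff]
      have key : ∀ x : ℤ, x * x < 4 * N → -(m:ℤ) ≤ x ∧ x ≤ m := by
        intro x hx
        have h1 : x.natAbs * x.natAbs < 4 * N := by
          have := Int.natAbs_mul_self' x
          zify
          rw [this.symm] at hx
          push_cast at hx ⊢
          simpa using hx
        have h2 : x.natAbs ≤ m := by
          rw [hm, Nat.le_sqrt]; exact h1.le
        omega
      exact ⟨key _ (by nlinarith [mul_self_nonneg w.im]), key _ (by nlinarith [mul_self_nonneg w.re])⟩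
    have h1 := (Finset.card_le_card hsub).trans (card_box_le m)
    have h2 : (2 * m + 1) ^ 2 ≤ 25 * N := by nlinarith
    rw [hN']
    have h3 := h1.trans h2
    have h4 : ((((box (2 * (D.re.natAbs + D.im.natAbs))).filter
      (fun w => w.norm < 4 * D.norm)).card : ℕ) : ℝ) ≤ ((25 * N : ℕ) : ℝ) := by exact_mod_cast h3
    rw [hN'] at h4
    push_cast at h4 ⊢
    exact h4
  · intro w hw
    have hw2 := (Finset.mem_filter.1 hw).2
    rw [norm_eqZ w, hN'] at hw2
    rw [hN']
    have key : ∀ x : ℤ, x * x < 4 * N → x.natAbs ≤ m := by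
      intro x hx
      have h1 : x.natAbs * x.natAbs < 4 * N := by
        have := Int.natAbs_mul_self' x
        zify
        rw [this.symm] at hx
        push_cast at hx ⊢
        simpa using hx
      rw [hm, Nat.le_sqrt]; exact h1.le
    have h1 := key w.re (by nlinarith [mul_self_nonneg w.im])
    have h2 := key w.im (by nlinarith [mul_self_nonneg w.re])
    have h3 : ((w.re.natAbs + w.im.natAbs : ℕ) : ℝ) ≤ ((m + m : ℕ) : ℝ) := by
      exact_mod_cast Nat.add_le_add h1 h2
    refine h3.trans ?_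
    push_cast
    linarith
  · intro t
    unfold f
    symm
    apply Finset.sum_subset (Finset.filter_subset _ _)
    intro w hw hw2
    have : 4 * D.norm ≤ w.norm := by
      by_contra h
      push Not at h
      exact hw2 (Finset.mem_filter.2 ⟨hw, h⟩)
    rw [ha.supp D w hD this, zero_mul]

theorem f_le (a : Gi → Gi → ℝ) (ha : Rad a) (D : Gi) (hD : D ≠ 0) (t : T2) : f a D t ≤ 25 * D.norm := by
  obtain ⟨S, hS1, -, hS3⟩ := exists_small a ha D hD
  rw [hS3]
  calc ∑ w ∈ S, a D w * (E (w • t)).re ≤ ∑ w ∈ S, (1:ℝ) := by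
        refine Finset.sum_le_sum fun w _ => ?_
        have h1 := a_abs_le a ha D hD w
        have h2 : |(E (w • t)).re| ≤ 1 := (Complex.abs_re_le_norm _).trans (norm_E _).le
        calc a D w * (E (w • t)).re ≤ |a D w * (E (w • t)).re| := le_abs_self _
          _ = |a D w| * |(E (w • t)).re| := abs_mul _ _
          _ ≤ 1 * 1 := mul_le_mul h1 h2 (abs_nonneg _) zero_le_one
          _ = 1 := one_mul 1
    _ = (S.card : ℝ) := by simp
    _ ≤ 25 * D.norm := hS1

theorem f_lipschitz (a : Gi → Gi → ℝ) (ha : Rad a) (D : Gi) (hD : D ≠ 0) (s t : T2) :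
    |f a D s - f a D t| ≤ 1000 * ((D.norm : ℝ) * Real.sqrt D.norm) * ‖s - t‖ := by
  obtain ⟨S, hS1, hS2, hS3⟩ := exists_small a ha D hD
  have hN : (1:ℝ) ≤ (D.norm : ℝ) := by exact_mod_cast norm_pos_of_ne D hD
  rw [hS3, hS3, ← Finset.sum_sub_distrib]
  have hterm : ∀ w ∈ S, |a D w * (E (w • s)).re - a D w * (E (w • t)).re|
      ≤ 2 * Real.pi * (4 * Real.sqrt D.norm) * ‖s - t‖ := by
    intro w hw
    have h1 := a_abs_le a ha D hD w
    have h2 : |(E (w • s)).re - (E (w • t)).re| ≤ 2 * Real.pi * (4 * Real.sqrt D.norm) * ‖s - t‖ := by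
      calc |(E (w • s)).re - (E (w • t)).re| = |(E (w • s) - E (w • t)).re| := by rw [Complex.sub_re]
        _ ≤ ‖E (w • s) - E (w • t)‖ := Complex.abs_re_le_norm _
        _ ≤ 2 * Real.pi * ‖w • s - w • t‖ := norm_E_sub_le _ _
        _ = 2 * Real.pi * ‖w • (s - t)‖ := by rw [smul_sub]
        _ ≤ 2 * Real.pi * (((w.re.natAbs + w.im.natAbs : ℕ) : ℝ) * ‖s - t‖) := by
            apply mul_le_mul_of_nonneg_left (norm_smulGi_le _ _) (by positivity)
        _ ≤ 2 * Real.pi * ((4 * Real.sqrt D.norm) * ‖s - t‖) := by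
            apply mul_le_mul_of_nonneg_left _ (by positivity)
            exact mul_le_mul_of_nonneg_right (hS2 w hw) (norm_nonneg _)
        _ = 2 * Real.pi * (4 * Real.sqrt D.norm) * ‖s - t‖ := by ring
    rw [← mul_sub, abs_mul]
    calc |a D w| * |(E (w • s)).re - (E (w • t)).re|
        ≤ 1 * (2 * Real.pi * (4 * Real.sqrt D.norm) * ‖s - t‖) :=
          mul_le_mul h1 h2 (abs_nonneg _) zero_le_one
      _ = _ := one_mul _
  calc |∑ w ∈ S, (a D w * (E (w • s)).re - a D w * (E (w • t)).re)|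
      ≤ ∑ w ∈ S, |a D w * (E (w • s)).re - a D w * (E (w • t)).re| := Finset.abs_sum_le_sum_abs _ _
    _ ≤ ∑ w ∈ S, 2 * Real.pi * (4 * Real.sqrt D.norm) * ‖s - t‖ := Finset.sum_le_sum hterm
    _ = S.card * (2 * Real.pi * (4 * Real.sqrt D.norm) * ‖s - t‖) := by
        rw [Finset.sum_const, nsmul_eq_mul]
    _ ≤ (25 * D.norm) * (2 * Real.pi * (4 * Real.sqrt D.norm) * ‖s - t‖) := by
        apply mul_le_mul_of_nonneg_right hS1 (by positivity)
    _ = (200 * Real.pi) * ((D.norm : ℝ) * Real.sqrt D.norm * ‖s - t‖) := by ring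
    _ ≤ 1000 * ((D.norm : ℝ) * Real.sqrt D.norm * ‖s - t‖) := by
        apply mul_le_mul_of_nonneg_right _ (by positivity)
        have := Real.pi_lt_four
        linarith
    _ = 1000 * ((D.norm : ℝ) * Real.sqrt D.norm) * ‖s - t‖ := by ring

theorem integrable_of_cont {F : Type*} [NormedAddCommGroup F] [SecondCountableTopology F]
    (g : T2 → F) (hg : Continuous g) :
    Integrable g (volume : Measure T2) := by
  have h : IntegrableOn g Set.univ (volume : Measure T2) :=
    hg.continuousOn.integrableOn_compact isCompact_univ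
  rwa [integrableOn_univ] at h

theorem cont_E_smul (w : Gi) : Continuous (fun t : T2 => E (w • t)) :=
  continuous_E.comp (continuous_smulGi w)

theorem integral_re_E (w : Gi) : ∫ t : T2, (E (w • t)).re = if w = 0 then 1 else 0 := by
  have h := integral_E w
  have h1 : ∫ t : T2, (E (w • t)).re = (∫ t : T2, E (w • t)).re := by
    have h2 := integral_re (𝕜 := ℂ) (integrable_of_cont (fun t => E (w • t)) (cont_E_smul w))
    simpa using h2
  rw [h1, h]
  split_ifs <;> simp

theorem sum_box_ite (a : Gi → Gi → ℝ) (ha : Rad a) (D : Gi) (hD : D ≠ 0) (v : Gi) :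
    ∑ u ∈ box (2 * (D.re.natAbs + D.im.natAbs)), a D u * (if u = v then (1:ℝ) else 0) = a D v := by
  simp only [mul_ite, mul_one, mul_zero]
  rw [Finset.sum_ite_eq']
  split_ifs with h
  · rfl
  · exact (a_eq_zero_of_notMem_box a ha D hD v h).symm

theorem integral_f (a : Gi → Gi → ℝ) (ha : Rad a) (D : Gi) (hD : D ≠ 0) : ∫ t : T2, f a D t = 1 := by
  unfold f
  rw [integral_finsetSum]
  · have h1 : ∀ w ∈ box (2 * (D.re.natAbs + D.im.natAbs)),
        ∫ t : T2, a D w * (E (w • t)).re = a D w * (if w = 0 then (1:ℝ) else 0) := by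
      intro w _
      rw [integral_const_mul, integral_re_E]
    rw [Finset.sum_congr rfl h1, sum_box_ite a ha D hD 0, ha.zero D hD]
  · intro w _
    exact integrable_of_cont _ (continuous_const.mul (Complex.continuous_re.comp (cont_E_smul w)))

theorem nu_prob (a : Gi → Gi → ℝ) (ha : Rad a) (D : Gi) (hD : D ≠ 0) : IsProbabilityMeasure (nu a D) := by
  constructor
  unfold nu
  rw [withDensity_apply _ MeasurableSet.univ, Measure.restrict_univ,
    ← ofReal_integral_eq_lintegral_ofReal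
      (integrable_of_cont _ (f_continuous a ha D hD))
      (Filter.Eventually.of_forall fun t => f_nonneg a ha D hD t),
    integral_f a ha D hD, ENNReal.ofReal_one]

theorem integral_nu (a : Gi → Gi → ℝ) (ha : Rad a) (D : Gi) (hD : D ≠ 0) (g : T2 → ℂ) :
    ∫ t, g t ∂(nu a D) = ∫ t : T2, (f a D t : ℂ) * g t := by
  unfold nu
  rw [integral_withDensity_eq_integral_toReal_smul
    (f_continuous a ha D hD).measurable.ennreal_ofReal
    (Filter.Eventually.of_forall fun t => ENNReal.ofReal_lt_top)]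
  refine integral_congr_ae (Filter.Eventually.of_forall fun t => ?_)
  simp only [ENNReal.toReal_ofReal (f_nonneg a ha D hD t), Complex.real_smul]

theorem integral_nu_real (a : Gi → Gi → ℝ) (ha : Rad a) (D : Gi) (hD : D ≠ 0) (g : T2 → ℝ) :
    ∫ t, g t ∂(nu a D) = ∫ t : T2, f a D t * g t := by
  unfold nu
  rw [integral_withDensity_eq_integral_toReal_smul
    (f_continuous a ha D hD).measurable.ennreal_ofReal
    (Filter.Eventually.of_forall fun t => ENNReal.ofReal_lt_top)]
  refine integral_congr_ae (Filter.Eventually.of_forall fun t => ?_)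
  simp only [ENNReal.toReal_ofReal (f_nonneg a ha D hD t), smul_eq_mul]

theorem nu_coeff (a : Gi → Gi → ℝ) (ha : Rad a) (D : Gi) (hD : D ≠ 0) (w : Gi) : ∫ t, E (w • t) ∂(nu a D) = (a D w : ℂ) := by
  rw [integral_nu a ha D hD]
  have hpt : ∀ t : T2, (f a D t : ℂ) * E (w • t)
      = ∑ u ∈ box (2 * (D.re.natAbs + D.im.natAbs)),
          ((a D u : ℂ) * (1/2) * E ((u + w) • t) + (a D u : ℂ) * (1/2) * E ((w - u) • t)) := by
    intro t
    unfold f
    push_cast
    rw [Finset.sum_mul]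
    refine Finset.sum_congr rfl fun u _ => ?_
    have h1 : (((E (u • t)).re : ℝ) : ℂ) = (E (u • t) + E (-(u • t))) / 2 := by
      rw [E_neg, Complex.re_eq_add_conj]
    have h2 : E ((u + w) • t) = E (u • t) * E (w • t) := by rw [add_smul, E_add]
    have h3 : E ((w - u) • t) = E (-(u • t)) * E (w • t) := by
      rw [sub_smul, sub_eq_neg_add, E_add]
    rw [h1, h2, h3]; ring
  simp_rw [hpt]
  have hint : ∀ (c : ℂ) (v : Gi), Integrable (fun t : T2 => c * E (v • t)) :=
    fun c v => integrable_of_cont _ (continuous_const.mul (cont_E_smul v))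
  rw [integral_finsetSum]
  · have h1 : ∀ u ∈ box (2 * (D.re.natAbs + D.im.natAbs)),
        ∫ t : T2, ((a D u : ℂ) * (1/2) * E ((u + w) • t) + (a D u : ℂ) * (1/2) * E ((w - u) • t))
        = (((a D u * (if u = -w then (1:ℝ) else 0)) * (1/2)
            + (a D u * (if u = w then (1:ℝ) else 0)) * (1/2) : ℝ) : ℂ) := by
      intro u _
      rw [integral_add (hint _ _) (hint _ _), integral_const_mul, integral_const_mul, integral_E,
        integral_E]
      have e1 : (u + w = 0) ↔ (u = -w) := add_eq_zero_iff_eq_neg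
      have e2 : (w - u = 0) ↔ (u = w) := by rw [sub_eq_zero]; exact eq_comm
      simp only [e1, e2]
      split_ifs <;> push_cast <;> ring
    rw [Finset.sum_congr rfl h1, ← Complex.ofReal_sum]
    congr 1
    rw [Finset.sum_add_distrib, ← Finset.sum_mul, ← Finset.sum_mul, sum_box_ite a ha D hD (-w),
      sum_box_ite a ha D hD w, a_even a ha D hD w]
    ring
  · intro u _
    exact (hint _ _).add (hint _ _)

end D4
export D4 (a_even a_abs_le a_eq_zero_of_notMem_box f_nonneg f_continuous f_le f_lipschitz integral_f nu_prob integral_nu integral_nu_real nu_coeff)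
end Pool.Agent.Helper378.PD
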