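import Pool.Agent.Helper378.PD.Base
import Pool.Agent.Helper378.PD.D1
import Pool.Agent.Helper378.PD.D2
import Pool.Agent.Helper378.PD.D4
set_option autoImplicit false
open MeasureTheory
namespace Pool.Agent.Helper378.PD
namespace D5
/-! TARGETS -/

theorem d5_int_map (μ : Measure T2) (z w : Gi) :
    ∫ t, E (w • t) ∂(μ.map (fun t => z • t)) = ∫ t, E ((w * z) • t) ∂μ := by
  have h := integral_map (μ := μ) (φ := fun t : T2 => z • t) (f := fun t : T2 => E (w • t))
    (continuous_smulGi z).measurable.aemeasurable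
    (continuous_E.comp (continuous_smulGi w)).aestronglyMeasurable
  rw [h]
  simp only [mul_smul]

theorem volume_map (z : Gi) (hz : z ≠ 0) : (volume : Measure T2).map (fun t => z • t) = volume := by
  refine measure_ext _ _ fun w => ?_
  rw [d5_int_map, integral_E, integral_E]
  by_cases hw : w = 0
  · simp [hw]
  · rw [if_neg (mul_ne_zero hw hz), if_neg hw]

theorem nu_map (a : Gi → Gi → ℝ) (ha : Rad a) (D : Gi) (hD : D ≠ 0) (z : Gi) (hz : z ≠ 0) :
    (nu a (D * z)).map (fun t => z • t) = nu a D := by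
  have h1 := nu_prob a ha (D * z) (mul_ne_zero hD hz)
  have h2 := nu_prob a ha D hD
  refine measure_ext _ _ fun w => ?_
  rw [d5_int_map, nu_coeff a ha _ (mul_ne_zero hD hz), nu_coeff a ha _ hD,
    ha.norm (D * z) D (w * z) w (mul_ne_zero hD hz) hD]
  rw [Zsqrtd.norm_mul, Zsqrtd.norm_mul]
  ring

theorem nu_map_star (a : Gi → Gi → ℝ) (ha : Rad a) (D : Gi) (hD : D ≠ 0) (z : Gi) (hz : z ≠ 0) :
    (nu a D).map (fun t => z • t) = (nu a D).map (fun t => star z • t) := by
  have h2 := nu_prob a ha D hD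
  refine measure_ext _ _ fun w => ?_
  rw [d5_int_map, d5_int_map, nu_coeff a ha _ hD, nu_coeff a ha _ hD,
    ha.norm D D (w * z) (w * star z) hD hD]
  rw [Zsqrtd.norm_mul, Zsqrtd.norm_mul, Zsqrtd.norm_conj]

theorem f_norm (a : Gi → Gi → ℝ) (ha : Rad a) (D : Gi) (hD : D ≠ 0) (D' : Gi) (hD' : D' ≠ 0) (h : D.norm = D'.norm) :
    f a D = f a D' := by
  classical
  have hw : ∀ w, a D w = a D' w := fun w => ha.norm D D' w w hD hD' (by rw [h])
  funext t
  unfold f
  have e1 : ∑ w ∈ box (2 * (D.re.natAbs + D.im.natAbs)), a D w * (E (w • t)).re =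
      ∑ w ∈ box (2 * (D.re.natAbs + D.im.natAbs)) ∪ box (2 * (D'.re.natAbs + D'.im.natAbs)),
        a D w * (E (w • t)).re := by
    refine Finset.sum_subset Finset.subset_union_left fun w _ hn => ?_
    rw [a_eq_zero_of_notMem_box a ha D hD w hn, zero_mul]
  have e2 : ∑ w ∈ box (2 * (D'.re.natAbs + D'.im.natAbs)), a D' w * (E (w • t)).re =
      ∑ w ∈ box (2 * (D.re.natAbs + D.im.natAbs)) ∪ box (2 * (D'.re.natAbs + D'.im.natAbs)),
        a D' w * (E (w • t)).re := by
    refine Finset.sum_subset Finset.subset_union_right fun w _ hn => ?_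
    rw [a_eq_zero_of_notMem_box a ha D' hD' w hn, zero_mul]
  rw [e1, e2]
  refine Finset.sum_congr rfl fun w _ => ?_
  rw [hw]

theorem nu_norm (a : Gi → Gi → ℝ) (ha : Rad a) (D : Gi) (hD : D ≠ 0) (D' : Gi) (hD' : D' ≠ 0) (h : D.norm = D'.norm) :
    nu a D = nu a D' := by
  unfold nu
  rw [f_norm a ha D hD D' hD' h]

end D5
export D5 (volume_map nu_map nu_map_star nu_norm f_norm)
end Pool.Agent.Helper378.PD
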