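import Pool.Agent.Helper378.PD.Base
import Pool.Agent.Helper378.PD.D1
import Pool.Agent.Helper378.PD.D3
import Pool.Agent.Helper378.PD.D4
import Pool.Agent.Helper378.PD.D5
set_option autoImplicit false
open MeasureTheory
namespace Pool.Agent.Helper378.PD
namespace D6
/-! TARGETS -/

theorem class_card (z : Gi) (hz : z ≠ 0) : ∃ (ι : Type) (_ : Fintype ι) (_ : DecidableEq ι)
    (π : Gi → ι), (∀ w w', π w = π w' ↔ z ∣ w - w') ∧ (Fintype.card ι : ℤ) ≤ z.norm := by
  classical
  set g : ℤ := (Int.gcd z.re z.im : ℤ) with hg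
  have hg0 : 0 < g := by
    have h : Int.gcd z.re z.im ≠ 0 := by
      intro h
      rw [Int.gcd_eq_zero_iff] at h
      exact hz (Zsqrtd.ext h.1 h.2)
    have : 0 < Int.gcd z.re z.im := Nat.pos_of_ne_zero h
    rw [hg]
    exact_mod_cast this
  obtain ⟨u', hu'⟩ : g ∣ z.re := Int.gcd_dvd_left _ _
  obtain ⟨v', hv'⟩ : g ∣ z.im := Int.gcd_dvd_right _ _
  set ζ : Gi := z * ⟨Int.gcdB z.re z.im, Int.gcdA z.re z.im⟩ with hζ
  have hζim : ζ.im = g := by
    rw [hζ, Zsqrtd.im_mul]
    simp only
    rw [hg, Int.gcd_eq_gcd_ab]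
  set M : ℤ := u' * z.re + v' * z.im with hM
  have hN : z.norm = g * M := by
    rw [Zsqrtd.norm_def, hM]
    linear_combination z.re * hu' + z.im * hv'
  have hNpos : 0 < z.norm := by
    have h1 : 0 ≤ z.norm := GaussianInt.norm_nonneg z
    have h2 : z.norm ≠ 0 := by
      intro h
      exact hz (GaussianInt.norm_eq_zero.mp h)
    omega
  have hMpos : 0 < M := by
    rw [hN] at hNpos
    exact (mul_pos_iff_of_pos_left hg0).mp hNpos
  have hzM : z ∣ (⟨M, 0⟩ : Gi) := by
    refine ⟨⟨u', -v'⟩, ?_⟩
    apply Zsqrtd.ext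
    · rw [Zsqrtd.re_mul]
      simp only
      rw [hM]
      ring
    · rw [Zsqrtd.im_mul]
      simp only
      rw [hu', hv']
      ring
  -- reduced representative data
  let k : Gi → ℤ := fun w => w.im / g
  let W : Gi → Gi := fun w => w - (⟨k w, 0⟩ : Gi) * ζ
  have hWim : ∀ w, (W w).im = w.im % g := by
    intro w
    show (w - (⟨k w, 0⟩ : Gi) * ζ).im = w.im % g
    rw [Zsqrtd.im_sub, Zsqrtd.im_mul]
    simp only
    rw [hζim]
    have := Int.emod_add_mul_ediv w.im g
    show w.im - ((w.im / g) * g + 0 * ζ.re) = w.im % g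
    linarith
  have key : ∀ w w' : Gi, w.im % g = w'.im % g → (W w).re % M = (W w').re % M → z ∣ w - w' := by
    intro w w' h1 h2
    have h3 : M ∣ (W w).re - (W w').re := Int.ModEq.dvd (Int.ModEq.symm h2)
    obtain ⟨l, hl⟩ := h3
    have h4 : W w - W w' = (⟨M, 0⟩ : Gi) * ⟨l, 0⟩ := by
      apply Zsqrtd.ext
      · rw [Zsqrtd.re_sub, Zsqrtd.re_mul, hl]
        simp
      · rw [Zsqrtd.im_sub, Zsqrtd.im_mul, hWim, hWim, h1]
        simp
    have h5 : w - w' = (W w - W w') + ((⟨k w, 0⟩ : Gi) - ⟨k w', 0⟩) * ζ := by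
      show w - w' = ((w - (⟨k w, 0⟩ : Gi) * ζ) - (w' - (⟨k w', 0⟩ : Gi) * ζ)) + _
      ring
    rw [h5, h4]
    apply dvd_add
    · exact hzM.mul_right _
    · exact (Dvd.intro _ rfl : z ∣ ζ).mul_left _
  let ι := Gi ⧸ Ideal.span ({z} : Set Gi)
  let F : Finset (ℤ × ℤ) := Finset.Ico (0 : ℤ) g ×ˢ Finset.Ico (0 : ℤ) M
  let r : ι → F := fun q => ⟨((Quotient.out q).im % g, (W (Quotient.out q)).re % M), by
    rw [Finset.mem_product, Finset.mem_Ico, Finset.mem_Ico]
    exact ⟨⟨Int.emod_nonneg _ hg0.ne', Int.emod_lt_of_pos _ hg0⟩,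
      ⟨Int.emod_nonneg _ hMpos.ne', Int.emod_lt_of_pos _ hMpos⟩⟩⟩
  have hπ : ∀ w w' : Gi, (Ideal.Quotient.mk (Ideal.span ({z} : Set Gi)) w =
      Ideal.Quotient.mk (Ideal.span ({z} : Set Gi)) w') ↔ z ∣ w - w' := by
    intro w w'
    rw [Ideal.Quotient.eq, Ideal.mem_span_singleton]
  have hr : Function.Injective r := by
    intro q q' hqq
    have h1 := congrArg Subtype.val hqq
    have h2 : ((Quotient.out q).im % g, (W (Quotient.out q)).re % M) =
      ((Quotient.out q').im % g, (W (Quotient.out q')).re % M) := h1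
    rw [Prod.mk.injEq] at h2
    have h3 := (hπ _ _).mpr (key _ _ h2.1 h2.2)
    have e1 : Ideal.Quotient.mk (Ideal.span ({z} : Set Gi)) (Quotient.out q) = q :=
      Quotient.out_eq q
    have e2 : Ideal.Quotient.mk (Ideal.span ({z} : Set Gi)) (Quotient.out q') = q' :=
      Quotient.out_eq q'
    rw [e1, e2] at h3
    exact h3
  letI : Fintype ι := Fintype.ofInjective r hr
  refine ⟨ι, inferInstance, Classical.decEq _, Ideal.Quotient.mk (Ideal.span ({z} : Set Gi)), hπ,
    ?_⟩
  have h1 := Fintype.card_le_of_injective r hr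
  rw [Fintype.card_coe, Finset.card_product, Int.card_Ico, Int.card_Ico] at h1
  have h2 : (((g - 0).toNat * (M - 0).toNat : ℕ) : ℤ) = z.norm := by
    push_cast
    rw [Int.toNat_of_nonneg (by omega), Int.toNat_of_nonneg (by omega), hN]
    ring
  rw [← h2]
  exact_mod_cast h1

/-- Cauchy-Schwarz for a positive semidefinite form split into classes -/
theorem psd_classes {n : ℕ} (K : Fin n → Fin n → ℝ)
    (hpsd : ∀ c : Fin n → ℝ, 0 ≤ ∑ i, ∑ j, c i * c j * K i j) {ι : Type} [Fintype ι]
    [DecidableEq ι] (p : Fin n → ι) (c : Fin n → ℝ) :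
    ∑ i, ∑ j, c i * c j * K i j ≤
      Fintype.card ι * ∑ i, ∑ j, (if p i = p j then c i * c j * K i j else 0) := by
  set B : (Fin n → ℝ) → (Fin n → ℝ) → ℝ := fun u v => ∑ i, ∑ j, u i * v j * K i j with hB
  set cq : ι → Fin n → ℝ := fun q i => if p i = q then c i else 0 with hcq
  have hdiff : ∀ u v, B (u - v) (u - v) = B u u - B u v - B v u + B v v := by
    intro u v
    simp only [hB, Pi.sub_apply]
    rw [← Finset.sum_sub_distrib, ← Finset.sum_sub_distrib, ← Finset.sum_add_distrib]
    apply Finset.sum_congr rfl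
    intro i _
    rw [← Finset.sum_sub_distrib, ← Finset.sum_sub_distrib, ← Finset.sum_add_distrib]
    apply Finset.sum_congr rfl
    intro j _
    ring
  have h1 : ∑ q, ∑ q', B (cq q) (cq q') = ∑ i, ∑ j, c i * c j * K i j := by
    simp only [hB]
    have e1 : ∀ i j, ∑ q, ∑ q', cq q i * cq q' j * K i j = c i * c j * K i j := by
      intro i j
      have e2 : ∑ q, cq q i = c i := by
        simp only [hcq]
        rw [Finset.sum_ite_eq]
        simp
      have e3 : ∑ q, cq q j = c j := by
        simp only [hcq]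
        rw [Finset.sum_ite_eq]
        simp
      have e4 : ∀ q, ∑ q', cq q i * cq q' j * K i j = cq q i * (c j * K i j) := by
        intro q
        rw [← Finset.sum_mul, ← Finset.mul_sum, e3]
        ring
      rw [Finset.sum_congr rfl (fun q _ => e4 q), ← Finset.sum_mul, e2]
      ring
    calc ∑ q, ∑ q', ∑ i, ∑ j, cq q i * cq q' j * K i j
        = ∑ q, ∑ i, ∑ q', ∑ j, cq q i * cq q' j * K i j := by
          apply Finset.sum_congr rfl
          intro q _
          rw [Finset.sum_comm]
      _ = ∑ i, ∑ q, ∑ q', ∑ j, cq q i * cq q' j * K i j := by rw [Finset.sum_comm]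
      _ = ∑ i, ∑ q, ∑ j, ∑ q', cq q i * cq q' j * K i j := by
          apply Finset.sum_congr rfl
          intro i _
          apply Finset.sum_congr rfl
          intro q _
          rw [Finset.sum_comm]
      _ = ∑ i, ∑ j, ∑ q, ∑ q', cq q i * cq q' j * K i j := by
          apply Finset.sum_congr rfl
          intro i _
          rw [Finset.sum_comm]
      _ = ∑ i, ∑ j, c i * c j * K i j := by
          apply Finset.sum_congr rfl
          intro i _
          apply Finset.sum_congr rfl
          intro j _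
          exact e1 i j
  have h2 : ∑ q, B (cq q) (cq q) = ∑ i, ∑ j, (if p i = p j then c i * c j * K i j else 0) := by
    simp only [hB]
    have e1 : ∀ i j, ∑ q, cq q i * cq q j * K i j
        = if p i = p j then c i * c j * K i j else 0 := by
      intro i j
      rw [Finset.sum_eq_single (p i)]
      · simp only [hcq, if_true]
        by_cases h : p i = p j
        · rw [if_pos h, if_pos h.symm]
        · rw [if_neg h, if_neg (Ne.symm h)]
          ring
      · intro q _ hq
        simp only [hcq]
        rw [if_neg (Ne.symm hq)]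
        ring
      · intro h
        exact absurd (Finset.mem_univ _) h
    rw [Finset.sum_comm]
    apply Finset.sum_congr rfl
    intro i _
    rw [Finset.sum_comm]
    apply Finset.sum_congr rfl
    intro j _
    exact e1 i j
  have h3 : 0 ≤ ∑ q, ∑ q', B (cq q - cq q') (cq q - cq q') :=
    Finset.sum_nonneg (fun q _ => Finset.sum_nonneg (fun q' _ => hpsd _))
  have h4 : ∑ q, ∑ q', B (cq q - cq q') (cq q - cq q')
      = 2 * (Fintype.card ι * ∑ q, B (cq q) (cq q)) - 2 * ∑ q, ∑ q', B (cq q) (cq q') := by
    simp only [hdiff]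
    simp only [Finset.sum_add_distrib, Finset.sum_sub_distrib, Finset.sum_const,
      Finset.card_univ, nsmul_eq_mul]
    rw [← Finset.mul_sum]
    have e : ∑ q, ∑ q', B (cq q') (cq q) = ∑ q, ∑ q', B (cq q) (cq q') := Finset.sum_comm
    rw [e]
    ring
  rw [h4, h1, h2] at h3
  linarith

theorem f_mul_le (a : Gi → Gi → ℝ) (ha : Rad a) (D : Gi) (hD : D ≠ 0) (z : Gi) (hz : z ≠ 0) (t : T2) :
    f a (D * z) t ≤ z.norm * f a D (z • t) := by
  classical
  obtain ⟨ι, i1, i2, π, hπ, hcard⟩ := class_card z hz
  have hDz : D * z ≠ 0 := mul_ne_zero hD hz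
  have hNpos : (0 : ℝ) ≤ z.norm := by exact_mod_cast GaussianInt.norm_nonneg z
  set b : Gi → ℝ := fun w => z.norm * (if z ∣ w then a (D * z) w else 0) - a (D * z) w with hb
  set S := box (2 * ((D * z).re.natAbs + (D * z).im.natAbs)) with hS
  have hvan : ∀ w, w ∉ S → a (D * z) w = 0 := fun w hw => a_eq_zero_of_notMem_box a ha _ hDz w hw
  have hbS : ∀ w, w ∉ S → b w = 0 := by
    intro w hw
    simp only [hb]
    rw [hvan w hw]
    simp
  have hpsd : ∀ (n : ℕ) (x : Fin n → Gi) (c : Fin n → ℝ),
      0 ≤ ∑ i, ∑ j, c i * c j * b (x i - x j) := by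
    intro n x c
    have h1 := psd_classes (fun i j => a (D * z) (x i - x j)) (fun c => ha.psd _ hDz n x c)
      (fun i => π (x i)) c
    have h2 : ∑ i, ∑ j, c i * c j * b (x i - x j) = z.norm * ∑ i, ∑ j,
        (if π (x i) = π (x j) then c i * c j * a (D * z) (x i - x j) else 0)
        - ∑ i, ∑ j, c i * c j * a (D * z) (x i - x j) := by
      rw [Finset.mul_sum, ← Finset.sum_sub_distrib]
      apply Finset.sum_congr rfl
      intro i _
      rw [Finset.mul_sum, ← Finset.sum_sub_distrib]
      apply Finset.sum_congr rfl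
      intro j _
      simp only [hb]
      by_cases h : z ∣ x i - x j
      · rw [if_pos h, if_pos ((hπ _ _).mpr h)]
        ring
      · rw [if_neg h, if_neg (fun h' => h ((hπ _ _).mp h'))]
        ring
    rw [h2]
    have h3 : 0 ≤ ∑ i, ∑ j,
        (if π (x i) = π (x j) then c i * c j * a (D * z) (x i - x j) else 0) := by
      -- the class sum is nonnegative
      have e1 : ∑ i, ∑ j,
          (if π (x i) = π (x j) then c i * c j * a (D * z) (x i - x j) else 0)
          = ∑ q, ∑ i, ∑ j, (if π (x i) = q then c i else 0) * (if π (x j) = q then c j else 0) *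
            a (D * z) (x i - x j) := by
        symm
        rw [Finset.sum_comm]
        apply Finset.sum_congr rfl
        intro i _
        rw [Finset.sum_comm]
        apply Finset.sum_congr rfl
        intro j _
        rw [Finset.sum_eq_single (π (x i))]
        · rw [if_pos rfl]
          by_cases h : π (x i) = π (x j)
          · rw [if_pos h, if_pos h.symm]
          · rw [if_neg h, if_neg (Ne.symm h)]
            ring
        · intro q _ hq
          rw [if_neg (Ne.symm hq)]
          ring
        · intro h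
          exact absurd (Finset.mem_univ _) h
      rw [e1]
      exact Finset.sum_nonneg (fun q _ => ha.psd _ hDz n x (fun i => if π (x i) = q then c i else 0))
    have h4 : (Fintype.card ι : ℝ) ≤ z.norm := by exact_mod_cast hcard
    have h5 := mul_le_mul_of_nonneg_right h4 h3
    linarith
  have hmain := trig_nonneg b S hbS hpsd t
  -- rewrite the sum
  have h6 : ∑ w ∈ S, b w * (E (w • t)).re = z.norm * (∑ w ∈ S.filter (fun w => z ∣ w),
      a (D * z) w * (E (w • t)).re) - f a (D * z) t := by
    unfold f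
    rw [← hS, Finset.sum_filter, Finset.mul_sum, ← Finset.sum_sub_distrib]
    apply Finset.sum_congr rfl
    intro w _
    simp only [hb]
    split_ifs <;> ring
  have hscale : ∀ w', a (D * z) (w' * z) = a D w' := by
    intro w'
    apply ha.norm _ _ _ _ hDz hD
    rw [Zsqrtd.norm_mul, Zsqrtd.norm_mul]
    ring
  have h7 : ∑ w ∈ S.filter (fun w => z ∣ w), a (D * z) w * (E (w • t)).re = f a D (z • t) := by
    set S0 := box (2 * (D.re.natAbs + D.im.natAbs)) with hS0
    have hinj : ∀ w ∈ S0, ∀ w' ∈ S0, w * z = w' * z → w = w' := by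
      intro w _ w' _ h
      exact mul_right_cancel₀ hz h
    have e1 : f a D (z • t) = ∑ w ∈ S0.image (fun w => w * z), a (D * z) w * (E (w • t)).re := by
      rw [Finset.sum_image hinj]
      unfold f
      apply Finset.sum_congr rfl
      intro w _
      rw [hscale, mul_smul]
    rw [e1]
    have e2 : ∑ w ∈ S.filter (fun w => z ∣ w), a (D * z) w * (E (w • t)).re
        = ∑ w ∈ S.filter (fun w => z ∣ w) ∪ S0.image (fun w => w * z),
          a (D * z) w * (E (w • t)).re := by
      apply Finset.sum_subset Finset.subset_union_left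
      intro w hw hw'
      rw [Finset.mem_union] at hw
      rcases hw with h | h
      · exact absurd h hw'
      · rw [Finset.mem_image] at h
        obtain ⟨v, _, rfl⟩ := h
        have h8 : v * z ∉ S := by
          intro h9
          exact hw' (Finset.mem_filter.mpr ⟨h9, Dvd.intro_left v rfl⟩)
        rw [hvan _ h8, zero_mul]
    have e3 : ∑ w ∈ S0.image (fun w => w * z), a (D * z) w * (E (w • t)).re
        = ∑ w ∈ S.filter (fun w => z ∣ w) ∪ S0.image (fun w => w * z),
          a (D * z) w * (E (w • t)).re := by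
      apply Finset.sum_subset Finset.subset_union_right
      intro w hw hw'
      rw [Finset.mem_union] at hw
      rcases hw with h | h
      · rw [Finset.mem_filter] at h
        obtain ⟨v, hv⟩ := h.2
        have h8 : v ∉ S0 := by
          intro h9
          apply hw'
          rw [Finset.mem_image]
          exact ⟨v, h9, by rw [hv, mul_comm]⟩
        have h9 : a (D * z) w = 0 := by
          rw [hv, mul_comm z v, hscale]
          exact a_eq_zero_of_notMem_box a ha D hD v h8
        rw [h9, zero_mul]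
      · exact absurd h hw'
    rw [e2, e3]
  rw [h6, h7] at hmain
  linarith

end D6
export D6 (f_mul_le)
end Pool.Agent.Helper378.PD
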