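import Pool.Agent.Helper378.PD.Base
import Pool.Agent.Helper378.PD.D1
import Pool.Agent.Helper378.PD.D4
import Pool.Agent.Helper378.PD.D5
import Pool.Agent.Helper378.PD.D6
set_option autoImplicit false
open MeasureTheory
namespace Pool.Agent.Helper378.PD
namespace E1
/-! TARGETS -/

lemma norm_pos' {D : Gi} (hD : D ≠ 0) : (0 : ℝ) < D.norm := by
  have := GaussianInt.norm_pos.2 hD
  exact_mod_cast this

lemma norm_ge_one {D : Gi} (hD : D ≠ 0) : (1 : ℝ) ≤ D.norm := by
  have := GaussianInt.norm_pos.2 hD
  have h : (1 : ℤ) ≤ D.norm := this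
  exact_mod_cast h

lemma int_cont {g : T2 → ℝ} (hg : Continuous g) : Integrable g := by
  have := (hg.continuousOn (s := Set.univ)).integrableOn_compact (μ := (volume : Measure T2))
    isCompact_univ
  rwa [integrableOn_univ] at this

lemma lint_f (a : Gi → Gi → ℝ) (ha : Rad a) (D : Gi) (hD : D ≠ 0) :
    ∫⁻ t : T2, ENNReal.ofReal (f a D t) = 1 := by
  have h := nu_prob a ha D hD
  have h1 : nu a D Set.univ = 1 := h.measure_univ
  unfold nu at h1
  rwa [withDensity_apply _ MeasurableSet.univ, Measure.restrict_univ] at h1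

theorem cond_tail (a : Gi → Gi → ℝ) (ha : Rad a) (D : Gi) (hD : D ≠ 0) (z : Gi) (hz : z ≠ 0) (s : ℝ) (hs : 0 ≤ s) :
    (nu a (D * z)) {t | f a (D * z) t ≤ s * (z.norm * f a D (z • t))} ≤ ENNReal.ofReal (s * z.norm) := by
  have hDz : D * z ≠ 0 := mul_ne_zero hD hz
  have hcz := continuous_smulGi z
  have hcD := f_continuous a ha D hD
  have hcDz := f_continuous a ha (D * z) hDz
  have hzn := norm_pos' hz
  have hS : MeasurableSet {t : T2 | f a (D * z) t ≤ s * (z.norm * f a D (z • t))} := by
    refine (isClosed_le hcDz ?_).measurableSet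
    exact continuous_const.mul (continuous_const.mul (hcD.comp hcz))
  unfold nu
  rw [withDensity_apply _ hS]
  calc ∫⁻ t in {t : T2 | f a (D * z) t ≤ s * (z.norm * f a D (z • t))},
        ENNReal.ofReal (f a (D * z) t)
      ≤ ∫⁻ t in {t : T2 | f a (D * z) t ≤ s * (z.norm * f a D (z • t))},
        ENNReal.ofReal (s * z.norm) * ENNReal.ofReal (f a D (z • t)) := by
        refine setLIntegral_mono' hS fun t ht => ?_
        rw [← ENNReal.ofReal_mul (by positivity)]
        refine ENNReal.ofReal_le_ofReal ?_
        have : f a (D * z) t ≤ s * (z.norm * f a D (z • t)) := ht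
        linarith [mul_assoc s (z.norm : ℝ) (f a D (z • t))]
    _ ≤ ∫⁻ t : T2, ENNReal.ofReal (s * z.norm) * ENNReal.ofReal (f a D (z • t)) :=
        setLIntegral_le_lintegral _ _
    _ = ENNReal.ofReal (s * z.norm) * ∫⁻ t : T2, ENNReal.ofReal (f a D (z • t)) :=
        lintegral_const_mul' _ _ ENNReal.ofReal_ne_top
    _ = ENNReal.ofReal (s * z.norm) * ∫⁻ t : T2, ENNReal.ofReal (f a D t) := by
        congr 1
        conv_rhs => rw [← volume_map z hz]
        rw [lintegral_map (hcD.measurable.ennreal_ofReal) hcz.measurable]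
    _ = ENNReal.ofReal (s * z.norm) := by rw [lint_f a ha D hD, mul_one]

lemma int_flogf (a : Gi → Gi → ℝ) (ha : Rad a) (D : Gi) (hD : D ≠ 0) :
    Integrable (fun t => f a D t * Real.log (f a D t)) :=
  int_cont (Real.continuous_mul_log.comp (f_continuous a ha D hD))

lemma int_f (a : Gi → Gi → ℝ) (ha : Rad a) (D : Gi) (hD : D ≠ 0) : Integrable (f a D) :=
  int_cont (f_continuous a ha D hD)

lemma flogf_le (a : Gi → Gi → ℝ) (ha : Rad a) (D : Gi) (hD : D ≠ 0) (t : T2) :
    f a D t * Real.log (f a D t) ≤ f a D t * Real.log (25 * D.norm) := by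
  rcases (f_nonneg a ha D hD t).eq_or_lt with h | h
  · rw [← h]; simp
  · exact mul_le_mul_of_nonneg_left (Real.log_le_log h (f_le a ha D hD t)) h.le

theorem dd_ge (a : Gi → Gi → ℝ) (ha : Rad a) (D : Gi) (hD : D ≠ 0) : -Real.log 25 ≤ dd a D := by
  have hn := norm_pos' hD
  have h1 : ∫ t, f a D t * Real.log (f a D t) ≤ ∫ t, f a D t * Real.log (25 * D.norm) :=
    integral_mono (int_flogf a ha D hD) ((int_f a ha D hD).mul_const _) (flogf_le a ha D hD)
  rw [integral_mul_const, integral_f a ha D hD, one_mul,
    Real.log_mul (by norm_num) hn.ne'] at h1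
  unfold dd
  linarith

theorem dd_mono (a : Gi → Gi → ℝ) (ha : Rad a) (D : Gi) (hD : D ≠ 0) (z : Gi) (hz : z ≠ 0) : dd a D ≤ dd a (D * z) := by
  have hDz : D * z ≠ 0 := mul_ne_zero hD hz
  have hcz := continuous_smulGi z
  have hcD := f_continuous a ha D hD
  have hcDz := f_continuous a ha (D * z) hDz
  have hzn := norm_pos' hz
  have hDn := norm_pos' hD
  -- integrability of the mixed function
  have hmeas : Measurable fun t : T2 => f a (D * z) t * Real.log (f a D (z • t)) :=
    hcDz.measurable.mul (Real.measurable_log.comp (hcD.measurable.comp hcz.measurable))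
  have hmix : Integrable fun t : T2 => f a (D * z) t * Real.log (f a D (z • t)) := by
    have hdom : Integrable fun t : T2 =>
        (z.norm : ℝ) * |f a D (z • t) * Real.log (f a D (z • t))| :=
      int_cont (continuous_const.mul ((Real.continuous_mul_log.comp (hcD.comp hcz)).abs))
    refine hdom.mono' hmeas.aestronglyMeasurable ?_
    filter_upwards with t
    rw [Real.norm_eq_abs, abs_mul, abs_mul, abs_of_nonneg (f_nonneg a ha (D * z) hDz t),
      abs_of_nonneg (f_nonneg a ha D hD (z • t)), ← mul_assoc]
    exact mul_le_mul_of_nonneg_right (f_mul_le a ha D hD z hz t) (abs_nonneg _)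
  have hpt : ∀ t : T2, f a (D * z) t * Real.log (f a (D * z) t) ≤
      f a (D * z) t * Real.log z.norm + f a (D * z) t * Real.log (f a D (z • t)) := by
    intro t
    rcases (f_nonneg a ha (D * z) hDz t).eq_or_lt with h | h
    · rw [← h]; simp
    · have hle := f_mul_le a ha D hD z hz t
      have hpos : 0 < f a D (z • t) := by
        by_contra hn
        push Not at hn
        have : (z.norm : ℝ) * f a D (z • t) ≤ 0 := mul_nonpos_of_nonneg_of_nonpos hzn.le hn
        linarith
      rw [← mul_add, ← Real.log_mul hzn.ne' hpos.ne']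
      exact mul_le_mul_of_nonneg_left (Real.log_le_log h hle) h.le
  have h1 : ∫ t, f a (D * z) t * Real.log (f a (D * z) t) ≤
      ∫ t, (f a (D * z) t * Real.log z.norm + f a (D * z) t * Real.log (f a D (z • t))) :=
    integral_mono (int_flogf a ha (D * z) hDz)
      (((int_f a ha (D * z) hDz).mul_const _).add hmix) hpt
  rw [integral_add ((int_f a ha (D * z) hDz).mul_const _) hmix, integral_mul_const,
    integral_f a ha (D * z) hDz, one_mul] at h1
  have h2 : ∫ t, f a (D * z) t * Real.log (f a D (z • t)) =
      ∫ t, f a D t * Real.log (f a D t) := by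
    rw [← integral_nu_real a ha (D * z) hDz (fun t => Real.log (f a D (z • t))),
      ← integral_nu_real a ha D hD (fun t => Real.log (f a D t)), ← nu_map a ha D hD z hz]
    rw [integral_map hcz.measurable.aemeasurable]
    exact (Real.measurable_log.comp hcD.measurable).aestronglyMeasurable
  rw [h2] at h1
  unfold dd
  have h3 : ((D * z).norm : ℝ) = D.norm * z.norm := by
    rw [Zsqrtd.norm_mul]; push_cast; ring
  rw [h3, Real.log_mul hDn.ne' hzn.ne']
  linarith

theorem dd_markov (a : Gi → Gi → ℝ) (ha : Rad a) (D : Gi) (hD : D ≠ 0) (s : ℝ) (hs : 0 < s) :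
    (nu a D) {t | f a D t ≤ 25 * D.norm * Real.exp (-s)} ≤ ENNReal.ofReal ((Real.log 25 + dd a D) / s) := by
  have hcD := f_continuous a ha D hD
  have hn := norm_pos' hD
  set S : Set T2 := {t | f a D t ≤ 25 * D.norm * Real.exp (-s)} with hSdef
  have hS : MeasurableSet S := (isClosed_le hcD continuous_const).measurableSet
  have hint := int_f a ha D hD
  have hnu : nu a D S = ENNReal.ofReal (∫ t in S, f a D t) := by
    unfold nu
    rw [withDensity_apply _ hS, ofReal_integral_eq_lintegral_ofReal hint.integrableOn]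
    filter_upwards with t using f_nonneg a ha D hD t
  rw [hnu]
  refine ENNReal.ofReal_le_ofReal ?_
  rw [le_div_iff₀ hs]
  have hh : Integrable fun t => f a D t * Real.log (25 * D.norm) - f a D t * Real.log (f a D t) :=
    (hint.mul_const _).sub (int_flogf a ha D hD)
  have h1 : ∫ t in S, s * f a D t ≤
      ∫ t in S, (f a D t * Real.log (25 * D.norm) - f a D t * Real.log (f a D t)) := by
    refine setIntegral_mono_on (hint.const_mul s).integrableOn hh.integrableOn hS fun t ht => ?_
    rcases (f_nonneg a ha D hD t).eq_or_lt with h | h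
    · rw [← h]; simp
    · have ht' : f a D t ≤ 25 * D.norm * Real.exp (-s) := ht
      have h2 : Real.log (f a D t) ≤ Real.log (25 * D.norm) - s := by
        have := Real.log_le_log h ht'
        rwa [Real.log_mul (by positivity) (Real.exp_pos _).ne', Real.log_exp] at this
      rw [← mul_sub, mul_comm s]
      exact mul_le_mul_of_nonneg_left (by linarith) h.le
  have h2 : ∫ t in S, (f a D t * Real.log (25 * D.norm) - f a D t * Real.log (f a D t)) ≤
      ∫ t, (f a D t * Real.log (25 * D.norm) - f a D t * Real.log (f a D t)) := by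
    refine setIntegral_le_integral hh ?_
    filter_upwards with t
    simp only [Pi.zero_apply]
    linarith [flogf_le a ha D hD t]
  rw [integral_sub (hint.mul_const _) (int_flogf a ha D hD), integral_mul_const,
    integral_f a ha D hD, one_mul] at h2
  rw [integral_const_mul] at h1
  have h3 : Real.log (25 * (D.norm : ℝ)) = Real.log 25 + Real.log D.norm :=
    Real.log_mul (by norm_num) hn.ne'
  unfold dd
  linarith [mul_comm s (∫ t in S, f a D t)]

end E1
export E1 (cond_tail dd_ge dd_mono dd_markov)
end Pool.Agent.Helper378.PD
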