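import Pool.Agent.Helper378.PD.Base
import Pool.Agent.Helper378.PD.D1
import Pool.Agent.Helper378.PD.D4
import Pool.Agent.Helper378.PD.D5
import Pool.Agent.Helper378.PD.D6
import Pool.Agent.Helper378.PD.E1
set_option autoImplicit false
open MeasureTheory
namespace Pool.Agent.Helper378.PD
namespace E2
/-! TARGETS -/


theorem dd_spread (a : Gi → Gi → ℝ) (ha : Rad a) (D : Gi) (hD : D ≠ 0) (z : Gi) (hz : z ≠ 0) (κ : ℝ) (hκ : 0 < κ) (hκ1 : κ ≤ 1)
    (hz1 : 4 / κ ≤ z.norm) (h : κ * Real.log z.norm ≤ dd a (D * z) - dd a D) :
    κ / 16 ≤ ((nu a (D * z)) {t | f a (D * z) t ≤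
      Real.exp (-(κ / 4) * Real.log z.norm) * (z.norm * f a D (z • t))}).toReal := by
  have hDz : D * z ≠ 0 := mul_ne_zero hD hz
  have hDn : (0 : ℝ) < D.norm := by exact_mod_cast GaussianInt.norm_pos.mpr hD
  have hzn : (0 : ℝ) < z.norm := by exact_mod_cast GaussianInt.norm_pos.mpr hz
  set N : ℝ := (z.norm : ℝ) with hN
  set L : ℝ := Real.log N with hL
  have hN4 : 4 ≤ N := by
    refine le_trans ?_ hz1
    rw [le_div_iff₀ hκ]; linarith
  have hL1 : 1 ≤ L := by
    rw [hL, Real.le_log_iff_exp_le hzn]
    have := Real.exp_one_lt_d9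
    linarith
  have hNinv : 1 / N ≤ κ / 4 := by
    rw [div_le_iff₀ hκ] at hz1
    rw [div_le_iff₀ hzn]
    linarith
  set p : T2 → ℝ := fun t => f a (D * z) t with hp
  set g : T2 → ℝ := fun t => f a D (z • t) with hg
  have hpc : Continuous p := f_continuous a ha _ hDz
  have hgc : Continuous g := (f_continuous a ha _ hD).comp (continuous_smulGi z)
  have hp0 : ∀ t, 0 ≤ p t := fun t => f_nonneg a ha _ hDz t
  have hg0 : ∀ t, 0 ≤ g t := fun t => f_nonneg a ha _ hD _
  have hpg : ∀ t, p t ≤ N * g t := fun t => f_mul_le a ha D hD z hz t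
  have hint : ∀ F : T2 → ℝ, Continuous F → Integrable F (volume : Measure T2) := fun F hF =>
    hF.integrable_of_hasCompactSupport (HasCompactSupport.of_compactSpace _)
  have hpi : Integrable p (volume : Measure T2) := hint p hpc
  have hgi : Integrable g (volume : Measure T2) := hint g hgc
  have hplog : Integrable (fun t => p t * Real.log (p t)) (volume : Measure T2) :=
    hint _ (Real.continuous_mul_log.comp hpc)
  have hglog : Integrable (fun t => N * (g t * Real.log (g t))) (volume : Measure T2) :=
    hint _ (continuous_const.mul (Real.continuous_mul_log.comp hgc))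
  have hmix : Integrable (fun t => p t * Real.log (g t)) (volume : Measure T2) := by
    apply hglog.mono
    · exact (hpc.measurable.mul (Real.measurable_log.comp hgc.measurable)).aestronglyMeasurable
    · refine Filter.Eventually.of_forall fun t => ?_
      rw [Real.norm_eq_abs, Real.norm_eq_abs, ← mul_assoc, abs_mul, abs_mul (N * g t), abs_of_nonneg (hp0 t),
        abs_of_nonneg (mul_nonneg hzn.le (hg0 t))]
      exact mul_le_mul_of_nonneg_right (hpg t) (abs_nonneg _)
  have hpone : ∫ t, p t = 1 := integral_f a ha _ hDz
  have hgone : ∫ t, g t = 1 := by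
    have h1 : ∫ t, g t = ∫ t, f a D t ∂((volume : Measure T2).map (fun t => z • t)) := by
      rw [integral_map (continuous_smulGi z).measurable.aemeasurable]
      exact (f_continuous a ha _ hD).aestronglyMeasurable
    rw [h1, volume_map z hz]
    exact integral_f a ha _ hD
  have hmixeq : ∫ t, f a D t * Real.log (f a D t) = ∫ t, p t * Real.log (g t) := by
    have hm : Measurable (fun t => Real.log (f a D t)) := Real.measurable_log.comp (f_continuous a ha _ hD).measurable
    rw [← integral_nu_real a ha D hD (fun t => Real.log (f a D t)),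
      ← integral_nu_real a ha (D * z) hDz (fun t => Real.log (g t)), ← nu_map a ha D hD z hz,
      integral_map (continuous_smulGi z).measurable.aemeasurable hm.aestronglyMeasurable]
  have hdd : dd a (D * z) - dd a D = ∫ t, (L * p t - p t * Real.log (p t) + p t * Real.log (g t)) := by
    have q1 : ∫ t, (L * p t - p t * Real.log (p t) + p t * Real.log (g t)) =
        (∫ t, (L * p t - p t * Real.log (p t))) + ∫ t, p t * Real.log (g t) :=
      integral_add (f := fun t => L * p t - p t * Real.log (p t)) ((hpi.const_mul L).sub hplog) hmix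
    rw [q1, integral_sub (hpi.const_mul L) hplog, integral_const_mul, hpone]
    unfold dd
    rw [hmixeq, Zsqrtd.norm_mul, Int.cast_mul, Real.log_mul hDn.ne' hzn.ne']
    ring
  set A : Set T2 := {t | f a (D * z) t ≤ Real.exp (-(κ / 4) * L) * (N * f a D (z • t))} with hA
  have hAm : MeasurableSet A :=
    measurableSet_le hpc.measurable ((hgc.measurable.const_mul N).const_mul _)
  have hnuA : ((nu a (D * z)) A).toReal = ∫ t, p t * A.indicator (fun _ => (1 : ℝ)) t := by
    rw [← integral_nu_real a ha (D * z) hDz]
    have := integral_indicator_one (μ := nu a (D * z)) hAm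
    rw [measureReal_def] at this
    rw [← this]
    rfl
  have hAi : Integrable (fun t => p t * A.indicator (fun _ => (1 : ℝ)) t) (volume : Measure T2) := by
    apply hpi.mono
    · exact (hpc.measurable.mul (measurable_const.indicator hAm)).aestronglyMeasurable
    · refine Filter.Eventually.of_forall fun t => ?_
      rw [Real.norm_eq_abs, Real.norm_eq_abs, abs_mul]
      refine (mul_le_mul_of_nonneg_left ?_ (abs_nonneg _)).trans (mul_one _).le
      by_cases ht : t ∈ A
      · rw [Set.indicator_of_mem ht]; simp
      · rw [Set.indicator_of_notMem ht]; simp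
  have hpt : ∀ t, L * p t - p t * Real.log (p t) + p t * Real.log (g t) ≤
      (κ / 4) * L * p t + 4 * L * (p t * A.indicator (fun _ => (1 : ℝ)) t) + (1 / N) * g t := by
    intro t
    rcases (hp0 t).eq_or_lt with h0 | h0
    · rw [← h0]
      have := hg0 t
      have : 0 ≤ 1 / N * g t := by positivity
      simpa using this
    · have hNg : 0 < N * g t := lt_of_lt_of_le h0 (hpg t)
      have hgpos : 0 < g t := by
        by_contra hcon
        have : g t = 0 := le_antisymm (not_lt.mp hcon) (hg0 t)
        rw [this, mul_zero] at hNg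
        exact lt_irrefl _ hNg
      obtain ⟨X, hX⟩ : ∃ X, X = L + Real.log (g t) - Real.log (p t) := ⟨_, rfl⟩
      have e1 : L * p t - p t * Real.log (p t) + p t * Real.log (g t) = p t * X := by rw [hX]; ring
      have hexp : Real.exp (-X) * (N * g t) = p t := by
        have : -X = Real.log (p t) - (Real.log N + Real.log (g t)) := by rw [hX, hL]; ring
        rw [this, Real.exp_sub, Real.exp_log h0, ← Real.log_mul hzn.ne' hgpos.ne', Real.exp_log hNg]
        field_simp
      have hmem : t ∈ A ↔ κ / 4 * L ≤ X := by
        show p t ≤ Real.exp (-(κ / 4) * L) * (N * g t) ↔ _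
        rw [← hexp, mul_le_mul_iff_left₀ (by rw [hexp] at *; exact hNg), Real.exp_le_exp]
        constructor <;> intro h <;> linarith
      rw [e1]
      by_cases ht : t ∈ A
      · rw [Set.indicator_of_mem ht, mul_one]
        rcases le_total X (4 * L) with h4 | h4
        · have : p t * X ≤ p t * (4 * L) := mul_le_mul_of_nonneg_left h4 (hp0 t)
          have h5 : 0 ≤ κ / 4 * L * p t := by positivity
          have h6 : 0 ≤ 1 / N * g t := by positivity
          linarith
        · have h5 : X ≤ Real.exp (X / 2) := by
            have h7 := Real.quadratic_le_exp_of_nonneg (x := X / 2) (by linarith)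
            nlinarith [sq_nonneg (X / 2 - 1)]
          have h6 : p t * Real.exp (X / 2) ≤ 1 / N * g t := by
            have h7 : p t * Real.exp (X / 2) = Real.exp (- (X / 2)) * (N * g t) := by
              rw [← hexp]
              have : Real.exp (-X) = Real.exp (-(X / 2)) * Real.exp (-(X / 2)) := by
                rw [← Real.exp_add]; congr 1; ring
              rw [this]
              have h8 : Real.exp (-(X / 2)) * Real.exp (X / 2) = 1 := by
                rw [← Real.exp_add]; simp
              calc Real.exp (-(X / 2)) * Real.exp (-(X / 2)) * (N * g t) * Real.exp (X / 2) =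
                  Real.exp (-(X / 2)) * (N * g t) * (Real.exp (-(X / 2)) * Real.exp (X / 2)) := by ring
                _ = _ := by rw [h8, mul_one]
            rw [h7]
            have h8 : Real.exp (-(X / 2)) ≤ Real.exp (-(2 * L)) := Real.exp_le_exp.mpr (by linarith)
            have h9 : Real.exp (-(2 * L)) = 1 / N * (1 / N) := by
              have : -(2 * L) = -L + -L := by ring
              rw [this, Real.exp_add, Real.exp_neg, hL, Real.exp_log hzn, one_div]
            calc Real.exp (-(X / 2)) * (N * g t) ≤ Real.exp (-(2 * L)) * (N * g t) :=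
                  mul_le_mul_of_nonneg_right h8 hNg.le
              _ = 1 / N * g t := by rw [h9]; field_simp
          have h7 : p t * X ≤ p t * Real.exp (X / 2) := mul_le_mul_of_nonneg_left h5 (hp0 t)
          have h8 : 0 ≤ κ / 4 * L * p t := by positivity
          have h9 : 0 ≤ 4 * L * p t := by positivity
          linarith
      · rw [Set.indicator_of_notMem ht, mul_zero, mul_zero, add_zero]
        rw [hmem, not_le] at ht
        have : p t * X ≤ p t * (κ / 4 * L) := mul_le_mul_of_nonneg_left ht.le (hp0 t)
        have h6 : 0 ≤ 1 / N * g t := by positivity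
        linarith
  have hfin : dd a (D * z) - dd a D ≤ (κ / 4) * L + 4 * L * ((nu a (D * z)) A).toReal + 1 / N := by
    rw [hdd, hnuA]
    have h1 := integral_mono (((hpi.const_mul L).sub hplog).add hmix)
      (((hpi.const_mul (κ / 4 * L)).add (hAi.const_mul (4 * L))).add (hgi.const_mul (1 / N))) hpt
    refine h1.trans (le_of_eq ?_)
    have h2 : ∫ t, ((fun t => κ / 4 * L * p t) + (fun t => 4 * L * (p t * A.indicator (fun _ => (1 : ℝ)) t)) + fun t => 1 / N * g t) t
        = (κ / 4) * L + 4 * L * (∫ t, p t * A.indicator (fun _ => (1 : ℝ)) t) + 1 / N := by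
      rw [integral_add' ((hpi.const_mul (κ / 4 * L)).add (hAi.const_mul (4 * L))) (hgi.const_mul (1 / N)),
        integral_add' (hpi.const_mul (κ / 4 * L)) (hAi.const_mul (4 * L)), integral_const_mul, integral_const_mul,
        integral_const_mul, hpone, hgone]
      ring
    exact h2
  have hLpos : 0 < L := by linarith
  have h3 : κ * L ≤ (κ / 4) * L + 4 * L * ((nu a (D * z)) A).toReal + κ / 4 * L := by
    have : κ / 4 ≤ κ / 4 * L := le_mul_of_one_le_right (by positivity) hL1
    linarith
  have h4 : κ / 8 ≤ ((nu a (D * z)) A).toReal := by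
    by_contra hcon
    rw [not_le] at hcon
    have : 4 * L * ((nu a (D * z)) A).toReal < 4 * L * (κ / 8) := mul_lt_mul_of_pos_left hcon (by positivity)
    nlinarith
  linarith

end E2
export E2 (dd_spread)
end Pool.Agent.Helper378.PD
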