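import Pool.Agent.Helper378.PD.Base
import Pool.Agent.Helper378.PD.E1
set_option autoImplicit false
open MeasureTheory
namespace Pool.Agent.Helper378.PD
namespace E3
/-! TARGETS -/

theorem chain (a : Gi → Gi → ℝ) (ha : Rad a) (c : ℝ) (hc : 0 < c)
    (h : ∀ k0 : ℕ, ∃ k ≥ k0, c * k ≤ dd a ((⟨2, 1⟩ : Gi) ^ k)) (m : ℕ) (hm : 1 ≤ m)
    (M1 : Gi) (hM1 : M1 ≠ 0) :
    ∃ l : ℕ, c / 2 * m ≤ dd a (M1 * (⟨2, 1⟩ : Gi) ^ (m * (l + 1))) - dd a (M1 * (⟨2, 1⟩ : Gi) ^ (m * l)) := by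
  by_contra hcon
  push Not at hcon
  have hp : (⟨2, 1⟩ : Gi) ≠ 0 := by
    intro h0
    have := congrArg Zsqrtd.re h0
    simp at this
  generalize (⟨2, 1⟩ : Gi) = p at h hcon hp
  have tele : ∀ I : ℕ, dd a (M1 * p ^ (m * I)) ≤ dd a M1 + c / 2 * m * I := by
    intro I
    induction I with
    | zero => simp
    | succ I ih =>
      have := hcon I
      push_cast
      linarith
  obtain ⟨N, hN⟩ := exists_nat_gt ((m : ℝ) + 2 * dd a M1 / c)
  obtain ⟨k, hk, hck⟩ := h N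
  have hkN : (N : ℝ) ≤ k := by exact_mod_cast hk
  have h1 : k ≤ m * (k / m + 1) := (Nat.lt_mul_div_succ k (by omega)).le
  have h2 : m * (k / m + 1) ≤ k + m := by
    have := Nat.mul_div_le k m
    rw [Nat.mul_add]; omega
  set I := k / m + 1 with hI
  have h3 : dd a (p ^ k) ≤ dd a (M1 * p ^ (m * I)) := by
    have e : M1 * p ^ (m * I) = p ^ k * (p ^ (m * I - k) * M1) := by
      rw [← mul_assoc, ← pow_add, Nat.add_sub_cancel' h1, mul_comm]
    rw [e]
    exact dd_mono a ha _ (pow_ne_zero _ hp) _ (mul_ne_zero (pow_ne_zero _ hp) hM1)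
  have h4 := tele I
  have h5 : (m : ℝ) * I ≤ k + m := by exact_mod_cast h2
  have h6 : c / 2 * m * I ≤ c / 2 * (k + m) := by
    rw [mul_assoc]; exact mul_le_mul_of_nonneg_left h5 (by positivity)
  have h7 : (m : ℝ) + 2 * dd a M1 / c < k := lt_of_lt_of_le hN hkN
  have h8 : c * ((m : ℝ) + 2 * dd a M1 / c) < c * k := mul_lt_mul_of_pos_left h7 hc
  have h9 : c * ((m : ℝ) + 2 * dd a M1 / c) = c * m + 2 * dd a M1 := by
    field_simp
  rw [h9] at h8
  linarith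

end E3
export E3 (chain)
end Pool.Agent.Helper378.PD
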