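import Pool.Agent.Helper378.PD.Base
import Pool.Agent.Helper378.PD.D1
import Pool.Agent.Helper378.PD.D4
import Pool.Agent.Helper378.PD.D5
import Pool.Agent.Helper378.PD.D6
set_option autoImplicit false
open MeasureTheory
namespace Pool.Agent.Helper378.PD
namespace E4
/-! TARGETS -/

theorem ho_int {g : T2 → ℂ} (hg : Continuous g) : Integrable g (volume : Measure T2) :=
  hg.integrable_of_hasCompactSupport (HasCompactSupport.of_compactSpace g)

theorem ho_intR {g : T2 → ℝ} (hg : Continuous g) : Integrable g (volume : Measure T2) :=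
  hg.integrable_of_hasCompactSupport (HasCompactSupport.of_compactSpace g)

theorem ho_div (a : Gi → Gi → ℝ) (ha : Rad a) (D : Gi) (hD : D ≠ 0) (z : Gi) (hz : z ≠ 0)
    (v : Gi) (hv : z ∣ v) :
    (∫ t : T2, (f a D (z • t) : ℂ) * E (v • t)).re ≤ 1 := by
  obtain ⟨v', rfl⟩ := hv
  have h1 : ∀ t : T2, E ((z * v') • t) = E (v' • (z • t)) := by
    intro t
    rw [mul_comm, mul_smul]
  simp only [h1]
  have hc : Continuous (fun y : T2 => (f a D y : ℂ) * E (v' • y)) :=
    (Complex.continuous_ofReal.comp (f_continuous a ha D hD)).mul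
      (continuous_E.comp (continuous_smulGi v'))
  have h2 : ∫ t : T2, (f a D (z • t) : ℂ) * E (v' • (z • t)) =
      ∫ y, (f a D y : ℂ) * E (v' • y) ∂((volume : Measure T2).map (fun t => z • t)) := by
    rw [integral_map (continuous_smulGi z).aemeasurable]
    exact hc.aestronglyMeasurable
  rw [h2, volume_map z hz, ← integral_nu a ha D hD (fun t => E (v' • t)), nu_coeff a ha D hD,
    Complex.ofReal_re]
  exact (abs_le.1 (a_abs_le a ha D hD v')).2

theorem ho_ndiv (a : Gi → Gi → ℝ) (ha : Rad a) (D : Gi) (hD : D ≠ 0) (z : Gi) (hz : z ≠ 0)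
    (v : Gi) (hv : ¬ z ∣ v) :
    ∫ t : T2, (f a D (z • t) : ℂ) * E (v • t) = 0 := by
  have h1 : ∀ t : T2, (f a D (z • t) : ℂ) * E (v • t) =
      ∑ u ∈ box (2 * (D.re.natAbs + D.im.natAbs)),
        ((a D u : ℂ) / 2) * (E ((u * z + v) • t) + E ((-(u * z) + v) • t)) := by
    intro t
    unfold f
    push_cast
    rw [Finset.sum_mul]
    apply Finset.sum_congr rfl
    intro u _
    rw [Complex.re_eq_add_conj, ← E_neg, add_smul, add_smul, E_add, E_add, neg_smul, mul_smul]
    ring
  simp only [h1]
  have hcE : ∀ x : Gi, Continuous (fun t : T2 => E (x • t)) := fun x =>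
    continuous_E.comp (continuous_smulGi x)
  rw [integral_finsetSum]
  · apply Finset.sum_eq_zero
    intro u _
    rw [integral_const_mul, integral_add (ho_int (hcE _)) (ho_int (hcE _)), integral_E, integral_E,
      if_neg, if_neg]
    · simp
    · intro h
      apply hv
      have : v = z * u := by linear_combination h
      exact ⟨u, this⟩
    · intro h
      apply hv
      have : v = z * (-u) := by linear_combination h
      exact ⟨-u, this⟩
  · intro u _
    exact ho_int (continuous_const.mul ((hcE _).add (hcE _)))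

theorem ho_expand {n : ℕ} (w : Fin n → Gi) (t : T2) :
    ((‖∑ i, E (w i • t)‖ ^ 2 : ℝ) : ℂ) = ∑ p : Fin n × Fin n, E ((w p.1 - w p.2) • t) := by
  push_cast
  rw [← Complex.mul_conj', map_sum, Finset.sum_mul_sum, Fintype.sum_prod_type]
  apply Finset.sum_congr rfl
  intro i _
  apply Finset.sum_congr rfl
  intro j _
  rw [← E_neg, ← E_add, sub_smul, sub_eq_add_neg]

open Classical in
theorem ho_pairs (a : Gi → Gi → ℝ) (ha : Rad a) (D : Gi) (hD : D ≠ 0) (z : Gi) (hz : z ≠ 0)
    (n : ℕ) (w : Fin n → Gi) :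
    ∫ t : T2, f a D (z • t) * ‖∑ i, E (w i • t)‖ ^ 2 ≤
      (Finset.univ.filter (fun p : Fin n × Fin n => z ∣ w p.1 - w p.2)).card := by
  have hcE : ∀ x : Gi, Continuous (fun t : T2 => E (x • t)) := fun x =>
    continuous_E.comp (continuous_smulGi x)
  have hcf : Continuous (fun t : T2 => (f a D (z • t) : ℂ)) :=
    Complex.continuous_ofReal.comp ((f_continuous a ha D hD).comp (continuous_smulGi z))
  have h1 : ((∫ t : T2, f a D (z • t) * ‖∑ i, E (w i • t)‖ ^ 2 : ℝ) : ℂ) =
      ∑ p : Fin n × Fin n, ∫ t : T2, (f a D (z • t) : ℂ) * E ((w p.1 - w p.2) • t) := by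
    rw [← integral_complex_ofReal, ← integral_finsetSum]
    · apply integral_congr_ae
      refine Filter.Eventually.of_forall fun t => ?_
      show ((f a D (z • t) * ‖∑ i, E (w i • t)‖ ^ 2 : ℝ) : ℂ) = _
      rw [Complex.ofReal_mul, ho_expand, Finset.mul_sum]
    · intro p _
      exact ho_int (hcf.mul (hcE _))
  have h2 := congrArg Complex.re h1
  rw [Complex.ofReal_re, Complex.re_sum] at h2
  rw [h2]
  calc ∑ p : Fin n × Fin n, (∫ t : T2, (f a D (z • t) : ℂ) * E ((w p.1 - w p.2) • t)).re
      ≤ ∑ p : Fin n × Fin n, (if z ∣ w p.1 - w p.2 then (1 : ℝ) else 0) := by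
        apply Finset.sum_le_sum
        intro p _
        split_ifs with h
        · exact ho_div a ha D hD z hz _ h
        · rw [ho_ndiv a ha D hD z hz _ h]
          simp
    _ = (Finset.univ.filter (fun p : Fin n × Fin n => z ∣ w p.1 - w p.2)).card := by
        rw [Finset.sum_boole]

open Classical in
theorem host (a : Gi → Gi → ℝ) (ha : Rad a) (D : Gi) (hD : D ≠ 0) (z : Gi) (hz : z ≠ 0) (n : ℕ) (w : Fin n → Gi) (s : ℝ) (hs : 0 ≤ s) :
    ∫ t in {t | f a (D * z) t ≤ s * (z.norm * f a D (z • t))}, ‖∑ i, E (w i • t)‖ ^ 2 ∂(nu a (D * z)) ≤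
      s * z.norm * (Finset.univ.filter (fun p : Fin n × Fin n => z ∣ w p.1 - w p.2)).card := by
  have hDz : D * z ≠ 0 := mul_ne_zero hD hz
  have hNz : (0 : ℝ) ≤ z.norm := by
    have : 0 ≤ z.norm := GaussianInt.norm_nonneg z
    exact_mod_cast this
  have hcF := f_continuous a ha (D * z) hDz
  have hcH : Continuous (fun t : T2 => f a D (z • t)) :=
    (f_continuous a ha D hD).comp (continuous_smulGi z)
  have hcg : Continuous (fun t : T2 => ‖∑ i, E (w i • t)‖ ^ 2) := by
    apply Continuous.pow
    apply Continuous.norm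
    apply continuous_finsetSum
    intro i _
    exact continuous_E.comp (continuous_smulGi (w i))
  have hSm : MeasurableSet {t : T2 | f a (D * z) t ≤ s * (z.norm * f a D (z • t))} := by
    apply IsClosed.measurableSet
    exact isClosed_le hcF (continuous_const.mul (continuous_const.mul hcH))
  rw [← integral_indicator hSm, integral_nu_real a ha (D * z) hDz]
  have hint : Integrable (fun t : T2 => s * z.norm * (f a D (z • t) * ‖∑ i, E (w i • t)‖ ^ 2))
      (volume : Measure T2) := ho_intR (continuous_const.mul (hcH.mul hcg))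
  have hH0 : ∀ t, 0 ≤ f a D (z • t) := fun t => f_nonneg a ha D hD _
  calc ∫ t : T2, f a (D * z) t *
        Set.indicator {t : T2 | f a (D * z) t ≤ s * (z.norm * f a D (z • t))}
          (fun t => ‖∑ i, E (w i • t)‖ ^ 2) t
      ≤ ∫ t : T2, s * z.norm * (f a D (z • t) * ‖∑ i, E (w i • t)‖ ^ 2) := by
        apply integral_mono_of_nonneg
        · refine Filter.Eventually.of_forall fun t => ?_
          apply mul_nonneg (f_nonneg a ha (D * z) hDz t)
          apply Set.indicator_nonneg
          intro t _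
          positivity
        · exact hint
        · refine Filter.Eventually.of_forall fun t => ?_
          show f a (D * z) t * _ ≤ s * z.norm * (f a D (z • t) * ‖∑ i, E (w i • t)‖ ^ 2)
          by_cases ht : t ∈ {t : T2 | f a (D * z) t ≤ s * (z.norm * f a D (z • t))}
          · rw [Set.indicator_of_mem ht]
            have h1 : f a (D * z) t ≤ s * (z.norm * f a D (z • t)) := ht
            calc f a (D * z) t * ‖∑ i, E (w i • t)‖ ^ 2
                ≤ (s * (z.norm * f a D (z • t))) * ‖∑ i, E (w i • t)‖ ^ 2 :=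
                  mul_le_mul_of_nonneg_right h1 (by positivity)
              _ = s * z.norm * (f a D (z • t) * ‖∑ i, E (w i • t)‖ ^ 2) := by ring
          · rw [Set.indicator_of_notMem ht, mul_zero]
            have := hH0 t
            positivity
    _ = s * z.norm * ∫ t : T2, f a D (z • t) * ‖∑ i, E (w i • t)‖ ^ 2 := by
        rw [integral_const_mul]
    _ ≤ s * z.norm * (Finset.univ.filter (fun p : Fin n × Fin n => z ∣ w p.1 - w p.2)).card :=
        mul_le_mul_of_nonneg_left (ho_pairs a ha D hD z hz n w) (by positivity)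

end E4
export E4 (host)
end Pool.Agent.Helper378.PD
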