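import Pool.Agent.Helper378.PD.Base
import Pool.Agent.Helper378.PD.D1
set_option autoImplicit false
open MeasureTheory
namespace Pool.Agent.Helper378.PD
namespace F1
/-! TARGETS -/

theorem ef_norm_imag (n : ℤ) (t : T2) : ‖(⟨0, n⟩ : Gi) • t‖ = ‖n • t‖ := by
  rw [smul_def]
  simp only [zero_smul, zero_sub, add_zero, Prod.norm_def, norm_neg, Prod.smul_fst, Prod.smul_snd]
  exact max_comm _ _

theorem ef_aux (m m' : ℕ) : star (⟨m', 1⟩ : Gi) * ⟨m, 1⟩ - star (⟨m, 1⟩ : Gi) * ⟨m', 1⟩ =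
    ⟨0, 2 * ((m' : ℤ) - m)⟩ := by
  rw [Zsqrtd.ext_iff]
  constructor
  · simp only [Zsqrtd.re_sub, Zsqrtd.re_mul, Zsqrtd.re_star, Zsqrtd.im_star]
    ring
  · simp only [Zsqrtd.im_sub, Zsqrtd.im_mul, Zsqrtd.re_star, Zsqrtd.im_star]
    ring

theorem ef_norm_le (m : ℕ) (t : T2) : ‖(⟨m, 1⟩ : Gi) • t‖ ≤ ((m : ℝ) + 1) * ‖t‖ := by
  have := norm_smulGi_le (⟨m, 1⟩ : Gi) t
  simpa using this

theorem ef_norm_le' (m : ℕ) (t : T2) : ‖star (⟨m, 1⟩ : Gi) • t‖ ≤ ((m : ℝ) + 1) * ‖t‖ := by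
  have := norm_smulGi_le (star (⟨m, 1⟩ : Gi)) t
  simpa using this

theorem ef_disj (M : ℕ) (t0 : T2) (r : ℝ) (hr : 0 ≤ r)
    (hno : ∀ k : ℕ, 1 ≤ k → k ≤ M → 2 * ((M : ℝ) + 1) ^ 2 * r < ‖((2 * k : ℕ) : ℤ) • t0‖)
    (m m' : ℕ) (hm' : m' ≤ M) (hlt : m < m') (t : T2)
    (h1 : ‖star (⟨m, 1⟩ : Gi) • t - (⟨m, 1⟩ : Gi) • t0‖ ≤ ((m : ℝ) + 1) * r)
    (h2 : ‖star (⟨m', 1⟩ : Gi) • t - (⟨m', 1⟩ : Gi) • t0‖ ≤ ((m' : ℝ) + 1) * r) : False := by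
  have k1 := (ef_norm_le' m' (star (⟨m, 1⟩ : Gi) • t - (⟨m, 1⟩ : Gi) • t0)).trans
    (mul_le_mul_of_nonneg_left h1 (by positivity))
  have k2 := (ef_norm_le' m (star (⟨m', 1⟩ : Gi) • t - (⟨m', 1⟩ : Gi) • t0)).trans
    (mul_le_mul_of_nonneg_left h2 (by positivity))
  have k3 : (star (⟨m', 1⟩ : Gi) * ⟨m, 1⟩ - star (⟨m, 1⟩ : Gi) * ⟨m', 1⟩) • t0 =
      star (⟨m, 1⟩ : Gi) • (star (⟨m', 1⟩ : Gi) • t - (⟨m', 1⟩ : Gi) • t0) -
      star (⟨m', 1⟩ : Gi) • (star (⟨m, 1⟩ : Gi) • t - (⟨m, 1⟩ : Gi) • t0) := by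
    rw [smul_sub, smul_sub, ← mul_smul, ← mul_smul, ← mul_smul, ← mul_smul, sub_smul,
      mul_comm (star (⟨m, 1⟩ : Gi)) (star (⟨m', 1⟩ : Gi))]
    abel
  have k4 : ‖(star (⟨m', 1⟩ : Gi) * ⟨m, 1⟩ - star (⟨m, 1⟩ : Gi) * ⟨m', 1⟩) • t0‖ ≤
      2 * ((M : ℝ) + 1) ^ 2 * r := by
    rw [k3]
    refine (norm_sub_le _ _).trans ?_
    have hm1 : (m : ℝ) + 1 ≤ (M : ℝ) + 1 := by
      have : (m : ℝ) ≤ M := by exact_mod_cast (hlt.le.trans hm')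
      linarith
    have hm2 : (m' : ℝ) + 1 ≤ (M : ℝ) + 1 := by
      have : (m' : ℝ) ≤ M := by exact_mod_cast hm'
      linarith
    have hmm : ((m : ℝ) + 1) * ((m' : ℝ) + 1) ≤ ((M : ℝ) + 1) ^ 2 := by
      rw [sq]; exact mul_le_mul hm1 hm2 (by positivity) (by positivity)
    have := mul_le_mul_of_nonneg_right hmm hr
    nlinarith
  rw [ef_aux, ef_norm_imag] at k4
  have k5 := hno (m' - m) (by omega) (by omega)
  have k6 : (((2 * (m' - m) : ℕ)) : ℤ) = 2 * ((m' : ℤ) - m) := by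
    push_cast [Nat.cast_sub hlt.le]; ring
  rw [k6] at k5
  linarith

theorem einsiedler_fish (μ : Measure T2) [IsProbabilityMeasure μ] (M : ℕ)
    (hinv : ∀ m : ℕ, 1 ≤ m → m ≤ M → μ.map (fun t => (⟨m, 1⟩ : Gi) • t) = μ.map (fun t => star (⟨m, 1⟩ : Gi) • t))
    (t0 : T2) (r : ℝ) (hr : 0 ≤ r)
    (hno : ∀ k : ℕ, 1 ≤ k → k ≤ M → 2 * ((M : ℝ) + 1) ^ 2 * r < ‖((2 * k : ℕ) : ℤ) • t0‖) :
    (M : ℝ) * (μ (Metric.closedBall t0 r)).toReal ≤ 1 := by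
  set C : ℕ → Set T2 := fun m =>
    (fun t : T2 => star (⟨m, 1⟩ : Gi) • t) ⁻¹'
      (Metric.closedBall ((⟨m, 1⟩ : Gi) • t0) (((m : ℝ) + 1) * r)) with hC
  have hCm : ∀ m, MeasurableSet (C m) := fun m =>
    (Metric.isClosed_closedBall.preimage (continuous_smulGi _)).measurableSet
  have hmem : ∀ m t, t ∈ C m ↔
      ‖star (⟨m, 1⟩ : Gi) • t - (⟨m, 1⟩ : Gi) • t0‖ ≤ ((m : ℝ) + 1) * r := by
    intro m t
    rw [hC, Set.mem_preimage, Metric.mem_closedBall, dist_eq_norm]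
  have hle : ∀ m ∈ Finset.Icc 1 M, μ (Metric.closedBall t0 r) ≤ μ (C m) := by
    intro m hm
    rw [Finset.mem_Icc] at hm
    have h1 : μ (C m) = (μ.map (fun t => star (⟨m, 1⟩ : Gi) • t))
        (Metric.closedBall ((⟨m, 1⟩ : Gi) • t0) (((m : ℝ) + 1) * r)) := by
      rw [Measure.map_apply (continuous_smulGi _).measurable Metric.isClosed_closedBall.measurableSet]
    rw [h1, ← hinv m hm.1 hm.2, Measure.map_apply (continuous_smulGi _).measurable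
      Metric.isClosed_closedBall.measurableSet]
    refine measure_mono fun t ht => ?_
    rw [Metric.mem_closedBall, dist_eq_norm] at ht
    rw [Set.mem_preimage, Metric.mem_closedBall, dist_eq_norm, ← smul_sub]
    exact (ef_norm_le m _).trans (mul_le_mul_of_nonneg_left ht (by positivity))
  have hdisj : (↑(Finset.Icc 1 M) : Set ℕ).PairwiseDisjoint C := by
    intro m hm m' hm' hne
    rw [Finset.coe_Icc, Set.mem_Icc] at hm hm'
    rw [Function.onFun, Set.disjoint_left]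
    intro t h1 h2
    rw [hmem] at h1 h2
    rcases lt_or_gt_of_ne hne with h | h
    · exact ef_disj M t0 r hr hno m m' hm'.2 h t h1 h2
    · exact ef_disj M t0 r hr hno m' m hm.2 h t h2 h1
  have hsum : (M : ENNReal) * μ (Metric.closedBall t0 r) ≤ 1 := by
    calc (M : ENNReal) * μ (Metric.closedBall t0 r)
        = ∑ m ∈ Finset.Icc 1 M, μ (Metric.closedBall t0 r) := by
          rw [Finset.sum_const, Nat.card_Icc, Nat.add_sub_cancel, nsmul_eq_mul]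
      _ ≤ ∑ m ∈ Finset.Icc 1 M, μ (C m) := Finset.sum_le_sum hle
      _ = μ (⋃ m ∈ Finset.Icc 1 M, C m) := (measure_biUnion_finset hdisj fun m _ => hCm m).symm
      _ ≤ 1 := prob_le_one
  have := ENNReal.toReal_mono ENNReal.one_ne_top hsum
  rwa [ENNReal.toReal_mul, ENNReal.toReal_natCast, ENNReal.toReal_one] at this

end F1
export F1 (einsiedler_fish)
end Pool.Agent.Helper378.PD
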