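import Pool.Agent.Helper378.PD.Base
import Pool.Agent.Helper378.PD.D1
import Pool.Agent.Helper378.PD.D4
import Pool.Agent.Helper378.PD.D5
import Pool.Agent.Helper378.PD.F1
set_option autoImplicit false
open MeasureTheory
namespace Pool.Agent.Helper378.PD
namespace F2
/-! TARGETS -/

theorem nu_ball_lower (a : Gi → Gi → ℝ) (ha : Rad a) (D : Gi) (hD : D ≠ 0) (δ : ℝ)
    (hδ : 0 < δ) (hδ1 : δ ≤ 1) (t0 : T2) (h0 : δ * D.norm ≤ f a D t0) :
    δ ^ 3 / (2 * 10 ^ 6) ≤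
      ((nu a D) (Metric.closedBall t0 (δ / (2000 * Real.sqrt D.norm)))).toReal := by
  have hN1 : (1 : ℝ) ≤ (D.norm : ℝ) := by
    have : 0 < D.norm := GaussianInt.norm_pos.mpr hD
    exact_mod_cast this
  set N : ℝ := (D.norm : ℝ) with hN
  set q : ℝ := Real.sqrt N with hq
  have hq1 : 1 ≤ q := by rw [hq]; exact Real.one_le_sqrt.mpr hN1
  have hqq : q * q = N := Real.mul_self_sqrt (by linarith)
  set r : ℝ := δ / (2000 * q) with hr
  have hr0 : 0 < r := by positivity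
  have hr1 : 2 * r ≤ 1 := by
    rw [hr, mul_div_assoc', div_le_one (by positivity)]
    nlinarith
  -- lower bound for the density
  have hf : ∀ t ∈ Metric.closedBall t0 r, δ * N / 2 ≤ f a D t := by
    intro t ht
    rw [Metric.mem_closedBall, dist_eq_norm] at ht
    have h1 := f_lipschitz a ha D hD t t0
    have h2 : 1000 * (N * q) * ‖t - t0‖ ≤ 1000 * (N * q) * r := by gcongr
    have h3 : 1000 * (N * q) * r = δ * N / 2 := by
      rw [hr]; field_simp; norm_num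
    have h4 := (abs_le.mp (h1.trans (h2.trans h3.le))).1
    linarith
  -- volume of the ball
  have hvol : (volume : Measure T2) (Metric.closedBall t0 r) = ENNReal.ofReal ((2 * r) * (2 * r)) := by
    have h1 : Metric.closedBall t0 r = Metric.closedBall t0.1 r ×ˢ Metric.closedBall t0.2 r :=
      (closedBall_prod_same t0.1 t0.2 r).symm
    rw [h1, Measure.volume_eq_prod, Measure.prod_prod, AddCircle.volume_closedBall,
      AddCircle.volume_closedBall, min_eq_right hr1, ← ENNReal.ofReal_mul (by positivity)]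
  have hmeas : MeasurableSet (Metric.closedBall t0 r) := Metric.isClosed_closedBall.measurableSet
  have hlow : ENNReal.ofReal (δ ^ 3 / (2 * 10 ^ 6)) ≤ (nu a D) (Metric.closedBall t0 r) := by
    unfold nu
    rw [withDensity_apply _ hmeas]
    calc ENNReal.ofReal (δ ^ 3 / (2 * 10 ^ 6))
        = ENNReal.ofReal (δ * N / 2) * (volume : Measure T2) (Metric.closedBall t0 r) := by
          rw [hvol, ← ENNReal.ofReal_mul (by positivity)]
          congr 1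
          rw [hr, ← hqq]
          field_simp
          norm_num
      _ = ∫⁻ _t in Metric.closedBall t0 r, ENNReal.ofReal (δ * N / 2) := by
          rw [setLIntegral_const]
      _ ≤ ∫⁻ t in Metric.closedBall t0 r, ENNReal.ofReal (f a D t) :=
          setLIntegral_mono' hmeas (fun t ht => ENNReal.ofReal_le_ofReal (hf t ht))
  have := nu_prob a ha D hD
  exact (ENNReal.ofReal_le_iff_le_toReal (measure_ne_top _ _)).mp hlow

theorem state_lemma : ∃ C : ℝ, 1 ≤ C ∧ ∀ (a : Gi → Gi → ℝ), Rad a → ∀ D : Gi, D ≠ 0 → ∀ δ : ℝ,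
    0 < δ → δ ≤ 1 → ∀ t0 : T2, δ * D.norm ≤ f a D t0 →
    ∃ k : ℕ, 1 ≤ k ∧ (k : ℝ) ≤ C * (δ⁻¹) ^ 3 ∧ ‖(k : ℤ) • t0‖ * Real.sqrt D.norm ≤ C * (δ⁻¹) ^ 5 := by
  refine ⟨10 ^ 12, by norm_num, fun a ha D hD δ hδ hδ1 t0 h0 => ?_⟩
  have hlow := nu_ball_lower a ha D hD δ hδ hδ1 t0 h0
  have hN1 : (1 : ℝ) ≤ (D.norm : ℝ) := by
    have : 0 < D.norm := GaussianInt.norm_pos.mpr hD
    exact_mod_cast this
  set q : ℝ := Real.sqrt (D.norm : ℝ) with hq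
  have hq1 : 1 ≤ q := by rw [hq]; exact Real.one_le_sqrt.mpr hN1
  set r : ℝ := δ / (2000 * q) with hr
  have hr0 : 0 < r := by positivity
  set M : ℕ := ⌈2 * 10 ^ 6 * (δ⁻¹) ^ 3⌉₊ + 1 with hM
  have hy1 : 1 ≤ (δ⁻¹) ^ 3 := by
    have : 1 ≤ δ⁻¹ := (one_le_inv₀ hδ).mpr hδ1
    exact one_le_pow₀ this
  have hM1 : 2 * 10 ^ 6 * (δ⁻¹) ^ 3 + 1 ≤ (M : ℝ) := by
    rw [hM]; push_cast
    have := Nat.le_ceil (2 * 10 ^ 6 * (δ⁻¹) ^ 3)
    linarith
  have hM2 : (M : ℝ) ≤ 2 * 10 ^ 6 * (δ⁻¹) ^ 3 + 2 := by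
    rw [hM]; push_cast
    have := Nat.ceil_lt_add_one (show 0 ≤ 2 * 10 ^ 6 * (δ⁻¹) ^ 3 by positivity)
    linarith
  have := nu_prob a ha D hD
  have hex : ∃ k : ℕ, 1 ≤ k ∧ k ≤ M ∧ ‖((2 * k : ℕ) : ℤ) • t0‖ ≤ 2 * ((M : ℝ) + 1) ^ 2 * r := by
    by_contra hcon
    push Not at hcon
    have h1 := einsiedler_fish (nu a D) M (fun m _ _ => nu_map_star a ha D hD _ (by
      intro h
      have := congrArg Zsqrtd.im h
      simp at this)) t0 r hr0.le hcon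
    have h2 : (M : ℝ) * (δ ^ 3 / (2 * 10 ^ 6)) ≤ 1 := le_trans (by gcongr) h1
    have h3 : 1 < (M : ℝ) * (δ ^ 3 / (2 * 10 ^ 6)) := by
      have h4 : (2 * 10 ^ 6 * (δ⁻¹) ^ 3 + 1) * (δ ^ 3 / (2 * 10 ^ 6)) =
          1 + δ ^ 3 / (2 * 10 ^ 6) := by
        field_simp
      have h5 : 0 < δ ^ 3 / (2 * 10 ^ 6) := by positivity
      calc (1:ℝ) < 1 + δ ^ 3 / (2 * 10 ^ 6) := by linarith
        _ = (2 * 10 ^ 6 * (δ⁻¹) ^ 3 + 1) * (δ ^ 3 / (2 * 10 ^ 6)) := h4.symm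
        _ ≤ _ := by gcongr
    linarith
  obtain ⟨k, hk1, hkM, hk⟩ := hex
  refine ⟨2 * k, by omega, ?_, ?_⟩
  · have h1 : ((2 * k : ℕ) : ℝ) ≤ 2 * M := by
      push_cast
      have : (k : ℝ) ≤ M := by exact_mod_cast hkM
      linarith
    calc ((2 * k : ℕ) : ℝ) ≤ 2 * M := h1
      _ ≤ 2 * (2 * 10 ^ 6 * (δ⁻¹) ^ 3 + 2) := by linarith
      _ ≤ 10 ^ 12 * (δ⁻¹) ^ 3 := by
        generalize (δ⁻¹) ^ 3 = y at hy1
        linarith
  · have h1 : (M : ℝ) + 1 ≤ (2 * 10 ^ 6 + 3) * (δ⁻¹) ^ 3 := by linarith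
    have h2 : 2 * ((M : ℝ) + 1) ^ 2 * r * q = ((M : ℝ) + 1) ^ 2 * δ / 1000 := by
      rw [hr]; field_simp; norm_num
    calc ‖((2 * k : ℕ) : ℤ) • t0‖ * q ≤ 2 * ((M : ℝ) + 1) ^ 2 * r * q := by gcongr
      _ = ((M : ℝ) + 1) ^ 2 * δ / 1000 := h2
      _ ≤ ((2 * 10 ^ 6 + 3) * (δ⁻¹) ^ 3) ^ 2 * δ / 1000 := by gcongr
      _ = ((2 * 10 ^ 6 + 3) ^ 2 / 1000) * (δ⁻¹) ^ 5 := by
        field_simp
      _ ≤ 10 ^ 12 * (δ⁻¹) ^ 5 := by
        gcongr
        norm_num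

end F2
export F2 (state_lemma)
end Pool.Agent.Helper378.PD
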