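import Pool.Agent.Helper378.PD.Base
import Pool.Agent.Helper378.PD.D1
set_option autoImplicit false
open MeasureTheory
namespace Pool.Agent.Helper378.PD
namespace G1
/-! TARGETS -/

theorem exists_rep (x : AddCircle (1:ℝ)) : ∃ u : ℝ, (u : AddCircle (1:ℝ)) = x ∧ |u| = ‖x‖ := by
  induction x using QuotientAddGroup.induction_on with
  | H u0 =>
    refine ⟨u0 - round u0, ?_, ?_⟩
    · rw [AddCircle.coe_sub]
      have : (((round u0 : ℤ) : ℝ) : AddCircle (1:ℝ)) = 0 := by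
        rw [AddCircle.coe_eq_zero_iff]
        exact ⟨round u0, by simp⟩
      rw [this, sub_zero]
    · exact (UnitAddCircle.norm_eq (x := u0)).symm

theorem norm_coe_le (u : ℝ) : ‖(u : AddCircle (1:ℝ))‖ ≤ |u| := by
  have h := UnitAddCircle.norm_eq (x := u)
  have h2 := round_le u 0
  rw [Int.cast_zero, sub_zero] at h2
  rw [← h] at h2
  exact h2

theorem tor_finite (M : ℕ) : {α : T2 | Tor M α}.Finite := by
  have h1 : {α : T2 | Tor M α} ⊆ ⋃ k ∈ Finset.Icc 1 M,
      ({u : AddCircle (1:ℝ) | k • u = 0} ×ˢ {u : AddCircle (1:ℝ) | k • u = 0}) := by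
    rintro α ⟨k, hk1, hk2, hk⟩
    simp only [Set.mem_iUnion]
    refine ⟨k, Finset.mem_Icc.2 ⟨hk1, hk2⟩, ?_⟩
    have ha : (k : ℤ) • α.1 = 0 := congrArg Prod.fst hk
    have hb : (k : ℤ) • α.2 = 0 := congrArg Prod.snd hk
    rw [natCast_zsmul] at ha hb
    exact ⟨ha, hb⟩
  refine Set.Finite.subset ?_ h1
  refine Set.Finite.biUnion (Finset.finite_toSet _) ?_
  intro k hk
  have hk' : 0 < k := (Finset.mem_Icc.1 hk).1
  have := AddCircle.finite_torsion (1:ℝ) hk'
  exact this.prod this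

theorem isClosed_SS (M : ℕ) (ρ : ℝ) : IsClosed (SS M ρ) := by
  have : SS M ρ = ⋃ α ∈ {α : T2 | Tor M α}, Metric.closedBall α ρ := by
    ext t
    simp only [SS, Set.mem_setOf_eq, Set.mem_iUnion, Metric.mem_closedBall, dist_eq_norm, exists_prop]
  rw [this]
  exact (tor_finite M).isClosed_biUnion fun α _ => Metric.isClosed_closedBall

theorem isClosed_AA (z : Gi) (M : ℕ) (ρ : ℝ) : IsClosed (AA z M ρ) := by
  have : AA z M ρ = ⋃ α ∈ {α : T2 | Tor M α ∧ Cop z α}, Metric.closedBall α ρ := by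
    ext t
    simp only [AA, Set.mem_setOf_eq, Set.mem_iUnion, Metric.mem_closedBall, dist_eq_norm, exists_prop,
      and_assoc]
  rw [this]
  exact ((tor_finite M).subset (fun α h => h.1)).isClosed_biUnion fun α _ => Metric.isClosed_closedBall

theorem coord_zero (n : ℕ) (hn : 0 < n) (x : AddCircle (1:ℝ)) (h : n • x = 0) (hx : ‖x‖ * n < 1) :
    x = 0 := by
  obtain ⟨u, rfl, hu⟩ := exists_rep x
  rw [← AddCircle.coe_nsmul, AddCircle.coe_eq_zero_iff] at h
  obtain ⟨m, hm⟩ := h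
  rw [zsmul_eq_mul, mul_one, nsmul_eq_mul] at hm
  have hn' : (0:ℝ) < n := by exact_mod_cast hn
  have h1 : |(m:ℝ)| < 1 := by
    rw [hm, abs_mul, abs_of_pos hn', hu]
    linarith
  have h2 : m = 0 := by
    rw [← Int.cast_abs] at h1
    have : |m| < 1 := by exact_mod_cast h1
    exact Int.abs_lt_one_iff.1 this
  rw [h2, Int.cast_zero] at hm
  have : u = 0 := by
    rcases mul_eq_zero.1 hm.symm with h | h
    · exact absurd h hn'.ne'
    · exact h
  rw [this]; rfl

theorem tor_sep (M : ℕ) (α β : T2) (hα : Tor M α) (hβ : Tor M β) (h : ‖α - β‖ * (M:ℝ) ^ 2 < 1) : α = β := by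
  obtain ⟨k, hk1, hk2, hk⟩ := hα
  obtain ⟨l, hl1, hl2, hl⟩ := hβ
  have hkl : (k * l) • (α - β) = 0 := by
    rw [smul_sub, mul_comm, mul_smul, ← natCast_zsmul α, hk, smul_zero, mul_comm, mul_smul,
      ← natCast_zsmul β, hl, smul_zero, sub_zero]
  have hM : ((k * l : ℕ) : ℝ) ≤ (M:ℝ) ^ 2 := by
    rw [sq]; exact_mod_cast Nat.mul_le_mul hk2 hl2
  have hpos : 0 < k * l := Nat.mul_pos hk1 hl1
  have h0 := norm_nonneg (α - β)
  have hlt : ‖α - β‖ * ((k * l : ℕ) : ℝ) < 1 :=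
    lt_of_le_of_lt (mul_le_mul_of_nonneg_left hM h0) h
  have ha : (α - β).1 = 0 := by
    apply coord_zero (k * l) hpos _ (congrArg Prod.fst hkl)
    refine lt_of_le_of_lt (mul_le_mul_of_nonneg_right (norm_fst_le _) (Nat.cast_nonneg _)) hlt
  have hb : (α - β).2 = 0 := by
    apply coord_zero (k * l) hpos _ (congrArg Prod.snd hkl)
    refine lt_of_le_of_lt (mul_le_mul_of_nonneg_right (norm_snd_le _) (Nat.cast_nonneg _)) hlt
  have : α - β = 0 := Prod.ext ha hb
  exact sub_eq_zero.1 this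

theorem tor_smul (M : ℕ) (z : Gi) (α : T2) (hα : Tor M α) : Tor M (z • α) := by
  obtain ⟨k, hk1, hk2, hk⟩ := hα
  refine ⟨k, hk1, hk2, ?_⟩
  rw [smul_comm, hk, smul_zero]

theorem cop_star (z : Gi) (hz : IsCoprime z (star z)) (α : T2) (h : Cop z (star z • α)) : Cop z α := by
  obtain ⟨s, t, hst⟩ := hz
  obtain ⟨y, hy⟩ := h
  refine ⟨y - s * (y * z - 1), ?_⟩
  have h1 : (star z * (y * z - 1)) • α = 0 := by
    have : (star z * (y * z - 1)) • α = y • z • star z • α - star z • α := by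
      rw [smul_smul, smul_smul, ← sub_smul]
      congr 1
      ring
    rw [this, hy, sub_self]
  have h2 : (y - s * (y * z - 1)) • z • α = α + (t * (star z * (y * z - 1))) • α := by
    rw [smul_smul]
    nth_rewrite 2 [← one_smul Gi α]
    rw [← add_smul]
    congr 1
    have : (y - s * (y * z - 1)) * z = y * z - (s * z) * (y * z - 1) := by ring
    rw [this, eq_sub_of_add_eq hst]
    ring
  rw [h2, mul_smul, h1, smul_zero, add_zero]

theorem cop_smul (z w : Gi) (α : T2) (h : Cop z α) : Cop z (w • α) := by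
  obtain ⟨y, hy⟩ := h
  refine ⟨y, ?_⟩
  have : y • z • w • α = w • y • z • α := by
    simp only [smul_smul]
    congr 1
    ring
  rw [this, hy]

theorem proj_add (e e' : ℂ) : proj (e + e') = proj e + proj e'  := by
  unfold proj
  rw [Complex.add_re, Complex.add_im, AddCircle.coe_add, AddCircle.coe_add]
  rfl

theorem smul_proj (z : Gi) (e : ℂ) : z • proj e = proj (GaussianInt.toComplex z * e) := by
  rw [smul_def]
  unfold proj
  rw [Complex.mul_re, Complex.mul_im, ← GaussianInt.intCast_re, ← GaussianInt.intCast_im]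
  ext
  · simp only
    rw [AddCircle.coe_sub, ← AddCircle.coe_zsmul, ← AddCircle.coe_zsmul, zsmul_eq_mul, zsmul_eq_mul]
  · simp only
    rw [AddCircle.coe_add, ← AddCircle.coe_zsmul, ← AddCircle.coe_zsmul, zsmul_eq_mul, zsmul_eq_mul,
      add_comm]

theorem exists_proj (t : T2) : ∃ e : ℂ, proj e = t ∧ |e.re| ≤ ‖t‖ ∧ |e.im| ≤ ‖t‖ := by
  obtain ⟨u, hu1, hu2⟩ := exists_rep t.1
  obtain ⟨v, hv1, hv2⟩ := exists_rep t.2
  refine ⟨⟨u, v⟩, Prod.ext hu1 hv1, ?_, ?_⟩
  · show |u| ≤ _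
    rw [hu2]; exact norm_fst_le _
  · show |v| ≤ _
    rw [hv2]; exact norm_snd_le _

theorem tor_div (k : ℕ) (hk : 1 ≤ k) (t : T2) : ∃ α : T2, (k:ℤ) • α = 0 ∧ ‖t - α‖ ≤ ‖(k:ℤ) • t‖ := by
  obtain ⟨e, he, her, hei⟩ := exists_proj ((k:ℤ) • t)
  have hk0 : (1:ℝ) ≤ k := by exact_mod_cast hk
  have hkp : (0:ℝ) < k := by linarith
  refine ⟨t - proj ⟨e.re / k, e.im / k⟩, ?_, ?_⟩
  · rw [smul_sub, sub_eq_zero, ← he]
    unfold proj
    ext
    · show (e.re : AddCircle (1:ℝ)) = (k:ℤ) • ((e.re / k : ℝ) : AddCircle (1:ℝ))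
      rw [← AddCircle.coe_zsmul, zsmul_eq_mul, Int.cast_natCast, mul_div_cancel₀ _ hkp.ne']
    · show (e.im : AddCircle (1:ℝ)) = (k:ℤ) • ((e.im / k : ℝ) : AddCircle (1:ℝ))
      rw [← AddCircle.coe_zsmul, zsmul_eq_mul, Int.cast_natCast, mul_div_cancel₀ _ hkp.ne']
  · rw [sub_sub_cancel]
    have hb : ∀ x : ℝ, |x| ≤ ‖(k:ℤ) • t‖ → ‖((x / k : ℝ) : AddCircle (1:ℝ))‖ ≤ ‖(k:ℤ) • t‖ := by
      intro x hx
      refine (norm_coe_le _).trans ?_
      rw [abs_div, abs_of_pos hkp]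
      exact (div_le_self (abs_nonneg _) hk0).trans hx
    exact max_le (hb _ her) (hb _ hei)

theorem proj_inj (e e' : ℂ) (h : proj e = proj e') (hr : |e.re - e'.re| < 1) (hi : |e.im - e'.im| < 1) : e = e'  := by
  have key : ∀ a b : ℝ, (a : AddCircle (1:ℝ)) = (b : AddCircle (1:ℝ)) → |a - b| < 1 → a = b := by
    intro a b hab hlt
    have h1 : ((a - b : ℝ) : AddCircle (1:ℝ)) = 0 := by
      rw [AddCircle.coe_sub, hab, sub_self]
    rw [AddCircle.coe_eq_zero_iff] at h1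
    obtain ⟨m, hm⟩ := h1
    rw [zsmul_eq_mul, mul_one] at hm
    rw [← hm, ← Int.cast_abs] at hlt
    have h2 : |m| < 1 := by exact_mod_cast hlt
    have h3 : m = 0 := Int.abs_lt_one_iff.1 h2
    rw [h3, Int.cast_zero] at hm
    linarith
  apply Complex.ext
  · exact key _ _ (congrArg Prod.fst h) hr
  · exact key _ _ (congrArg Prod.snd h) hi

theorem E_proj (e : ℂ) : E (proj e) = Complex.exp (2 * Real.pi * Complex.I * (e.re : ℂ)) := by
  unfold E proj
  simp only
  rw [AddCircle.toCircle_apply_mk, Circle.coe_exp]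
  congr 1
  push_cast
  ring

end G1
export G1 (tor_finite isClosed_SS isClosed_AA tor_sep tor_smul cop_star cop_smul tor_div proj_add smul_proj exists_proj proj_inj E_proj)
end Pool.Agent.Helper378.PD
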