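import Pool.Agent.Helper378.PD.Base
import Pool.Agent.Helper378.PD.D1
import Pool.Agent.Helper378.PD.D4
import Pool.Agent.Helper378.PD.D5
import Pool.Agent.Helper378.PD.D6
import Pool.Agent.Helper378.PD.E1
import Pool.Agent.Helper378.PD.F2
import Pool.Agent.Helper378.PD.G1
set_option autoImplicit false
open MeasureTheory
namespace Pool.Agent.Helper378.PD
namespace G3
/-! TARGETS -/

theorem dd_nonneg' (a : Gi → Gi → ℝ) (ha : Rad a) (D : Gi) (hD : D ≠ 0) : 0 ≤ Real.log 25 + dd a D := by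
  have hN : 0 < D.norm := GaussianInt.norm_pos.mpr hD
  have hNR : (0:ℝ) < D.norm := by exact_mod_cast hN
  have hcont := f_continuous a ha D hD
  have hint1 : Integrable (fun t : T2 => f a D t * Real.log (f a D t)) := by
    have h1 : Continuous (fun t : T2 => f a D t * Real.log (f a D t)) :=
      Real.continuous_mul_log.comp hcont
    exact h1.integrable_of_hasCompactSupport (HasCompactSupport.of_compactSpace _)
  have hint2 : Integrable (fun t : T2 => f a D t * Real.log (25 * D.norm)) := by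
    have h1 : Continuous (fun t : T2 => f a D t * Real.log (25 * D.norm)) := hcont.mul continuous_const
    exact h1.integrable_of_hasCompactSupport (HasCompactSupport.of_compactSpace _)
  have hle : ∫ t : T2, f a D t * Real.log (f a D t) ≤ ∫ t : T2, f a D t * Real.log (25 * D.norm) := by
    apply integral_mono hint1 hint2
    intro t
    have h0 := f_nonneg a ha D hD t
    have h1 := f_le a ha D hD t
    rcases h0.eq_or_lt with h2 | h2
    · simp [← h2]
    · exact mul_le_mul_of_nonneg_left (Real.log_le_log h2 h1) h0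
  rw [integral_mul_const, integral_f a ha D hD, one_mul, Real.log_mul (by norm_num) hNR.ne'] at hle
  unfold dd
  linarith

theorem state_prob : ∃ C : ℝ, 1 ≤ C ∧ ∀ (a : Gi → Gi → ℝ), Rad a → ∀ D : Gi, D ≠ 0 → ∀ y : Gi, y ≠ 0 →
    ∀ s η : ℝ, 0 < s → 0 < η → η ≤ 1 → 25 * η ≤ Real.exp s → ∀ (M : ℕ) (ρ : ℝ),
    C * (y.norm * Real.exp s / (25 * η)) ^ 3 ≤ M →
    C * (y.norm * Real.exp s / (25 * η)) ^ 5 ≤ ρ * Real.sqrt ((D * y).norm) →
    (nu a (D * y)) (SS M ρ)ᶜ ≤ ENNReal.ofReal (η + (Real.log 25 + dd a D) / s) := by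
  obtain ⟨C, hC1, hC⟩ := state_lemma
  refine ⟨C, hC1, ?_⟩
  intro a ha D hD y hy s η hs hη hη1 hes M ρ hM hρ
  have hDy : D * y ≠ 0 := mul_ne_zero hD hy
  have hN : 0 < y.norm := GaussianInt.norm_pos.mpr hy
  have hN1 : (1:ℝ) ≤ y.norm := by exact_mod_cast hN
  have hN0 : (0:ℝ) < y.norm := by linarith
  have hDN : 0 < D.norm := GaussianInt.norm_pos.mpr hD
  have hDN0 : (0:ℝ) < D.norm := by exact_mod_cast hDN
  have hDyN : ((D * y).norm : ℝ) = D.norm * y.norm := by
    rw [Zsqrtd.norm_mul]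
    push_cast
    rfl
  have hDyN0 : (0:ℝ) < (D * y).norm := by rw [hDyN]; positivity
  set A1 : Set T2 := {t | f a (D * y) t ≤ (η / y.norm) * (y.norm * f a D (y • t))} with hA1
  set B : Set T2 := {t | f a D t ≤ 25 * D.norm * Real.exp (-s)} with hB
  have h1 : (nu a (D * y)) A1 ≤ ENNReal.ofReal η := by
    have := cond_tail a ha D hD y hy (η / y.norm) (by positivity)
    rwa [div_mul_cancel₀ _ hN0.ne'] at this
  have h2 : (nu a (D * y)) ((fun t : T2 => y • t) ⁻¹' B) ≤ ENNReal.ofReal ((Real.log 25 + dd a D) / s) := by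
    have hmeasB : MeasurableSet B :=
      (isClosed_le (f_continuous a ha D hD) continuous_const).measurableSet
    rw [← Measure.map_apply (continuous_smulGi y).measurable hmeasB, nu_map a ha D hD y hy]
    exact dd_markov a ha D hD s hs
  have hsub : (SS M ρ)ᶜ ⊆ A1 ∪ ((fun t : T2 => y • t) ⁻¹' B) := by
    intro t ht
    by_contra hcon
    rw [Set.mem_union, not_or] at hcon
    obtain ⟨hc1, hc2⟩ := hcon
    apply ht
    have hc1' : (η / y.norm) * (y.norm * f a D (y • t)) < f a (D * y) t := not_le.mp hc1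
    have hc2' : 25 * D.norm * Real.exp (-s) < f a D (y • t) := not_le.mp hc2
    have e1 : (η / y.norm) * (y.norm * f a D (y • t)) = η * f a D (y • t) := by
      field_simp
    rw [e1] at hc1'
    have h3 : η * (25 * D.norm * Real.exp (-s)) < f a (D * y) t :=
      lt_of_lt_of_le (mul_lt_mul_of_pos_left hc2' hη) hc1'.le
    set δ : ℝ := 25 * η * Real.exp (-s) / y.norm with hδ
    have hexp : Real.exp (-s) = (Real.exp s)⁻¹ := Real.exp_neg s
    have hexp0 := Real.exp_pos s
    have hδ0 : 0 < δ := by positivity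
    have hδ1 : δ ≤ 1 := by
      rw [hδ, div_le_one hN0, hexp]
      have : 25 * η * (Real.exp s)⁻¹ ≤ 1 := by
        rw [← div_eq_mul_inv, div_le_one hexp0]
        exact hes
      linarith
    have hδN : δ * (D * y).norm ≤ f a (D * y) t := by
      have : δ * ((D * y).norm : ℝ) = η * (25 * D.norm * Real.exp (-s)) := by
        rw [hDyN, hδ]
        field_simp
      rw [this]
      exact h3.le
    obtain ⟨k, hk1, hkC, hkt⟩ := hC a ha (D * y) hDy δ hδ0 hδ1 t hδN
    have hδinv : δ⁻¹ = y.norm * Real.exp s / (25 * η) := by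
      rw [hδ, hexp]
      field_simp
    rw [hδinv] at hkC hkt
    have hkM : k ≤ M := by exact_mod_cast hkC.trans hM
    have hsq : 0 < Real.sqrt ((D * y).norm) := Real.sqrt_pos.mpr hDyN0
    have hkρ : ‖(k : ℤ) • t‖ ≤ ρ := le_of_mul_le_mul_right (hkt.trans hρ) hsq
    obtain ⟨α, hα, hαt⟩ := tor_div k hk1 t
    exact ⟨α, ⟨k, hk1, hkM, hα⟩, hαt.trans hkρ⟩
  calc (nu a (D * y)) (SS M ρ)ᶜ ≤ (nu a (D * y)) (A1 ∪ ((fun t : T2 => y • t) ⁻¹' B)) := measure_mono hsub
    _ ≤ (nu a (D * y)) A1 + (nu a (D * y)) ((fun t : T2 => y • t) ⁻¹' B) := measure_union_le _ _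
    _ ≤ ENNReal.ofReal η + ENNReal.ofReal ((Real.log 25 + dd a D) / s) := add_le_add h1 h2
    _ = ENNReal.ofReal (η + (Real.log 25 + dd a D) / s) := by
        rw [ENNReal.ofReal_add hη.le (div_nonneg (dd_nonneg' a ha D hD) hs.le)]

end G3
export G3 (state_prob)
end Pool.Agent.Helper378.PD
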