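import Pool.Agent.Helper378.PD.Base
set_option autoImplicit false
open MeasureTheory
namespace Pool.Agent.Helper378.PD
namespace H1
/-! TARGETS -/

theorem periodic_sum (L Y : ℕ) (hL : 0 < L) (hLY : L ≤ Y) (φ : ℕ → ℂ) (hφ : ∀ m, φ (m + L) = φ m)
    (hb : ∀ m, ‖φ m‖ ≤ 1) (G : ℝ → ℂ) (B : ℝ) (hG : ∀ x ∈ Set.Icc (0:ℝ) 1, ‖G x‖ ≤ 1)
    (hLip : ∀ x ∈ Set.Icc (0:ℝ) 1, ∀ y ∈ Set.Icc (0:ℝ) 1, ‖G x - G y‖ ≤ B * |x - y|) :
    ‖∑ m ∈ Finset.range Y, φ m * G ((m:ℝ) / Y) -
      (∑ r ∈ Finset.range L, φ r) * ((Y:ℂ) / L) * ∫ x in (0:ℝ)..1, G x‖ ≤ L * (2 * B + 4) := by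
  have hY : 0 < Y := lt_of_lt_of_le hL hLY
  have hL' : (0:ℝ) < L := by exact_mod_cast hL
  have hY' : (0:ℝ) < Y := by exact_mod_cast hY
  have hB : 0 ≤ B := by
    have h := hLip 0 (by simp) 1 (by simp)
    have h2 := norm_nonneg (G 0 - G 1)
    norm_num at h
    linarith
  -- continuity
  have hcont : ContinuousOn G (Set.Icc 0 1) := by
    have h : LipschitzOnWith (Real.toNNReal B) G (Set.Icc 0 1) := by
      apply LipschitzOnWith.of_dist_le_mul
      intro x hx y hy
      rw [dist_eq_norm, Real.dist_eq, Real.coe_toNNReal B hB]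
      exact hLip x hx y hy
    exact h.continuousOn
  have hint : ∀ a b : ℝ, a ∈ Set.Icc (0:ℝ) 1 → b ∈ Set.Icc (0:ℝ) 1 →
      IntervalIntegrable G volume a b := by
    intro a b ha hb
    apply ContinuousOn.intervalIntegrable
    apply hcont.mono
    intro x hx
    have h := Set.uIcc_subset_Icc ha hb
    exact h hx
  set q := Y / L with hq
  have hqY : q * L ≤ Y := Nat.div_mul_le_self Y L
  have hper : ∀ k r, φ (k * L + r) = φ r := by
    intro k r
    induction k with
    | zero => simp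
    | succ k ih => rw [show (k + 1) * L + r = k * L + r + L by ring, hφ, ih]
  set Φ := ∑ r ∈ Finset.range L, φ r with hΦ
  have hΦn : ‖Φ‖ ≤ L := by
    calc ‖Φ‖ ≤ ∑ r ∈ Finset.range L, ‖φ r‖ := norm_sum_le _ _
      _ ≤ ∑ r ∈ Finset.range L, (1:ℝ) := Finset.sum_le_sum fun r _ => hb r
      _ = L := by simp
  have hmem : ∀ n : ℕ, n ≤ Y → (n:ℝ) / Y ∈ Set.Icc (0:ℝ) 1 := by
    intro n hn
    refine ⟨by positivity, ?_⟩
    rw [div_le_one hY']
    exact_mod_cast hn
  have main : ∀ k : ℕ, k ≤ q →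
      ‖∑ m ∈ Finset.range (k * L), φ m * G ((m:ℝ) / Y) -
        Φ * ((Y:ℂ) / L) * ∫ x in (0:ℝ)..(((k * L : ℕ) : ℝ) / Y), G x‖ ≤ k * (L * (B * (L / Y))) := by
    intro k
    induction k with
    | zero => intro _; simp
    | succ k ih =>
      intro hk
      have ih' := ih (by omega)
      have hkY : (k + 1) * L ≤ Y := le_trans (Nat.mul_le_mul_right L hk) hqY
      have hkY0 : k * L ≤ Y := le_trans (Nat.mul_le_mul_right L (Nat.le_succ k)) hkY
      set a : ℝ := ((k * L : ℕ) : ℝ) / Y with ha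
      set b : ℝ := (((k + 1) * L : ℕ) : ℝ) / Y with hb'
      have hba : b - a = L / Y := by
        rw [ha, hb', ← sub_div]
        push_cast
        ring_nf
      have haI : a ∈ Set.Icc (0:ℝ) 1 := hmem _ hkY0
      have hbI : b ∈ Set.Icc (0:ℝ) 1 := hmem _ hkY
      have hab : a ≤ b := by
        have : 0 ≤ (L:ℝ) / Y := by positivity
        linarith
      have hsplit : ∫ x in (0:ℝ)..b, G x = (∫ x in (0:ℝ)..a, G x) + ∫ x in a..b, G x := by
        rw [intervalIntegral.integral_add_adjacent_intervals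
          (hint 0 a (by simp) haI) (hint a b haI hbI)]
      have hsum : ∑ m ∈ Finset.range ((k + 1) * L), φ m * G ((m:ℝ) / Y) =
          ∑ m ∈ Finset.range (k * L), φ m * G ((m:ℝ) / Y) +
          ∑ r ∈ Finset.range L, φ r * G (((k * L + r : ℕ) : ℝ) / Y) := by
        rw [show (k + 1) * L = k * L + L by ring, Finset.sum_range_add]
        congr 1
        refine Finset.sum_congr rfl fun r _ => ?_
        rw [hper]
      have hblock : ‖∑ r ∈ Finset.range L, φ r * G (((k * L + r : ℕ) : ℝ) / Y) -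
          Φ * ((Y:ℂ) / L) * ∫ x in a..b, G x‖ ≤ L * (B * (L / Y)) := by
        have e1 : ∑ r ∈ Finset.range L, φ r * G (((k * L + r : ℕ) : ℝ) / Y) -
            Φ * ((Y:ℂ) / L) * ∫ x in a..b, G x =
            ∑ r ∈ Finset.range L, φ r * (G (((k * L + r : ℕ) : ℝ) / Y) -
              ((Y:ℂ) / L) * ∫ x in a..b, G x) := by
          rw [hΦ, mul_assoc, Finset.sum_mul, ← Finset.sum_sub_distrib]
          refine Finset.sum_congr rfl fun r _ => ?_
          ring
        rw [e1]
        refine (norm_sum_le _ _).trans ?_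
        have e2 : ∀ r ∈ Finset.range L, ‖φ r * (G (((k * L + r : ℕ) : ℝ) / Y) -
              ((Y:ℂ) / L) * ∫ x in a..b, G x)‖ ≤ B * (L / Y) := by
          intro r hr
          have hr' : r < L := Finset.mem_range.1 hr
          set p : ℝ := ((k * L + r : ℕ) : ℝ) / Y with hp
          have hpY : k * L + r ≤ Y := by nlinarith
          have hpI : p ∈ Set.Icc (0:ℝ) 1 := hmem _ hpY
          have hap : a ≤ p := by
            rw [ha, hp]
            apply div_le_div_of_nonneg_right _ hY'.le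
            exact_mod_cast Nat.le_add_right _ _
          have hpb : p ≤ b := by
            rw [hb', hp]
            apply div_le_div_of_nonneg_right _ hY'.le
            have : k * L + r ≤ (k + 1) * L := by nlinarith
            exact_mod_cast this
          have e3 : G p - ((Y:ℂ) / L) * ∫ x in a..b, G x =
              ((Y:ℂ) / L) * ∫ x in a..b, (G p - G x) := by
            rw [intervalIntegral.integral_sub (intervalIntegrable_const) (hint a b haI hbI),
              intervalIntegral.integral_const, hba, mul_sub]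
            congr 1
            rw [Complex.real_smul]
            push_cast
            have hLc : (L:ℂ) ≠ 0 := by exact_mod_cast hL.ne'
            have hYc : (Y:ℂ) ≠ 0 := by exact_mod_cast hY.ne'
            field_simp
          have e4 : ‖∫ x in a..b, (G p - G x)‖ ≤ (B * (L / Y)) * |b - a| := by
            apply intervalIntegral.norm_integral_le_of_norm_le_const
            intro x hx
            rw [Set.uIoc_of_le hab] at hx
            have hxI : x ∈ Set.Icc (0:ℝ) 1 := ⟨haI.1.trans hx.1.le, hx.2.trans hbI.2⟩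
            refine (hLip p hpI x hxI).trans ?_
            apply mul_le_mul_of_nonneg_left _ hB
            rw [← hba, abs_le]
            constructor
            · linarith [hx.2]
            · linarith [hx.1]
          rw [norm_mul, e3, norm_mul]
          have e5 : ‖((Y:ℂ) / L)‖ = (Y:ℝ) / L := by
            rw [norm_div, Complex.norm_natCast, Complex.norm_natCast]
          rw [e5]
          rw [hba, abs_of_nonneg (by positivity : (0:ℝ) ≤ (L:ℝ) / Y)] at e4
          calc ‖φ r‖ * ((Y:ℝ) / L * ‖∫ x in a..b, (G p - G x)‖)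
              ≤ 1 * ((Y:ℝ) / L * (B * (L / Y) * (L / Y))) := by
                apply mul_le_mul (hb r) _ (by positivity) zero_le_one
                exact mul_le_mul_of_nonneg_left e4 (by positivity)
            _ = B * (L / Y) := by field_simp
        refine (Finset.sum_le_sum e2).trans ?_
        rw [Finset.sum_const, Finset.card_range, nsmul_eq_mul]
      rw [hsum, hsplit]
      have e6 : (∑ m ∈ Finset.range (k * L), φ m * G ((m:ℝ) / Y) +
          ∑ r ∈ Finset.range L, φ r * G (((k * L + r : ℕ) : ℝ) / Y)) -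
          Φ * ((Y:ℂ) / L) * ((∫ x in (0:ℝ)..a, G x) + ∫ x in a..b, G x) =
          (∑ m ∈ Finset.range (k * L), φ m * G ((m:ℝ) / Y) -
            Φ * ((Y:ℂ) / L) * ∫ x in (0:ℝ)..a, G x) +
          (∑ r ∈ Finset.range L, φ r * G (((k * L + r : ℕ) : ℝ) / Y) -
            Φ * ((Y:ℂ) / L) * ∫ x in a..b, G x) := by ring
      rw [e6]
      refine (norm_add_le _ _).trans ?_
      have e7 : (((k + 1 : ℕ)) : ℝ) * (L * (B * (L / Y))) =
          k * (L * (B * (L / Y))) + L * (B * (L / Y)) := by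
        rw [Nat.cast_succ]
        ring
      rw [e7]
      exact add_le_add ih' hblock
  have h1 := main q le_rfl
  set c : ℝ := ((q * L : ℕ) : ℝ) / Y with hc
  have hcI : c ∈ Set.Icc (0:ℝ) 1 := hmem _ hqY
  obtain ⟨s, hs⟩ := Nat.exists_eq_add_of_le hqY
  have hsL : s < L := by
    have h2 : Y < (q + 1) * L := by
      rw [hq]
      have h3 := Nat.lt_div_mul_add hL (a := Y)
      nlinarith
    nlinarith
  have hsum : ∑ m ∈ Finset.range Y, φ m * G ((m:ℝ) / Y) =
      ∑ m ∈ Finset.range (q * L), φ m * G ((m:ℝ) / Y) +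
      ∑ r ∈ Finset.range s, φ (q * L + r) * G (((q * L + r : ℕ) : ℝ) / Y) := by
    conv_lhs => rw [show Finset.range Y = Finset.range (q * L + s) by rw [← hs]]
    rw [Finset.sum_range_add]
  have htail : ‖∑ r ∈ Finset.range s, φ (q * L + r) * G (((q * L + r : ℕ) : ℝ) / Y)‖ ≤ L := by
    refine (norm_sum_le _ _).trans ?_
    have e2 : ∀ r ∈ Finset.range s, ‖φ (q * L + r) * G (((q * L + r : ℕ) : ℝ) / Y)‖ ≤ (1:ℝ) := by
      intro r hr
      have hr' := Finset.mem_range.1 hr
      rw [norm_mul]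
      have h3 := hb (q * L + r)
      have h4 := hG _ (hmem (q * L + r) (by omega))
      calc ‖φ (q * L + r)‖ * ‖G (((q * L + r : ℕ) : ℝ) / Y)‖ ≤ 1 * 1 :=
            mul_le_mul h3 h4 (norm_nonneg _) zero_le_one
        _ = 1 := by norm_num
    refine (Finset.sum_le_sum e2).trans ?_
    rw [Finset.sum_const, Finset.card_range, nsmul_eq_mul, mul_one]
    exact_mod_cast hsL.le
  have hsplit : ∫ x in (0:ℝ)..1, G x = (∫ x in (0:ℝ)..c, G x) + ∫ x in c..1, G x := by
    rw [intervalIntegral.integral_add_adjacent_intervals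
      (hint 0 c (by simp) hcI) (hint c 1 hcI (by simp))]
  have h1c : 1 - c = (s:ℝ) / Y := by
    rw [hc]
    have h3 : (Y:ℝ) = ((q * L : ℕ) : ℝ) + s := by exact_mod_cast hs
    field_simp
    linarith
  have htail2 : ‖Φ * ((Y:ℂ) / L) * ∫ x in c..1, G x‖ ≤ L := by
    have e4 : ‖∫ x in c..1, G x‖ ≤ 1 * |1 - c| := by
      apply intervalIntegral.norm_integral_le_of_norm_le_const
      intro x hx
      rw [Set.uIoc_of_le hcI.2] at hx
      exact hG x ⟨hcI.1.trans hx.1.le, hx.2⟩
    have e5 : ‖((Y:ℂ) / L)‖ = (Y:ℝ) / L := by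
      rw [norm_div, Complex.norm_natCast, Complex.norm_natCast]
    rw [norm_mul, norm_mul, e5]
    rw [h1c, abs_of_nonneg (by positivity : (0:ℝ) ≤ (s:ℝ) / Y), one_mul] at e4
    calc ‖Φ‖ * ((Y:ℝ) / L) * ‖∫ x in c..1, G x‖ ≤ (L:ℝ) * ((Y:ℝ) / L) * ((s:ℝ) / Y) := by
          gcongr
      _ = s := by field_simp
      _ ≤ L := by exact_mod_cast hsL.le
  rw [hsum, hsplit]
  have e6 : (∑ m ∈ Finset.range (q * L), φ m * G ((m:ℝ) / Y) +
      ∑ r ∈ Finset.range s, φ (q * L + r) * G (((q * L + r : ℕ) : ℝ) / Y)) -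
      Φ * ((Y:ℂ) / L) * ((∫ x in (0:ℝ)..c, G x) + ∫ x in c..1, G x) =
      (∑ m ∈ Finset.range (q * L), φ m * G ((m:ℝ) / Y) -
        Φ * ((Y:ℂ) / L) * ∫ x in (0:ℝ)..c, G x) +
      ((∑ r ∈ Finset.range s, φ (q * L + r) * G (((q * L + r : ℕ) : ℝ) / Y)) -
        Φ * ((Y:ℂ) / L) * ∫ x in c..1, G x) := by ring
  rw [e6]
  have h7 : (q:ℝ) * (L * (B * (L / Y))) ≤ L * B := by
    have h8 : (q:ℝ) * L / Y ≤ 1 := by
      have := hcI.2
      rw [hc] at this
      push_cast at this
      exact this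
    calc (q:ℝ) * (L * (B * (L / Y))) = (L * B) * (q * L / Y) := by ring
      _ ≤ (L * B) * 1 := mul_le_mul_of_nonneg_left h8 (by positivity)
      _ = L * B := mul_one _
  have h9 := norm_sub_le (∑ r ∈ Finset.range s, φ (q * L + r) * G (((q * L + r : ℕ) : ℝ) / Y))
    (Φ * ((Y:ℂ) / L) * ∫ x in c..1, G x)
  refine (norm_add_le _ _).trans ?_
  have hLB : 0 ≤ (L:ℝ) * B := by positivity
  nlinarith

end H1
export H1 (periodic_sum)
end Pool.Agent.Helper378.PD
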