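import Pool.Agent.Helper378.PD.Base
set_option autoImplicit false
open MeasureTheory
namespace Pool.Agent.Helper378.PD
namespace H2
/-! auxiliary lemmas -/

namespace OscAux

open Filter Topology FourierTransform Real in
theorem osc_of_inj (S : Set (ℝ × ℝ)) (hS : MeasurableSet S) (F : ℝ × ℝ → ℝ × ℝ)
    (F' : ℝ × ℝ → (ℝ × ℝ →L[ℝ] ℝ × ℝ)) (hF : ∀ p ∈ S, HasFDerivWithinAt F (F' p) S p)
    (hinj : Set.InjOn F S) (hdet : ∀ p ∈ S, (F' p).det ≠ 0) :
    Tendsto (fun w : StrongDual ℝ (ℝ × ℝ) => ∫ p in S, ((𝐞 (-w (F p)) : Circle) : ℂ))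
      (cocompact (StrongDual ℝ (ℝ × ℝ))) (𝓝 0) := by
  have key := tendsto_integral_exp_smul_cocompact
    ((F '' S).indicator (fun z => ((|(F' (Function.invFunOn F S z)).det|⁻¹ : ℝ) : ℂ)))
    (volume : Measure (ℝ × ℝ))
  refine key.congr fun w => ?_
  have hm : MeasurableSet (F '' S) := measurable_image_of_fderivWithin hS hF hinj
  have h1 : ∀ v, 𝐞 (-w v) • ((F '' S).indicator
      (fun z => ((|(F' (Function.invFunOn F S z)).det|⁻¹ : ℝ) : ℂ))) v =
      (F '' S).indicator (fun v => 𝐞 (-w v) •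
        ((|(F' (Function.invFunOn F S v)).det|⁻¹ : ℝ) : ℂ)) v := by
    intro v
    by_cases hv : v ∈ F '' S
    · simp only [Set.indicator_of_mem hv]
    · simp only [Set.indicator_of_notMem hv, smul_zero]
  simp_rw [h1]
  rw [integral_indicator hm, integral_image_eq_integral_abs_det_fderiv_smul volume hS hF hinj]
  refine setIntegral_congr_fun hS fun p hp => ?_
  have h2 : Function.invFunOn F S (F p) = p := hinj.leftInvOn_invFunOn hp
  simp only [h2]
  have h3 : |(F' p).det| ≠ 0 := abs_ne_zero.2 (hdet p hp)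
  have h3' : ((|(F' p).det| : ℝ) : ℂ) ≠ 0 := by exact_mod_cast h3
  rw [Circle.smul_def, Complex.real_smul, smul_eq_mul, Complex.ofReal_inv]
  field_simp

noncomputable def FF (p : ℝ × ℝ) : ℝ × ℝ :=
  (-2 / (1 + p.1 ^ 2) + 2 / (1 + p.2 ^ 2), -2 * p.1 / (1 + p.1 ^ 2) + 2 * p.2 / (1 + p.2 ^ 2))

noncomputable def FF' (p : ℝ × ℝ) : ℝ × ℝ →L[ℝ] ℝ × ℝ :=
  (Matrix.toLin (.finTwoProd ℝ) (.finTwoProd ℝ)
    !![4 * p.1 / (1 + p.1 ^ 2) ^ 2, -4 * p.2 / (1 + p.2 ^ 2) ^ 2;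
      -2 * (1 - p.1 ^ 2) / (1 + p.1 ^ 2) ^ 2, 2 * (1 - p.2 ^ 2) / (1 + p.2 ^ 2) ^ 2]).toContinuousLinearMap

theorem hasDerivAt_u (c x : ℝ) : HasDerivAt (fun x : ℝ => c / (1 + x ^ 2))
    (-(2 * c * x) / (1 + x ^ 2) ^ 2) x := by
  have hx : (1 + x ^ 2) ≠ 0 := by positivity
  have h1 : HasDerivAt (fun x : ℝ => 1 + x ^ 2) (2 * x) x := by
    simpa using (hasDerivAt_pow 2 x).const_add 1
  have h2 := (hasDerivAt_const x c).div h1 hx
  refine h2.congr_deriv ?_
  congr 1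
  ring

theorem hasDerivAt_v (c x : ℝ) : HasDerivAt (fun x : ℝ => c * x / (1 + x ^ 2))
    (c * (1 - x ^ 2) / (1 + x ^ 2) ^ 2) x := by
  have hx : (1 + x ^ 2) ≠ 0 := by positivity
  have h1 : HasDerivAt (fun x : ℝ => 1 + x ^ 2) (2 * x) x := by
    simpa using (hasDerivAt_pow 2 x).const_add 1
  have h0 : HasDerivAt (fun x : ℝ => c * x) c x := by
    simpa using (hasDerivAt_id x).const_mul c
  have h2 := h0.div h1 hx
  refine h2.congr_deriv ?_
  congr 1
  ring

theorem hasFDerivAt_FF (p : ℝ × ℝ) : HasFDerivAt FF (FF' p) p := by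
  unfold FF'
  rw [Matrix.toLin_finTwoProd_toContinuousLinearMap]
  have a1 := (hasDerivAt_u (-2) p.1).comp_hasFDerivAt p (hasFDerivAt_fst (𝕜 := ℝ) (p := p))
  have a2 := (hasDerivAt_u 2 p.2).comp_hasFDerivAt p (hasFDerivAt_snd (𝕜 := ℝ) (p := p))
  have a3 := (hasDerivAt_v (-2) p.1).comp_hasFDerivAt p (hasFDerivAt_fst (𝕜 := ℝ) (p := p))
  have a4 := (hasDerivAt_v 2 p.2).comp_hasFDerivAt p (hasFDerivAt_snd (𝕜 := ℝ) (p := p))
  have h := HasFDerivAt.prodMk (𝕜 := ℝ) (a1.add a2) (a3.add a4)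
  convert! h using 2
  · congr 2
    · ring
    · ring

theorem det_FF' (p : ℝ × ℝ) : (FF' p).det =
    8 * (p.1 - p.2) * (1 + p.1 * p.2) / ((1 + p.1 ^ 2) ^ 2 * (1 + p.2 ^ 2) ^ 2) := by
  unfold FF'
  simp only [neg_mul, LinearMap.det_toContinuousLinearMap, LinearMap.det_toLin,
    Matrix.det_fin_two_of]
  have h1 : (1 + p.1 ^ 2) ≠ 0 := by positivity
  have h2 : (1 + p.2 ^ 2) ≠ 0 := by positivity
  field_simp
  ring

theorem inj_aux {x y x' y' : ℝ} (hx : 0 < x) (hy : 0 < y) (hx' : 0 < x') (hy' : 0 < y')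
    (hd : 0 < (x - y) * (x' - y')) (h : FF (x, y) = FF (x', y')) : x = x' ∧ y = y' := by
  simp only [FF, Prod.mk.injEq] at h
  obtain ⟨h1, h2⟩ := h
  have p1 : (0:ℝ) < 1 + x ^ 2 := by positivity
  have p2 : (0:ℝ) < 1 + y ^ 2 := by positivity
  have p3 : (0:ℝ) < 1 + x' ^ 2 := by positivity
  have p4 : (0:ℝ) < 1 + y' ^ 2 := by positivity
  have hne : x - y ≠ 0 := by
    rintro h0
    rw [h0] at hd
    simp at hd
  have hne' : x' - y' ≠ 0 := by
    rintro h0
    rw [h0] at hd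
    simp at hd
  -- real and imaginary part of (x - y) / ((x + i)(y + i))
  have e1 : -2 / (1 + x ^ 2) + 2 / (1 + y ^ 2) =
      2 * (x - y) * (x + y) / ((1 + x ^ 2) * (1 + y ^ 2)) := by
    field_simp
    ring
  have e1' : -2 / (1 + x' ^ 2) + 2 / (1 + y' ^ 2) =
      2 * (x' - y') * (x' + y') / ((1 + x' ^ 2) * (1 + y' ^ 2)) := by
    field_simp
    ring
  have e2 : -2 * x / (1 + x ^ 2) + 2 * y / (1 + y ^ 2) =
      2 * (x - y) * (x * y - 1) / ((1 + x ^ 2) * (1 + y ^ 2)) := by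
    field_simp
    ring
  have e2' : -2 * x' / (1 + x' ^ 2) + 2 * y' / (1 + y' ^ 2) =
      2 * (x' - y') * (x' * y' - 1) / ((1 + x' ^ 2) * (1 + y' ^ 2)) := by
    field_simp
    ring
  rw [e1, e1'] at h1
  rw [e2, e2'] at h2
  -- squares: (x-y)^2/((1+x^2)(1+y^2)) are equal
  have e3 : (1 + x ^ 2) * (1 + y ^ 2) = (x + y) ^ 2 + (x * y - 1) ^ 2 := by ring
  have e3' : (1 + x' ^ 2) * (1 + y' ^ 2) = (x' + y') ^ 2 + (x' * y' - 1) ^ 2 := by ring
  set N := (1 + x ^ 2) * (1 + y ^ 2) with hN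
  set N' := (1 + x' ^ 2) * (1 + y' ^ 2) with hN'
  have hNpos : 0 < N := by positivity
  have hNpos' : 0 < N' := by positivity
  rw [div_eq_div_iff hNpos.ne' hNpos'.ne'] at h1 h2
  -- (x-y)(x+y) N' = (x'-y')(x'+y') N ; (x-y)(xy-1) N' = (x'-y')(x'y'-1) N
  have q : (x - y) ^ 2 * N * N' ^ 2 = (x' - y') ^ 2 * N' * N ^ 2 := by
    have s1 : (2 * (x - y) * (x + y) * N') ^ 2 = (2 * (x' - y') * (x' + y') * N) ^ 2 := by rw [h1]
    have s2 : (2 * (x - y) * (x * y - 1) * N') ^ 2 =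
        (2 * (x' - y') * (x' * y' - 1) * N) ^ 2 := by rw [h2]
    calc (x - y) ^ 2 * N * N' ^ 2 = (x - y) ^ 2 * ((x + y) ^ 2 + (x * y - 1) ^ 2) * N' ^ 2 := by
          rw [← e3]
      _ = ((2 * (x - y) * (x + y) * N') ^ 2 + (2 * (x - y) * (x * y - 1) * N') ^ 2) / 4 := by ring
      _ = ((2 * (x' - y') * (x' + y') * N) ^ 2 + (2 * (x' - y') * (x' * y' - 1) * N) ^ 2) / 4 := by
          rw [s1, s2]
      _ = (x' - y') ^ 2 * ((x' + y') ^ 2 + (x' * y' - 1) ^ 2) * N ^ 2 := by ring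
      _ = (x' - y') ^ 2 * N' * N ^ 2 := by rw [← e3']
  have q2 : (x - y) ^ 2 * N' = (x' - y') ^ 2 * N := by
    have : (x - y) ^ 2 * N' * (N * N') = (x' - y') ^ 2 * N * (N * N') := by
      linear_combination q
    exact mul_right_cancel₀ (by positivity) this
  -- lambda
  have l1 : (x + y) * (x' - y') = (x' + y') * (x - y) := by
    have : (x + y) * (x' - y') * ((x - y) * (x' - y') * N) =
        (x' + y') * (x - y) * ((x - y) * (x' - y') * N) := by
      have h1' : (x - y) * (x + y) * N' = (x' - y') * (x' + y') * N := by linarith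
      calc (x + y) * (x' - y') * ((x - y) * (x' - y') * N)
          = (x + y) * (x - y) * ((x' - y') ^ 2 * N) := by ring
        _ = (x + y) * (x - y) * ((x - y) ^ 2 * N') := by rw [q2]
        _ = ((x - y) * (x + y) * N') * (x - y) ^ 2 := by ring
        _ = ((x' - y') * (x' + y') * N) * (x - y) ^ 2 := by rw [h1']
        _ = (x' + y') * (x - y) * ((x - y) * (x' - y') * N) := by ring
    exact mul_right_cancel₀ (by positivity) this
  have l2 : (x * y - 1) * (x' - y') = (x' * y' - 1) * (x - y) := by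
    have : (x * y - 1) * (x' - y') * ((x - y) * (x' - y') * N) =
        (x' * y' - 1) * (x - y) * ((x - y) * (x' - y') * N) := by
      have h2' : (x - y) * (x * y - 1) * N' = (x' - y') * (x' * y' - 1) * N := by linarith
      calc (x * y - 1) * (x' - y') * ((x - y) * (x' - y') * N)
          = (x * y - 1) * (x - y) * ((x' - y') ^ 2 * N) := by ring
        _ = (x * y - 1) * (x - y) * ((x - y) ^ 2 * N') := by rw [q2]
        _ = ((x - y) * (x * y - 1) * N') * (x - y) ^ 2 := by ring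
        _ = ((x' - y') * (x' * y' - 1) * N) * (x - y) ^ 2 := by rw [h2']
        _ = (x' * y' - 1) * (x - y) * ((x - y) * (x' - y') * N) := by ring
    exact mul_right_cancel₀ (by positivity) this
  -- x y' = y x'
  have l3 : x * y' = y * x' := by linarith
  have l4 : (x - y) * ((x - x') * (x' * y + 1)) = 0 := by
    linear_combination x * l2 + ((x * y - 1) + x' * (x - y)) * l3
  have l5 : x = x' := by
    rcases mul_eq_zero.1 l4 with h | h
    · exact absurd h hne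
    · rcases mul_eq_zero.1 h with h | h
      · linarith
      · have := mul_pos hx' hy
        linarith
  refine ⟨l5, ?_⟩
  rw [l5] at l3
  have : x' * y' = x' * y := by linarith
  exact (mul_left_cancel₀ hx'.ne' this).symm

noncomputable def wT (T : ℂ) : StrongDual ℝ (ℝ × ℝ) :=
  (-T.re) • ContinuousLinearMap.fst ℝ ℝ ℝ + T.im • ContinuousLinearMap.snd ℝ ℝ ℝ

theorem wT_apply (T : ℂ) (p : ℝ × ℝ) : wT T p = -T.re * p.1 + T.im * p.2 := by
  simp [wT]

theorem norm_le_wT (T : ℂ) : ‖T‖ ≤ 2 * ‖wT T‖ := by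
  have h1 : |T.re| ≤ ‖wT T‖ := by
    have := (wT T).le_opNorm (1, 0)
    rw [wT_apply] at this
    simpa [Prod.norm_def] using this
  have h2 : |T.im| ≤ ‖wT T‖ := by
    have := (wT T).le_opNorm (0, 1)
    rw [wT_apply] at this
    simpa [Prod.norm_def] using this
  have := Complex.norm_le_abs_re_add_abs_im T
  linarith

/-- the phase in real form -/
theorem phase_eq (T : ℂ) (x : ℝ) : (T * ((x : ℂ) - Complex.I) / ((x : ℂ) + Complex.I)).re =
    T.re * (1 - 2 / (1 + x ^ 2)) + T.im * (2 * x / (1 + x ^ 2)) := by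
  have hx : (0:ℝ) < 1 + x ^ 2 := by positivity
  have h1 : ((x : ℂ) + Complex.I) ≠ 0 := by
    intro h
    have := congrArg Complex.im h
    simp at this
  have h2 : ((1 + x ^ 2 : ℝ) : ℂ) ≠ 0 := by exact_mod_cast hx.ne'
  have h3 : T * ((x : ℂ) - Complex.I) / ((x : ℂ) + Complex.I) =
      T * (((1 - 2 / (1 + x ^ 2) : ℝ) : ℂ) - ((2 * x / (1 + x ^ 2) : ℝ) : ℂ) * Complex.I) := by
    rw [div_eq_iff h1]
    have h4 : ((1 : ℂ) + (x : ℂ) ^ 2) ≠ 0 := by exact_mod_cast hx.ne'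
    push_cast
    field_simp
    ring_nf
    simp only [Complex.I_sq]
    ring
  rw [h3]
  simp [Complex.mul_re, Complex.sub_re, Complex.sub_im, -Complex.ofReal_div, -Complex.ofReal_sub]

open FourierTransform in
theorem GG_mul_conj (T : ℂ) (x y : ℝ) : GG T x * (starRingEnd ℂ) (GG T y) =
    ((Real.fourierChar (-(wT T (FF (x, y)))) : Circle) : ℂ) := by
  unfold GG
  rw [← Complex.exp_conj, ← Complex.exp_add, Real.fourierChar_apply]
  congr 1
  rw [phase_eq, phase_eq, wT_apply]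
  simp only [FF, map_mul, Complex.conj_ofReal, Complex.conj_I, map_ofNat]
  push_cast
  ring

theorem GG_continuous (T : ℂ) : Continuous (GG T) := by
  unfold GG
  have h1 : ∀ x : ℝ, ((x : ℂ) + Complex.I) ≠ 0 := by
    intro x h
    have := congrArg Complex.im h
    simp at this
  have : Continuous fun x : ℝ => (T * ((x : ℂ) - Complex.I) / ((x : ℂ) + Complex.I)) := by
    apply Continuous.div
    · fun_prop
    · fun_prop
    · exact h1
  have h2 : Continuous fun x : ℝ => (T * ((x : ℂ) - Complex.I) / ((x : ℂ) + Complex.I)).re :=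
    Complex.continuous_re.comp this
  fun_prop

def Q : Set (ℝ × ℝ) := Set.Ioc 0 1 ×ˢ Set.Ioc 0 1
def S1 : Set (ℝ × ℝ) := {p ∈ Q | p.1 < p.2}
def S2 : Set (ℝ × ℝ) := {p ∈ Q | p.2 < p.1}

theorem measQ : MeasurableSet Q := measurableSet_Ioc.prod measurableSet_Ioc
theorem measS1 : MeasurableSet S1 := measQ.inter (measurableSet_lt measurable_fst measurable_snd)
theorem measS2 : MeasurableSet S2 := measQ.inter (measurableSet_lt measurable_snd measurable_fst)

theorem volT : (volume : Measure (ℝ × ℝ)) = (volume : Measure ℝ).prod volume := rfl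

theorem diag_null : (volume : Measure (ℝ × ℝ)) {p | p.1 = p.2} = 0 := by
  rw [volT]
  have hm : MeasurableSet {p : ℝ × ℝ | p.1 = p.2} :=
    measurableSet_eq_fun measurable_fst measurable_snd
  rw [Measure.measure_prod_null hm]
  refine Filter.Eventually.of_forall fun x => ?_
  have : Prod.mk x ⁻¹' {p : ℝ × ℝ | p.1 = p.2} = {x} := by
    ext y
    simp [eq_comm]
  show volume (Prod.mk x ⁻¹' {p : ℝ × ℝ | p.1 = p.2}) = 0
  rw [this]
  simp

theorem Q_ae : (Q \ S1 : Set (ℝ × ℝ)) =ᵐ[volume] S2 := by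
  have h : ∀ᵐ p : ℝ × ℝ, p ∉ {p : ℝ × ℝ | p.1 = p.2} := measure_eq_zero_iff_ae_notMem.1 diag_null
  filter_upwards [h] with p hp
  have hp' : p.1 ≠ p.2 := hp
  apply propext
  show (p ∈ Q ∧ ¬ (p ∈ Q ∧ p.1 < p.2)) ↔ (p ∈ Q ∧ p.2 < p.1)
  constructor
  · rintro ⟨h1, h2⟩
    refine ⟨h1, ?_⟩
    rcases lt_or_gt_of_ne hp' with h | h
    · exact absurd ⟨h1, h⟩ h2
    · exact h
  · rintro ⟨h1, h2⟩
    exact ⟨h1, fun h => absurd h.2 h2.not_gt⟩

open Filter Topology in
theorem tendsto_S1 : Tendsto (fun w : StrongDual ℝ (ℝ × ℝ) =>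
    ∫ p in S1, ((Real.fourierChar (-w (FF p)) : Circle) : ℂ))
      (cocompact (StrongDual ℝ (ℝ × ℝ))) (𝓝 0) := by
  apply osc_of_inj S1 measS1 FF FF' (fun p _ => (hasFDerivAt_FF p).hasFDerivWithinAt)
  · rintro ⟨x, y⟩ ⟨⟨hx, hy⟩, hlt⟩ ⟨x', y'⟩ ⟨⟨hx', hy'⟩, hlt'⟩ h
    have := inj_aux hx.1 hy.1 hx'.1 hy'.1
      (mul_pos_of_neg_of_neg (sub_neg.2 hlt) (sub_neg.2 hlt')) h
    exact Prod.ext this.1 this.2
  · rintro ⟨x, y⟩ ⟨⟨hx, hy⟩, hlt⟩
    rw [det_FF']
    have hx0 : 0 < x := hx.1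
    have hy0 : 0 < y := hy.1
    have : x - y ≠ 0 := (sub_neg.2 hlt).ne
    simp only
    positivity

open Filter Topology in
theorem tendsto_S2 : Tendsto (fun w : StrongDual ℝ (ℝ × ℝ) =>
    ∫ p in S2, ((Real.fourierChar (-w (FF p)) : Circle) : ℂ))
      (cocompact (StrongDual ℝ (ℝ × ℝ))) (𝓝 0) := by
  apply osc_of_inj S2 measS2 FF FF' (fun p _ => (hasFDerivAt_FF p).hasFDerivWithinAt)
  · rintro ⟨x, y⟩ ⟨⟨hx, hy⟩, hlt⟩ ⟨x', y'⟩ ⟨⟨hx', hy'⟩, hlt'⟩ h
    have := inj_aux hx.1 hy.1 hx'.1 hy'.1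
      (mul_pos (sub_pos.2 hlt) (sub_pos.2 hlt')) h
    exact Prod.ext this.1 this.2
  · rintro ⟨x, y⟩ ⟨⟨hx, hy⟩, hlt⟩
    rw [det_FF']
    have hx0 : 0 < x := hx.1
    have hy0 : 0 < y := hy.1
    have : x - y ≠ 0 := (sub_pos.2 hlt).ne'
    simp only
    positivity

theorem continuous_FF : Continuous FF := by
  unfold FF
  have h : ∀ p : ℝ × ℝ, (1 + p.1 ^ 2) ≠ 0 := fun p => by positivity
  have h' : ∀ p : ℝ × ℝ, (1 + p.2 ^ 2) ≠ 0 := fun p => by positivity
  fun_prop (disch := assumption)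

theorem integrableOn_Q (w : StrongDual ℝ (ℝ × ℝ)) :
    IntegrableOn (fun p => ((Real.fourierChar (-w (FF p)) : Circle) : ℂ)) Q := by
  have hc : Continuous (fun p => ((Real.fourierChar (-w (FF p)) : Circle) : ℂ)) := by
    have h1 : Continuous fun p => -w (FF p) := (w.continuous.comp continuous_FF).neg
    have h2 : Continuous fun t : ℝ => ((Real.fourierChar t : Circle) : ℂ) := by
      exact continuous_induced_dom.comp Real.continuous_fourierChar
    exact h2.comp h1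
  have : IntegrableOn (fun p => ((Real.fourierChar (-w (FF p)) : Circle) : ℂ))
      (Set.Icc 0 1 ×ˢ Set.Icc 0 1) :=
    hc.continuousOn.integrableOn_compact (isCompact_Icc.prod isCompact_Icc)
  exact this.mono_set (Set.prod_mono Set.Ioc_subset_Icc_self Set.Ioc_subset_Icc_self)

open Filter Topology in
theorem tendsto_Q : Tendsto (fun w : StrongDual ℝ (ℝ × ℝ) =>
    ∫ p in Q, ((Real.fourierChar (-w (FF p)) : Circle) : ℂ))
      (cocompact (StrongDual ℝ (ℝ × ℝ))) (𝓝 0) := by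
  have h := tendsto_S1.add tendsto_S2
  rw [add_zero] at h
  refine h.congr fun w => ?_
  have hsub : S1 ⊆ Q := fun p hp => hp.1
  have h1 : ∫ p in Q, ((Real.fourierChar (-w (FF p)) : Circle) : ℂ) =
      (∫ p in S1, ((Real.fourierChar (-w (FF p)) : Circle) : ℂ)) +
      ∫ p in Q \ S1, ((Real.fourierChar (-w (FF p)) : Circle) : ℂ) := by
    rw [← setIntegral_union Set.disjoint_sdiff_right (measQ.diff measS1)
      ((integrableOn_Q w).mono_set hsub) ((integrableOn_Q w).mono_set Set.sdiff_subset),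
      Set.union_sdiff_cancel hsub]
  rw [h1, setIntegral_congr_set Q_ae]

theorem sq_eq (T : ℂ) : (∫ x in (0:ℝ)..1, GG T x) * (starRingEnd ℂ) (∫ x in (0:ℝ)..1, GG T x) =
    ∫ p in Q, ((Real.fourierChar (-(wT T) (FF p)) : Circle) : ℂ) := by
  rw [intervalIntegral.integral_of_le zero_le_one, ← integral_conj, Q, volT,
    ← Measure.prod_restrict, ← integral_prod_mul]
  refine integral_congr_ae (Filter.Eventually.of_forall fun p => ?_)
  exact GG_mul_conj T p.1 p.2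

end OscAux

/-! TARGETS -/

open OscAux in
theorem integral_decay (ε : ℝ) (hε : 0 < ε) : ∃ Λ : ℝ, 0 < Λ ∧ ∀ T : ℂ, Λ ≤ ‖T‖ →
    ‖∫ x in (0:ℝ)..1, GG T x‖ ≤ ε := by
  have h := tendsto_Q.eventually (Metric.ball_mem_nhds 0 (show 0 < ε ^ 2 by positivity))
  rw [Filter.Eventually, Filter.mem_cocompact] at h
  obtain ⟨K, hK, hKs⟩ := h
  obtain ⟨R, hR⟩ := hK.isBounded.exists_norm_le
  refine ⟨2 * (|R| + 1), by positivity, fun T hT => ?_⟩
  have hw : wT T ∉ K := by
    intro hmem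
    have h1 := hR _ hmem
    have h2 := norm_le_wT T
    have h3 := le_abs_self R
    linarith
  have h1 : ‖∫ p in Q, ((Real.fourierChar (-(wT T) (FF p)) : Circle) : ℂ)‖ < ε ^ 2 := by
    simpa using hKs hw
  rw [← sq_eq, norm_mul, RCLike.norm_conj] at h1
  by_contra hlt
  push Not at hlt
  nlinarith

end H2
export H2 (integral_decay)
end Pool.Agent.Helper378.PD
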