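import Pool.Agent.Helper378.PD.Base
set_option autoImplicit false
open MeasureTheory
namespace Pool.Agent.Helper378.PD
namespace H3
section conic

variable {p : ℕ} [hp : Fact p.Prime]

instance neZp : NeZero p := ⟨hp.out.ne_zero⟩

/-- the conic -/
def Co (p : ℕ) [Fact p.Prime] : Finset (ZMod p × ZMod p) :=
  Finset.univ.filter (fun P => P.1 ^ 2 + P.2 ^ 2 = 1)

theorem mem_Co {P : ZMod p × ZMod p} : P ∈ Co p ↔ P.1 ^ 2 + P.2 ^ 2 = 1 := by
  simp [Co]

/-- pairing character -/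
noncomputable def ch (b P : ZMod p × ZMod p) : ℂ := ZMod.stdAddChar (b.1 * P.1 + b.2 * P.2)

/-- sum over the conic -/
noncomputable def Tc (a : ZMod p × ZMod p) : ℂ := ∑ P ∈ Co p, ch a P

theorem ch_add (b P Q : ZMod p × ZMod p) : ch b (P + Q) = ch b P * ch b Q := by
  unfold ch
  rw [← AddChar.map_add_eq_mul]
  congr 1
  simp only [Prod.fst_add, Prod.snd_add]
  ring

theorem ch_neg (b P : ZMod p × ZMod p) : ch b (-P) = (starRingEnd ℂ) (ch b P) := by
  unfold ch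
  rw [← AddChar.map_neg_eq_conj]
  congr 1
  simp only [Prod.fst_neg, Prod.snd_neg]
  ring

theorem orth1 (d : ZMod p) : ∑ x : ZMod p, (ZMod.stdAddChar (x * d) : ℂ) = if d = 0 then (p : ℂ) else 0 := by
  have h := AddChar.sum_mulShift (R' := ℂ) d (ZMod.isPrimitive_stdAddChar p)
  rw [h]
  split_ifs
  · rw [ZMod.card]
  · simp

theorem orth2 (d : ZMod p × ZMod p) : ∑ b : ZMod p × ZMod p, ch b d = if d = 0 then (p : ℂ) ^ 2 else 0 := by
  have h1 : ∑ b : ZMod p × ZMod p, ch b d =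
      (∑ x : ZMod p, (ZMod.stdAddChar (x * d.1) : ℂ)) *
      (∑ x : ZMod p, (ZMod.stdAddChar (x * d.2) : ℂ)) := by
    rw [Finset.sum_mul_sum, Fintype.sum_prod_type]
    refine Finset.sum_congr rfl fun x _ => Finset.sum_congr rfl fun y _ => ?_
    unfold ch
    rw [AddChar.map_add_eq_mul]
  rw [h1, orth1, orth1]
  by_cases h : d = 0
  · rw [h]
    simp [pow_two]
  · rw [if_neg h]
    by_cases h2 : d.1 = 0
    · have h3 : d.2 ≠ 0 := fun h3 => h (Prod.ext h2 h3)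
      rw [if_neg h3, mul_zero]
    · rw [if_neg h2, zero_mul]

theorem moment {ι : Type} [DecidableEq ι] (s : Finset ι) (f : ι → ZMod p × ZMod p) :
    ∑ b : ZMod p × ZMod p, ‖∑ i ∈ s, ch b (f i)‖ ^ 2 =
      (p : ℝ) ^ 2 * ((∑ i ∈ s, (s.filter (fun j => f i = f j)).card : ℕ) : ℝ) := by
  have key : ((∑ b : ZMod p × ZMod p, ‖∑ i ∈ s, ch b (f i)‖ ^ 2 : ℝ) : ℂ) =
      (((p : ℝ) ^ 2 * ((∑ i ∈ s, (s.filter (fun j => f i = f j)).card : ℕ) : ℝ) : ℝ) : ℂ) := by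
    push_cast
    have h1 : ∀ b : ZMod p × ZMod p, ((‖∑ i ∈ s, ch b (f i)‖ : ℂ)) ^ 2 =
        ∑ i ∈ s, ∑ j ∈ s, ch b (f i - f j) := by
      intro b
      rw [← Complex.mul_conj', map_sum, Finset.sum_mul_sum]
      refine Finset.sum_congr rfl fun i _ => Finset.sum_congr rfl fun j _ => ?_
      rw [sub_eq_add_neg, ch_add, ch_neg]
    rw [Finset.sum_congr rfl (fun b _ => h1 b), Finset.sum_comm, Finset.mul_sum]
    refine Finset.sum_congr rfl fun i _ => ?_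
    rw [Finset.sum_comm]
    simp only [orth2, sub_eq_zero]
    rw [← Finset.sum_filter, Finset.sum_const, nsmul_eq_mul, mul_comm]
  exact_mod_cast key

theorem two_ne (hp2 : 2 < p) : (2 : ZMod p) ≠ 0 := by
  intro h
  have h1 : ((2 : ℕ) : ZMod p) = 0 := by exact_mod_cast h
  rw [ZMod.natCast_eq_zero_iff] at h1
  exact absurd (Nat.le_of_dvd (by norm_num) h1) (by omega)

/-- the line section of the conic -/
theorem line_card (hp2 : 2 < p) (s : ZMod p × ZMod p) (hs : s ≠ 0) :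
    ((Co p).filter (fun P => s - P ∈ Co p)).card ≤ 2 := by
  have h2 := two_ne hp2
  set q : ZMod p := s.1 ^ 2 + s.2 ^ 2 with hq
  have hrel : ∀ P ∈ (Co p).filter (fun P => s - P ∈ Co p),
      P.1 ^ 2 + P.2 ^ 2 = 1 ∧ 2 * (s.1 * P.1 + s.2 * P.2) = q := by
    intro P hP
    rw [Finset.mem_filter, mem_Co, mem_Co] at hP
    obtain ⟨h3, h4⟩ := hP
    refine ⟨h3, ?_⟩
    simp only [Prod.fst_sub, Prod.snd_sub] at h4
    rw [hq]
    linear_combination h3 - h4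
  by_cases hq0 : q = 0
  · have hemp : (Co p).filter (fun P => s - P ∈ Co p) = ∅ := by
      rw [Finset.eq_empty_iff_forall_notMem]
      intro P hP
      obtain ⟨h3, h4⟩ := hrel P hP
      rw [hq0] at h4
      have h5 : s.1 * P.1 + s.2 * P.2 = 0 := by
        rcases mul_eq_zero.1 h4 with h | h
        · exact absurd h h2
        · exact h
      have h6 : (s.1 * P.2 - s.2 * P.1) ^ 2 = 0 := by
        have : (s.1 * P.2 - s.2 * P.1) ^ 2 = (s.1 ^ 2 + s.2 ^ 2) * (P.1 ^ 2 + P.2 ^ 2) -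
            (s.1 * P.1 + s.2 * P.2) ^ 2 := by ring
        rw [this, h5, ← hq, hq0]
        ring
      have h7 : s.1 * P.2 - s.2 * P.1 = 0 := pow_eq_zero_iff two_ne_zero |>.1 h6
      apply hs
      -- s.1 = s.1 * (P.1^2 + P.2^2)
      apply Prod.ext
      · show s.1 = 0
        calc s.1 = s.1 * (P.1 ^ 2 + P.2 ^ 2) := by rw [h3, mul_one]
          _ = P.1 * (s.1 * P.1 + s.2 * P.2) + P.2 * (s.1 * P.2 - s.2 * P.1) := by ring
          _ = 0 := by rw [h5, h7]; ring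
      · show s.2 = 0
        calc s.2 = s.2 * (P.1 ^ 2 + P.2 ^ 2) := by rw [h3, mul_one]
          _ = P.2 * (s.1 * P.1 + s.2 * P.2) - P.1 * (s.1 * P.2 - s.2 * P.1) := by ring
          _ = 0 := by rw [h5, h7]; ring
    rw [hemp]
    simp
  · by_cases hne : ((Co p).filter (fun P => s - P ∈ Co p)).Nonempty
    · obtain ⟨P0, hP0⟩ := hne
      obtain ⟨a0, b0⟩ := hrel P0 hP0
      set w0 : ZMod p := s.1 * P0.2 - s.2 * P0.1 with hw0
      let f : ZMod p → ZMod p × ZMod p := fun w =>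
        ((s.1 * (q / 2) - s.2 * w) / q, (s.2 * (q / 2) + s.1 * w) / q)
      have hsub : (Co p).filter (fun P => s - P ∈ Co p) ⊆ {f w0, f (-w0)} := by
        intro P hP
        obtain ⟨a1, b1⟩ := hrel P hP
        have hdot : s.1 * P.1 + s.2 * P.2 = q / 2 := by
          rw [eq_div_iff h2]
          linear_combination b1
        have hdot0 : s.1 * P0.1 + s.2 * P0.2 = q / 2 := by
          rw [eq_div_iff h2]
          linear_combination b0
        have hww : (s.1 * P.2 - s.2 * P.1) ^ 2 = w0 ^ 2 := by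
          have e1 : (s.1 * P.2 - s.2 * P.1) ^ 2 = (s.1 ^ 2 + s.2 ^ 2) * (P.1 ^ 2 + P.2 ^ 2) -
            (s.1 * P.1 + s.2 * P.2) ^ 2 := by ring
          have e2 : w0 ^ 2 = (s.1 ^ 2 + s.2 ^ 2) * (P0.1 ^ 2 + P0.2 ^ 2) -
            (s.1 * P0.1 + s.2 * P0.2) ^ 2 := by rw [hw0]; ring
          rw [e1, e2, a1, a0, hdot, hdot0]
        have hPf : P = f (s.1 * P.2 - s.2 * P.1) := by
          apply Prod.ext
          · show P.1 = (s.1 * (q / 2) - s.2 * (s.1 * P.2 - s.2 * P.1)) / q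
            rw [eq_div_iff hq0, ← hdot, hq]
            ring
          · show P.2 = (s.2 * (q / 2) + s.1 * (s.1 * P.2 - s.2 * P.1)) / q
            rw [eq_div_iff hq0, ← hdot, hq]
            ring
        rw [Finset.mem_insert, Finset.mem_singleton]
        rcases sq_eq_sq_iff_eq_or_eq_neg.1 hww with h | h
        · left
          rw [hPf, h]
        · right
          rw [hPf, h]
      exact (Finset.card_le_card hsub).trans Finset.card_le_two
    · rw [Finset.not_nonempty_iff_eq_empty] at hne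
      rw [hne]
      simp

theorem inner_card (hp2 : 2 < p) (s : ZMod p × ZMod p) :
    ((Co p ×ˢ Co p).filter (fun j => s = j.1 + j.2)).card ≤ if s = 0 then (Co p).card else 2 := by
  have h1 : ((Co p ×ˢ Co p).filter (fun j => s = j.1 + j.2)).card ≤
      ((Co p).filter (fun P => s - P ∈ Co p)).card := by
    apply Finset.card_le_card_of_injOn (fun j => j.1)
    · intro j hj
      have hj' : j ∈ (Co p ×ˢ Co p).filter (fun j => s = j.1 + j.2) := hj
      rw [Finset.mem_filter, Finset.mem_product] at hj'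
      obtain ⟨⟨h2, h3⟩, h4⟩ := hj'
      show j.1 ∈ (((Co p).filter (fun P => s - P ∈ Co p) : Finset _) : Set _)
      rw [Finset.mem_coe, Finset.mem_filter]
      refine ⟨h2, ?_⟩
      have : s - j.1 = j.2 := by rw [h4]; abel
      rw [this]
      exact h3
    · intro j hj k hk hjk
      have hj' : j ∈ (Co p ×ˢ Co p).filter (fun j => s = j.1 + j.2) := hj
      have hk' : k ∈ (Co p ×ˢ Co p).filter (fun j => s = j.1 + j.2) := hk
      rw [Finset.mem_filter] at hj' hk'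
      have e1 : j.1 = k.1 := hjk
      have e2 : j.2 = k.2 := by
        have h5 : j.1 + j.2 = k.1 + k.2 := hj'.2.symm.trans hk'.2
        rw [e1] at h5
        exact add_left_cancel h5
      exact Prod.ext e1 e2
  refine h1.trans ?_
  split_ifs with h
  · exact Finset.card_filter_le _ _
  · exact line_card hp2 s h

theorem energy (hp2 : 2 < p) : ∑ i ∈ Co p ×ˢ Co p,
    ((Co p ×ˢ Co p).filter (fun j => i.1 + i.2 = j.1 + j.2)).card ≤ 3 * (Co p).card ^ 2 := by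
  calc ∑ i ∈ Co p ×ˢ Co p, ((Co p ×ˢ Co p).filter (fun j => i.1 + i.2 = j.1 + j.2)).card ≤
        ∑ i ∈ Co p ×ˢ Co p, (if i.1 + i.2 = 0 then (Co p).card else 2) :=
        Finset.sum_le_sum fun i _ => inner_card hp2 _
    _ ≤ ∑ i ∈ Co p ×ˢ Co p, ((if i.1 + i.2 = 0 then (Co p).card else 0) + 2) := by
        refine Finset.sum_le_sum fun i _ => ?_
        split_ifs <;> omega
    _ = ((Co p ×ˢ Co p).filter (fun i => i.1 + i.2 = 0)).card * (Co p).card +
        (Co p ×ˢ Co p).card * 2 := by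
        rw [Finset.sum_add_distrib, ← Finset.sum_filter, Finset.sum_const, Finset.sum_const,
          smul_eq_mul, smul_eq_mul]
    _ ≤ (Co p).card * (Co p).card + (Co p ×ˢ Co p).card * 2 := by
        gcongr
        have := inner_card hp2 (0 : ZMod p × ZMod p)
        rw [if_pos rfl] at this
        refine le_trans (le_of_eq ?_) this
        congr 1
        ext j
        simp only [Finset.mem_filter, eq_comm]
    _ = 3 * (Co p).card ^ 2 := by
        rw [Finset.card_product]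
        ring

theorem fourth (hp2 : 2 < p) : ∑ b : ZMod p × ZMod p, ‖Tc b‖ ^ 4 ≤
    (p : ℝ) ^ 2 * (3 * ((Co p).card : ℝ) ^ 2) := by
  have h1 : ∀ b : ZMod p × ZMod p, ‖Tc b‖ ^ 4 =
      ‖∑ i ∈ Co p ×ˢ Co p, ch b (i.1 + i.2)‖ ^ 2 := by
    intro b
    have h2 : ∑ i ∈ Co p ×ˢ Co p, ch b (i.1 + i.2) = Tc b * Tc b := by
      unfold Tc
      rw [Finset.sum_mul_sum, Finset.sum_product]
      simp only [ch_add]
    rw [h2, norm_mul]
    ring
  rw [Finset.sum_congr rfl (fun b _ => h1 b),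
    moment (Co p ×ˢ Co p) (fun i => i.1 + i.2)]
  have h3 := energy hp2
  have h4 : ((∑ i ∈ Co p ×ˢ Co p,
    ((Co p ×ˢ Co p).filter (fun j => i.1 + i.2 = j.1 + j.2)).card : ℕ) : ℝ) ≤
      3 * ((Co p).card : ℝ) ^ 2 := by exact_mod_cast h3
  exact mul_le_mul_of_nonneg_left h4 (by positivity)

/-- rotation -/
def rot (a g : ZMod p × ZMod p) : ZMod p × ZMod p :=
  (g.1 * a.1 - g.2 * a.2, g.2 * a.1 + g.1 * a.2)

theorem Tc_rot (a g : ZMod p × ZMod p) (hg : g ∈ Co p) : Tc (rot a g) = Tc a := by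
  rw [mem_Co] at hg
  unfold Tc
  refine Finset.sum_nbij' (fun P => (g.1 * P.1 + g.2 * P.2, -g.2 * P.1 + g.1 * P.2))
    (fun P => (g.1 * P.1 - g.2 * P.2, g.2 * P.1 + g.1 * P.2)) ?_ ?_ ?_ ?_ ?_
  · intro P hP
    rw [mem_Co] at hP ⊢
    simp only
    linear_combination hP * (g.1 ^ 2 + g.2 ^ 2) + hg
  · intro P hP
    rw [mem_Co] at hP ⊢
    simp only
    linear_combination hP * (g.1 ^ 2 + g.2 ^ 2) + hg
  · intro P hP
    apply Prod.ext
    · simp only
      linear_combination P.1 * hg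
    · simp only
      linear_combination P.2 * hg
  · intro P hP
    apply Prod.ext
    · simp only
      linear_combination P.1 * hg
    · simp only
      linear_combination P.2 * hg
  · intro P hP
    unfold ch rot
    congr 1
    simp only
    ring

theorem rot_inj (hp2 : 2 < p) (a : ZMod p × ZMod p) (ha : a ≠ 0) :
    Set.InjOn (rot a) (Co p : Set (ZMod p × ZMod p)) := by
  intro g hg g' hg' h
  rw [Finset.mem_coe, mem_Co] at hg hg'
  have h1 : g.1 * a.1 - g.2 * a.2 = g'.1 * a.1 - g'.2 * a.2 := congrArg Prod.fst h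
  have h2 : g.2 * a.1 + g.1 * a.2 = g'.2 * a.1 + g'.1 * a.2 := congrArg Prod.snd h
  have h3 : ((g.1 - g'.1) ^ 2 + (g.2 - g'.2) ^ 2) * a.1 = 0 := by
    linear_combination (g.1 - g'.1) * h1 + (g.2 - g'.2) * h2
  have h4 : ((g.1 - g'.1) ^ 2 + (g.2 - g'.2) ^ 2) * a.2 = 0 := by
    linear_combination (g.1 - g'.1) * h2 - (g.2 - g'.2) * h1
  have h5 : (g.1 - g'.1) ^ 2 + (g.2 - g'.2) ^ 2 = 0 := by
    by_contra hne
    apply ha
    apply Prod.ext
    · exact (mul_eq_zero.1 h3).resolve_left hne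
    · exact (mul_eq_zero.1 h4).resolve_left hne
  have h6 : g.1 * (g.1 - g'.1) + g.2 * (g.2 - g'.2) = 0 := by
    have h7 : 2 * (g.1 * (g.1 - g'.1) + g.2 * (g.2 - g'.2)) = 0 := by
      linear_combination h5 + hg - hg'
    exact (mul_eq_zero.1 h7).resolve_left (two_ne hp2)
  have h8 : (g.1 * (g.2 - g'.2) - g.2 * (g.1 - g'.1)) ^ 2 = 0 := by
    linear_combination (g.1 ^ 2 + g.2 ^ 2) * h5 -
      (g.1 * (g.1 - g'.1) + g.2 * (g.2 - g'.2)) * h6
  have h9 : g.1 * (g.2 - g'.2) - g.2 * (g.1 - g'.1) = 0 := pow_eq_zero_iff two_ne_zero |>.1 h8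
  apply Prod.ext
  · have : g.1 - g'.1 = 0 := by
      linear_combination g.1 * h6 - g.2 * h9 - (g.1 - g'.1) * hg
    exact sub_eq_zero.1 this
  · have : g.2 - g'.2 = 0 := by
      linear_combination g.2 * h6 + g.1 * h9 - (g.2 - g'.2) * hg
    exact sub_eq_zero.1 this

theorem Co_pos : 0 < (Co p).card := by
  rw [Finset.card_pos]
  exact ⟨(1, 0), by rw [mem_Co]; simp⟩

theorem Tc_bound (hp2 : 2 < p) (a : ZMod p × ZMod p) (ha : a ≠ 0) :
    ‖Tc a‖ ^ 4 ≤ 3 * (p : ℝ) ^ 2 * ((Co p).card : ℝ) := by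
  have h1 : ((Co p).card : ℝ) * ‖Tc a‖ ^ 4 ≤ ∑ b : ZMod p × ZMod p, ‖Tc b‖ ^ 4 := by
    calc ((Co p).card : ℝ) * ‖Tc a‖ ^ 4 = ∑ g ∈ Co p, ‖Tc (rot a g)‖ ^ 4 := by
          rw [Finset.sum_congr rfl (fun g hg => by rw [Tc_rot a g hg]), Finset.sum_const,
            nsmul_eq_mul]
      _ = ∑ b ∈ (Co p).image (rot a), ‖Tc b‖ ^ 4 := by
          rw [Finset.sum_image (rot_inj hp2 a ha)]
      _ ≤ ∑ b : ZMod p × ZMod p, ‖Tc b‖ ^ 4 :=
          Finset.sum_le_sum_of_subset_of_nonneg (Finset.subset_univ _) (fun _ _ _ => by positivity)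
  have h2 := h1.trans (fourth hp2)
  have h3 : (0 : ℝ) < (Co p).card := by exact_mod_cast Co_pos
  have h4 : ((Co p).card : ℝ) * ‖Tc a‖ ^ 4 ≤
      ((Co p).card : ℝ) * (3 * (p : ℝ) ^ 2 * ((Co p).card : ℝ)) := by
    refine h2.trans (le_of_eq ?_)
    ring
  exact le_of_mul_le_mul_left h4 h3

/-- parametrisation of the conic -/
def par (Y : ℕ) (m : ℕ) : ZMod p × ZMod p :=
  ((((m : ZMod p)) ^ 2 - (Y : ZMod p) ^ 2) / ((m : ZMod p) ^ 2 + (Y : ZMod p) ^ 2),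
    2 * (m : ZMod p) * (Y : ZMod p) / ((m : ZMod p) ^ 2 + (Y : ZMod p) ^ 2))

theorem dvd_iff' (m Y : ℕ) : p ∣ m ^ 2 + Y ^ 2 ↔ (m : ZMod p) ^ 2 + (Y : ZMod p) ^ 2 = 0 := by
  rw [← ZMod.natCast_eq_zero_iff]
  push_cast
  rfl

theorem bij (hp2 : 2 < p) (Y : ℕ) (hY : ¬ p ∣ Y) (f : ZMod p × ZMod p → ℂ) :
    ∑ m ∈ (Finset.range p).filter (fun m => ¬ p ∣ m ^ 2 + Y ^ 2), f (par Y m) =
      ∑ P ∈ (Co p).erase (1, 0), f P := by
  have h2 := two_ne hp2
  have hY0 : (Y : ZMod p) ≠ 0 := by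
    rw [Ne, ZMod.natCast_eq_zero_iff]
    exact hY
  -- facts on points
  have hP : ∀ P ∈ (Co p).erase (1, 0), P.1 ^ 2 + P.2 ^ 2 = 1 ∧ 1 - P.1 ≠ 0 := by
    intro P hP
    rw [Finset.mem_erase, mem_Co] at hP
    refine ⟨hP.2, fun h0 => hP.1 ?_⟩
    have h1 : P.1 = 1 := (sub_eq_zero.1 h0).symm
    have h3 : P.2 ^ 2 = 0 := by
      have := hP.2
      rw [h1] at this
      linear_combination this
    exact Prod.ext h1 (pow_eq_zero_iff two_ne_zero |>.1 h3)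
  have hMcast : ∀ P : ZMod p × ZMod p, ((((Y : ZMod p) * P.2 / (1 - P.1)).val : ℕ) : ZMod p) =
      (Y : ZMod p) * P.2 / (1 - P.1) := fun P => ZMod.natCast_zmod_val _
  have hD : ∀ P ∈ (Co p).erase (1, 0), ((Y : ZMod p) * P.2 / (1 - P.1)) ^ 2 + (Y : ZMod p) ^ 2 =
      2 * (Y : ZMod p) ^ 2 / (1 - P.1) := by
    intro P hPP
    obtain ⟨h3, h4⟩ := hP P hPP
    field_simp
    linear_combination h3
  refine Finset.sum_nbij' (fun m => par Y m)
    (fun P => ((Y : ZMod p) * P.2 / (1 - P.1)).val) ?_ ?_ ?_ ?_ ?_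
  · intro m hm
    rw [Finset.mem_filter, dvd_iff'] at hm
    have hm2 : (m : ZMod p) ^ 2 + (Y : ZMod p) ^ 2 ≠ 0 := hm.2
    rw [Finset.mem_erase, mem_Co]
    constructor
    · intro h
      have h3 : ((m : ZMod p) ^ 2 - (Y : ZMod p) ^ 2) / ((m : ZMod p) ^ 2 + (Y : ZMod p) ^ 2) = 1 :=
        congrArg Prod.fst h
      rw [div_eq_one_iff_eq hm2] at h3
      have h4 : 2 * (Y : ZMod p) ^ 2 = 0 := by linear_combination -h3
      rcases mul_eq_zero.1 h4 with h5 | h5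
      · exact h2 h5
      · exact hY0 (pow_eq_zero_iff two_ne_zero |>.1 h5)
    · unfold par
      simp only
      field_simp
      ring
  · intro P hPP
    obtain ⟨h3, h4⟩ := hP P hPP
    rw [Finset.mem_filter, Finset.mem_range, dvd_iff', hMcast, hD P hPP]
    refine ⟨ZMod.val_lt _, ?_⟩
    exact div_ne_zero (mul_ne_zero h2 (pow_ne_zero 2 hY0)) h4
  · intro m hm
    rw [Finset.mem_filter, Finset.mem_range, dvd_iff'] at hm
    have hm2 : (m : ZMod p) ^ 2 + (Y : ZMod p) ^ 2 ≠ 0 := hm.2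
    have h5 : (Y : ZMod p) * (par (p := p) Y m).2 / (1 - (par (p := p) Y m).1) = (m : ZMod p) := by
      unfold par
      simp only
      have h6 : 1 - ((m : ZMod p) ^ 2 - (Y : ZMod p) ^ 2) / ((m : ZMod p) ^ 2 + (Y : ZMod p) ^ 2) =
          2 * (Y : ZMod p) ^ 2 / ((m : ZMod p) ^ 2 + (Y : ZMod p) ^ 2) := by
        field_simp
        ring
      rw [h6]
      field_simp
    rw [h5]
    exact ZMod.val_natCast_of_lt hm.1
  · intro P hPP
    obtain ⟨h3, h4⟩ := hP P hPP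
    unfold par
    rw [hMcast, hD P hPP]
    apply Prod.ext
    · simp only
      field_simp
      linear_combination h3
    · simp only
      field_simp
  · intro m hm
    rfl

theorem Co_card (hp2 : 2 < p) : (Co p).card ≤ p + 1 := by
  have hY : ¬ p ∣ 1 := by
    intro h
    have := Nat.le_of_dvd (by norm_num) h
    omega
  have h1 := bij hp2 1 hY (fun _ => (1 : ℂ))
  rw [Finset.sum_const, Finset.sum_const, nsmul_eq_mul, nsmul_eq_mul, mul_one, mul_one] at h1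
  have h2 : ((Finset.range p).filter (fun m => ¬ p ∣ m ^ 2 + 1 ^ 2)).card =
      ((Co p).erase (1, 0)).card := by exact_mod_cast h1
  have h3 : ((Finset.range p).filter (fun m => ¬ p ∣ m ^ 2 + 1 ^ 2)).card ≤ p := by
    refine (Finset.card_filter_le _ _).trans ?_
    rw [Finset.card_range]
  have h4 : ((1, 0) : ZMod p × ZMod p) ∈ Co p := by
    rw [mem_Co]
    simp
  have h5 := Finset.card_erase_of_mem h4
  omega

theorem ph_eq (a1 a2 : ℤ) (Y : ℕ) (y : ℕ → ℤ)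
    (m : ℕ) (hm : ¬ p ∣ m ^ 2 + Y ^ 2) (hy : (p:ℤ) ∣ ((m:ℤ) ^ 2 + (Y:ℤ) ^ 2) * y m - 1) :
    ph p a1 a2 Y y m = ch ((a1 : ZMod p), (a2 : ZMod p)) (par Y m) := by
  rw [dvd_iff'] at hm
  have h1 : ((m : ZMod p) ^ 2 + (Y : ZMod p) ^ 2) * (y m : ZMod p) = 1 := by
    have := (ZMod.intCast_zmod_eq_zero_iff_dvd _ p).2 hy
    push_cast at this
    exact sub_eq_zero.1 this
  have h2 : ph p a1 a2 Y y m = ZMod.stdAddChar
      (((y m * (((m:ℤ) ^ 2 - (Y:ℤ) ^ 2) * a1 + 2 * (m:ℤ) * (Y:ℤ) * a2) : ℤ)) : ZMod p) := by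
    rw [ZMod.stdAddChar_coe]
    unfold ph
    congr 1
    ring
  rw [h2]
  unfold ch par
  congr 1
  push_cast
  have h3 : (y m : ZMod p) = 1 / ((m : ZMod p) ^ 2 + (Y : ZMod p) ^ 2) := by
    rw [eq_div_iff hm, mul_comm]
    exact h1
  rw [h3]
  field_simp

end conic

/-! TARGETS -/

theorem psum1 (ε : ℝ) (hε : 0 < ε) : ∃ Q : ℕ, ∀ p : ℕ, p.Prime → Q < p → ∀ (a1 a2 : ℤ) (Y : ℕ),
    ¬ ((p:ℤ) ∣ a1 ∧ (p:ℤ) ∣ a2) → ¬ p ∣ Y → ∀ y : ℕ → ℤ,
    (∀ m : ℕ, ¬ p ∣ m ^ 2 + Y ^ 2 → (p:ℤ) ∣ ((m:ℤ) ^ 2 + (Y:ℤ) ^ 2) * y m - 1) →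
    ‖∑ m ∈ (Finset.range p).filter (fun m => ¬ p ∣ m ^ 2 + Y ^ 2), ph p a1 a2 Y y m‖ ≤ ε * p := by
  refine ⟨max 2 (max ⌈96 / ε ^ 4⌉₊ ⌈2 / ε⌉₊), ?_⟩
  intro p hpp hQ a1 a2 Y ha hY y hy
  haveI : Fact p.Prime := ⟨hpp⟩
  have hp2 : 2 < p := lt_of_le_of_lt (le_max_left _ _) hQ
  have hpa : 96 / ε ^ 4 ≤ p := by
    have h1 : ⌈96 / ε ^ 4⌉₊ < p :=
      lt_of_le_of_lt ((le_max_left _ _).trans (le_max_right _ _)) hQ
    exact (Nat.le_ceil _).trans (by exact_mod_cast h1.le)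
  have hpb : 2 / ε ≤ p := by
    have h1 : ⌈2 / ε⌉₊ < p :=
      lt_of_le_of_lt ((le_max_right _ _).trans (le_max_right _ _)) hQ
    exact (Nat.le_ceil _).trans (by exact_mod_cast h1.le)
  have hp0 : (0 : ℝ) < p := by
    have := hpp.pos
    exact_mod_cast this
  have hp1 : (1 : ℝ) ≤ p := by
    have := hpp.one_lt.le
    exact_mod_cast this
  have ha0 : (((a1 : ZMod p), (a2 : ZMod p)) : ZMod p × ZMod p) ≠ 0 := by
    intro h
    apply ha
    constructor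
    · exact (ZMod.intCast_zmod_eq_zero_iff_dvd _ p).1 (congrArg Prod.fst h)
    · exact (ZMod.intCast_zmod_eq_zero_iff_dvd _ p).1 (congrArg Prod.snd h)
  have hsum : ∑ m ∈ (Finset.range p).filter (fun m => ¬ p ∣ m ^ 2 + Y ^ 2), ph p a1 a2 Y y m =
      Tc ((a1 : ZMod p), (a2 : ZMod p)) - ch ((a1 : ZMod p), (a2 : ZMod p)) (1, 0) := by
    rw [Finset.sum_congr rfl (fun m hm => ph_eq a1 a2 Y y m (Finset.mem_filter.1 hm).2
      (hy m (Finset.mem_filter.1 hm).2)), bij hp2 Y hY]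
    unfold Tc
    have h4 : ((1, 0) : ZMod p × ZMod p) ∈ Co p := by
      rw [mem_Co]
      simp
    rw [← Finset.add_sum_erase _ _ h4]
    ring
  rw [hsum]
  have hT := Tc_bound hp2 _ ha0
  have hC : ((Co p).card : ℝ) ≤ p + 1 := by exact_mod_cast Co_card hp2
  have hT2 : ‖Tc ((a1 : ZMod p), (a2 : ZMod p))‖ ^ 4 ≤ (ε * p / 2) ^ 4 := by
    calc ‖Tc ((a1 : ZMod p), (a2 : ZMod p))‖ ^ 4 ≤ 3 * (p : ℝ) ^ 2 * ((Co p).card : ℝ) := hT
      _ ≤ 3 * (p : ℝ) ^ 2 * (p + 1) := by gcongr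
      _ ≤ 6 * (p : ℝ) ^ 3 := by nlinarith [sq_nonneg (p : ℝ)]
      _ ≤ (ε * p / 2) ^ 4 := by
          rw [div_le_iff₀ (by positivity)] at hpa
          have h5 : (ε * p / 2) ^ 4 = (p * ε ^ 4) * (p : ℝ) ^ 3 / 16 := by ring
          rw [h5]
          have h6 : 0 < (p : ℝ) ^ 3 := by positivity
          nlinarith
  have hT3 : ‖Tc ((a1 : ZMod p), (a2 : ZMod p))‖ ≤ ε * p / 2 :=
    (pow_le_pow_iff_left₀ (norm_nonneg _) (by positivity) (by norm_num)).1 hT2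
  have hc1 : ‖ch (((a1 : ZMod p), (a2 : ZMod p)) : ZMod p × ZMod p) (1, 0)‖ = 1 := by
    unfold ch
    exact AddChar.norm_apply _ _
  have h7 : 1 ≤ ε * p / 2 := by
    rw [div_le_iff₀ hε] at hpb
    linarith
  calc _ ≤ ‖Tc ((a1 : ZMod p), (a2 : ZMod p))‖ +
        ‖ch (((a1 : ZMod p), (a2 : ZMod p)) : ZMod p × ZMod p) (1, 0)‖ := norm_sub_le _ _
    _ ≤ ε * p / 2 + 1 := by rw [hc1]; gcongr
    _ ≤ ε * p := by linarith

end H3
export H3 (psum1)
end Pool.Agent.Helper378.PD
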