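import Pool.Agent.Helper378.PD.Base
set_option autoImplicit false
open MeasureTheory
namespace Pool.Agent.Helper378.PD
namespace H4
theorem geo (N : ℕ) (hN : 0 < N) (c : ℤ) :
    ‖∑ x ∈ Finset.range N, Complex.exp (2 * Real.pi * Complex.I * (((x:ℂ) * (c:ℂ)) / (N:ℂ)))‖ ≤
      if (N:ℤ) ∣ c then (N:ℝ) else 0 := by
  have hN' : (N:ℂ) ≠ 0 := by exact_mod_cast hN.ne'
  set ζ := Complex.exp (2 * Real.pi * Complex.I * ((c:ℂ) / (N:ℂ))) with hζ
  have h1 : ∀ x ∈ Finset.range N,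
      Complex.exp (2 * Real.pi * Complex.I * (((x:ℂ) * (c:ℂ)) / (N:ℂ))) = ζ ^ x := by
    intro x _
    rw [hζ, ← Complex.exp_nat_mul]
    congr 1; ring
  have hn : ‖ζ‖ = 1 := by
    have : 2 * (Real.pi:ℂ) * Complex.I * ((c:ℂ) / (N:ℂ)) =
        ((2 * Real.pi * ((c:ℝ) / (N:ℝ)) : ℝ) : ℂ) * Complex.I := by push_cast; ring
    rw [hζ, this, Complex.norm_exp_ofReal_mul_I]
  rw [Finset.sum_congr rfl h1]
  split_ifs with h
  · calc ‖∑ x ∈ Finset.range N, ζ ^ x‖ ≤ ∑ x ∈ Finset.range N, ‖ζ ^ x‖ := norm_sum_le _ _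
      _ = N := by simp [norm_pow, hn]
  · have hz : ζ ≠ 1 := by
      intro h1
      rw [hζ, Complex.exp_eq_one_iff] at h1
      obtain ⟨n, hn⟩ := h1
      apply h
      refine ⟨n, ?_⟩
      have hpi : (2 * (Real.pi:ℂ) * Complex.I) ≠ 0 := Complex.two_pi_I_ne_zero
      have h2 : (c:ℂ) / (N:ℂ) = n := by
        apply mul_left_cancel₀ hpi
        rw [hn]; ring
      rw [div_eq_iff hN'] at h2
      have h3 : ((c:ℤ):ℂ) = (((N:ℤ) * n : ℤ):ℂ) := by push_cast; rw [h2]; ring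
      exact_mod_cast h3
    have hzN : ζ ^ N = 1 := by
      rw [hζ, ← Complex.exp_nat_mul]
      have : (N:ℂ) * (2 * Real.pi * Complex.I * ((c:ℂ) / (N:ℂ))) = (c:ℂ) * (2 * Real.pi * Complex.I) := by
        field_simp
      rw [this, Complex.exp_int_mul_two_pi_mul_I]
    rw [geom_sum_eq hz, hzN, sub_self, zero_div, norm_zero]

theorem ringkey {R : Type*} [CommRing R] {P x Y m0 a1 a2 y y0 : R} (hP : P * P = 0)
    (hy : ((m0 + P * x) ^ 2 + Y ^ 2) * y = 1) (hy0 : (m0 ^ 2 + Y ^ 2) * y0 = 1) :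
    y * (((m0 + P * x) ^ 2 - Y ^ 2) * a1 + 2 * (m0 + P * x) * Y * a2) =
      y0 * ((m0 ^ 2 - Y ^ 2) * a1 + 2 * m0 * Y * a2) +
        P * x * (2 * Y * (2 * a1 * m0 * Y + a2 * (Y ^ 2 - m0 ^ 2)) * y0 ^ 2) := by
  have hA : y * P = y0 * P := by
    linear_combination (-(y * P)) * hy0 + (y0 * P) * hy - (y * y0 * (2 * m0 * x + P * x ^ 2)) * hP
  have hB : y = y0 - y0 ^ 2 * 2 * m0 * P * x := by
    linear_combination (-y) * hy0 + y0 * hy - (y0 * 2 * m0 * x) * hA - (y * y0 * x ^ 2) * hP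
  have hC : y0 * P * x = y0 ^ 2 * (m0 ^ 2 + Y ^ 2) * P * x := by
    linear_combination (-(y0 * P * x)) * hy0
  rw [hB]
  have h1 : (m0 + P * x) ^ 2 = m0 ^ 2 + 2 * m0 * P * x := by
    linear_combination (x ^ 2) * hP
  rw [h1]
  linear_combination (2 * m0 * a1 + 2 * Y * a2) * hC -
    (y0 ^ 2 * 2 * m0 * x * (2 * m0 * x * a1 + 2 * x * Y * a2)) * hP

theorem intkey {q P N' x Y m0 a1 a2 y y0 : ℤ} (hq : q = P * N') (hN : N' ∣ P)
    (hy : q ∣ ((m0 + P * x) ^ 2 + Y ^ 2) * y - 1) (hy0 : q ∣ (m0 ^ 2 + Y ^ 2) * y0 - 1) :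
    q ∣ y * (((m0 + P * x) ^ 2 - Y ^ 2) * a1 + 2 * (m0 + P * x) * Y * a2) -
      (y0 * ((m0 ^ 2 - Y ^ 2) * a1 + 2 * m0 * Y * a2) +
        P * x * (2 * Y * (2 * a1 * m0 * Y + a2 * (Y ^ 2 - m0 ^ 2)) * y0 ^ 2)) := by
  have hPP : q ∣ P * P := by rw [hq]; exact mul_dvd_mul_left P hN
  rw [← Ideal.mem_span_singleton, ← Ideal.Quotient.eq] at hy hy0 ⊢
  rw [← Ideal.mem_span_singleton, ← Ideal.Quotient.eq_zero_iff_mem] at hPP
  simp only [map_mul, map_add, map_pow, map_sub, map_one] at hy hy0 hPP ⊢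
  exact ringkey hPP hy hy0

/-- a set of residues that are all congruent mod `r` -/
theorem card_class {P r : ℕ} (hr : 0 < r) (hrP : r ∣ P) (S : Finset ℕ) (hS : ∀ m ∈ S, m < P)
    (hc : ∀ m ∈ S, ∀ m' ∈ S, (r:ℤ) ∣ (m:ℤ) - m') : S.card ≤ P / r := by
  rw [← Finset.card_range (P / r)]
  apply Finset.card_le_card_of_injOn (fun m => m / r)
  · intro m hm
    simp only [Finset.coe_range, Set.mem_Iio]
    exact Nat.div_lt_div_of_lt_of_dvd hrP (hS m hm)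
  · intro m hm m' hm' h
    simp only at h
    have h1 := hc m hm m' hm'
    have h2 : m % r = m' % r := by
      have := (Int.emod_emod_of_dvd (m:ℤ) (dvd_refl (r:ℤ)))
      have h3 : (m:ℤ) % r = (m':ℤ) % r := Int.emod_eq_emod_iff_emod_sub_eq_zero.mpr
        (Int.emod_eq_zero_of_dvd h1)
      exact_mod_cast h3
    rw [← Nat.div_add_mod m r, ← Nat.div_add_mod m' r, h, h2]

theorem prime_dvd_mul_pow {p : ℕ} (hp : p.Prime) {s : ℕ} {A B : ℤ} (h : ((p ^ s : ℕ):ℤ) ∣ A * B) :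
    ((p ^ ((s + 1) / 2) : ℕ):ℤ) ∣ A ∨ ((p ^ ((s + 1) / 2) : ℕ):ℤ) ∣ B := by
  have hp' : Prime (p:ℤ) := Nat.prime_iff_prime_int.mp hp
  push_cast at h ⊢
  by_contra hcon
  push Not at hcon
  obtain ⟨hA, hB⟩ := hcon
  have hfin : ∀ C : ℤ, ¬ (p:ℤ) ^ ((s + 1) / 2) ∣ C → ∃ i < (s + 1) / 2, ∃ u, C = (p:ℤ) ^ i * u ∧ ¬ (p:ℤ) ∣ u := by
    intro C hC
    have hC0 : C ≠ 0 := by rintro rfl; exact hC (dvd_zero _)
    have hfm : FiniteMultiplicity (p:ℤ) C := FiniteMultiplicity.of_prime_left hp' hC0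
    obtain ⟨u, hu1, hu2⟩ := hfm.exists_eq_pow_mul_and_not_dvd
    refine ⟨multiplicity (p:ℤ) C, ?_, u, hu1, hu2⟩
    by_contra hge
    push Not at hge
    apply hC
    rw [hu1]
    exact Dvd.dvd.mul_right (pow_dvd_pow _ hge) _
  obtain ⟨i, hi, u, hu, hpu⟩ := hfin A hA
  obtain ⟨j, hj, v, hv, hpv⟩ := hfin B hB
  have h1 : (p:ℤ) ^ (i + j + 1) ∣ (p:ℤ) ^ (i + j) * (u * v) := by
    have h2 : A * B = (p:ℤ) ^ (i + j) * (u * v) := by rw [hu, hv, pow_add]; ring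
    rw [← h2]
    exact dvd_trans (pow_dvd_pow _ (by omega)) h
  rw [pow_succ] at h1
  have h3 := (mul_dvd_mul_iff_left (pow_ne_zero (i + j) hp'.ne_zero)).mp h1
  rcases hp'.dvd_or_dvd h3 with h4 | h4
  · exact hpu h4
  · exact hpv h4

theorem sum_split (P N : ℕ) (hP : 0 < P) (F : ℕ → ℂ) :
    ∑ m ∈ Finset.range (P * N), F m =
      ∑ m0 ∈ Finset.range P, ∑ x ∈ Finset.range N, F (m0 + P * x) := by
  rw [← Finset.sum_product']
  symm
  apply Finset.sum_nbij' (fun z : ℕ × ℕ => z.1 + P * z.2) (fun m => (m % P, m / P))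
  · rintro ⟨a, b⟩ h
    simp only [Finset.mem_product, Finset.mem_range] at h ⊢
    calc a + P * b < P + P * b := by omega
      _ = P * (b + 1) := by ring
      _ ≤ P * N := Nat.mul_le_mul_left P h.2
  · intro m h
    simp only [Finset.mem_product, Finset.mem_range] at h ⊢
    exact ⟨Nat.mod_lt _ hP, Nat.div_lt_of_lt_mul h⟩
  · rintro ⟨a, b⟩ h
    simp only [Finset.mem_product, Finset.mem_range] at h ⊢
    rw [Nat.add_mul_mod_self_left, Nat.mod_eq_of_lt h.1, Nat.add_mul_div_left _ _ hP,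
      Nat.div_eq_of_lt h.1, zero_add]
  · intro m _
    exact Nat.mod_add_div m P
  · rintro ⟨a, b⟩ _
    rfl

theorem claim1 {p e : ℕ} (hp : p.Prime) (he : 2 ≤ e) (a1 a2 : ℤ) (Y : ℕ) (hY : ¬ p ∣ Y)
    (y : ℕ → ℤ) (hy : ∀ m : ℕ, ¬ p ∣ m ^ 2 + Y ^ 2 →
      ((p ^ e : ℕ):ℤ) ∣ ((m:ℤ) ^ 2 + (Y:ℤ) ^ 2) * y m - 1) (P N : ℕ) (hP : P = p ^ (e - e / 2))
    (hN : N = p ^ (e / 2)) :
    ‖∑ m ∈ (Finset.range (p ^ e)).filter (fun m => ¬ p ∣ m ^ 2 + Y ^ 2), ph (p ^ e) a1 a2 Y y m‖ ≤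
      (N:ℝ) * (((Finset.range P).filter (fun m : ℕ => ¬ p ∣ m ^ 2 + Y ^ 2 ∧
        (N:ℤ) ∣ 2 * (2 * a1 * (m:ℤ) * (Y:ℤ) + a2 * ((Y:ℤ) ^ 2 - (m:ℤ) ^ 2)))).card : ℝ) := by
  have hPN : p ^ e = P * N := by rw [hP, hN, ← pow_add]; congr 1; omega
  have hP0 : 0 < P := by rw [hP]; exact pow_pos hp.pos _
  have hN0 : 0 < N := by rw [hN]; exact pow_pos hp.pos _
  have hNP : N ∣ P := by rw [hP, hN]; exact pow_dvd_pow _ (by omega)
  have hpP : p ∣ P := by rw [hP]; exact dvd_pow_self _ (by omega)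
  have hA : ∀ m0 x : ℕ, p ∣ (m0 + P * x) ^ 2 + Y ^ 2 ↔ p ∣ m0 ^ 2 + Y ^ 2 := by
    intro m0 x
    have h1 : (m0 + P * x) ^ 2 + Y ^ 2 = (m0 ^ 2 + Y ^ 2) + P * (x * (2 * m0 + P * x)) := by ring
    rw [h1]
    exact (Nat.dvd_add_iff_left (Dvd.dvd.mul_right hpP _)).symm
  rw [Finset.sum_filter, hPN, sum_split P N hP0]
  have hNc : (N:ℂ) ≠ 0 := by exact_mod_cast hN0.ne'
  have hPc : (P:ℂ) ≠ 0 := by exact_mod_cast hP0.ne'
  have hin : ∀ m0 ∈ Finset.range P, ‖∑ x ∈ Finset.range N,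
      (if ¬ p ∣ (m0 + P * x) ^ 2 + Y ^ 2 then ph (P * N) a1 a2 Y y (m0 + P * x) else 0)‖ ≤
      if (¬ p ∣ m0 ^ 2 + Y ^ 2 ∧
        (N:ℤ) ∣ 2 * (2 * a1 * (m0:ℤ) * (Y:ℤ) + a2 * ((Y:ℤ) ^ 2 - (m0:ℤ) ^ 2))) then (N:ℝ) else 0 := by
    intro m0 _
    by_cases hm : p ∣ m0 ^ 2 + Y ^ 2
    · have h0 : ∀ x ∈ Finset.range N, (if ¬ p ∣ (m0 + P * x) ^ 2 + Y ^ 2 then
          ph (P * N) a1 a2 Y y (m0 + P * x) else 0) = (0:ℂ) := by
        intro x _
        rw [if_neg]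
        rw [not_not, hA]; exact hm
      rw [Finset.sum_congr rfl h0, if_neg (fun h => h.1 hm)]
      simp
    · set c : ℤ := 2 * (Y:ℤ) * (2 * a1 * (m0:ℤ) * (Y:ℤ) + a2 * ((Y:ℤ) ^ 2 - (m0:ℤ) ^ 2)) * y m0 ^ 2
        with hc
      have h1 : ∀ x ∈ Finset.range N, (if ¬ p ∣ (m0 + P * x) ^ 2 + Y ^ 2 then
          ph (P * N) a1 a2 Y y (m0 + P * x) else 0) = ph (P * N) a1 a2 Y y m0 *
            Complex.exp (2 * Real.pi * Complex.I * (((x:ℂ) * (c:ℂ)) / (N:ℂ))) := by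
        intro x _
        have hmx : ¬ p ∣ (m0 + P * x) ^ 2 + Y ^ 2 := by rw [hA]; exact hm
        rw [if_pos hmx]
        have e1 := hy _ hmx
        have e0 := hy _ hm
        rw [hPN] at e1 e0
        push_cast at e1 e0
        have hk := intkey (q := (P:ℤ) * N) (P := (P:ℤ)) (N' := (N:ℤ)) (x := (x:ℤ)) (Y := (Y:ℤ))
          (m0 := (m0:ℤ)) (a1 := a1) (a2 := a2) rfl (by exact_mod_cast hNP) e1 e0
        obtain ⟨t, ht⟩ := hk
        have ht' : y (m0 + P * x) * (((((m0 + P * x : ℕ)):ℤ) ^ 2 - (Y:ℤ) ^ 2) * a1 +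
            2 * (((m0 + P * x : ℕ)):ℤ) * (Y:ℤ) * a2) =
            y m0 * (((m0:ℤ) ^ 2 - (Y:ℤ) ^ 2) * a1 + 2 * (m0:ℤ) * (Y:ℤ) * a2) + (P:ℤ) * x * c +
              (P:ℤ) * N * t := by
          rw [hc]; push_cast; linear_combination ht
        unfold ph
        rw [ht', ← Complex.exp_add]
        rw [Complex.exp_eq_exp_iff_exists_int]
        refine ⟨t, ?_⟩
        push_cast
        field_simp
      rw [Finset.sum_congr rfl h1, ← Finset.mul_sum, norm_mul]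
      have hph : ‖ph (P * N) a1 a2 Y y m0‖ = 1 := by
        unfold ph
        have : ∀ z : ℤ, 2 * (Real.pi:ℂ) * Complex.I * ((z:ℂ) / ((P * N : ℕ):ℂ)) =
          ((2 * Real.pi * ((z:ℝ) / ((P * N : ℕ):ℝ)) : ℝ) : ℂ) * Complex.I := by
          intro z; push_cast; ring
        rw [this, Complex.norm_exp_ofReal_mul_I]
      rw [hph, one_mul]
      refine le_trans (geo N hN0 c) ?_
      by_cases hNc2 : (N:ℤ) ∣ c
      · rw [if_pos hNc2, if_pos]
        refine ⟨hm, ?_⟩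
        have hpi : Prime (p:ℤ) := Nat.prime_iff_prime_int.mp hp
        have cY : IsCoprime (N:ℤ) (Y:ℤ) := by
          rw [hN]; push_cast
          apply IsCoprime.pow_left
          rw [Prime.coprime_iff_not_dvd hpi]
          exact_mod_cast hY
        have cy : IsCoprime (N:ℤ) (y m0) := by
          rw [hN]; push_cast
          apply IsCoprime.pow_left
          rw [Prime.coprime_iff_not_dvd hpi]
          intro hd
          have e0 := hy _ hm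
          have hpe : (p:ℤ) ∣ ((p ^ e : ℕ):ℤ) := by
            push_cast; exact dvd_pow_self _ (by omega)
          have h2 := dvd_trans hpe e0
          have h3 : (p:ℤ) ∣ ((m0:ℤ) ^ 2 + (Y:ℤ) ^ 2) * y m0 := Dvd.dvd.mul_left hd _
          have h4 := dvd_sub h3 h2
          rw [sub_sub_cancel] at h4
          exact hpi.not_dvd_one h4
        have h5 : (N:ℤ) ∣ (Y:ℤ) * (y m0 ^ 2 * (2 * (2 * a1 * (m0:ℤ) * (Y:ℤ) +
            a2 * ((Y:ℤ) ^ 2 - (m0:ℤ) ^ 2)))) := by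
          have : (Y:ℤ) * (y m0 ^ 2 * (2 * (2 * a1 * (m0:ℤ) * (Y:ℤ) +
            a2 * ((Y:ℤ) ^ 2 - (m0:ℤ) ^ 2)))) = c := by rw [hc]; ring
          rw [this]; exact hNc2
        exact (cy.pow_right).dvd_of_dvd_mul_left (cY.dvd_of_dvd_mul_left h5)
      · rw [if_neg hNc2]
        split_ifs <;> positivity
  calc ‖∑ m0 ∈ Finset.range P, ∑ x ∈ Finset.range N,
      (if ¬ p ∣ (m0 + P * x) ^ 2 + Y ^ 2 then ph (P * N) a1 a2 Y y (m0 + P * x) else 0)‖
      ≤ ∑ m0 ∈ Finset.range P, ‖∑ x ∈ Finset.range N,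
      (if ¬ p ∣ (m0 + P * x) ^ 2 + Y ^ 2 then ph (P * N) a1 a2 Y y (m0 + P * x) else 0)‖ :=
        norm_sum_le _ _
    _ ≤ ∑ m0 ∈ Finset.range P, (if (¬ p ∣ m0 ^ 2 + Y ^ 2 ∧
        (N:ℤ) ∣ 2 * (2 * a1 * (m0:ℤ) * (Y:ℤ) + a2 * ((Y:ℤ) ^ 2 - (m0:ℤ) ^ 2))) then (N:ℝ) else 0) :=
        Finset.sum_le_sum hin
    _ = _ := by
        rw [← Finset.sum_filter, Finset.sum_const, nsmul_eq_mul, mul_comm]

theorem claim2 {p e : ℕ} (hp : p.Prime) (he : 2 ≤ e) (a1 a2 : ℤ) (Y : ℕ) (hY : ¬ p ∣ Y)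
    (ha : ¬ ((p:ℤ) ∣ a1 ∧ (p:ℤ) ∣ a2)) (P N : ℕ) (hP : P = p ^ (e - e / 2))
    (hN : N = p ^ (e / 2)) (S : Finset ℕ)
    (hS : S = (Finset.range P).filter (fun m : ℕ => ¬ p ∣ m ^ 2 + Y ^ 2 ∧
        (N:ℤ) ∣ 2 * (2 * a1 * (m:ℤ) * (Y:ℤ) + a2 * ((Y:ℤ) ^ 2 - (m:ℤ) ^ 2)))) :
    S.card * p ^ ((e / 2 + 1) / 2) ≤ 4 * P := by
  have hpi : Prime (p:ℤ) := Nat.prime_iff_prime_int.mp hp
  have hYi : ¬ (p:ℤ) ∣ (Y:ℤ) := by exact_mod_cast hY
  set n := e / 2 with hn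
  set c := (n + 1) / 2 with hc
  have hn1 : 1 ≤ n := by omega
  have hc1 : 1 ≤ c := by omega
  have hcn : c ≤ n := by omega
  have hnk : n ≤ e - n := by omega
  have hSP : ∀ m ∈ S, m < P := by
    intro m hm; rw [hS, Finset.mem_filter, Finset.mem_range] at hm; exact hm.1
  have hcP : p ^ c ∣ P := by rw [hP]; exact pow_dvd_pow _ (by omega)
  by_cases hp2 : p = 2
  · subst hp2
    -- all elements of S are even
    have hYodd : (Y:ℤ) % 2 = 1 := by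
      have : ¬ (2:ℤ) ∣ (Y:ℤ) := by exact_mod_cast hYi
      omega
    have heven : ∀ m ∈ S, (m:ℤ) % 2 = 0 := by
      intro m hm
      rw [hS, Finset.mem_filter] at hm
      by_contra hodd
      apply hm.2.1
      have hm1 : m % 2 = 1 := by omega
      have hY1 : Y % 2 = 1 := by omega
      have h1 : (m ^ 2 + Y ^ 2) % 2 = 0 := by
        rw [Nat.add_mod, Nat.pow_mod, Nat.pow_mod Y, hm1, hY1]
      exact Nat.dvd_of_mod_eq_zero h1
    by_cases hn2 : n = 1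
    · have h1 : S.card ≤ P := by
        have := Finset.card_le_card (s := S) (t := Finset.range P) (fun m hm =>
          Finset.mem_range.mpr (hSP m hm))
        simpa using this
      have h2 : c = 1 := by omega
      rw [h2]; omega
    · have hn3 : 2 ≤ n := by omega
      by_cases ha2 : (2:ℤ) ∣ a2
      · have ha1 : ¬ (2:ℤ) ∣ a1 := fun h => ha ⟨by exact_mod_cast h, by exact_mod_cast ha2⟩
        obtain ⟨b, hb⟩ := ha2
        have hcl : S.card ≤ P / 2 ^ (n - 2) := by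
          apply card_class (by positivity) (by rw [hP]; exact pow_dvd_pow _ (by omega)) S hSP
          intro m hm m' hm'
          have hme := heven m hm
          have hme' := heven m' hm'
          rw [hS, Finset.mem_filter] at hm hm'
          have hd := dvd_sub hm.2.2 hm'.2.2
          have h1 : 2 * (2 * a1 * (m:ℤ) * (Y:ℤ) + a2 * ((Y:ℤ) ^ 2 - (m:ℤ) ^ 2)) -
              2 * (2 * a1 * (m':ℤ) * (Y:ℤ) + a2 * ((Y:ℤ) ^ 2 - (m':ℤ) ^ 2)) =
              2 ^ 2 * (((m:ℤ) - m') * (a1 * Y - b * (m + m'))) := by rw [hb]; ring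
          rw [h1, hN] at hd
          have h2 : ((2 ^ n : ℕ):ℤ) = 2 ^ 2 * 2 ^ (n - 2) := by
            have h20 : (2:ℕ) ^ n = 2 ^ 2 * 2 ^ (n - 2) := by
              rw [← pow_add]; congr 1; omega
            rw [h20]; norm_num
          rw [h2] at hd
          have h3 := (mul_dvd_mul_iff_left (by norm_num : (2:ℤ) ^ 2 ≠ 0)).mp hd
          have h4 : IsCoprime ((2:ℤ) ^ (n - 2)) (a1 * Y - b * (m + m')) := by
            apply IsCoprime.pow_left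
            rw [Prime.coprime_iff_not_dvd Int.prime_two]
            intro h5
            have h6 : (2:ℤ) ∣ b * (m + m') := Dvd.dvd.mul_left (by omega) _
            have h7 := dvd_add h5 h6
            rw [sub_add_cancel] at h7
            rcases Int.prime_two.dvd_or_dvd h7 with h8 | h8
            · exact ha1 h8
            · omega
          push_cast
          exact h4.dvd_of_dvd_mul_right h3
        calc S.card * 2 ^ c ≤ (P / 2 ^ (n - 2)) * 2 ^ n :=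
              Nat.mul_le_mul hcl (Nat.pow_le_pow_right (by norm_num) hcn)
          _ = 4 * ((P / 2 ^ (n - 2)) * 2 ^ (n - 2)) := by
              have : 2 ^ n = 4 * 2 ^ (n - 2) := by
                have h4 : (4:ℕ) = 2 ^ 2 := by norm_num
                rw [h4, ← pow_add]; congr 1; omega
              rw [this]; ring
          _ ≤ 4 * P := Nat.mul_le_mul_left 4 (Nat.div_mul_le_self _ _)
      · have hem : S = ∅ := by
          rw [Finset.eq_empty_iff_forall_notMem]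
          intro m hm
          have hme := heven m hm
          rw [hS, Finset.mem_filter] at hm
          have hd := hm.2.2
          have h2 : (N:ℤ) = 2 * 2 ^ (n - 1) := by
            rw [hN]; push_cast
            rw [← pow_succ']; congr 1; omega
          rw [h2] at hd
          have h3 := (mul_dvd_mul_iff_left (by norm_num : (2:ℤ) ≠ 0)).mp hd
          have h4 : (2:ℤ) ∣ 2 ^ (n - 1) := dvd_pow_self _ (by omega)
          have h5 := dvd_trans h4 h3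
          have h6 : (2:ℤ) ∣ 2 * a1 * (m:ℤ) * (Y:ℤ) := ⟨a1 * m * Y, by ring⟩
          have h7 := (dvd_add_right h6).mp h5
          rcases Int.prime_two.dvd_or_dvd h7 with h8 | h8
          · exact ha2 h8
          · obtain ⟨u, hu⟩ : ∃ u, (m:ℤ) = 2 * u := ⟨(m:ℤ) / 2, by omega⟩
            obtain ⟨v, hv⟩ : ∃ v, (Y:ℤ) = 2 * v + 1 := ⟨(Y:ℤ) / 2, by omega⟩
            rw [hu, hv] at h8
            obtain ⟨t, ht⟩ := h8
            have : (1:ℤ) = 2 * (t - 2 * v ^ 2 - 2 * v + 2 * u ^ 2) := by linear_combination ht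
            omega
        rw [hem]; simp
  · have hp2' : ¬ (p:ℤ) ∣ 2 := by
      intro h
      have h1 : p ∣ 2 := by exact_mod_cast h
      exact hp2 ((Nat.prime_dvd_prime_iff_eq hp Nat.prime_two).mp h1)
    have hcop2 : IsCoprime (N:ℤ) 2 := by
      rw [hN]; push_cast
      apply IsCoprime.pow_left
      rw [Prime.coprime_iff_not_dvd hpi]; exact hp2'
    rcases S.eq_empty_or_nonempty with hem | ⟨m0, hm0⟩
    · rw [hem]; simp
    · have hsol : ∀ m ∈ S, ((p ^ n : ℕ):ℤ) ∣ (2 * a1 * (m:ℤ) * (Y:ℤ) + a2 * ((Y:ℤ) ^ 2 - (m:ℤ) ^ 2)) := by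
        intro m hm
        rw [hS, Finset.mem_filter] at hm
        rw [← hN]
        exact hcop2.dvd_of_dvd_mul_left hm.2.2
      have hor : ∀ m ∈ S, ((p ^ c : ℕ):ℤ) ∣ (m:ℤ) - m0 ∨
          ((p ^ c : ℕ):ℤ) ∣ 2 * a1 * Y - a2 * ((m:ℤ) + m0) := by
        intro m hm
        have hd := dvd_sub (hsol m hm) (hsol m0 hm0)
        have h1 : (2 * a1 * (m:ℤ) * (Y:ℤ) + a2 * ((Y:ℤ) ^ 2 - (m:ℤ) ^ 2)) -
            (2 * a1 * (m0:ℤ) * (Y:ℤ) + a2 * ((Y:ℤ) ^ 2 - (m0:ℤ) ^ 2)) =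
            ((m:ℤ) - m0) * (2 * a1 * Y - a2 * ((m:ℤ) + m0)) := by ring
        rw [h1] at hd
        exact prime_dvd_mul_pow hp hd
      set S1 := S.filter (fun m : ℕ => ((p ^ c : ℕ):ℤ) ∣ (m:ℤ) - m0) with hS1
      set S2 := S.filter (fun m : ℕ => ((p ^ c : ℕ):ℤ) ∣ 2 * a1 * Y - a2 * ((m:ℤ) + m0)) with hS2
      have hsub : S ⊆ S1 ∪ S2 := by
        intro m hm
        rw [Finset.mem_union, hS1, hS2, Finset.mem_filter, Finset.mem_filter]
        rcases hor m hm with h | h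
        · left; exact ⟨hm, h⟩
        · right; exact ⟨hm, h⟩
      have hpc : 0 < p ^ c := pow_pos hp.pos _
      have c1 : S1.card ≤ P / p ^ c := by
        apply card_class hpc hcP S1 (fun m hm => hSP m (Finset.mem_filter.mp hm).1)
        intro m hm m' hm'
        have h1 := (Finset.mem_filter.mp hm).2
        have h2 := (Finset.mem_filter.mp hm').2
        have h3 := dvd_sub h1 h2
        have h4 : (m:ℤ) - m0 - ((m':ℤ) - m0) = (m:ℤ) - m' := by ring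
        rwa [h4] at h3
      have c2 : S2.card ≤ P / p ^ c := by
        apply card_class hpc hcP S2 (fun m hm => hSP m (Finset.mem_filter.mp hm).1)
        intro m hm m' hm'
        have h1 := (Finset.mem_filter.mp hm).2
        have h2 := (Finset.mem_filter.mp hm').2
        have h3 := dvd_sub h2 h1
        have h4 : 2 * a1 * Y - a2 * ((m':ℤ) + m0) - (2 * a1 * Y - a2 * ((m:ℤ) + m0)) =
            a2 * ((m:ℤ) - m') := by ring
        rw [h4] at h3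
        by_cases ha2 : (p:ℤ) ∣ a2
        · exfalso
          have ha1 : ¬ (p:ℤ) ∣ a1 := fun h => ha ⟨h, ha2⟩
          have h5 : (p:ℤ) ∣ ((p ^ c : ℕ):ℤ) := by push_cast; exact dvd_pow_self _ (by omega)
          have h6 := dvd_trans h5 h1
          have h7 := dvd_add h6 (Dvd.dvd.mul_right ha2 ((m:ℤ) + m0))
          rw [sub_add_cancel] at h7
          rcases hpi.dvd_or_dvd h7 with h8 | h8
          · rcases hpi.dvd_or_dvd h8 with h9 | h9
            · exact hp2' h9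
            · exact ha1 h9
          · exact hYi h8
        · have h5 : IsCoprime ((p ^ c : ℕ):ℤ) a2 := by
            push_cast
            apply IsCoprime.pow_left
            rw [Prime.coprime_iff_not_dvd hpi]; exact ha2
          exact h5.dvd_of_dvd_mul_left h3
      have c3 : S.card ≤ P / p ^ c + P / p ^ c :=
        le_trans (Finset.card_le_card hsub) (le_trans (Finset.card_union_le _ _) (Nat.add_le_add c1 c2))
      calc S.card * p ^ c ≤ (P / p ^ c + P / p ^ c) * p ^ c := Nat.mul_le_mul_right _ c3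
        _ = (P / p ^ c) * p ^ c + (P / p ^ c) * p ^ c := by ring
        _ ≤ P + P := Nat.add_le_add (Nat.div_mul_le_self _ _) (Nat.div_mul_le_self _ _)
        _ ≤ 4 * P := by omega

/-! TARGETS -/

theorem psum2 (ε : ℝ) (hε : 0 < ε) : ∃ Q : ℕ, ∀ p e : ℕ, p.Prime → 2 ≤ e → Q < p ^ e →
    ∀ (a1 a2 : ℤ) (Y : ℕ), ¬ ((p:ℤ) ∣ a1 ∧ (p:ℤ) ∣ a2) → ¬ p ∣ Y → ∀ y : ℕ → ℤ,
    (∀ m : ℕ, ¬ p ∣ m ^ 2 + Y ^ 2 → ((p ^ e : ℕ):ℤ) ∣ ((m:ℤ) ^ 2 + (Y:ℤ) ^ 2) * y m - 1) →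
    ‖∑ m ∈ (Finset.range (p ^ e)).filter (fun m => ¬ p ∣ m ^ 2 + Y ^ 2), ph (p ^ e) a1 a2 Y y m‖ ≤
      ε * (p ^ e : ℕ) := by
  obtain ⟨B, hB⟩ := exists_nat_ge (4 / ε)
  refine ⟨B ^ 6, ?_⟩
  intro p e hp he hQ a1 a2 Y ha hY y hy
  refine le_trans (claim1 hp he a1 a2 Y hY y hy _ _ rfl rfl) ?_
  have h2 := claim2 hp he a1 a2 Y hY ha _ _ rfl rfl _ rfl
  set P := p ^ (e - e / 2) with hP
  set N := p ^ (e / 2) with hN
  set C := ((Finset.range P).filter (fun m : ℕ => ¬ p ∣ m ^ 2 + Y ^ 2 ∧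
        (N:ℤ) ∣ 2 * (2 * a1 * (m:ℤ) * (Y:ℤ) + a2 * ((Y:ℤ) ^ 2 - (m:ℤ) ^ 2)))).card with hC
  set c := (e / 2 + 1) / 2 with hc
  have hPN : p ^ e = P * N := by rw [hP, hN, ← pow_add]; congr 1; omega
  have hBp : B < p ^ c := by
    have h3 : B ^ 6 < (p ^ c) ^ 6 := by
      refine lt_of_lt_of_le hQ ?_
      rw [← pow_mul]
      exact Nat.pow_le_pow_right hp.pos (by omega)
    exact lt_of_pow_lt_pow_left₀ 6 (Nat.zero_le _) h3
  have hr : 4 ≤ ε * (p ^ c : ℕ) := by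
    have h3 : (B:ℝ) < ((p ^ c : ℕ):ℝ) := by exact_mod_cast hBp
    have h4 : 4 / ε < ((p ^ c : ℕ):ℝ) := lt_of_le_of_lt hB h3
    rw [div_lt_iff₀ hε] at h4
    linarith
  have hpc : (0:ℝ) < ((p ^ c : ℕ):ℝ) := by exact_mod_cast pow_pos hp.pos c
  have h3 : (C:ℝ) * ((p ^ c : ℕ):ℝ) ≤ 4 * (P:ℝ) := by exact_mod_cast h2
  rw [hPN]
  push_cast at h3 hr hpc ⊢
  have h4 : (C:ℝ) ≤ ε * P := by
    have h5 : (C:ℝ) * (p:ℝ) ^ c ≤ (ε * P) * (p:ℝ) ^ c := by
      calc (C:ℝ) * (p:ℝ) ^ c ≤ 4 * (P:ℝ) := h3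
        _ ≤ (ε * (p:ℝ) ^ c) * P := mul_le_mul_of_nonneg_right hr (Nat.cast_nonneg _)
        _ = (ε * P) * (p:ℝ) ^ c := by ring
    exact le_of_mul_le_mul_right h5 hpc
  calc (N:ℝ) * C ≤ N * (ε * P) := mul_le_mul_of_nonneg_left h4 (Nat.cast_nonneg _)
    _ = ε * (P * N) := by ring

end H4
export H4 (psum2)
end Pool.Agent.Helper378.PD
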