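import Pool.Agent.Helper378.PD.Base
import Pool.Agent.Helper378.PD.H3
import Pool.Agent.Helper378.PD.H4
set_option autoImplicit false
open MeasureTheory
namespace Pool.Agent.Helper378.PD
namespace H5
theorem ph_congr (q : ℕ) (hq : 0 < q) (a1 a2 : ℤ) (Y : ℕ) (y z : ℕ → ℤ) (m m' : ℕ)
    (hm : m ≡ m' [MOD q]) (h1 : (q:ℤ) ∣ ((m:ℤ) ^ 2 + (Y:ℤ) ^ 2) * y m - 1)
    (h2 : (q:ℤ) ∣ ((m':ℤ) ^ 2 + (Y:ℤ) ^ 2) * z m' - 1) :
    ph q a1 a2 Y y m = ph q a1 a2 Y z m' := by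
  have hmm : (q:ℤ) ∣ (m':ℤ) - (m:ℤ) := (Nat.modEq_iff_dvd).1 hm
  obtain ⟨c, hc⟩ := hmm
  obtain ⟨d1, hd1⟩ := h1
  obtain ⟨d2, hd2⟩ := h2
  have hm' : (m':ℤ) = m + q * c := by linarith
  -- y m ≡ z m'
  have hyz : ∃ k : ℤ, y m - z m' = q * k := by
    have e1 : y m - z m' = y m * ((((m':ℤ) ^ 2 + (Y:ℤ) ^ 2) * z m') - q * d2) -
        z m' * ((((m:ℤ) ^ 2 + (Y:ℤ) ^ 2) * y m) - q * d1) := by
      have t1 : (((m':ℤ) ^ 2 + (Y:ℤ) ^ 2) * z m') - q * d2 = 1 := by linarith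
      have t2 : (((m:ℤ) ^ 2 + (Y:ℤ) ^ 2) * y m) - q * d1 = 1 := by linarith
      rw [t1, t2]; ring
    refine ⟨y m * z m' * c * (2 * m + q * c) - y m * d2 + z m' * d1, ?_⟩
    rw [e1, hm']
    ring
  obtain ⟨k, hk⟩ := hyz
  have hnum : ∃ l : ℤ, (y m * (((m:ℤ) ^ 2 - (Y:ℤ) ^ 2) * a1 + 2 * (m:ℤ) * (Y:ℤ) * a2) : ℤ) =
      (z m' * (((m':ℤ) ^ 2 - (Y:ℤ) ^ 2) * a1 + 2 * (m':ℤ) * (Y:ℤ) * a2) : ℤ) + l * q := by
    have hy' : y m = z m' + q * k := by linarith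
    refine ⟨k * (((m:ℤ) ^ 2 - (Y:ℤ) ^ 2) * a1 + 2 * (m:ℤ) * (Y:ℤ) * a2) -
      z m' * (c * (2 * m + q * c) * a1 + 2 * c * Y * a2), ?_⟩
    rw [hy', hm']
    ring
  obtain ⟨l, hl⟩ := hnum
  unfold ph
  rw [hl]
  have hq' : (q : ℂ) ≠ 0 := by exact_mod_cast hq.ne'
  rw [Complex.exp_eq_exp_iff_exists_int]
  refine ⟨l, ?_⟩
  push_cast
  field_simp

theorem ph_split (κ q κ' : ℕ) (hq : 0 < q) (hκ' : 0 < κ') (hκ : κ = q * κ') (u w : ℤ)
    (huw : u * κ' + w * q = 1) (a1 a2 : ℤ) (Y : ℕ) (y : ℕ → ℤ) (m : ℕ) :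
    ph κ a1 a2 Y y m = ph q (u * a1) (u * a2) Y y m * ph κ' (w * a1) (w * a2) Y y m := by
  unfold ph
  rw [← Complex.exp_add]
  congr 1
  have hq' : (q : ℂ) ≠ 0 := by exact_mod_cast hq.ne'
  have hκ'' : (κ' : ℂ) ≠ 0 := by exact_mod_cast hκ'.ne'
  have huw' : (u : ℂ) * κ' + w * q = 1 := by exact_mod_cast huw
  rw [hκ]
  push_cast
  have e1 : ∀ X : ℂ, X / ((q:ℂ) * κ') = (u * X) / q + (w * X) / κ' := by
    intro X
    field_simp
    linear_combination (-X) * huw'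
  rw [e1]
  ring

theorem exists_inv (q : ℕ) (Y : ℕ) : ∃ z : ℕ → ℤ, ∀ m : ℕ, Nat.Coprime (m ^ 2 + Y ^ 2) q →
    (q:ℤ) ∣ ((m:ℤ) ^ 2 + (Y:ℤ) ^ 2) * z m - 1 := by
  have h : ∀ m : ℕ, ∃ z : ℤ, Nat.Coprime (m ^ 2 + Y ^ 2) q →
      (q:ℤ) ∣ ((m:ℤ) ^ 2 + (Y:ℤ) ^ 2) * z - 1 := by
    intro m
    by_cases hc : Nat.Coprime (m ^ 2 + Y ^ 2) q
    · obtain ⟨a, b, hab⟩ := Nat.isCoprime_iff_coprime.2 hc
      refine ⟨a, fun _ => ⟨-b, ?_⟩⟩
      push_cast at hab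
      linarith
    · exact ⟨0, fun h => absurd h hc⟩
  choose z hz using h
  exact ⟨z, hz⟩

theorem crt_sum {M : Type*} [AddCommMonoid M] (a b : ℕ) (ha : 0 < a) (hb : 0 < b)
    (hab : Nat.Coprime a b) (F : ℕ → ℕ → M) :
    ∑ m ∈ Finset.range (a * b), F (m % a) (m % b) =
      ∑ i ∈ Finset.range a, ∑ j ∈ Finset.range b, F i j := by
  rw [← Finset.sum_product']
  refine Finset.sum_nbij' (fun m => (m % a, m % b))
    (fun x => (Nat.chineseRemainder hab x.1 x.2 : ℕ)) ?_ ?_ ?_ ?_ ?_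
  · intro m _
    rw [Finset.mem_product]
    exact ⟨Finset.mem_range.2 (Nat.mod_lt _ ha), Finset.mem_range.2 (Nat.mod_lt _ hb)⟩
  · intro x _
    exact Finset.mem_range.2 (Nat.chineseRemainder_lt_mul hab x.1 x.2 ha.ne' hb.ne')
  · intro m hm
    have h1 : m ≡ Nat.chineseRemainder hab (m % a) (m % b) [MOD a * b] :=
      Nat.chineseRemainder_modEq_unique hab (Nat.mod_modEq m a).symm (Nat.mod_modEq m b).symm
    exact (Nat.ModEq.eq_of_lt_of_lt h1 (Finset.mem_range.1 hm)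
      (Nat.chineseRemainder_lt_mul hab _ _ ha.ne' hb.ne')).symm
  · rintro ⟨x1, x2⟩ hx
    rw [Finset.mem_product, Finset.mem_range, Finset.mem_range] at hx
    have h1 := (Nat.chineseRemainder hab x1 x2).2
    have h2 : (Nat.chineseRemainder hab x1 x2 : ℕ) % a = x1 := by
      have := h1.1
      unfold Nat.ModEq at this
      rw [this, Nat.mod_eq_of_lt hx.1]
    have h3 : (Nat.chineseRemainder hab x1 x2 : ℕ) % b = x2 := by
      have := h1.2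
      unfold Nat.ModEq at this
      rw [this, Nat.mod_eq_of_lt hx.2]
    exact Prod.ext h2 h3
  · intro m _
    rfl

theorem periodic_sum {M : Type*} [AddCommMonoid M] (q r : ℕ) (f : ℕ → M)
    (hf : ∀ m, f (m + q) = f m) :
    ∑ m ∈ Finset.range (q * r), f m = r • ∑ m ∈ Finset.range q, f m := by
  have hf' : ∀ r m, f (q * r + m) = f m := by
    intro r
    induction r with
    | zero => intro m; simp
    | succ r ih =>
      intro m
      have : q * (r + 1) + m = (q * r + m) + q := by ring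
      rw [this, hf, ih]
  induction r with
  | zero => simp
  | succ r ih =>
    rw [Nat.mul_succ, Finset.sum_range_add, ih, succ_nsmul]
    congr 1
    exact Finset.sum_congr rfl fun i _ => hf' r i

theorem good_card (p : ℕ) (hp : p.Prime) (Y : ℕ) (hY : ¬ p ∣ Y) :
    p ≤ 3 * ((Finset.range p).filter (fun m => ¬ p ∣ m ^ 2 + Y ^ 2)).card := by
  have hsplit := Finset.card_filter_add_card_filter_not (s := Finset.range p)
    (fun m => p ∣ m ^ 2 + Y ^ 2)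
  rw [Finset.card_range] at hsplit
  have h0 : 0 ∈ (Finset.range p).filter (fun m => ¬ p ∣ m ^ 2 + Y ^ 2) := by
    rw [Finset.mem_filter, Finset.mem_range]
    refine ⟨hp.pos, fun h => hY ?_⟩
    rw [zero_pow two_ne_zero, zero_add] at h
    exact hp.dvd_of_dvd_pow h
  have h1 : 1 ≤ ((Finset.range p).filter (fun m => ¬ p ∣ m ^ 2 + Y ^ 2)).card :=
    Finset.card_pos.2 ⟨0, h0⟩
  have h2 : ((Finset.range p).filter (fun m => p ∣ m ^ 2 + Y ^ 2)).card ≤ 2 := by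
    by_cases hne : ((Finset.range p).filter (fun m => p ∣ m ^ 2 + Y ^ 2)).Nonempty
    · obtain ⟨m0, hm0⟩ := hne
      rw [Finset.mem_filter, Finset.mem_range] at hm0
      have hsub : (Finset.range p).filter (fun m => p ∣ m ^ 2 + Y ^ 2) ⊆ {m0, p - m0} := by
        intro m hm
        rw [Finset.mem_filter, Finset.mem_range] at hm
        rw [Finset.mem_insert, Finset.mem_singleton]
        have hd : (p:ℤ) ∣ ((m:ℤ) - m0) * (m + m0) := by
          have e1 : (p:ℤ) ∣ ((m ^ 2 + Y ^ 2 : ℕ) : ℤ) := by exact_mod_cast hm.2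
          have e2 : (p:ℤ) ∣ ((m0 ^ 2 + Y ^ 2 : ℕ) : ℤ) := by exact_mod_cast hm0.2
          have e3 := dvd_sub e1 e2
          have e4 : ((m:ℤ) - m0) * (m + m0) = ((m ^ 2 + Y ^ 2 : ℕ) : ℤ) -
              ((m0 ^ 2 + Y ^ 2 : ℕ) : ℤ) := by
            push_cast; ring
          rw [e4]; exact e3
        rcases (Nat.prime_iff_prime_int.1 hp).dvd_or_dvd hd with h | h
        · left
          obtain ⟨c, hc⟩ := h
          have hb1 : (m:ℤ) < p := by exact_mod_cast hm.1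
          have hb2 : (m0:ℤ) < p := by exact_mod_cast hm0.1
          have hc0 : c = 0 := by
            have hp0 : (0:ℤ) < p := by exact_mod_cast hp.pos
            have l1 : (p:ℤ) * c < p * 1 := by rw [← hc]; linarith [Int.natCast_nonneg m0]
            have l2 : (p:ℤ) * (-1) < p * c := by rw [← hc]; linarith [Int.natCast_nonneg m]
            have l3 := lt_of_mul_lt_mul_left l1 hp0.le
            have l4 := lt_of_mul_lt_mul_left l2 hp0.le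
            omega
          rw [hc0, mul_zero] at hc
          omega
        · obtain ⟨c, hc⟩ := h
          have hb1 : (m:ℤ) < p := by exact_mod_cast hm.1
          have hb2 : (m0:ℤ) < p := by exact_mod_cast hm0.1
          have hp0 : (0:ℤ) < p := by exact_mod_cast hp.pos
          have l1 : (p:ℤ) * c < p * 2 := by rw [← hc]; linarith
          have l2 : (p:ℤ) * 0 ≤ p * c := by
            rw [← hc]; linarith [Int.natCast_nonneg m, Int.natCast_nonneg m0]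
          have l3 := lt_of_mul_lt_mul_left l1 hp0.le
          have l4 := le_of_mul_le_mul_left l2 hp0
          have hcc : c = 0 ∨ c = 1 := by omega
          rcases hcc with rfl | rfl
          · left; omega
          · right; omega
      exact (Finset.card_le_card hsub).trans Finset.card_le_two
    · rw [Finset.not_nonempty_iff_eq_empty] at hne
      rw [hne]
      simp
  have hp2 := hp.two_le
  omega

theorem psum_all (ε : ℝ) (hε : 0 < ε) : ∃ Q : ℕ, 4 ≤ Q ∧ ∀ p e : ℕ, p.Prime → 1 ≤ e → Q < p ^ e →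
    ∀ (a1 a2 : ℤ) (Y : ℕ), ¬ ((p:ℤ) ∣ a1 ∧ (p:ℤ) ∣ a2) → ¬ p ∣ Y → ∀ y : ℕ → ℤ,
    (∀ m : ℕ, ¬ p ∣ m ^ 2 + Y ^ 2 → ((p ^ e : ℕ):ℤ) ∣ ((m:ℤ) ^ 2 + (Y:ℤ) ^ 2) * y m - 1) →
    ‖∑ m ∈ (Finset.range (p ^ e)).filter (fun m => ¬ p ∣ m ^ 2 + Y ^ 2), ph (p ^ e) a1 a2 Y y m‖ ≤
      ε * (p ^ e : ℕ) := by
  obtain ⟨Q1, h1⟩ := psum1 ε hε
  obtain ⟨Q2, h2⟩ := psum2 ε hε
  refine ⟨max 4 (max Q1 Q2), le_max_left _ _, ?_⟩
  intro p e hp he hQ a1 a2 Y ha hY y hy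
  have hQ1 : Q1 < p ^ e := lt_of_le_of_lt ((le_max_left _ _).trans (le_max_right _ _)) hQ
  have hQ2 : Q2 < p ^ e := lt_of_le_of_lt ((le_max_right _ _).trans (le_max_right _ _)) hQ
  rcases Nat.lt_or_ge e 2 with h | h
  · have he1 : e = 1 := by omega
    subst he1
    rw [pow_one] at hQ1 hy ⊢
    exact h1 p hp hQ1 a1 a2 Y ha hY y hy
  · exact h2 p e hp h hQ2 a1 a2 Y ha hY y hy

theorem ph_norm (κ : ℕ) (a1 a2 : ℤ) (Y : ℕ) (y : ℕ → ℤ) (m : ℕ) : ‖ph κ a1 a2 Y y m‖ = 1 := by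
  unfold ph
  have : (2 * Real.pi * Complex.I *
    (((y m * (((m:ℤ) ^ 2 - (Y:ℤ) ^ 2) * a1 + 2 * (m:ℤ) * (Y:ℤ) * a2) : ℤ) : ℂ) / (κ : ℂ))) =
      ((2 * Real.pi *
    (((y m * (((m:ℤ) ^ 2 - (Y:ℤ) ^ 2) * a1 + 2 * (m:ℤ) * (Y:ℤ) * a2) : ℤ) : ℝ) / (κ : ℝ)) : ℝ) : ℂ) *
        Complex.I := by
    push_cast
    ring
  rw [this, Complex.norm_exp_ofReal_mul_I]

/-! TARGETS -/

theorem crt_bound (ε : ℝ) (hε : 0 < ε) : ∃ Q : ℕ, ∀ (κ P Y : ℕ) (a1 a2 : ℤ) (y : ℕ → ℤ), 0 < κ → 0 < P →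
    Nat.Coprime Y (κ * P) →
    (∀ m : ℕ, Nat.Coprime (m ^ 2 + Y ^ 2) (κ * P) → (κ:ℤ) ∣ ((m:ℤ) ^ 2 + (Y:ℤ) ^ 2) * y m - 1) →
    (∃ p e : ℕ, p.Prime ∧ Q < p ^ e ∧ p ^ e ∣ κ ∧ ¬ ((p:ℤ) ∣ a1 ∧ (p:ℤ) ∣ a2)) →
    ‖∑ m ∈ (Finset.range (κ * P)).filter (fun m => Nat.Coprime (m ^ 2 + Y ^ 2) (κ * P)), ph κ a1 a2 Y y m‖ ≤
      ε * ((Finset.range (κ * P)).filter (fun m => Nat.Coprime (m ^ 2 + Y ^ 2) (κ * P))).card := by
  obtain ⟨Q, hQ4, hQ⟩ := psum_all (ε / 4) (by positivity)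
  refine ⟨Q, ?_⟩
  intro κ P Y a1 a2 y hκ hP hYc hy hex
  obtain ⟨p, e, hp, hQe, hpe, ha⟩ := hex
  -- exponents
  obtain ⟨e0, κ', hpκ', hκeq⟩ := Nat.exists_eq_pow_mul_and_not_dvd hκ.ne' p hp.ne_one
  have hκP : κ * P ≠ 0 := (Nat.mul_pos hκ hP).ne'
  obtain ⟨v, L, hpL, hLeq⟩ := Nat.exists_eq_pow_mul_and_not_dvd hκP p hp.ne_one
  have he1 : 1 ≤ e := by
    rcases Nat.eq_zero_or_pos e with h | h
    · rw [h, pow_zero] at hQe
      omega
    · exact h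
  have hκ'0 : 0 < κ' := Nat.pos_of_ne_zero fun h => hpκ' (by rw [h]; exact dvd_zero p)
  have hL0 : 0 < L := Nat.pos_of_ne_zero fun h => hpL (by rw [h]; exact dvd_zero p)
  have hcopκ' : ∀ k, Nat.Coprime (p ^ k) κ' := fun k =>
    Nat.Coprime.pow_left k ((Nat.Prime.coprime_iff_not_dvd hp).2 hpκ')
  have hcopL : ∀ k, Nat.Coprime (p ^ k) L := fun k =>
    Nat.Coprime.pow_left k ((Nat.Prime.coprime_iff_not_dvd hp).2 hpL)
  have hee0 : e ≤ e0 := by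
    have h1 : p ^ e ∣ p ^ e0 := by
      rw [hκeq] at hpe
      exact (hcopκ' e).dvd_of_dvd_mul_right hpe
    exact (Nat.pow_dvd_pow_iff_le_right hp.one_lt).1 h1
  have he0v : e0 ≤ v := by
    have h1 : p ^ e0 ∣ p ^ v := by
      have h2 : p ^ e0 ∣ p ^ v * L := by
        rw [← hLeq, hκeq, mul_assoc]
        exact dvd_mul_right _ _
      exact (hcopL e0).dvd_of_dvd_mul_right h2
    exact (Nat.pow_dvd_pow_iff_le_right hp.one_lt).1 h1
  have hκ'L : κ' ∣ L := by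
    have h2 : κ' ∣ p ^ v * L := by
      rw [← hLeq, hκeq, mul_comm (p ^ e0), mul_assoc]
      exact dvd_mul_right _ _
    exact ((hcopκ' v).symm).dvd_of_dvd_mul_left h2
  have hpY : ¬ p ∣ Y := by
    intro h
    have h2 : p ∣ κ * P := by
      rw [hLeq]
      exact (dvd_pow_self p (by omega : v ≠ 0)).mul_right L
    have := Nat.dvd_gcd h h2
    rw [hYc] at this
    exact hp.one_lt.ne' (Nat.dvd_one.1 this)
  have hq0 : 0 < p ^ e0 := Nat.pow_pos hp.pos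
  -- Bezout
  obtain ⟨w, u, hwu⟩ := Nat.isCoprime_iff_coprime.2 (hcopκ' e0)
  have huw : u * κ' + w * (p ^ e0 : ℕ) = 1 := by linarith
  have hpu : ¬ (p:ℤ) ∣ u := by
    intro h
    have h1 : (p:ℤ) ∣ 1 := by
      rw [← huw]
      refine dvd_add (h.mul_right _) (Dvd.dvd.mul_left ?_ _)
      exact_mod_cast dvd_pow_self p (by omega : e0 ≠ 0)
    have h2 : p ∣ 1 := by exact_mod_cast h1
    exact hp.one_lt.ne' (Nat.dvd_one.1 h2)
  obtain ⟨y1, hy1⟩ := exists_inv (p ^ e0) Y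
  obtain ⟨y2, hy2⟩ := exists_inv κ' Y
  have hcopiff : ∀ (k m : ℕ), k ≠ 0 → (Nat.Coprime m (p ^ k) ↔ ¬ p ∣ m) := by
    intro k m hk
    rw [Nat.coprime_pow_right_iff (Nat.pos_of_ne_zero hk), Nat.coprime_comm,
      Nat.Prime.coprime_iff_not_dvd hp]
  -- the two factors
  let A : ℕ → ℂ := fun m => if ¬ p ∣ m ^ 2 + Y ^ 2 then ph (p ^ e0) (u * a1) (u * a2) Y y1 m else 0
  let B : ℕ → ℂ := fun m => if Nat.Coprime (m ^ 2 + Y ^ 2) L then
    ph κ' (w * a1) (w * a2) Y y2 m else 0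
  have hsqmod : ∀ (n m : ℕ), (m % n) ^ 2 + Y ^ 2 ≡ m ^ 2 + Y ^ 2 [MOD n] := fun n m =>
    ((Nat.mod_modEq m n).pow 2).add_right _
  have hpdvd : ∀ m : ℕ, (p ∣ (m % p ^ v) ^ 2 + Y ^ 2 ↔ p ∣ m ^ 2 + Y ^ 2) := by
    intro m
    have h1 : (m % p ^ v) ^ 2 + Y ^ 2 ≡ m ^ 2 + Y ^ 2 [MOD p] :=
      (hsqmod (p ^ v) m).of_dvd (dvd_pow_self p (by omega : v ≠ 0))
    exact h1.dvd_iff (dvd_refl p)
  have hLcop : ∀ m : ℕ, (Nat.Coprime ((m % L) ^ 2 + Y ^ 2) L ↔ Nat.Coprime (m ^ 2 + Y ^ 2) L) := by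
    intro m
    unfold Nat.Coprime
    rw [(hsqmod L m).gcd_eq]
  have hcop_split : ∀ m : ℕ, (Nat.Coprime (m ^ 2 + Y ^ 2) (κ * P) ↔
      ¬ p ∣ (m % p ^ v) ^ 2 + Y ^ 2 ∧ Nat.Coprime ((m % L) ^ 2 + Y ^ 2) L) := by
    intro m
    rw [hLeq, Nat.coprime_mul_iff_right, hcopiff v _ (by omega), hpdvd, hLcop]
  have hterm : ∀ m : ℕ, (if Nat.Coprime (m ^ 2 + Y ^ 2) (κ * P) then ph κ a1 a2 Y y m else 0) =
      A (m % p ^ v) * B (m % L) := by
    intro m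
    by_cases hc : Nat.Coprime (m ^ 2 + Y ^ 2) (κ * P)
    · obtain ⟨hc1, hc2⟩ := (hcop_split m).1 hc
      rw [if_pos hc]
      show _ = (if _ then _ else _) * (if _ then _ else _)
      rw [if_pos hc1, if_pos hc2]
      have hinv := hy m hc
      rw [ph_split κ (p ^ e0) κ' hq0 hκ'0 hκeq u w huw a1 a2 Y y m]
      have hd1 : ((p ^ e0 : ℕ) : ℤ) ∣ (κ : ℤ) := by
        rw [hκeq]; push_cast; exact dvd_mul_right _ _
      have hd2 : ((κ' : ℕ) : ℤ) ∣ (κ : ℤ) := by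
        rw [hκeq]; push_cast; exact dvd_mul_left _ _
      congr 1
      · refine ph_congr (p ^ e0) hq0 _ _ Y y y1 m (m % p ^ v) ?_ (hd1.trans hinv) (hy1 _ ?_)
        · exact ((Nat.mod_modEq m (p ^ v)).of_dvd (pow_dvd_pow p he0v)).symm
        · rw [hcopiff e0 _ (by omega)]
          exact hc1
      · refine ph_congr κ' hκ'0 _ _ Y y y2 m (m % L) ?_ (hd2.trans hinv) (hy2 _ ?_)
        · exact ((Nat.mod_modEq m L).of_dvd hκ'L).symm
        · exact Nat.Coprime.coprime_dvd_right hκ'L hc2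
    · rw [if_neg hc]
      rw [hcop_split, not_and_or] at hc
      show _ = (if _ then _ else _) * (if _ then _ else _)
      rcases hc with h | h
      · rw [if_neg h, zero_mul]
      · rw [if_neg h, mul_zero]
  have hpv0 : 0 < p ^ v := Nat.pow_pos hp.pos
  have hsum : ∑ m ∈ (Finset.range (κ * P)).filter (fun m => Nat.Coprime (m ^ 2 + Y ^ 2) (κ * P)),
      ph κ a1 a2 Y y m = (∑ i ∈ Finset.range (p ^ v), A i) * ∑ j ∈ Finset.range L, B j := by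
    rw [Finset.sum_filter, Finset.sum_congr rfl (fun m _ => hterm m), Finset.sum_mul_sum]
    conv_lhs => rw [hLeq]
    exact crt_sum (p ^ v) L hpv0 hL0 (hcopL v) (fun i j => A i * B j)
  have hcard : ((Finset.range (κ * P)).filter
      (fun m => Nat.Coprime (m ^ 2 + Y ^ 2) (κ * P))).card =
      ((Finset.range (p ^ v)).filter (fun m => ¬ p ∣ m ^ 2 + Y ^ 2)).card *
      ((Finset.range L).filter (fun m => Nat.Coprime (m ^ 2 + Y ^ 2) L)).card := by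
    rw [Finset.card_filter, Finset.card_filter, Finset.card_filter, Finset.sum_mul_sum]
    have h1 : ∀ m : ℕ, (if Nat.Coprime (m ^ 2 + Y ^ 2) (κ * P) then 1 else 0) =
        (if ¬ p ∣ (m % p ^ v) ^ 2 + Y ^ 2 then 1 else 0) *
          (if Nat.Coprime ((m % L) ^ 2 + Y ^ 2) L then 1 else 0) := by
      intro m
      by_cases hc : Nat.Coprime (m ^ 2 + Y ^ 2) (κ * P)
      · obtain ⟨hc1, hc2⟩ := (hcop_split m).1 hc
        rw [if_pos hc, if_pos hc1, if_pos hc2]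
      · rw [if_neg hc]
        rw [hcop_split, not_and_or] at hc
        rcases hc with h | h
        · rw [if_neg h, zero_mul]
        · rw [if_neg h, mul_zero]
    rw [Finset.sum_congr rfl (fun m _ => h1 m)]
    conv_lhs => rw [hLeq]
    exact crt_sum (p ^ v) L hpv0 hL0 (hcopL v) (fun i j =>
      (if ¬ p ∣ i ^ 2 + Y ^ 2 then 1 else 0) * (if Nat.Coprime (j ^ 2 + Y ^ 2) L then 1 else 0))
  -- bound of the first factor
  have hAper : ∀ m, A (m + p ^ e0) = A m := by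
    intro m
    have h1 : (p ∣ (m + p ^ e0) ^ 2 + Y ^ 2 ↔ p ∣ m ^ 2 + Y ^ 2) := by
      have h2 : (m + p ^ e0) ^ 2 + Y ^ 2 ≡ m ^ 2 + Y ^ 2 [MOD p] := by
        refine Nat.ModEq.add_right _ (Nat.ModEq.pow 2 ?_)
        have h3 : p ^ e0 ≡ 0 [MOD p] :=
          (Nat.modEq_zero_iff_dvd).2 (dvd_pow_self p (by omega : e0 ≠ 0))
        simpa using Nat.ModEq.add_left m h3
      exact h2.dvd_iff (dvd_refl p)
    show (if _ then _ else _) = (if _ then _ else _)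
    by_cases hc : p ∣ m ^ 2 + Y ^ 2
    · rw [if_neg (not_not.2 (h1.2 hc)), if_neg (not_not.2 hc)]
    · have hc' : ¬ p ∣ (m + p ^ e0) ^ 2 + Y ^ 2 := fun h => hc (h1.1 h)
      rw [if_pos hc', if_pos hc]
      refine ph_congr (p ^ e0) hq0 _ _ Y y1 y1 _ _ ?_ (hy1 _ ?_) (hy1 _ ?_)
      · exact Nat.add_modEq_right
      · rw [hcopiff e0 _ (by omega)]; exact hc'
      · rw [hcopiff e0 _ (by omega)]; exact hc
  have hpow : p ^ v = p ^ e0 * p ^ (v - e0) := by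
    rw [← pow_add]; congr 1; omega
  have hAsum : ∑ i ∈ Finset.range (p ^ v), A i =
      (p ^ (v - e0)) • ∑ i ∈ Finset.range (p ^ e0), A i := by
    rw [hpow]
    exact periodic_sum (p ^ e0) (p ^ (v - e0)) A hAper
  have hQe0 : Q < p ^ e0 := lt_of_lt_of_le hQe (Nat.pow_le_pow_right hp.pos hee0)
  have hAe0 : ‖∑ i ∈ Finset.range (p ^ e0), A i‖ ≤ ε / 4 * (p ^ e0 : ℕ) := by
    have h1 : ∑ i ∈ Finset.range (p ^ e0), A i =
        ∑ m ∈ (Finset.range (p ^ e0)).filter (fun m => ¬ p ∣ m ^ 2 + Y ^ 2),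
          ph (p ^ e0) (u * a1) (u * a2) Y y1 m := by
      rw [Finset.sum_filter]
    rw [h1]
    refine hQ p e0 hp (by omega) hQe0 (u * a1) (u * a2) Y ?_ hpY y1 ?_
    · rintro ⟨h2, h3⟩
      have hpp := Nat.prime_iff_prime_int.1 hp
      exact ha ⟨(hpp.dvd_or_dvd h2).resolve_left hpu, (hpp.dvd_or_dvd h3).resolve_left hpu⟩
    · intro m hm
      exact hy1 m ((hcopiff e0 _ (by omega)).2 hm)
  have hAbound : ‖∑ i ∈ Finset.range (p ^ v), A i‖ ≤ ε / 4 * (p ^ v : ℕ) := by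
    rw [hAsum, nsmul_eq_mul, norm_mul, Complex.norm_natCast]
    have h1 : ((p ^ v : ℕ) : ℝ) = (p ^ e0 : ℕ) * (p ^ (v - e0) : ℕ) := by
      rw [hpow]; push_cast; ring
    rw [h1]
    have h2 : (0:ℝ) ≤ ((p ^ (v - e0) : ℕ) : ℝ) := Nat.cast_nonneg _
    calc ((p ^ (v - e0) : ℕ) : ℝ) * ‖∑ i ∈ Finset.range (p ^ e0), A i‖
        ≤ ((p ^ (v - e0) : ℕ) : ℝ) * (ε / 4 * (p ^ e0 : ℕ)) := by gcongr
      _ = _ := by ring
  have hgood : (p ^ v : ℕ) ≤ 3 *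
      ((Finset.range (p ^ v)).filter (fun m => ¬ p ∣ m ^ 2 + Y ^ 2)).card := by
    have h1 : ((Finset.range (p ^ v)).filter (fun m => ¬ p ∣ m ^ 2 + Y ^ 2)).card =
        p ^ (v - 1) * ((Finset.range p).filter (fun m => ¬ p ∣ m ^ 2 + Y ^ 2)).card := by
      have h2 : p ^ v = p * p ^ (v - 1) := by
        rw [← pow_succ']; congr 1; omega
      rw [Finset.card_filter, Finset.card_filter, h2, ← smul_eq_mul (p ^ (v - 1))]
      refine periodic_sum p (p ^ (v - 1)) (fun m => if ¬ p ∣ m ^ 2 + Y ^ 2 then 1 else 0) ?_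
      intro m
      have h3 : (p ∣ (m + p) ^ 2 + Y ^ 2 ↔ p ∣ m ^ 2 + Y ^ 2) := by
        have h4 : (m + p) ^ 2 + Y ^ 2 ≡ m ^ 2 + Y ^ 2 [MOD p] :=
          Nat.ModEq.add_right _ (Nat.ModEq.pow 2 Nat.add_modEq_right)
        exact h4.dvd_iff (dvd_refl p)
      show (if _ then _ else _) = (if _ then _ else _)
      simp only [h3]
    rw [h1]
    have h5 := good_card p hp Y hpY
    calc p ^ v = p ^ (v - 1) * p := by
          rw [← pow_succ]; congr 1; omega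
      _ ≤ p ^ (v - 1) * (3 * ((Finset.range p).filter (fun m => ¬ p ∣ m ^ 2 + Y ^ 2)).card) :=
          Nat.mul_le_mul_left _ h5
      _ = _ := by ring
  have hB : ‖∑ j ∈ Finset.range L, B j‖ ≤
      ((Finset.range L).filter (fun m => Nat.Coprime (m ^ 2 + Y ^ 2) L)).card := by
    have h1 : ∑ j ∈ Finset.range L, B j =
        ∑ m ∈ (Finset.range L).filter (fun m => Nat.Coprime (m ^ 2 + Y ^ 2) L),
          ph κ' (w * a1) (w * a2) Y y2 m := by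
      rw [Finset.sum_filter]
    rw [h1]
    refine (norm_sum_le _ _).trans ?_
    rw [Finset.sum_congr rfl (fun m _ => ph_norm κ' (w * a1) (w * a2) Y y2 m)]
    simp
  rw [hsum, hcard, norm_mul]
  push_cast
  have hgood' : ((p ^ v : ℕ) : ℝ) ≤ 3 *
      (((Finset.range (p ^ v)).filter (fun m => ¬ p ∣ m ^ 2 + Y ^ 2)).card : ℝ) := by
    exact_mod_cast hgood
  have hA' : ‖∑ i ∈ Finset.range (p ^ v), A i‖ ≤ ε *
      (((Finset.range (p ^ v)).filter (fun m => ¬ p ∣ m ^ 2 + Y ^ 2)).card : ℝ) := by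
    refine hAbound.trans ?_
    have h6 : (0:ℝ) ≤ (((Finset.range (p ^ v)).filter (fun m => ¬ p ∣ m ^ 2 + Y ^ 2)).card : ℝ) :=
      Nat.cast_nonneg _
    nlinarith
  calc ‖∑ i ∈ Finset.range (p ^ v), A i‖ * ‖∑ j ∈ Finset.range L, B j‖
      ≤ (ε * (((Finset.range (p ^ v)).filter (fun m => ¬ p ∣ m ^ 2 + Y ^ 2)).card : ℝ)) *
        (((Finset.range L).filter (fun m => Nat.Coprime (m ^ 2 + Y ^ 2) L)).card : ℝ) := by
        gcongr
    _ = _ := by ring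

end H5
export H5 (crt_bound)
end Pool.Agent.Helper378.PD
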