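import Pool.Agent.Helper378.PD.Base
import Pool.Agent.Helper378.PD.H1
import Pool.Agent.Helper378.PD.H2
import Pool.Agent.Helper378.PD.H5
set_option autoImplicit false
open MeasureTheory
namespace Pool.Agent.Helper378.PD
namespace H6
/-! TARGETS -/


theorem ph_norm (κ : ℕ) (a1 a2 : ℤ) (Y : ℕ) (y : ℕ → ℤ) (m : ℕ) : ‖ph κ a1 a2 Y y m‖ = 1 := by
  unfold ph
  have : (2 * (Real.pi:ℂ) * Complex.I *
    (((y m * (((m:ℤ) ^ 2 - (Y:ℤ) ^ 2) * a1 + 2 * (m:ℤ) * (Y:ℤ) * a2) : ℤ) : ℂ) / (κ : ℂ))) =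
    ((2 * Real.pi * (((y m * (((m:ℤ) ^ 2 - (Y:ℤ) ^ 2) * a1 + 2 * (m:ℤ) * (Y:ℤ) * a2) : ℤ) : ℝ) / (κ : ℝ)) : ℝ) : ℂ) * Complex.I := by
    push_cast; ring
  rw [this]
  exact Complex.norm_exp_ofReal_mul_I _

theorem GG_norm (T : ℂ) (x : ℝ) : ‖GG T x‖ = 1 := by
  unfold GG
  rw [Complex.norm_exp]
  simp

theorem exp_lip (u v : ℝ) : ‖Complex.exp (2 * Real.pi * Complex.I * (u : ℂ)) -
    Complex.exp (2 * Real.pi * Complex.I * (v : ℂ))‖ ≤ 2 * Real.pi * |u - v| := by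
  have h1 : Complex.exp (2 * Real.pi * Complex.I * (u : ℂ)) =
      Complex.exp (2 * Real.pi * Complex.I * (v : ℂ)) *
      Complex.exp (Complex.I * ((2 * Real.pi * (u - v) : ℝ) : ℂ)) := by
    rw [← Complex.exp_add]; congr 1; push_cast; ring
  rw [h1]
  have h2 : Complex.exp (2 * Real.pi * Complex.I * (v : ℂ)) *
      Complex.exp (Complex.I * ((2 * Real.pi * (u - v) : ℝ) : ℂ)) -
      Complex.exp (2 * Real.pi * Complex.I * (v : ℂ)) =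
      Complex.exp (2 * Real.pi * Complex.I * (v : ℂ)) *
      (Complex.exp (Complex.I * ((2 * Real.pi * (u - v) : ℝ) : ℂ)) - 1) := by ring
  rw [h2, norm_mul]
  have h3 : ‖Complex.exp (2 * Real.pi * Complex.I * (v : ℂ))‖ = 1 := by
    rw [Complex.norm_exp]; simp
  rw [h3, one_mul]
  refine (Real.norm_exp_I_mul_ofReal_sub_one_le).trans ?_
  rw [Real.norm_eq_abs, abs_mul, abs_of_pos (by positivity : (0:ℝ) < 2 * Real.pi)]

theorem mob_lip (x y : ℝ) : ‖((x:ℂ) - Complex.I) / ((x:ℂ) + Complex.I) -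
    ((y:ℂ) - Complex.I) / ((y:ℂ) + Complex.I)‖ ≤ 2 * |x - y| := by
  have hn : ∀ z : ℝ, 1 ≤ ‖(z:ℂ) + Complex.I‖ := by
    intro z
    have h := Complex.abs_im_le_norm ((z:ℂ) + Complex.I)
    simpa using h
  have hne : ∀ z : ℝ, (z:ℂ) + Complex.I ≠ 0 := by
    intro z h0
    have := hn z
    rw [h0, norm_zero] at this
    linarith
  have h1 : ((x:ℂ) - Complex.I) / ((x:ℂ) + Complex.I) - ((y:ℂ) - Complex.I) / ((y:ℂ) + Complex.I) =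
      (2 * Complex.I * ((x - y : ℝ) : ℂ)) / (((x:ℂ) + Complex.I) * ((y:ℂ) + Complex.I)) := by
    rw [div_sub_div _ _ (hne x) (hne y)]
    congr 1
    push_cast
    ring
  rw [h1, norm_div, norm_mul, norm_mul, norm_mul, Complex.norm_I, Complex.norm_real,
    Real.norm_eq_abs]
  have h2 : (1:ℝ) ≤ ‖(x:ℂ) + Complex.I‖ * ‖(y:ℂ) + Complex.I‖ := by
    nlinarith [hn x, hn y]
  rw [div_le_iff₀ (by linarith)]
  have h3 : ‖(2:ℂ)‖ = 2 := by simp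
  rw [h3]
  nlinarith [abs_nonneg (x - y)]

theorem GG_lip (T : ℂ) (x y : ℝ) : ‖GG T x - GG T y‖ ≤ (4 * Real.pi * ‖T‖) * |x - y| := by
  unfold GG
  refine (exp_lip _ _).trans ?_
  have h1 : |(T * ((x : ℂ) - Complex.I) / ((x : ℂ) + Complex.I)).re -
      (T * ((y : ℂ) - Complex.I) / ((y : ℂ) + Complex.I)).re| ≤ ‖T‖ * (2 * |x - y|) := by
    rw [← Complex.sub_re]
    refine (Complex.abs_re_le_norm _).trans ?_
    have : T * ((x : ℂ) - Complex.I) / ((x : ℂ) + Complex.I) -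
        T * ((y : ℂ) - Complex.I) / ((y : ℂ) + Complex.I) =
        T * (((x:ℂ) - Complex.I) / ((x:ℂ) + Complex.I) - ((y:ℂ) - Complex.I) / ((y:ℂ) + Complex.I)) := by
      ring
    rw [this, norm_mul]
    exact mul_le_mul_of_nonneg_left (mob_lip x y) (norm_nonneg _)
  nlinarith [Real.pi_pos]

theorem cop_per (L Y m : ℕ) : Nat.Coprime ((m + L) ^ 2 + Y ^ 2) L ↔ Nat.Coprime (m ^ 2 + Y ^ 2) L := by
  have : (m + L) ^ 2 + Y ^ 2 = m ^ 2 + Y ^ 2 + (2 * m + L) * L := by ring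
  rw [this]
  exact Nat.coprime_add_mul_right_left _ _ _

theorem ph_per (κ P Y : ℕ) (a1 a2 : ℤ) (y : ℕ → ℤ) (hκ : 0 < κ)
    (hy : ∀ m : ℕ, Nat.Coprime (m ^ 2 + Y ^ 2) (κ * P) → (κ:ℤ) ∣ ((m:ℤ) ^ 2 + (Y:ℤ) ^ 2) * y m - 1)
    (m : ℕ) (hm : Nat.Coprime (m ^ 2 + Y ^ 2) (κ * P)) :
    ph κ a1 a2 Y y (m + κ * P) = ph κ a1 a2 Y y m := by
  have hm' : Nat.Coprime ((m + κ * P) ^ 2 + Y ^ 2) (κ * P) := (cop_per _ _ _).mpr hm
  have h1 := hy m hm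
  have h2 := hy _ hm'
  have hmm : ((m + κ * P : ℕ) : ℤ) ≡ (m : ℤ) [ZMOD κ] := by
    rw [Int.modEq_comm, Int.modEq_iff_dvd]
    refine ⟨P, ?_⟩
    push_cast; ring
  have h1' : ((m:ℤ) ^ 2 + (Y:ℤ) ^ 2) * y m ≡ 1 [ZMOD κ] := by
    rw [Int.modEq_comm, Int.modEq_iff_dvd]; exact h1
  have h2' : (((m + κ * P : ℕ):ℤ) ^ 2 + (Y:ℤ) ^ 2) * y (m + κ * P) ≡ 1 [ZMOD κ] := by
    rw [Int.modEq_comm, Int.modEq_iff_dvd]; exact h2
  have h3' : ((m:ℤ) ^ 2 + (Y:ℤ) ^ 2) * y (m + κ * P) ≡ 1 [ZMOD κ] :=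
    (((hmm.pow 2).add_right _).mul_right _).symm.trans h2'
  have hyy : y (m + κ * P) ≡ y m [ZMOD κ] := by
    have e1 : y (m + κ * P) * (((m:ℤ) ^ 2 + (Y:ℤ) ^ 2) * y m) ≡ y (m + κ * P) * 1 [ZMOD κ] :=
      h1'.mul_left _
    have e2 : y m * (((m:ℤ) ^ 2 + (Y:ℤ) ^ 2) * y (m + κ * P)) ≡ y m * 1 [ZMOD κ] :=
      h3'.mul_left _
    have e3 : y (m + κ * P) * (((m:ℤ) ^ 2 + (Y:ℤ) ^ 2) * y m) =
      y m * (((m:ℤ) ^ 2 + (Y:ℤ) ^ 2) * y (m + κ * P)) := by ring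
    rw [e3, mul_one] at e1
    rw [mul_one] at e2
    exact e1.symm.trans e2
  have hA : y (m + κ * P) * ((((m + κ * P : ℕ):ℤ) ^ 2 - (Y:ℤ) ^ 2) * a1 + 2 * ((m + κ * P : ℕ):ℤ) * (Y:ℤ) * a2)
      ≡ y m * (((m:ℤ) ^ 2 - (Y:ℤ) ^ 2) * a1 + 2 * (m:ℤ) * (Y:ℤ) * a2) [ZMOD κ] :=
    hyy.mul ((((hmm.pow 2).sub_right _).mul_right _).add (((hmm.mul_left 2).mul_right _).mul_right _))
  rw [Int.modEq_comm, Int.modEq_iff_dvd] at hA
  obtain ⟨c, hc⟩ := hA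
  unfold ph
  rw [Complex.exp_eq_exp_iff_exists_int]
  refine ⟨c, ?_⟩
  have hc' : y (m + κ * P) * ((((m + κ * P : ℕ):ℤ) ^ 2 - (Y:ℤ) ^ 2) * a1 + 2 * ((m + κ * P : ℕ):ℤ) * (Y:ℤ) * a2)
    = y m * (((m:ℤ) ^ 2 - (Y:ℤ) ^ 2) * a1 + 2 * (m:ℤ) * (Y:ℤ) * a2) + κ * c := by linarith
  rw [hc']
  have hκC : (κ:ℂ) ≠ 0 := by exact_mod_cast hκ.ne'
  push_cast
  field_simp

theorem card_bound (L Y : ℕ) (hL : 0 < L) :
    ((Finset.range L).filter (fun m => Nat.Coprime (m ^ 2 + Y ^ 2) L)).card * (Y / L) ≤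
    ((Finset.range Y).filter (fun m => Nat.Coprime (m ^ 2 + Y ^ 2) L)).card := by
  rw [← Finset.card_range (Y / L), ← Finset.card_product]
  apply Finset.card_le_card_of_injOn (fun q : ℕ × ℕ => q.1 + q.2 * L)
  · rintro ⟨r, k⟩ h
    simp only [Finset.coe_product, Set.mem_prod, Finset.mem_coe, Finset.mem_filter,
      Finset.mem_range] at h ⊢
    obtain ⟨⟨h1, h2⟩, h3⟩ := h
    refine ⟨?_, ?_⟩
    · have h4 : (k + 1) * L ≤ Y := by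
        calc (k + 1) * L ≤ (Y / L) * L := Nat.mul_le_mul_right _ h3
          _ ≤ Y := Nat.div_mul_le_self _ _
      nlinarith
    · have : (r + k * L) ^ 2 + Y ^ 2 = r ^ 2 + Y ^ 2 + (2 * r * k + k * k * L) * L := by ring
      rw [this]
      exact (Nat.coprime_add_mul_right_left _ _ _).mpr h2
  · rintro ⟨r, k⟩ h ⟨r', k'⟩ h' heq
    simp only [Finset.coe_product, Set.mem_prod, Finset.mem_coe, Finset.mem_filter,
      Finset.mem_range] at h h' heq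
    have h1 : r = r' := by
      have := congrArg (· % L) heq
      simpa [Nat.add_mul_mod_self_right, Nat.mod_eq_of_lt h.1.1, Nat.mod_eq_of_lt h'.1.1] using this
    subst h1
    have h2 : k * L = k' * L := by omega
    have h3 := Nat.eq_of_mul_eq_mul_right hL h2
    rw [h3]

theorem expsum (ε : ℝ) (hε : 0 < ε) : ∃ (Q : ℕ) (Λ C : ℝ), 0 < Λ ∧ 1 ≤ C ∧
    ∀ (κ P Y : ℕ) (a1 a2 : ℤ) (T : ℂ) (y : ℕ → ℤ), 0 < κ → 0 < P → Nat.Coprime Y (κ * P) →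
    C * ((κ * P : ℕ) : ℝ) ^ 2 * (1 + ‖T‖) ≤ Y →
    (∀ m : ℕ, Nat.Coprime (m ^ 2 + Y ^ 2) (κ * P) → (κ:ℤ) ∣ ((m:ℤ) ^ 2 + (Y:ℤ) ^ 2) * y m - 1) →
    ((∃ p e : ℕ, p.Prime ∧ Q < p ^ e ∧ p ^ e ∣ κ ∧ ¬ ((p:ℤ) ∣ a1 ∧ (p:ℤ) ∣ a2)) ∨ Λ ≤ ‖T‖) →
    ‖∑ m ∈ (Finset.range Y).filter (fun m => Nat.Coprime (m ^ 2 + Y ^ 2) (κ * P)),
        ph κ a1 a2 Y y m * GG T ((m:ℝ) / Y)‖ ≤
      ε * ((Finset.range Y).filter (fun m => Nat.Coprime (m ^ 2 + Y ^ 2) (κ * P))).card := by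
  obtain ⟨Q, hQ⟩ := crt_bound (ε / 8) (by positivity)
  obtain ⟨Λ, hΛ, hΛ'⟩ := integral_decay (ε / 8) (by positivity)
  refine ⟨Q, Λ, 2 + 1000 / ε, hΛ, ?_, ?_⟩
  · have : 0 < 1000 / ε := by positivity
    linarith
  intro κ P Y a1 a2 T y hκ hP hY hC hy hor
  set L : ℕ := κ * P with hLdef
  have hL : 0 < L := Nat.mul_pos hκ hP
  have hLr : (1:ℝ) ≤ (L:ℝ) := by exact_mod_cast hL
  have hT0 := norm_nonneg T
  have hYL : (L:ℝ) ≤ Y := by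
    have h1 : (1:ℝ) ≤ 2 + 1000 / ε := by
      have : 0 < 1000 / ε := by positivity
      linarith
    calc (L:ℝ) ≤ (L:ℝ) ^ 2 := by nlinarith
      _ ≤ (L:ℝ) ^ 2 * (1 + ‖T‖) := by nlinarith [sq_nonneg (L:ℝ)]
      _ ≤ (2 + 1000 / ε) * ((L:ℝ) ^ 2 * (1 + ‖T‖)) := by
          have : 0 ≤ (L:ℝ) ^ 2 * (1 + ‖T‖) := by positivity
          nlinarith
      _ ≤ Y := by rw [← mul_assoc]; exact hC
  have hLY : L ≤ Y := by exact_mod_cast hYL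
  set φ : ℕ → ℂ := fun m => if Nat.Coprime (m ^ 2 + Y ^ 2) L then ph κ a1 a2 Y y m else 0 with hφ
  have hper : ∀ m, φ (m + L) = φ m := by
    intro m
    simp only [hφ]
    by_cases hm : Nat.Coprime (m ^ 2 + Y ^ 2) L
    · rw [if_pos hm, if_pos ((cop_per _ _ _).mpr hm)]
      exact ph_per κ P Y a1 a2 y hκ hy m hm
    · rw [if_neg hm, if_neg (fun h => hm ((cop_per _ _ _).mp h))]
  have hb : ∀ m, ‖φ m‖ ≤ 1 := by
    intro m
    simp only [hφ]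
    split_ifs
    · rw [ph_norm]
    · simp
  have hmain := periodic_sum L Y hL hLY φ hper hb (GG T) (4 * Real.pi * ‖T‖)
    (fun x _ => (GG_norm T x).le) (fun x _ y _ => GG_lip T x y)
  have hsum1 : ∑ m ∈ (Finset.range Y).filter (fun m => Nat.Coprime (m ^ 2 + Y ^ 2) L),
        ph κ a1 a2 Y y m * GG T ((m:ℝ) / Y) = ∑ m ∈ Finset.range Y, φ m * GG T ((m:ℝ) / Y) := by
    rw [Finset.sum_filter]
    refine Finset.sum_congr rfl fun m _ => ?_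
    simp only [hφ]
    rw [ite_mul, zero_mul]
  have hsum2 : ∑ r ∈ Finset.range L, φ r =
      ∑ m ∈ (Finset.range L).filter (fun m => Nat.Coprime (m ^ 2 + Y ^ 2) L), ph κ a1 a2 Y y m := by
    rw [Finset.sum_filter]
  set Z : ℕ := ((Finset.range L).filter (fun m => Nat.Coprime (m ^ 2 + Y ^ 2) L)).card with hZ
  set N : ℕ := ((Finset.range Y).filter (fun m => Nat.Coprime (m ^ 2 + Y ^ 2) L)).card with hN
  have hZ1 : 1 ≤ Z := by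
    rw [hZ, Nat.one_le_iff_ne_zero, ← Nat.pos_iff_ne_zero, Finset.card_pos]
    refine ⟨0, ?_⟩
    simp only [Finset.mem_filter, Finset.mem_range]
    refine ⟨hL, ?_⟩
    rw [zero_pow two_ne_zero, zero_add]
    exact Nat.Coprime.pow_left 2 hY
  have hcard := card_bound L Y hL
  rw [← hZ, ← hN] at hcard
  have hq1 : 1 ≤ Y / L := (Nat.one_le_div_iff hL).mpr hLY
  have hq2 : (Y:ℝ) / L ≤ 2 * ((Y / L : ℕ) : ℝ) := by
    rw [div_le_iff₀ (by linarith)]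
    have h1 : Y < L * (Y / L + 1) := Nat.lt_mul_div_succ Y hL
    have h2 : L * (Y / L + 1) ≤ 2 * (Y / L) * L := by nlinarith
    have h3 : Y ≤ 2 * (Y / L) * L := by omega
    exact_mod_cast h3
  have hNlow : (Z:ℝ) * ((Y:ℝ) / L) ≤ 2 * N := by
    have h1 : ((Z * (Y / L) : ℕ) : ℝ) ≤ N := by exact_mod_cast hcard
    rw [Nat.cast_mul] at h1
    have h2 : (0:ℝ) ≤ Z := Nat.cast_nonneg _
    nlinarith
  have hS1 : ‖∑ r ∈ Finset.range L, φ r‖ ≤ Z := by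
    rw [hsum2]
    refine (norm_sum_le _ _).trans ?_
    rw [Finset.sum_congr rfl (fun m _ => ph_norm κ a1 a2 Y y m)]
    simp [hZ]
  have hI1 : ‖∫ x in (0:ℝ)..1, GG T x‖ ≤ 1 := by
    have := intervalIntegral.norm_integral_le_of_norm_le_const (a := 0) (b := 1) (f := GG T)
      (C := 1) (fun x _ => (GG_norm T x).le)
    simpa using this
  have hprod : ‖∑ r ∈ Finset.range L, φ r‖ * ‖∫ x in (0:ℝ)..1, GG T x‖ ≤ ε / 8 * Z := by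
    rcases hor with h | h
    · have h1 := hQ κ P Y a1 a2 y hκ hP hY hy h
      rw [← hsum2] at h1
      calc _ ≤ (ε / 8 * Z) * 1 := by
            apply mul_le_mul h1 hI1 (norm_nonneg _) (by positivity)
        _ = _ := mul_one _
    · have h1 := hΛ' T h
      calc _ ≤ (Z:ℝ) * (ε / 8) := by
            apply mul_le_mul hS1 h1 (norm_nonneg _) (by positivity)
        _ = _ := by ring
  have hYLn : ‖((Y:ℂ) / L)‖ = (Y:ℝ) / L := by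
    rw [norm_div, Complex.norm_natCast, Complex.norm_natCast]
  have hfirst : ‖(∑ r ∈ Finset.range L, φ r) * ((Y:ℂ) / L) * ∫ x in (0:ℝ)..1, GG T x‖ ≤
      ε / 4 * N := by
    rw [norm_mul, norm_mul, hYLn]
    have h0 : (0:ℝ) ≤ (Y:ℝ) / L := by positivity
    calc ‖∑ r ∈ Finset.range L, φ r‖ * ((Y:ℝ) / L) * ‖∫ x in (0:ℝ)..1, GG T x‖
        = (‖∑ r ∈ Finset.range L, φ r‖ * ‖∫ x in (0:ℝ)..1, GG T x‖) * ((Y:ℝ) / L) := by ring
      _ ≤ (ε / 8 * Z) * ((Y:ℝ) / L) := mul_le_mul_of_nonneg_right hprod h0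
      _ = ε / 8 * (Z * ((Y:ℝ) / L)) := by ring
      _ ≤ ε / 8 * (2 * N) := mul_le_mul_of_nonneg_left hNlow (by positivity)
      _ = ε / 4 * N := by ring
  have herr : (L:ℝ) * (2 * (4 * Real.pi * ‖T‖) + 4) ≤ ε / 2 * N := by
    have hpi := Real.pi_lt_d2
    have h1 : (L:ℝ) * (2 * (4 * Real.pi * ‖T‖) + 4) ≤ 26 * ((L:ℝ) * (1 + ‖T‖)) := by
      have : 2 * (4 * Real.pi * ‖T‖) + 4 ≤ 26 * (1 + ‖T‖) := by nlinarith
      nlinarith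
    have h2 : 1000 / ε * (L:ℝ) ^ 2 * (1 + ‖T‖) ≤ Y := by
      have : 0 ≤ 2 * (L:ℝ) ^ 2 * (1 + ‖T‖) := by positivity
      nlinarith
    have h3 : 1000 * ((L:ℝ) * (1 + ‖T‖)) ≤ ε * ((Y:ℝ) / L) := by
      rw [← mul_div_assoc, le_div_iff₀ (by linarith)]
      have h4 : ε * (1000 / ε * (L:ℝ) ^ 2 * (1 + ‖T‖)) ≤ ε * Y :=
        mul_le_mul_of_nonneg_left h2 hε.le
      have h5 : ε * (1000 / ε * (L:ℝ) ^ 2 * (1 + ‖T‖)) = 1000 * ((L:ℝ) * (1 + ‖T‖)) * L := by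
        field_simp
      linarith
    have h6 : (Y:ℝ) / L ≤ 2 * N := by
      have h7 : (1:ℝ) ≤ Z := by exact_mod_cast hZ1
      have h0 : (0:ℝ) ≤ (Y:ℝ) / L := by positivity
      nlinarith
    have h8 : ε * ((Y:ℝ) / L) ≤ ε * (2 * N) := mul_le_mul_of_nonneg_left h6 hε.le
    have h9 : 0 ≤ ε * (N:ℝ) := by positivity
    linarith
  rw [hsum1]
  have htri := norm_le_norm_add_norm_sub' (∑ m ∈ Finset.range Y, φ m * GG T ((m:ℝ) / Y))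
    ((∑ r ∈ Finset.range L, φ r) * ((Y:ℂ) / L) * ∫ x in (0:ℝ)..1, GG T x)
  have h9 : 0 ≤ ε * (N:ℝ) := by positivity
  linarith

end H6
export H6 (expsum)
end Pool.Agent.Helper378.PD
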