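import Pool.Agent.Helper378.PD.Base
import Pool.Agent.Helper378.PD.D1
import Pool.Agent.Helper378.PD.G1
import Pool.Agent.Helper378.PD.H6
set_option autoImplicit false
open MeasureTheory
namespace Pool.Agent.Helper378.PD
namespace G5
/-! TARGETS -/

namespace PWAux

theorem norm_u (x : ℝ) : ‖(x : ℂ) - Complex.I‖ = ‖(x : ℂ) + Complex.I‖ := by
  have h : (x : ℂ) - Complex.I = (starRingEnd ℂ) ((x : ℂ) + Complex.I) := by
    rw [map_add, Complex.conj_ofReal, Complex.conj_I]; ring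
  rw [h, Complex.norm_conj]

theorem arg_le (T : ℂ) (x : ℝ) :
    |(T * ((x : ℂ) - Complex.I) / ((x : ℂ) + Complex.I)).re| ≤ ‖T‖ := by
  refine (Complex.abs_re_le_norm _).trans ?_
  have h0 : (x : ℂ) + Complex.I ≠ 0 := by
    intro h
    have := congrArg Complex.im h
    simp at this
  have h1 : ‖(x : ℂ) + Complex.I‖ ≠ 0 := norm_ne_zero_iff.2 h0
  rw [norm_div, norm_mul, norm_u, mul_div_assoc, div_self h1, mul_one]

theorem GG_eq (T : ℂ) (x : ℝ) : GG T x = Complex.exp (((2 * Real.pi *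
    (T * ((x : ℂ) - Complex.I) / ((x : ℂ) + Complex.I)).re : ℝ) : ℂ) * Complex.I) := by
  unfold GG
  congr 1
  push_cast
  ring

theorem GG_re (T : ℂ) (x : ℝ) : (GG T x).re =
    Real.cos (2 * Real.pi * (T * ((x : ℂ) - Complex.I) / ((x : ℂ) + Complex.I)).re) := by
  rw [GG_eq, Complex.exp_ofReal_mul_I_re]

theorem norm_GG (T : ℂ) (x : ℝ) : ‖GG T x‖ = 1 := by
  rw [GG_eq, Complex.norm_exp_ofReal_mul_I]

theorem GG_re_ge {ε' δ : ℝ} (hδ : ∀ r : ℝ, |r| < δ → 1 - ε' ≤ Real.cos (2 * Real.pi * r))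
    {T : ℂ} (hT : ‖T‖ < δ) (x : ℝ) : 1 - ε' ≤ (GG T x).re := by
  rw [GG_re]
  exact hδ _ (lt_of_le_of_lt (arg_le T x) hT)

theorem exists_delta {ε' : ℝ} (h : 0 < ε') :
    ∃ δ : ℝ, 0 < δ ∧ ∀ r : ℝ, |r| < δ → 1 - ε' ≤ Real.cos (2 * Real.pi * r) := by
  have hc : Continuous fun r : ℝ => Real.cos (2 * Real.pi * r) := by fun_prop
  have h1 := Metric.tendsto_nhds_nhds.1 (hc.tendsto 0) ε' h
  obtain ⟨δ, hδ, h2⟩ := h1
  refine ⟨δ, hδ, fun r hr => ?_⟩
  have h3 := h2 (x := r) (by rwa [Real.dist_eq, sub_zero])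
  rw [Real.dist_eq, mul_zero, Real.cos_zero] at h3
  have := (abs_lt.1 h3).1
  linarith

/-- lifting torsion points -/
theorem exists_rep (A : T2) (o : ℕ) (ho : 0 < o) (h : o • A = 0) :
    ∃ a1 a2 : ℤ, A = proj (((a1 : ℂ) + (a2 : ℂ) * Complex.I) / (o : ℂ)) := by
  have ho' : (o : ℝ) ≠ 0 := by exact_mod_cast ho.ne'
  have key : ∀ B : AddCircle (1 : ℝ), o • B = 0 →
      ∃ a : ℤ, B = (((a : ℝ) / (o : ℝ) : ℝ) : AddCircle (1 : ℝ)) := by
    intro B hB
    obtain ⟨x, rfl⟩ := QuotientAddGroup.mk_surjective B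
    have h1 : (((o : ℝ) * x : ℝ) : AddCircle (1 : ℝ)) = 0 := by
      rw [← hB, ← nsmul_eq_mul]
      rfl
    obtain ⟨a, ha⟩ := (AddCircle.coe_eq_zero_iff (1 : ℝ)).1 h1
    refine ⟨a, ?_⟩
    have h2 : x = (a : ℝ) / (o : ℝ) := by
      rw [eq_div_iff ho', mul_comm, ← ha]
      simp
    rw [h2]
  have h1 : o • A.1 = 0 := by
    have := congrArg Prod.fst h
    simpa using this
  have h2 : o • A.2 = 0 := by
    have := congrArg Prod.snd h
    simpa using this
  obtain ⟨a1, ha1⟩ := key A.1 h1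
  obtain ⟨a2, ha2⟩ := key A.2 h2
  refine ⟨a1, a2, ?_⟩
  unfold proj
  refine Prod.ext ?_ ?_
  · rw [ha1]
    congr 2
    rw [Complex.div_natCast_re]
    simp
  · rw [ha2]
    congr 2
    rw [Complex.div_natCast_im]
    simp

theorem proj_int (b1 b2 : ℤ) : proj ((b1 : ℂ) + (b2 : ℂ) * Complex.I) = 0 := by
  unfold proj
  refine Prod.ext ?_ ?_
  · show ((((b1 : ℂ) + (b2 : ℂ) * Complex.I).re : ℝ) : AddCircle (1 : ℝ)) = 0
    refine (AddCircle.coe_eq_zero_iff (1 : ℝ)).2 ⟨b1, ?_⟩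
    simp
  · show ((((b1 : ℂ) + (b2 : ℂ) * Complex.I).im : ℝ) : AddCircle (1 : ℝ)) = 0
    refine (AddCircle.coe_eq_zero_iff (1 : ℝ)).2 ⟨b2, ?_⟩
    simp

/-- no common prime factor -/
theorem no_prime (A : T2) (o : ℕ) (ho : 0 < o) (hoA : o = addOrderOf A) {a1 a2 : ℤ}
    (hA : A = proj (((a1 : ℂ) + (a2 : ℂ) * Complex.I) / (o : ℂ))) {p : ℕ} (hp : p.Prime)
    (hpo : p ∣ o) : ¬ ((p : ℤ) ∣ a1 ∧ (p : ℤ) ∣ a2) := by
  rintro ⟨⟨b1, rfl⟩, ⟨b2, rfl⟩⟩
  obtain ⟨q, hq⟩ := hpo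
  have hq0 : 0 < q := by
    rcases Nat.eq_zero_or_pos q with h | h
    · rw [h, mul_zero] at hq; omega
    · exact h
  have hqo : q < o := by
    rw [hq]
    have := hp.two_le
    nlinarith
  have h1 : q • A = 0 := by
    rw [← Nat.cast_smul_eq_nsmul Gi q A]
    conv_lhs => rw [hA]
    rw [smul_proj, ← proj_int b1 b2]
    congr 1
    have hp0 : (p : ℂ) ≠ 0 := by exact_mod_cast hp.ne_zero
    have hq0' : (q : ℂ) ≠ 0 := by exact_mod_cast hq0.ne'
    rw [map_natCast, hq]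
    push_cast
    field_simp
  have h2 := addOrderOf_le_of_nsmul_eq_zero hq0 h1
  omega

theorem E_smul_proj (o : ℕ) (a1 a2 : ℤ) (Y : ℕ) (y : ℕ → ℤ) (m : ℕ) :
    E (((y m : Gi) * (star (⟨m, Y⟩ : Gi)) ^ 2) •
      proj (((a1 : ℂ) + (a2 : ℂ) * Complex.I) / (o : ℂ))) = ph o a1 a2 Y y m := by
  rw [smul_proj, E_proj]
  unfold ph
  congr 2
  have h1 : GaussianInt.toComplex ((y m : Gi) * (star (⟨m, Y⟩ : Gi)) ^ 2) =
      (y m : ℂ) * ((m : ℂ) - (Y : ℂ) * Complex.I) ^ 2 := by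
    rw [map_mul, map_pow, map_intCast, GaussianInt.toComplex_star, GaussianInt.toComplex_def]
    congr 2
    simp
    ring
  have h2 : (y m : ℂ) * ((m : ℂ) - (Y : ℂ) * Complex.I) ^ 2 *
      (((a1 : ℂ) + (a2 : ℂ) * Complex.I) / (o : ℂ)) =
      (((y m : ℝ) * (((m : ℝ) ^ 2 - (Y : ℝ) ^ 2) * a1 + 2 * (m : ℝ) * (Y : ℝ) * a2) / (o : ℝ) : ℝ) :
        ℂ) +
      (((y m : ℝ) * (((m : ℝ) ^ 2 - (Y : ℝ) ^ 2) * a2 - 2 * (m : ℝ) * (Y : ℝ) * a1) / (o : ℝ) : ℝ) :
        ℂ) * Complex.I := by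
    push_cast
    linear_combination ((y m : ℂ) / (o : ℂ) * (-2 * (m : ℂ) * (Y : ℂ) * a2 + (Y : ℂ) ^ 2 * a1 +
      (Y : ℂ) ^ 2 * a2 * Complex.I)) * Complex.I_sq
  rw [h1, h2]
  have h3 : ∀ r t : ℝ, ((r : ℂ) + (t : ℂ) * Complex.I).re = r := by
    intro r t
    simp
  rw [h3]
  push_cast
  ring

/-- prime power larger than `Q` -/
def BP (Q o : ℕ) : Prop := ∃ p k : ℕ, p.Prime ∧ 1 ≤ k ∧ p ^ k ∣ o ∧ Q < p ^ k

theorem dvd_of_not_BP {Q o : ℕ} (h : ¬ BP Q o) : o ∣ Q.factorial := by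
  rw [Nat.dvd_iff_prime_pow_dvd_dvd]
  intro p k hp hpk
  rcases Nat.eq_zero_or_pos k with h0 | h0
  · rw [h0, pow_zero]; exact one_dvd _
  · have h1 : p ^ k ≤ Q := by
      by_contra hcon
      push Not at hcon
      exact h ⟨p, k, hp, h0, hpk, hcon⟩
    exact Nat.dvd_factorial (pow_pos hp.pos _) h1

theorem not_BP_one (Q : ℕ) : ¬ BP Q 1 := by
  rintro ⟨p, k, hp, hk, h1, -⟩
  have h2 : p ∣ 1 := (dvd_pow_self p (by omega)).trans h1
  exact hp.one_lt.ne' (Nat.dvd_one.1 h2)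

/-- the signs -/
def cs (k i : ℕ) : ℝ := if i < k then 1 else if i = k then -1 else 0

theorem cs_sum (k J : ℕ) : ∑ i ∈ Finset.range J, (2 : ℝ) ^ i * cs k i =
    if J ≤ k then 2 ^ J - 1 else -1 := by
  induction J with
  | zero => simp
  | succ J ih =>
    rw [Finset.sum_range_succ, ih]
    unfold cs
    rcases lt_trichotomy J k with h | h | h
    · rw [if_pos h.le, if_pos h, if_pos (by omega), pow_succ]; ring
    · subst h
      simp
      ring
    · rw [if_neg (by omega), if_neg (by omega), if_neg (by omega), if_neg (by omega)]; ring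

theorem cs_ge (k J : ℕ) : -1 ≤ ∑ i ∈ Finset.range J, (2 : ℝ) ^ i * cs k i := by
  rw [cs_sum]
  split_ifs
  · have : (0 : ℝ) < 2 ^ J := by positivity
    linarith
  · exact le_rfl

/-- the final summation -/
theorem final_sum (J : ℕ) {ε N : ℝ} (hε : 0 < ε) (hN : 0 ≤ N) (a : ℕ → ℝ) (Bad : ℕ → Prop)
    (h1 : ∀ i < J, ¬ Bad i → (1 - ε / (4 * 2 ^ J)) * N ≤ a i) (h2 : ∀ i < J, -N ≤ a i)
    (h3 : ∀ i, i + 1 < J → Bad i → Bad (i + 1) ∧ -(ε / (4 * 2 ^ J)) * N ≤ a (i + 1)) :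
    -(1 + ε) * N ≤ ∑ i ∈ Finset.range J, (2 : ℝ) ^ i * a i := by
  classical
  obtain ⟨k, hk1, hk2⟩ : ∃ k : ℕ, (∀ i < J, i < k → ¬ Bad i) ∧ (k < J → Bad k) := by
    by_cases hex : ∃ i, Bad i ∧ i < J
    · refine ⟨Nat.find hex, fun i hi hik hb => Nat.find_min hex hik ⟨hb, hi⟩,
        fun _ => (Nat.find_spec hex).1⟩
    · exact ⟨J, fun i hi _ hb => hex ⟨i, hb, hi⟩, fun h => absurd h (lt_irrefl _)⟩
  have hprop : ∀ j, k + (j + 1) < J → Bad (k + (j + 1)) ∧
      -(ε / (4 * 2 ^ J)) * N ≤ a (k + (j + 1)) := by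
    intro j
    induction j with
    | zero =>
      intro hj
      exact h3 k (by omega) (hk2 (by omega))
    | succ j ih =>
      intro hj
      exact h3 (k + (j + 1)) (by omega) (ih (by omega)).1
  set ε' : ℝ := ε / (4 * 2 ^ J) with hε'
  have hε'0 : 0 < ε' := by positivity
  have hlow : ∀ i < J, (-ε' + cs k i) * N ≤ a i := by
    intro i hi
    unfold cs
    rcases lt_trichotomy i k with h | h | h
    · rw [if_pos h]
      have := h1 i hi (hk1 i hi h)
      linarith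
    · rw [if_neg (by omega), if_pos h]
      have := h2 i hi
      have h4 : 0 ≤ ε' * N := by positivity
      linarith
    · rw [if_neg (by omega), if_neg (by omega), add_zero]
      obtain ⟨j, rfl⟩ : ∃ j, i = k + (j + 1) := ⟨i - k - 1, by omega⟩
      exact (hprop j hi).2
  have hsum : ∑ i ∈ Finset.range J, (2 : ℝ) ^ i * ((-ε' + cs k i) * N) ≤
      ∑ i ∈ Finset.range J, (2 : ℝ) ^ i * a i :=
    Finset.sum_le_sum fun i hi => mul_le_mul_of_nonneg_left (hlow i (Finset.mem_range.1 hi))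
      (by positivity)
  refine le_trans ?_ hsum
  have h5 : ∑ i ∈ Finset.range J, (2 : ℝ) ^ i * ((-ε' + cs k i) * N) =
      (-ε' * ∑ i ∈ Finset.range J, (2 : ℝ) ^ i + ∑ i ∈ Finset.range J, (2 : ℝ) ^ i * cs k i) * N := by
    rw [Finset.mul_sum, ← Finset.sum_add_distrib, Finset.sum_mul]
    refine Finset.sum_congr rfl fun i _ => by ring
  rw [h5]
  refine mul_le_mul_of_nonneg_right ?_ hN
  have h6 := cs_ge k J
  have h7 : ∑ i ∈ Finset.range J, (2 : ℝ) ^ i ≤ 2 ^ J := by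
    have h8 : ∀ J : ℕ, ∑ i ∈ Finset.range J, (2 : ℝ) ^ i = 2 ^ J - 1 := by
      intro J
      induction J with
      | zero => simp
      | succ J ih => rw [Finset.sum_range_succ, ih, pow_succ]; ring
    rw [h8]; linarith
  have h9 : ε' * ∑ i ∈ Finset.range J, (2 : ℝ) ^ i ≤ ε := by
    calc ε' * ∑ i ∈ Finset.range J, (2 : ℝ) ^ i ≤ ε' * 2 ^ J :=
          mul_le_mul_of_nonneg_left h7 hε'0.le
      _ = ε / 4 := by rw [hε']; field_simp
      _ ≤ ε := by linarith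
  linarith

end PWAux

open PWAux in
theorem pointwise (J : ℕ) (ε : ℝ) (hε : 0 < ε) : ∃ (H : Fin J → ℕ) (C : ℝ), (∀ i, 0 < H i) ∧
    Function.Injective H ∧ 1 ≤ C ∧ ∀ (κ P Y : ℕ) (α : T2) (e : ℂ) (y : ℕ → ℤ), 0 < κ → 0 < P →
    Nat.Coprime Y (κ * P) → (κ:ℤ) • α = 0 → Nat.Coprime (addOrderOf α) 5 →
    C * ((κ * P : ℕ) : ℝ) ^ 2 * (1 + ‖e‖) ≤ Y →
    (∀ m : ℕ, Nat.Coprime (m ^ 2 + Y ^ 2) (κ * P) → (κ:ℤ) ∣ ((m:ℤ) ^ 2 + (Y:ℤ) ^ 2) * y m - 1) →
    -(1 + ε) * ((Finset.range Y).filter (fun m => Nat.Coprime (m ^ 2 + Y ^ 2) (κ * P))).card ≤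
      ∑ i : Fin J, (2:ℝ) ^ (i:ℕ) *
        ∑ m ∈ (Finset.range Y).filter (fun m => Nat.Coprime (m ^ 2 + Y ^ 2) (κ * P)),
          (E (((H i : Gi) * (y m : Gi) * (star (⟨m, Y⟩ : Gi)) ^ 2) • α) *
            GG ((H i : ℂ) * e) ((m:ℝ) / Y)).re := by
  classical
  set ε' : ℝ := ε / (4 * 2 ^ J) with hε'
  have hε'0 : 0 < ε' := by positivity
  obtain ⟨Q, Λ, C', hΛ, hC', hexp⟩ := expsum ε' hε'0
  obtain ⟨δ, hδ, hδc⟩ := exists_delta hε'0
  set L : ℕ := Q.factorial with hL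
  have hL0 : 0 < L := Nat.factorial_pos Q
  have hL0' : (0 : ℝ) < L := by exact_mod_cast hL0
  obtain ⟨s, hs⟩ := pow_unbounded_of_one_lt ((L : ℝ) * (Λ / δ + 1)) (show (1 : ℝ) < 5 by norm_num)
  set Hn : ℕ → ℕ := fun i => L ^ (J - 1 - i) * 5 ^ (s * i) with hHn
  have hH0 : ∀ i, 0 < Hn i := fun i => by rw [hHn]; positivity
  have hrel : ∀ i, i + 1 < J → L * Hn (i + 1) = 5 ^ s * Hn i := by
    intro i hi
    simp only [hHn]
    have e1 : J - 1 - i = (J - 1 - (i + 1)) + 1 := by omega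
    rw [e1, pow_succ, mul_add, pow_add, mul_one]
    ring
  have hLs : (L : ℝ) < 5 ^ s := by
    refine lt_of_le_of_lt ?_ hs
    have : 0 ≤ Λ / δ := by positivity
    nlinarith
  have hLs' : L < 5 ^ s := by exact_mod_cast hLs
  have hmono : ∀ i, i + 1 < J → Hn i < Hn (i + 1) := by
    intro i hi
    have h1 := hrel i hi
    have h2 : L * Hn i < L * Hn (i + 1) := by
      rw [h1]
      exact Nat.mul_lt_mul_of_pos_right hLs' (hH0 i)
    exact lt_of_mul_lt_mul_left h2 (Nat.zero_le _)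
  have hlt : ∀ d i, i + (d + 1) < J → Hn i < Hn (i + (d + 1)) := by
    intro d
    induction d with
    | zero => intro i hi; exact hmono i hi
    | succ d ih =>
      intro i hi
      exact (ih i (by omega)).trans (hmono (i + (d + 1)) (by omega))
  set Hm : ℝ := 1 + ∑ i ∈ Finset.range J, (Hn i : ℝ) with hHm
  have hsum0 : 0 ≤ ∑ i ∈ Finset.range J, (Hn i : ℝ) := Finset.sum_nonneg fun _ _ => by positivity
  have hHle : ∀ i < J, (Hn i : ℝ) ≤ Hm := by
    intro i hi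
    have := Finset.single_le_sum (f := fun i => (Hn i : ℝ)) (s := Finset.range J)
      (fun _ _ => by positivity) (Finset.mem_range.2 hi)
    linarith
  refine ⟨fun i => Hn i, C' * Hm, fun i => hH0 i, ?_, ?_, ?_⟩
  · intro i j hij
    have hij' : Hn i = Hn j := hij
    rcases lt_trichotomy (i : ℕ) (j : ℕ) with h | h | h
    · obtain ⟨d, hd⟩ : ∃ d, (j : ℕ) = i + (d + 1) := ⟨j - i - 1, by omega⟩
      have := hlt d i (by rw [← hd]; exact j.2)
      rw [← hd] at this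
      omega
    · exact Fin.ext h
    · obtain ⟨d, hd⟩ : ∃ d, (i : ℕ) = j + (d + 1) := ⟨i - j - 1, by omega⟩
      have := hlt d j (by rw [← hd]; exact i.2)
      rw [← hd] at this
      omega
  · nlinarith
  intro κ P Y α e y hκ hP hYc hκα h5 hC hy
  set S := (Finset.range Y).filter (fun m => Nat.Coprime (m ^ 2 + Y ^ 2) (κ * P)) with hS
  set N : ℝ := (S.card : ℝ) with hN
  have hN0 : 0 ≤ N := by positivity
  -- the points
  set A : ℕ → T2 := fun i => Hn i • α with hA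
  have hκα' : κ • α = 0 := by rw [← natCast_zsmul]; exact hκα
  have hordκ : ∀ i, addOrderOf (A i) ∣ κ := by
    intro i
    refine addOrderOf_dvd_of_nsmul_eq_zero ?_
    simp only [hA]
    rw [smul_comm, hκα', smul_zero]
  have hord0 : ∀ i, 0 < addOrderOf (A i) := fun i => Nat.pos_of_dvd_of_pos (hordκ i) hκ
  have hordα : ∀ i, addOrderOf (A i) ∣ addOrderOf α := by
    intro i
    refine addOrderOf_dvd_of_nsmul_eq_zero ?_
    simp only [hA]
    rw [smul_comm, addOrderOf_nsmul_eq_zero, smul_zero]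
  -- the terms
  set t : ℕ → ℕ → ℂ := fun i m =>
    E (((Hn i : Gi) * (y m : Gi) * (star (⟨m, Y⟩ : Gi)) ^ 2) • α) *
      GG ((Hn i : ℂ) * e) ((m : ℝ) / Y) with ht
  have htA : ∀ i m, t i m = E (((y m : Gi) * (star (⟨m, Y⟩ : Gi)) ^ 2) • A i) *
      GG ((Hn i : ℂ) * e) ((m : ℝ) / Y) := by
    intro i m
    simp only [ht, hA]
    rw [← Nat.cast_smul_eq_nsmul Gi (Hn i) α, smul_smul]
    congr 3
    ring
  have hnorm : ∀ i m, ‖t i m‖ = 1 := by
    intro i m
    simp only [ht]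
    rw [norm_mul, norm_E, norm_GG, one_mul]
  have hnorme : ∀ i, ‖(Hn i : ℂ) * e‖ = (Hn i : ℝ) * ‖e‖ := by
    intro i
    rw [norm_mul, Complex.norm_natCast]
  set a : ℕ → ℝ := fun i => ∑ m ∈ S, (t i m).re with ha
  set Bad : ℕ → Prop := fun i => A i ≠ 0 ∨ δ ≤ ‖(Hn i : ℂ) * e‖ with hBad
  -- large terms
  have hbig : ∀ i < J, (BP Q (addOrderOf (A i)) ∨ Λ ≤ ‖(Hn i : ℂ) * e‖) → -ε' * N ≤ a i := by
    intro i hi hcase
    set o := addOrderOf (A i) with ho
    obtain ⟨a1, a2, hrep⟩ := exists_rep (A i) o (hord0 i) (addOrderOf_nsmul_eq_zero _)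
    obtain ⟨q, hq⟩ := hordκ i
    have hq0 : 0 < q := by
      rcases Nat.eq_zero_or_pos q with h | h
      · rw [h, mul_zero] at hq; omega
      · exact h
    have hprod : o * (q * P) = κ * P := by rw [← mul_assoc, ← hq]
    have hmain := hexp o (q * P) Y a1 a2 ((Hn i : ℂ) * e) y (hord0 i) (Nat.mul_pos hq0 hP)
      (by rw [hprod]; exact hYc) (by
        rw [hprod, hnorme]
        refine le_trans ?_ hC
        have hH1 : (1 : ℝ) ≤ Hn i := by exact_mod_cast hH0 i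
        have h1 : 1 + (Hn i : ℝ) * ‖e‖ ≤ Hm * (1 + ‖e‖) := by
          have h2 := hHle i hi
          have h3 := norm_nonneg e
          nlinarith
        calc C' * ((κ * P : ℕ) : ℝ) ^ 2 * (1 + (Hn i : ℝ) * ‖e‖) ≤
              C' * ((κ * P : ℕ) : ℝ) ^ 2 * (Hm * (1 + ‖e‖)) :=
              mul_le_mul_of_nonneg_left h1 (by positivity)
          _ = C' * Hm * ((κ * P : ℕ) : ℝ) ^ 2 * (1 + ‖e‖) := by ring)
      (by
        intro m hm
        rw [hprod] at hm
        refine dvd_trans ?_ (hy m hm)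
        exact_mod_cast hordκ i)
      (by
        rcases hcase with ⟨p, k, hp, hk, hpk, hQ⟩ | h
        · left
          refine ⟨p, k, hp, hQ, hpk, ?_⟩
          exact no_prime (A i) o (hord0 i) ho hrep hp ((dvd_pow_self p (by omega)).trans hpk)
        · right
          exact h)
    rw [hprod] at hmain
    have hsum : ∑ m ∈ S, t i m = ∑ m ∈ S, ph o a1 a2 Y y m * GG ((Hn i : ℂ) * e) ((m : ℝ) / Y) := by
      refine Finset.sum_congr rfl fun m _ => ?_
      rw [htA, ← E_smul_proj o a1 a2 Y y m, ← hrep]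
    have h1 : a i = (∑ m ∈ S, t i m).re := by
      simp only [ha]
      rw [Complex.re_sum]
    have h2 : |(∑ m ∈ S, t i m).re| ≤ ε' * N := by
      refine (Complex.abs_re_le_norm _).trans ?_
      rw [hsum]
      exact hmain
    rw [h1]
    have := (abs_le.1 h2).1
    linarith
  have hfin := final_sum J hε hN0 a Bad (by
      intro i hi hnb
      simp only [hBad, not_or, not_not, not_le] at hnb
      have h1 : ∀ m ∈ S, 1 - ε' ≤ (t i m).re := by
        intro m _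
        rw [htA, hnb.1, smul_zero, E_zero, one_mul]
        exact GG_re_ge hδc hnb.2 _
      have h2 := Finset.card_nsmul_le_sum S _ _ h1
      rw [nsmul_eq_mul] at h2
      simp only [ha]
      rw [← hε']
      linarith) (by
      intro i hi
      have h1 : ∀ m ∈ S, (-1 : ℝ) ≤ (t i m).re := by
        intro m _
        have h2 := Complex.abs_re_le_norm (t i m)
        rw [hnorm] at h2
        exact (abs_le.1 h2).1
      have h2 := Finset.card_nsmul_le_sum S _ _ h1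
      rw [nsmul_eq_mul] at h2
      simp only [ha]
      linarith) (by
      intro i hi hb
      rw [← hε']
      have hrel' := hrel i hi
      simp only [hBad] at hb ⊢
      rcases hb with hb | hb
      · have hBP : BP Q (addOrderOf (A (i + 1))) := by
          by_contra hn
          have h1 := dvd_of_not_BP hn
          have h2 : L • A (i + 1) = 0 := addOrderOf_dvd_iff_nsmul_eq_zero.1 h1
          have h3 : 5 ^ s • A i = 0 := by
            rw [← h2]
            simp only [hA]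
            rw [smul_smul, smul_smul, hrel']
          have h4 : addOrderOf (A i) ∣ 5 ^ s := addOrderOf_dvd_of_nsmul_eq_zero h3
          have h5' : Nat.Coprime (addOrderOf (A i)) 5 := Nat.Coprime.coprime_dvd_left (hordα i) h5
          have h6 : addOrderOf (A i) = 1 := by
            have h7 : Nat.Coprime (addOrderOf (A i)) (5 ^ s) := Nat.Coprime.pow_right s h5'
            exact Nat.Coprime.eq_one_of_dvd h7 h4
          exact hb (AddMonoid.addOrderOf_eq_one_iff.1 h6)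
        refine ⟨Or.inl ?_, hbig (i + 1) hi (Or.inl hBP)⟩
        intro h0
        rw [h0, addOrderOf_zero] at hBP
        exact not_BP_one Q hBP
      · have h1 : (L : ℝ) * (Hn (i + 1) : ℝ) = 5 ^ s * (Hn i : ℝ) := by exact_mod_cast hrel'
        have h2 : δ + Λ ≤ ‖(Hn (i + 1) : ℂ) * e‖ := by
          rw [hnorme] at hb ⊢
          have h3 : (L : ℝ) * (Λ / δ + 1) * δ ≤ 5 ^ s * δ :=
            mul_le_mul_of_nonneg_right hs.le hδ.le
          have h4 : (L : ℝ) * (Λ / δ + 1) * δ = L * (Λ + δ) := by field_simp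
          have h5 : 5 ^ s * δ ≤ 5 ^ s * ((Hn i : ℝ) * ‖e‖) :=
            mul_le_mul_of_nonneg_left hb (by positivity)
          have h6 : (L : ℝ) * (Λ + δ) ≤ L * ((Hn (i + 1) : ℝ) * ‖e‖) := by
            rw [← h4]
            refine h3.trans (h5.trans (le_of_eq ?_))
            rw [← mul_assoc, ← h1, mul_assoc]
          have h7 := le_of_mul_le_mul_left h6 hL0'
          linarith
        exact ⟨Or.inr (by linarith), hbig (i + 1) hi (Or.inr (by linarith))⟩)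
  have hconv : ∑ i : Fin J, (2 : ℝ) ^ (i : ℕ) * a i = ∑ i ∈ Finset.range J, (2 : ℝ) ^ i * a i :=
    Fin.sum_univ_eq_sum_range (fun i => (2 : ℝ) ^ i * a i) J
  rw [← hconv] at hfin
  exact hfin

end G5
export G5 (pointwise)
end Pool.Agent.Helper378.PD
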