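import Pool.Agent.Helper378.PD.Base
set_option autoImplicit false
open MeasureTheory
namespace Pool.Agent.Helper378.PD
namespace H7
theorem s1_card (n Y : ℕ) (hn : 0 < n) (S : Finset ℕ) (hS : S ⊆ Finset.range Y)
    (h : ∀ a ∈ S, ∀ b ∈ S, a ≡ b [MOD n]) : S.card ≤ Y / n + 1 := by
  rcases S.eq_empty_or_nonempty with rfl | ⟨m0, hm0⟩
  · simp
  · have h1 : S ⊆ (Finset.range Y).filter (fun m => m ≡ m0 [MOD n]) := by
      intro m hm
      rw [Finset.mem_filter]
      exact ⟨hS hm, h m hm m0 hm0⟩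
    refine (Finset.card_le_card h1).trans ?_
    rw [← Nat.count_eq_card_filter_range, Nat.count_modEq_card _ hn]
    split_ifs <;> omega

/-! TARGETS -/

theorem sieve1 (P w Y p : ℕ) (hP : 0 < P) (hw : 1 ≤ w) (hp : p.Prime) (hwp : w < p)
    (hpP : Nat.Coprime p P) (hYP : Nat.Coprime Y P) (hY : 8 * P * w ≤ Y) :
    ((Finset.range Y).filter (fun m => Nat.Coprime (m ^ 2 + Y ^ 2) P ∧ p ∣ m ^ 2 + Y ^ 2)).card * w ≤
      4 * ((Finset.range Y).filter (fun m => Nat.Coprime (m ^ 2 + Y ^ 2) P)).card := by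
  classical
  have hmap1 : ∀ m ∈ (Finset.range Y).filter
      (fun m => Nat.Coprime (m ^ 2 + Y ^ 2) P ∧ p ∣ m ^ 2 + Y ^ 2), m % P ∈ Finset.range P :=
    fun m _ => Finset.mem_range.2 (Nat.mod_lt _ hP)
  have hmap2 : ∀ m ∈ (Finset.range Y).filter
      (fun m => Nat.Coprime (m ^ 2 + Y ^ 2) P), m % P ∈ Finset.range P :=
    fun m _ => Finset.mem_range.2 (Nat.mod_lt _ hP)
  rw [Finset.card_eq_sum_card_fiberwise hmap1, Finset.card_eq_sum_card_fiberwise hmap2,
    Finset.sum_mul, Finset.mul_sum]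
  refine Finset.sum_le_sum fun r hr => ?_
  rw [Finset.mem_range] at hr
  have hcop : ∀ m, m % P = r → (Nat.Coprime (m ^ 2 + Y ^ 2) P ↔ Nat.Coprime (r ^ 2 + Y ^ 2) P) := by
    intro m hm
    have h1 : m ^ 2 + Y ^ 2 ≡ r ^ 2 + Y ^ 2 [MOD P] := by
      refine Nat.ModEq.add_right _ (Nat.ModEq.pow _ ?_)
      rw [← hm]
      exact (Nat.mod_modEq m P).symm
    unfold Nat.Coprime
    rw [h1.gcd_eq]
  by_cases hc : Nat.Coprime (r ^ 2 + Y ^ 2) P
  · -- good residue
    have hgood : Y / P ≤ (((Finset.range Y).filter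
        (fun m => Nat.Coprime (m ^ 2 + Y ^ 2) P)).filter (fun m => m % P = r)).card := by
      have h1 : (Finset.range Y).filter (fun m => m ≡ r [MOD P]) ⊆ ((Finset.range Y).filter
        (fun m => Nat.Coprime (m ^ 2 + Y ^ 2) P)).filter (fun m => m % P = r) := by
        intro m hm
        rw [Finset.mem_filter] at hm
        have h2 : m % P = r := by
          have h3 : m % P = r % P := hm.2
          rwa [Nat.mod_eq_of_lt hr] at h3
        rw [Finset.mem_filter, Finset.mem_filter]
        exact ⟨⟨hm.1, (hcop m h2).2 hc⟩, h2⟩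
      refine le_trans ?_ (Finset.card_le_card h1)
      rw [← Nat.count_eq_card_filter_range, Nat.count_modEq_card _ hP]
      split_ifs <;> omega
    have hbad : (((Finset.range Y).filter (fun m => Nat.Coprime (m ^ 2 + Y ^ 2) P ∧
        p ∣ m ^ 2 + Y ^ 2)).filter (fun m => m % P = r)).card ≤ 2 * (Y / (p * P) + 1) := by
      set T := ((Finset.range Y).filter (fun m => Nat.Coprime (m ^ 2 + Y ^ 2) P ∧
        p ∣ m ^ 2 + Y ^ 2)).filter (fun m => m % P = r) with hT
      have memT : ∀ m ∈ T, m < Y ∧ p ∣ m ^ 2 + Y ^ 2 ∧ m % P = r := by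
        intro m hm
        rw [hT, Finset.mem_filter, Finset.mem_filter, Finset.mem_range] at hm
        exact ⟨hm.1.1, hm.1.2.2, hm.2⟩
      rcases T.eq_empty_or_nonempty with hTe | ⟨m0, hm0⟩
      · rw [hTe]
        simp
      · have hpP0 : 0 < p * P := Nat.mul_pos hp.pos hP
        have hsplit : T ⊆ (T.filter (fun m => m ≡ m0 [MOD p])) ∪
            (T.filter (fun m => p ∣ m + m0)) := by
          intro m hm
          rw [Finset.mem_union]
          obtain ⟨-, h1, -⟩ := memT m hm
          obtain ⟨-, h2, -⟩ := memT m0 hm0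
          have h3 : (p : ℤ) ∣ ((m : ℤ) - m0) * ((m : ℤ) + m0) := by
            have e1 : (p : ℤ) ∣ (m : ℤ) ^ 2 + (Y : ℤ) ^ 2 := by exact_mod_cast h1
            have e2 : (p : ℤ) ∣ (m0 : ℤ) ^ 2 + (Y : ℤ) ^ 2 := by exact_mod_cast h2
            have e3 := dvd_sub e1 e2
            have e4 : ((m : ℤ) - m0) * ((m : ℤ) + m0) =
                (m : ℤ) ^ 2 + (Y : ℤ) ^ 2 - ((m0 : ℤ) ^ 2 + (Y : ℤ) ^ 2) := by ring
            rw [e4]
            exact e3
          rcases (Nat.prime_iff_prime_int.1 hp).dvd_or_dvd h3 with h4 | h4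
          · left
            refine Finset.mem_filter.2 ⟨hm, ?_⟩
            exact ((Nat.modEq_iff_dvd).2 h4).symm
          · right
            refine Finset.mem_filter.2 ⟨hm, ?_⟩
            exact_mod_cast h4
        have hmod : ∀ a ∈ T, ∀ b ∈ T, a ≡ b [MOD p] → a ≡ b [MOD (p * P)] := by
          intro a ha b hb hab
          refine (Nat.modEq_and_modEq_iff_modEq_mul hpP).1 ⟨hab, ?_⟩
          show a % P = b % P
          rw [(memT a ha).2.2, (memT b hb).2.2]
        have hTr : T ⊆ Finset.range Y := fun m hm => Finset.mem_range.2 (memT m hm).1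
        have c1 : (T.filter (fun m => m ≡ m0 [MOD p])).card ≤ Y / (p * P) + 1 := by
          refine s1_card (p * P) Y hpP0 _ ((Finset.filter_subset _ _).trans hTr) ?_
          intro a ha b hb
          rw [Finset.mem_filter] at ha hb
          exact hmod a ha.1 b hb.1 (ha.2.trans hb.2.symm)
        have c2 : (T.filter (fun m => p ∣ m + m0)).card ≤ Y / (p * P) + 1 := by
          refine s1_card (p * P) Y hpP0 _ ((Finset.filter_subset _ _).trans hTr) ?_
          intro a ha b hb
          rw [Finset.mem_filter] at ha hb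
          refine hmod a ha.1 b hb.1 ?_
          have e1 : (p : ℤ) ∣ (a : ℤ) + m0 := by exact_mod_cast ha.2
          have e2 : (p : ℤ) ∣ (b : ℤ) + m0 := by exact_mod_cast hb.2
          rw [Nat.modEq_iff_dvd]
          have e3 := dvd_sub e2 e1
          have e4 : (b : ℤ) - a = (b : ℤ) + m0 - ((a : ℤ) + m0) := by ring
          rw [e4]
          exact e3
        have c3 := (Finset.card_le_card hsplit).trans (Finset.card_union_le _ _)
        omega
    -- arithmetic
    have hq : 8 * w ≤ Y / P := by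
      rw [Nat.le_div_iff_mul_le hP]
      calc 8 * w * P = 8 * P * w := by ring
        _ ≤ Y := hY
    have hdiv : Y / (p * P) = (Y / P) / p := by
      rw [Nat.div_div_eq_div_mul, Nat.mul_comm]
    have hle : w * ((Y / P) / p) ≤ Y / P :=
      (Nat.mul_le_mul_right _ hwp.le).trans (Nat.mul_div_le _ _)
    rw [hdiv] at hbad
    calc _ ≤ 2 * ((Y / P) / p + 1) * w := Nat.mul_le_mul_right _ hbad
      _ = 2 * (w * ((Y / P) / p)) + 2 * w := by ring
      _ ≤ 4 * (Y / P) := by omega
      _ ≤ _ := Nat.mul_le_mul_left _ hgood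
  · -- no bad elements
    have h0 : (((Finset.range Y).filter (fun m => Nat.Coprime (m ^ 2 + Y ^ 2) P ∧
        p ∣ m ^ 2 + Y ^ 2)).filter (fun m => m % P = r)) = ∅ := by
      rw [Finset.filter_eq_empty_iff]
      intro m hm hmr
      rw [Finset.mem_filter] at hm
      exact hc ((hcop m hmr).1 hm.2.1)
    rw [h0]
    simp

end H7
export H7 (sieve1)
end Pool.Agent.Helper378.PD
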