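import Pool.Agent.Helper378.PD.Base
import Pool.Agent.Helper378.PD.H7
set_option autoImplicit false
open MeasureTheory
namespace Pool.Agent.Helper378.PD
namespace G6
/-! TARGETS -/

theorem sieve_all (ε : ℝ) (hε : 0 < ε) : ∃ w0 : ℕ, ∀ w : ℕ, w0 ≤ w → ∀ κ Y : ℕ, 0 < κ → κ ≤ 5 ^ (8 * w) →
    Nat.Coprime Y (primorial w) → 8 * primorial w * w ≤ Y →
    (((Finset.range Y).filter (fun m => Nat.Coprime (m ^ 2 + Y ^ 2) (primorial w) ∧
        ¬ Nat.Coprime (m ^ 2 + Y ^ 2) κ)).card : ℝ) ≤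
      ε * ((Finset.range Y).filter (fun m => Nat.Coprime (m ^ 2 + Y ^ 2) (primorial w))).card := by
  classical
  refine ⟨⌈Real.exp (32 * Real.log 5 / ε)⌉₊ + 2, fun w hw κ Y hκ hκ5 hYP hY => ?_⟩
  have hw2 : 2 ≤ w := by omega
  have hwR : (0 : ℝ) < w := by
    have : 0 < w := by omega
    exact_mod_cast this
  have hlogw : 32 * Real.log 5 / ε ≤ Real.log w := by
    rw [Real.le_log_iff_exp_le hwR]
    have h1 := Nat.le_ceil (Real.exp (32 * Real.log 5 / ε))
    have h2 : ((⌈Real.exp (32 * Real.log 5 / ε)⌉₊ : ℕ) : ℝ) ≤ (w : ℝ) := by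
      have : ⌈Real.exp (32 * Real.log 5 / ε)⌉₊ ≤ w := by omega
      exact_mod_cast this
    linarith
  have hlog5 : 0 < Real.log 5 := Real.log_pos (by norm_num)
  have hlogw0 : 0 < Real.log w := lt_of_lt_of_le (by positivity) hlogw
  set Pr := κ.primeFactors.filter (fun p => w < p) with hPr
  set S := (Finset.range Y).filter (fun m => Nat.Coprime (m ^ 2 + Y ^ 2) (primorial w)) with hS
  set B := (Finset.range Y).filter (fun m => Nat.Coprime (m ^ 2 + Y ^ 2) (primorial w) ∧
        ¬ Nat.Coprime (m ^ 2 + Y ^ 2) κ) with hB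
  -- number of primes
  have hn : w ^ Pr.card ≤ 5 ^ (8 * w) := by
    have h1 : w ^ Pr.card ≤ ∏ p ∈ Pr, p := by
      apply Finset.pow_card_le_prod
      intro p hp
      exact (Finset.mem_filter.1 hp).2.le
    have h2 : ∏ p ∈ Pr, p ≤ κ := by
      have h3 : ∏ p ∈ Pr, p ∣ κ :=
        (Finset.prod_dvd_prod_of_subset _ _ _ (Finset.filter_subset _ _)).trans
          (Nat.prod_primeFactors_dvd κ)
      exact Nat.le_of_dvd hκ h3
    exact h1.trans (h2.trans hκ5)
  have hnlog : (Pr.card : ℝ) * Real.log w ≤ 8 * w * Real.log 5 := by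
    have h1 : ((w ^ Pr.card : ℕ) : ℝ) ≤ ((5 ^ (8 * w) : ℕ) : ℝ) := by exact_mod_cast hn
    have h2 := Real.log_le_log (by positivity) h1
    push_cast at h2
    rw [Real.log_pow, Real.log_pow] at h2
    push_cast at h2
    exact h2
  -- covering
  have hcov : B ⊆ Pr.biUnion (fun p => (Finset.range Y).filter
      (fun m => Nat.Coprime (m ^ 2 + Y ^ 2) (primorial w) ∧ p ∣ m ^ 2 + Y ^ 2)) := by
    intro m hm
    rw [hB, Finset.mem_filter] at hm
    obtain ⟨hmY, hc, hnc⟩ := hm
    obtain ⟨p, hp, hp1, hp2⟩ := Nat.Prime.not_coprime_iff_dvd.1 hnc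
    have hwp : w < p := by
      by_contra hle
      push Not at hle
      have : p ∣ primorial w := hp.dvd_primorial_iff.2 hle
      exact Nat.Prime.not_coprime_iff_dvd.2 ⟨p, hp, hp1, this⟩ hc
    rw [Finset.mem_biUnion]
    refine ⟨p, ?_, ?_⟩
    · rw [hPr, Finset.mem_filter, Nat.mem_primeFactors]
      exact ⟨⟨hp, hp2, hκ.ne'⟩, hwp⟩
    · rw [Finset.mem_filter]
      exact ⟨hmY, hc, hp1⟩
  have hcard : B.card * w ≤ Pr.card * (4 * S.card) := by
    calc B.card * w ≤ (∑ p ∈ Pr, ((Finset.range Y).filter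
      (fun m => Nat.Coprime (m ^ 2 + Y ^ 2) (primorial w) ∧ p ∣ m ^ 2 + Y ^ 2)).card) * w :=
          Nat.mul_le_mul_right _ ((Finset.card_le_card hcov).trans Finset.card_biUnion_le)
      _ = ∑ p ∈ Pr, ((Finset.range Y).filter
      (fun m => Nat.Coprime (m ^ 2 + Y ^ 2) (primorial w) ∧ p ∣ m ^ 2 + Y ^ 2)).card * w := by
          rw [Finset.sum_mul]
      _ ≤ ∑ p ∈ Pr, 4 * S.card := by
          refine Finset.sum_le_sum fun p hp => ?_
          rw [hPr, Finset.mem_filter, Nat.mem_primeFactors] at hp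
          obtain ⟨⟨hp1, hp2, -⟩, hwp⟩ := hp
          refine sieve1 (primorial w) w Y p (primorial_pos w) (by omega) hp1 hwp ?_ hYP hY
          rw [Nat.Prime.coprime_iff_not_dvd hp1, hp1.dvd_primorial_iff]
          omega
      _ = Pr.card * (4 * S.card) := by rw [Finset.sum_const, smul_eq_mul]
  have hcardR : (B.card : ℝ) * w ≤ Pr.card * (4 * S.card) := by exact_mod_cast hcard
  -- conclusion
  have h1 : (B.card : ℝ) * w * Real.log w ≤ 4 * S.card * (8 * w * Real.log 5) := by
    calc (B.card : ℝ) * w * Real.log w ≤ Pr.card * (4 * S.card) * Real.log w :=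
          mul_le_mul_of_nonneg_right hcardR hlogw0.le
      _ = 4 * S.card * (Pr.card * Real.log w) := by ring
      _ ≤ 4 * S.card * (8 * w * Real.log 5) :=
          mul_le_mul_of_nonneg_left hnlog (by positivity)
  have h2 : (B.card : ℝ) * Real.log w ≤ 32 * Real.log 5 * S.card := by
    have : (B.card : ℝ) * Real.log w * w ≤ 32 * Real.log 5 * S.card * w := by linarith
    exact le_of_mul_le_mul_right this hwR
  have h3 : 32 * Real.log 5 ≤ ε * Real.log w := by
    rw [div_le_iff₀ hε] at hlogw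
    linarith
  have h4 : (B.card : ℝ) * Real.log w ≤ ε * S.card * Real.log w := by
    calc (B.card : ℝ) * Real.log w ≤ 32 * Real.log 5 * S.card := h2
      _ ≤ ε * Real.log w * S.card := mul_le_mul_of_nonneg_right h3 (by positivity)
      _ = ε * S.card * Real.log w := by ring
  exact le_of_mul_le_mul_right h4 hlogw0

end G6
export G6 (sieve_all)
end Pool.Agent.Helper378.PD
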