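import Pool.Agent.Helper378.PD.Base
import Pool.Agent.Helper378.PD.D1
import Pool.Agent.Helper378.PD.D4
import Pool.Agent.Helper378.PD.D5
import Pool.Agent.Helper378.PD.G1
set_option autoImplicit false
open MeasureTheory
namespace Pool.Agent.Helper378.PD
namespace G2
/-! TARGETS -/

theorem cz_nonneg' (z : Gi) : 0 ≤ cz z := by
  unfold cz
  positivity

theorem cz_star (z : Gi) : cz (star z) = cz z := by
  unfold cz
  rw [Zsqrtd.re_star, Zsqrtd.im_star, Int.natAbs_neg]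

theorem norm_smul_le_cz (z : Gi) (t : T2) : ‖z • t‖ ≤ cz z * ‖t‖ := norm_smulGi_le z t

theorem AA_smul (z : Gi) (M : ℕ) (ρ : ℝ) (t : T2) (ht : t ∈ AA z M ρ) :
    z • t ∈ AA z M (cz z * ρ) := by
  obtain ⟨α, h1, h2, h3⟩ := ht
  refine ⟨z • α, tor_smul M z α h1, cop_smul z z α h2, ?_⟩
  rw [← smul_sub]
  exact (norm_smul_le_cz z _).trans (mul_le_mul_of_nonneg_left h3 (cz_nonneg' z))

theorem SS_star (z : Gi) (hz' : IsCoprime z (star z)) (M : ℕ) (ρ : ℝ) (hρ : 0 ≤ ρ)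
    (hM : 4 * cz z * ρ * (M : ℝ) ^ 2 < 1) (t : T2) (h1 : t ∈ SS M ρ)
    (h2 : star z • t ∈ AA z M (cz z * ρ)) : t ∈ AA z M ρ := by
  obtain ⟨α, hα1, hα2⟩ := h1
  obtain ⟨β, hβ1, hβ2, hβ3⟩ := h2
  have hcz := cz_nonneg' z
  have h3 : ‖star z • t - star z • α‖ ≤ cz z * ρ := by
    rw [← smul_sub]
    refine (norm_smul_le_cz _ _).trans ?_
    rw [cz_star]
    exact mul_le_mul_of_nonneg_left hα2 hcz
  have h4 : ‖star z • α - β‖ ≤ 2 * (cz z * ρ) := by
    have e : star z • α - β = (star z • t - β) - (star z • t - star z • α) := by abel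
    rw [e]
    refine (norm_sub_le _ _).trans ?_
    linarith
  have h5 : ‖star z • α - β‖ * (M : ℝ) ^ 2 < 1 := by
    have h6 : ‖star z • α - β‖ * (M : ℝ) ^ 2 ≤ 2 * (cz z * ρ) * (M : ℝ) ^ 2 :=
      mul_le_mul_of_nonneg_right h4 (by positivity)
    have h7 : 0 ≤ cz z * ρ * (M : ℝ) ^ 2 := by positivity
    nlinarith
  have h8 := tor_sep M (star z • α) β (tor_smul M (star z) α hα1) hβ1 h5
  refine ⟨α, hα1, cop_star z hz' α ?_, hα2⟩
  rw [h8]
  exact hβ2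

theorem good_digit (a : Gi → Gi → ℝ) (ha : Rad a) (D0 : Gi) (hD0 : D0 ≠ 0) (z : Gi) (hz : z ≠ 0)
    (hz' : IsCoprime z (star z)) (M : ℕ) (ρ : ℝ) (hρ : 0 ≤ ρ) (hM : 4 * cz z * ρ * (M:ℝ) ^ 2 < 1) :
    (nu a (D0 * z)) ({t | z • t ∈ AA z M (cz z * ρ)} ∩ (AA z M ρ)ᶜ) ≤ (nu a (D0 * z)) (SS M ρ)ᶜ := by
  have hDz : D0 * z ≠ 0 := mul_ne_zero hD0 hz
  have hzs : star z ≠ 0 := star_ne_zero.2 hz
  have hDzs : D0 * star z ≠ 0 := mul_ne_zero hD0 hzs
  have hprob := nu_prob a ha (D0 * z) hDz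
  have hA'm : MeasurableSet (AA z M (cz z * ρ)) := (isClosed_AA z M (cz z * ρ)).measurableSet
  have hAm : MeasurableSet (AA z M ρ) := (isClosed_AA z M ρ).measurableSet
  have hB1 : nu a (D0 * z) {t | z • t ∈ AA z M (cz z * ρ)} = nu a D0 (AA z M (cz z * ρ)) := by
    rw [← nu_map a ha D0 hD0 z hz, Measure.map_apply (continuous_smulGi z).measurable hA'm]
    rfl
  have hB2 : nu a (D0 * z) {t | star z • t ∈ AA z M (cz z * ρ)} = nu a D0 (AA z M (cz z * ρ)) := by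
    have hn : (D0 * z).norm = (D0 * star z).norm := by
      rw [Zsqrtd.norm_mul, Zsqrtd.norm_mul, Zsqrtd.norm_conj]
    rw [nu_norm a ha (D0 * z) hDz (D0 * star z) hDzs hn, ← nu_map a ha D0 hD0 (star z) hzs,
      Measure.map_apply (continuous_smulGi (star z)).measurable hA'm]
    rfl
  have hsub : AA z M ρ ⊆ {t | z • t ∈ AA z M (cz z * ρ)} := fun t ht => AA_smul z M ρ t ht
  have h1 : nu a (D0 * z) (AA z M ρ) +
      nu a (D0 * z) ({t | z • t ∈ AA z M (cz z * ρ)} ∩ (AA z M ρ)ᶜ) ≤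
      nu a (D0 * z) (AA z M ρ) + nu a (D0 * z) (SS M ρ)ᶜ := by
    calc nu a (D0 * z) (AA z M ρ) +
          nu a (D0 * z) ({t | z • t ∈ AA z M (cz z * ρ)} ∩ (AA z M ρ)ᶜ)
        = nu a (D0 * z) ({t | z • t ∈ AA z M (cz z * ρ)} ∩ AA z M ρ) +
          nu a (D0 * z) ({t | z • t ∈ AA z M (cz z * ρ)} \ AA z M ρ) := by
          rw [Set.inter_eq_self_of_subset_right hsub]
          rfl
      _ = nu a (D0 * z) {t | z • t ∈ AA z M (cz z * ρ)} := measure_inter_add_diff _ hAm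
      _ = nu a (D0 * z) {t | star z • t ∈ AA z M (cz z * ρ)} := by rw [hB1, hB2]
      _ ≤ nu a (D0 * z) (AA z M ρ ∪ (SS M ρ)ᶜ) := by
          apply measure_mono
          intro t ht
          by_cases hts : t ∈ SS M ρ
          · exact Or.inl (SS_star z hz' M ρ hρ hM t hts ht)
          · exact Or.inr hts
      _ ≤ _ := measure_union_le _ _
  exact (ENNReal.add_le_add_iff_left (measure_ne_top _ _)).1 h1

end G2
export G2 (good_digit)
end Pool.Agent.Helper378.PD
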