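import Pool.Agent.Helper378.PD.Base
import Pool.Agent.Helper378.PD.D1
import Pool.Agent.Helper378.PD.G1
set_option autoImplicit false
open MeasureTheory
namespace Pool.Agent.Helper378.PD
namespace G4
theorem j5416_norm (x : ℝ) : ‖((x : ℝ) : AddCircle (1:ℝ))‖ ≤ |x| := by
  have := QuotientAddGroup.norm_mk_le_norm (S := AddSubgroup.zmultiples (1:ℝ)) (m := x)
  exact this

/-! TARGETS -/

theorem eval_lemma (m Y κ M H N : ℕ) (hY : 0 < Y) (hκ : 1 ≤ κ) (hκM : κ ≤ M) (ρ : ℝ) (hρ : 0 ≤ ρ)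
    (hM : 4 * cz ⟨m, Y⟩ * ρ * (M:ℝ) ^ 2 < 1) (α : T2) (hα : (κ:ℤ) • α = 0) (e : ℂ)
    (her : |e.re| ≤ cz ⟨m, Y⟩ * ρ) (hei : |e.im| ≤ cz ⟨m, Y⟩ * ρ) (y : ℤ)
    (hy : (κ:ℤ) ∣ ((m:ℤ) ^ 2 + (Y:ℤ) ^ 2) * y - 1) (t : T2)
    (ht : (⟨m, Y⟩ : Gi) • t = α + proj e) (htA : t ∈ AA ⟨m, Y⟩ M ρ) :
    E ((star (⟨m, Y⟩ : Gi) * ((H : Gi) * (N : Gi))) • t) =
      E (((H : Gi) * (y : Gi) * (star (⟨m, Y⟩ : Gi)) ^ 2) • ((N:ℤ) • α)) * GG ((H:ℂ) * ((N:ℂ) * e)) ((m:ℝ) / Y) := by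
  obtain ⟨α', hT, ⟨y0, hy0⟩, hd⟩ := htA
  have hc0 : 0 ≤ cz (⟨m, Y⟩ : Gi) := by unfold cz; positivity
  have hcr0 : 0 ≤ cz (⟨m, Y⟩ : Gi) * ρ := mul_nonneg hc0 hρ
  have hcz : cz (⟨m, Y⟩ : Gi) = (m : ℝ) + Y := by unfold cz; simp
  have hnd : ‖α' - t‖ ≤ ρ := by rw [norm_sub_rev]; exact hd
  have hz1 : ‖(⟨m, Y⟩ : Gi) • (α' - t)‖ ≤ cz (⟨m, Y⟩ : Gi) * ρ :=
    (norm_smulGi_le _ _).trans (mul_le_mul_of_nonneg_left hnd hc0)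
  have hM1 : (1:ℝ) ≤ M := by exact_mod_cast hκ.trans hκM
  have hM2 : (1:ℝ) ≤ (M:ℝ) ^ 2 := one_le_pow₀ hM1
  have hsm : 4 * (cz (⟨m, Y⟩ : Gi) * ρ) < 1 := by
    have : 4 * (cz (⟨m, Y⟩ : Gi) * ρ) * 1 ≤ 4 * (cz (⟨m, Y⟩ : Gi) * ρ) * (M:ℝ) ^ 2 :=
      mul_le_mul_of_nonneg_left hM2 (by positivity)
    have e : 4 * (cz (⟨m, Y⟩ : Gi) * ρ) * (M:ℝ) ^ 2 = 4 * cz (⟨m, Y⟩ : Gi) * ρ * (M:ℝ) ^ 2 := by ring
    linarith
  have hnc : ∀ x : ℝ, ‖((x : ℝ) : AddCircle (1:ℝ))‖ ≤ |x| := by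
    intro x
    exact j5416_norm x
  have hpe : ‖proj e‖ ≤ cz (⟨m, Y⟩ : Gi) * ρ := by
    unfold proj
    rw [Prod.norm_def]
    exact max_le ((hnc _).trans her) ((hnc _).trans hei)
  have e1 : (⟨m, Y⟩ : Gi) • α' - α = (⟨m, Y⟩ : Gi) • (α' - t) + proj e := by
    rw [smul_sub, ht]; abel
  have h1 : ‖(⟨m, Y⟩ : Gi) • α' - α‖ ≤ 2 * (cz (⟨m, Y⟩ : Gi) * ρ) := by
    rw [e1]
    refine (norm_add_le _ _).trans ?_
    linarith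
  have h2 : (⟨m, Y⟩ : Gi) • α' = α := by
    refine tor_sep M _ _ (tor_smul M _ α' hT) ⟨κ, hκ, hκM, hα⟩ ?_
    have h3 : ‖(⟨m, Y⟩ : Gi) • α' - α‖ * (M:ℝ) ^ 2 ≤ 2 * (cz (⟨m, Y⟩ : Gi) * ρ) * (M:ℝ) ^ 2 :=
      mul_le_mul_of_nonneg_right h1 (by positivity)
    have h4 : 0 ≤ cz (⟨m, Y⟩ : Gi) * ρ * (M:ℝ) ^ 2 := by positivity
    nlinarith
  have h3 : α' = y0 • α := by rw [← h2]; exact hy0.symm
  have h4 : (κ:ℤ) • α' = 0 := by rw [h3, smul_comm, hα, smul_zero]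
  obtain ⟨q, hq⟩ := hy
  have h5 : ((((m:ℤ) ^ 2 + (Y:ℤ) ^ 2) * y : ℤ)) • α' = α' := by
    have : ((m:ℤ) ^ 2 + (Y:ℤ) ^ 2) * y = q * κ + 1 := by linarith
    rw [this, add_smul, mul_smul, h4, smul_zero, zero_add, one_smul]
  have hzz : (((((m:ℤ) ^ 2 + (Y:ℤ) ^ 2) * y : ℤ)) : Gi) = (y:Gi) * star (⟨m, Y⟩ : Gi) * (⟨m, Y⟩ : Gi) := by
    have e : ((m:ℤ) ^ 2 + (Y:ℤ) ^ 2) * y = ((m:ℤ) * (m:ℤ) + (Y:ℤ) * (Y:ℤ)) * y := by ring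
    rw [e]
    ext
    · rw [Zsqrtd.re_intCast]
      simp [Zsqrtd.re_mul, Zsqrtd.im_mul]; ring
    · rw [Zsqrtd.im_intCast]
      simp [Zsqrtd.re_mul, Zsqrtd.im_mul]; ring
  have h6 : α' = ((y:Gi) * star (⟨m, Y⟩ : Gi)) • α := by
    have : ((y:Gi) * star (⟨m, Y⟩ : Gi)) • α = ((y:Gi) * star (⟨m, Y⟩ : Gi) * (⟨m, Y⟩ : Gi)) • α' := by
      rw [mul_smul _ (⟨m, Y⟩ : Gi) α', h2]
    rw [this, ← hzz, Int.cast_smul_eq_zsmul, h5]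
  -- the remaining part
  obtain ⟨e', he', her', hei'⟩ := exists_proj (t - α')
  have h7 : (⟨m, Y⟩ : Gi) • (t - α') = proj e := by
    rw [smul_sub, ht, h2]; abel
  have htc : GaussianInt.toComplex (⟨m, Y⟩ : Gi) = (m : ℂ) + (Y : ℂ) * Complex.I := by
    rw [GaussianInt.toComplex_def]; simp
  have h8 : proj (GaussianInt.toComplex (⟨m, Y⟩ : Gi) * e') = proj e := by
    rw [← smul_proj, he', h7]
  have hre : (GaussianInt.toComplex (⟨m, Y⟩ : Gi) * e').re = m * e'.re - Y * e'.im := by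
    rw [htc]; simp
  have him : (GaussianInt.toComplex (⟨m, Y⟩ : Gi) * e').im = m * e'.im + Y * e'.re := by
    rw [htc]; simp
  have a1 : |e'.re| ≤ ρ := her'.trans hd
  have a2 : |e'.im| ≤ ρ := hei'.trans hd
  have hm0 : (0:ℝ) ≤ m := Nat.cast_nonneg m
  have hY0 : (0:ℝ) ≤ Y := Nat.cast_nonneg Y
  rw [abs_le] at a1 a2 her hei
  have h9 : GaussianInt.toComplex (⟨m, Y⟩ : Gi) * e' = e := by
    rw [hcz] at her hei hsm
    refine proj_inj _ _ h8 ?_ ?_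
    · rw [hre, abs_lt]
      constructor
      · linarith [mul_le_mul_of_nonneg_left a1.1 hm0, mul_le_mul_of_nonneg_left a2.2 hY0]
      · linarith [mul_le_mul_of_nonneg_left a1.2 hm0, mul_le_mul_of_nonneg_left a2.1 hY0]
    · rw [him, abs_lt]
      constructor
      · linarith [mul_le_mul_of_nonneg_left a2.1 hm0, mul_le_mul_of_nonneg_left a1.1 hY0]
      · linarith [mul_le_mul_of_nonneg_left a2.2 hm0, mul_le_mul_of_nonneg_left a1.2 hY0]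
  have hYne : (Y:ℂ) ≠ 0 := by exact_mod_cast hY.ne'
  have hzne : (m : ℂ) + (Y : ℂ) * Complex.I ≠ 0 := by
    intro h
    have := congrArg Complex.im h
    simp at this
    omega
  have h10 : t = α' + proj e' := by rw [he']; abel
  have h11 : E ((star (⟨m, Y⟩ : Gi) * ((H : Gi) * (N : Gi))) • t) =
      E ((star (⟨m, Y⟩ : Gi) * ((H : Gi) * (N : Gi))) • α') *
      E ((star (⟨m, Y⟩ : Gi) * ((H : Gi) * (N : Gi))) • proj e') := by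
    conv_lhs => rw [h10]
    rw [smul_add, E_add]
  rw [h11]
  congr 1
  · congr 1
    rw [h6, ← mul_smul, ← Int.cast_smul_eq_zsmul Gi, ← mul_smul]
    congr 1
    push_cast
    ring
  · rw [smul_proj, E_proj, GG]
    congr 3
    have h12 : GaussianInt.toComplex (star (⟨m, Y⟩ : Gi) * ((H : Gi) * (N : Gi))) * e' =
        (H:ℂ) * ((N:ℂ) * e) * ((((m:ℝ) / Y : ℝ) : ℂ) - Complex.I) / ((((m:ℝ) / Y : ℝ) : ℂ) + Complex.I) := by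
      rw [map_mul, map_mul, GaussianInt.toComplex_star, htc, map_natCast, map_natCast, ← h9, htc]
      have h13 : (((m:ℝ) / Y : ℝ) : ℂ) + Complex.I = ((m : ℂ) + (Y : ℂ) * Complex.I) / Y := by
        push_cast; field_simp
      have h14 : (((m:ℝ) / Y : ℝ) : ℂ) - Complex.I = ((m : ℂ) - (Y : ℂ) * Complex.I) / Y := by
        push_cast; field_simp
      rw [h13, h14]
      have h15 : (starRingEnd ℂ) ((m : ℂ) + (Y : ℂ) * Complex.I) = (m : ℂ) - (Y : ℂ) * Complex.I := by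
        simp [Complex.conj_natCast]
        ring
      rw [h15]
      field_simp
    rw [h12]

end G4
export G4 (eval_lemma)
end Pool.Agent.Helper378.PD
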