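import Pool.Agent.Helper378.PD.Base
set_option autoImplicit false
open MeasureTheory
namespace Pool.Agent.Helper378.PD
namespace G9
/-! TARGETS -/

theorem coprime_star (m Y : ℕ) (hY : Y.Prime) (hm : 0 < m) (hmY : m < Y) (hodd : ¬ 2 ∣ m ^ 2 + Y ^ 2) :
    IsCoprime (⟨m, Y⟩ : Gi) (star (⟨m, Y⟩ : Gi)) := by
  have hcop : IsCoprime (m : ℤ) (Y : ℤ) := by
    rw [Nat.isCoprime_iff_coprime]
    exact ((Nat.Prime.coprime_iff_not_dvd hY).2 (fun h => absurd (Nat.le_of_dvd hm h) (by omega))).symm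
  obtain ⟨u, v, huv⟩ := hcop
  obtain ⟨k, hk⟩ : ∃ k : ℕ, m ^ 2 + Y ^ 2 = 2 * k + 1 := ⟨(m ^ 2 + Y ^ 2) / 2, by omega⟩
  have hkZ : (m : ℤ) ^ 2 + (Y : ℤ) ^ 2 = 2 * k + 1 := by exact_mod_cast hk
  refine ⟨⟨m - k * u, -Y + k * v⟩, ⟨-(k * u), -(k * v)⟩, ?_⟩
  apply Zsqrtd.ext
  · simp only [Zsqrtd.re_add, Zsqrtd.re_mul, Zsqrtd.re_star, Zsqrtd.im_star, Zsqrtd.re_one]
    linear_combination hkZ - 2 * (k : ℤ) * huv
  · simp only [Zsqrtd.im_add, Zsqrtd.im_mul, Zsqrtd.re_star, Zsqrtd.im_star, Zsqrtd.im_one]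
    ring

theorem order_coprime (j k : ℕ) (α : T2) (hk : 1 ≤ k) (hkj : k < 5 ^ j) (hα : (k:ℤ) • α = 0) :
    Nat.Coprime (addOrderOf (((5 ^ j : ℕ):ℤ) • α)) 5 := by
  rw [natCast_zsmul] at hα
  rw [natCast_zsmul]
  have ho : addOrderOf α ∣ k := addOrderOf_dvd_of_nsmul_eq_zero hα
  have ho0 : addOrderOf α ≠ 0 := by
    intro h
    rw [h, zero_dvd_iff] at ho
    omega
  obtain ⟨v, o', ho', hov⟩ := Nat.exists_eq_pow_mul_and_not_dvd ho0 5 (by norm_num)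
  have hole : addOrderOf α ≤ k := Nat.le_of_dvd hk ho
  have ho'pos : 0 < o' := by
    rcases Nat.eq_zero_or_pos o' with h | h
    · rw [h, mul_zero] at hov; exact absurd hov ho0
    · exact h
  have hvj : v ≤ j := by
    by_contra hcon
    rw [not_le] at hcon
    have h1 : 5 ^ j < 5 ^ v := Nat.pow_lt_pow_right (by norm_num) hcon
    have h2 : 5 ^ v ≤ 5 ^ v * o' := Nat.le_mul_of_pos_right _ ho'pos
    omega
  have hz : o' • ((5 ^ j) • α) = 0 := by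
    have h1 : o' * 5 ^ j = 5 ^ (j - v) * addOrderOf α := by
      rw [hov]
      have h2 : 5 ^ j = 5 ^ (j - v) * 5 ^ v := by rw [← pow_add]; congr 1; omega
      rw [h2]; ring
    rw [← mul_nsmul', h1, mul_nsmul', addOrderOf_nsmul_eq_zero]
    simp
  have hd : addOrderOf ((5 ^ j) • α) ∣ o' := addOrderOf_dvd_of_nsmul_eq_zero hz
  have hc : Nat.Coprime o' 5 := by
    rw [Nat.coprime_comm]
    exact (Nat.Prime.coprime_iff_not_dvd (by norm_num)).2 ho'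
  exact Nat.Coprime.coprime_dvd_left hd hc

end G9
export G9 (coprime_star order_coprime)
end Pool.Agent.Helper378.PD
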