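import Pool.Agent.Helper378.PD.Base
import Pool.Agent.Helper378.PD.D1
import Pool.Agent.Helper378.PD.D4
import Pool.Agent.Helper378.PD.D5
import Pool.Agent.Helper378.PD.G1
import Pool.Agent.Helper378.PD.G2
import Pool.Agent.Helper378.PD.G4
import Pool.Agent.Helper378.PD.G9
set_option autoImplicit false
open MeasureTheory
namespace Pool.Agent.Helper378.PD
namespace G7
theorem as_zne (m Y : ℕ) (hY : 0 < Y) : (⟨m, Y⟩ : Gi) ≠ 0 := by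
  intro h
  have := congrArg Zsqrtd.im h
  simp at this
  omega

theorem as_intre (a : Gi → Gi → ℝ) (ha : Rad a) (D : Gi) (hD : D ≠ 0) (w : Gi) :
    ∫ t, (E (w • t)).re ∂(nu a D) = a D w := by
  haveI := nu_prob a ha D hD
  have hc : Continuous (fun t : T2 => E (w • t)) := continuous_E.comp (continuous_smulGi w)
  have hi : Integrable (fun t : T2 => E (w • t)) (nu a D) := by
    refine Integrable.of_bound hc.aestronglyMeasurable 1 (Filter.Eventually.of_forall fun t => ?_)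
    rw [norm_E]
  have h := integral_re hi
  have h2 := nu_coeff a ha D hD w
  rw [h2] at h
  simpa using h

theorem as_law (a : Gi → Gi → ℝ) (ha : Rad a) (D W : Gi) (hD : D ≠ 0) (hW : W ≠ 0) (F : T2 → ℝ)
    (hF : Continuous F) :
    ∫ t, F (W • t) ∂(nu a (D * W)) = ∫ t, F t ∂(nu a D) := by
  rw [← nu_map a ha D hD W hW, integral_map (continuous_smulGi W).aemeasurable hF.aestronglyMeasurable]

theorem as_lawset (a : Gi → Gi → ℝ) (ha : Rad a) (D W : Gi) (hD : D ≠ 0) (hW : W ≠ 0) (s : Set T2)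
    (hs : MeasurableSet s) :
    (nu a (D * W)) {t | W • t ∈ s} = nu a D s := by
  rw [← nu_map a ha D hD W hW, Measure.map_apply (continuous_smulGi W).measurable hs]
  rfl

theorem as_GG (T : ℂ) (x : ℝ) : ‖GG T x‖ = 1 := by
  unfold GG
  rw [show 2 * (Real.pi:ℂ) * Complex.I * (((T * ((x : ℂ) - Complex.I) / ((x : ℂ) + Complex.I)).re : ℝ) : ℂ)
    = ((2 * Real.pi * ((T * ((x : ℂ) - Complex.I) / ((x : ℂ) + Complex.I)).re) : ℝ) : ℂ) * Complex.I by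
    push_cast; ring]
  exact Complex.norm_exp_ofReal_mul_I _

noncomputable def Sm (J : ℕ) (H : Fin J → ℕ) (N Y m : ℕ) (s : T2) : ℝ :=
  ∑ i : Fin J, (2:ℝ) ^ (i:ℕ) * (E ((star (⟨m, Y⟩ : Gi) * ((H i : Gi) * (N : Gi))) • s)).re

noncomputable def Rm (J : ℕ) (H : Fin J → ℕ) (Y : ℕ) (y : ℕ → ℤ) (α : T2) (e : ℂ) (m : ℕ) : ℝ :=
  ∑ i : Fin J, (2:ℝ) ^ (i:ℕ) * (E (((H i : Gi) * (y m : Gi) * (star (⟨m, Y⟩ : Gi)) ^ 2) • α) *
              GG ((H i : ℂ) * e) ((m:ℝ) / Y)).re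

theorem as_bd (J : ℕ) (c : Fin J → ℂ) (hc : ∀ i, ‖c i‖ = 1) :
    |∑ i : Fin J, (2:ℝ) ^ (i:ℕ) * (c i).re| ≤ 2 ^ J := by
  refine (Finset.abs_sum_le_sum_abs _ _).trans ?_
  have h1 : ∀ i ∈ (Finset.univ : Finset (Fin J)), |(2:ℝ) ^ (i:ℕ) * (c i).re| ≤ (2:ℝ) ^ (i:ℕ) := by
    intro i _
    rw [abs_mul, abs_of_pos (by positivity)]
    have := Complex.abs_re_le_norm (c i)
    rw [hc i] at this
    exact mul_le_of_le_one_right (by positivity) this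
  refine (Finset.sum_le_sum h1).trans ?_
  rw [Fin.sum_univ_eq_sum_range (fun i => (2:ℝ) ^ i), geom_sum_eq (by norm_num)]
  norm_num

theorem as_Sm (J : ℕ) (H : Fin J → ℕ) (N Y m : ℕ) (s : T2) : |Sm J H N Y m s| ≤ 2 ^ J :=
  as_bd J _ fun _ => norm_E _

theorem as_Rm (J : ℕ) (H : Fin J → ℕ) (Y : ℕ) (y : ℕ → ℤ) (α : T2) (e : ℂ) (m : ℕ) :
    |Rm J H Y y α e m| ≤ 2 ^ J :=
  as_bd J _ fun i => by rw [norm_mul, norm_E, as_GG, one_mul]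

theorem as_Smcont (J : ℕ) (H : Fin J → ℕ) (N Y m : ℕ) : Continuous (Sm J H N Y m) := by
  unfold Sm
  refine continuous_finsetSum _ fun i _ => ?_
  exact continuous_const.mul (Complex.continuous_re.comp (continuous_E.comp (continuous_smulGi _)))

theorem as_Smint (a : Gi → Gi → ℝ) (ha : Rad a) (J : ℕ) (H : Fin J → ℕ) (M0 : ℕ) (hM0 : 0 < M0)
    (j Y m : ℕ) (hY : 0 < Y) :
    ∫ s, Sm J H (5 ^ j) Y m s ∂(nu a ((5:Gi) ^ j * ((M0:Gi) * ⟨m, Y⟩))) =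
      ∑ i : Fin J, (2:ℝ) ^ (i:ℕ) * a (M0 : Gi) (H i : Gi) := by
  have hM0' : (M0 : Gi) ≠ 0 := by exact_mod_cast hM0.ne'
  have h5 : (5 : Gi) ^ j ≠ 0 := pow_ne_zero _ (by norm_num)
  have hD : (5:Gi) ^ j * ((M0:Gi) * ⟨m, Y⟩) ≠ 0 :=
    mul_ne_zero h5 (mul_ne_zero hM0' (as_zne m Y hY))
  haveI := nu_prob a ha _ hD
  unfold Sm
  rw [integral_finsetSum]
  · refine Finset.sum_congr rfl fun i _ => ?_
    rw [integral_const_mul, as_intre a ha _ hD]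
    congr 1
    refine (ha.norm _ _ _ _ hM0' hD ?_).symm
    simp only [Zsqrtd.norm_mul, Zsqrtd.norm_natCast]
    have hs : (star (⟨m, Y⟩ : Gi)).norm = (⟨m, Y⟩ : Gi).norm := by
      simp [Zsqrtd.norm_def]
    have h5n : ((5:Gi) ^ j).norm = ((5 ^ j : ℕ) : ℤ) * ((5 ^ j : ℕ) : ℤ) := by
      rw [← Zsqrtd.norm_natCast]; push_cast; rfl
    rw [hs, h5n]
    ring
  · intro i _
    have hc : Continuous (fun t : T2 => (2:ℝ) ^ (i:ℕ) * (E ((star (⟨m, Y⟩ : Gi) * ((H i : Gi) * ((5 ^ j : ℕ) : Gi))) • t)).re) :=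
      continuous_const.mul (Complex.continuous_re.comp (continuous_E.comp (continuous_smulGi _)))
    refine Integrable.of_bound hc.aestronglyMeasurable ((2:ℝ) ^ (i:ℕ)) (Filter.Eventually.of_forall fun t => ?_)
    rw [Real.norm_eq_abs, abs_mul, abs_of_pos (by positivity)]
    have := Complex.abs_re_le_norm (E ((star (⟨m, Y⟩ : Gi) * ((H i : Gi) * ((5 ^ j : ℕ) : Gi))) • t))
    rw [norm_E] at this
    exact mul_le_of_le_one_right (by positivity) this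

/-- the bad set of `m` -/
def BB (M : ℕ) (ρ : ℝ) (z : Gi) : Set T2 := {t | z • t ∈ AA z M (cz z * ρ)} ∩ (AA z M ρ)ᶜ

theorem as_BBmeas (M : ℕ) (ρ : ℝ) (z : Gi) : MeasurableSet (BB M ρ z) := by
  unfold BB
  refine MeasurableSet.inter ?_ (isClosed_AA z M ρ).measurableSet.compl
  exact ((isClosed_AA z M _).preimage (continuous_smulGi z)).measurableSet

theorem as_sumite (Z : Finset ℕ) (F : ℕ → ℝ) :
    ∑ m ∈ Z, (if m = 0 then 0 else F m) = ∑ m ∈ Z.erase 0, F m := by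
  rw [← Finset.sum_erase Z (a := 0) (by simp)]
  refine Finset.sum_congr rfl fun m hm => ?_
  rw [if_neg (Finset.ne_of_mem_erase hm)]

theorem as_point (J : ℕ) (ε : ℝ) (hε : 0 < ε) (H : Fin J → ℕ) (Cp : ℝ)
    (hpt : ∀ (κ P Y : ℕ) (α : T2) (e : ℂ) (y : ℕ → ℤ), 0 < κ → 0 < P →
      Nat.Coprime Y (κ * P) → (κ:ℤ) • α = 0 → Nat.Coprime (addOrderOf α) 5 →
      Cp * ((κ * P : ℕ) : ℝ) ^ 2 * (1 + ‖e‖) ≤ Y →
      (∀ m : ℕ, Nat.Coprime (m ^ 2 + Y ^ 2) (κ * P) → (κ:ℤ) ∣ ((m:ℤ) ^ 2 + (Y:ℤ) ^ 2) * y m - 1) →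
      -(1 + ε) * ((Finset.range Y).filter (fun m => Nat.Coprime (m ^ 2 + Y ^ 2) (κ * P))).card ≤
        ∑ i : Fin J, (2:ℝ) ^ (i:ℕ) *
          ∑ m ∈ (Finset.range Y).filter (fun m => Nat.Coprime (m ^ 2 + Y ^ 2) (κ * P)),
            (E (((H i : Gi) * (y m : Gi) * (star (⟨m, Y⟩ : Gi)) ^ 2) • α) *
              GG ((H i : ℂ) * e) ((m:ℝ) / Y)).re)
    (j g P Y M : ℕ) (ρ θ : ℝ) (hCp0 : 0 ≤ Cp)
    (hP : 0 < P) (hY : Y.Prime) (hPY : P < Y) (hgY : g < Y) (hgN : g < 5 ^ j) (hgM : g ≤ M)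
    (hρ : (g:ℝ) / (5:ℝ) ^ j ≤ ρ) (hM : ∀ m < Y, 4 * cz ⟨m, Y⟩ * ρ * (M:ℝ) ^ 2 < 1)
    (hCp : Cp * ((g * P : ℕ) : ℝ) ^ 2 * (1 + 2 * g) ≤ Y)
    (hsieve : ∀ κ : ℕ, 0 < κ → κ ≤ g →
      (((Finset.range Y).filter (fun m => Nat.Coprime (m ^ 2 + Y ^ 2) P ∧
        ¬ Nat.Coprime (m ^ 2 + Y ^ 2) κ)).card : ℝ) ≤
        θ * ((Finset.range Y).filter (fun m => Nat.Coprime (m ^ 2 + Y ^ 2) P)).card)
    (Z : Finset ℕ) (hZ : Z = (Finset.range Y).filter (fun m => Nat.Coprime (m ^ 2 + Y ^ 2) P))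
    (t0 : T2) (ht0 : t0 ∈ SS g ((g:ℝ) / (5:ℝ) ^ j)) (s : ℕ → T2)
    (hs : ∀ m ∈ Z.erase 0, (⟨m, Y⟩ : Gi) • s m = t0) :
    -(1 + ε) * Z.card - 2 ^ J - 2 ^ J * (θ * Z.card)
        - 2 * 2 ^ J * ∑ m ∈ Z.erase 0, (BB M ρ ⟨m, Y⟩).indicator (fun _ => (1:ℝ)) (s m) ≤
      ∑ m ∈ Z.erase 0, Sm J H (5 ^ j) Y m (s m) := by
  obtain ⟨α0, ⟨k0, hk1, hkg, hk0⟩, hd⟩ := ht0
  obtain ⟨e0, he0, her, hei⟩ := exists_proj (t0 - α0)
  have hkM : k0 ≤ M := hkg.trans hgM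
  have hkY : k0 < Y := lt_of_le_of_lt hkg hgY
  have hN : (0:ℝ) < 5 ^ j := by positivity
  have hYpos : 0 < Y := hY.pos
  have hinv : ∀ m : ℕ, ∃ y : ℤ, Nat.Coprime (m^2+Y^2) k0 → (k0:ℤ) ∣ ((m:ℤ)^2+(Y:ℤ)^2) * y - 1 := by
    intro m
    by_cases h : Nat.Coprime (m^2+Y^2) k0
    · have h2 : IsCoprime (((m^2+Y^2 : ℕ) : ℤ)) (k0 : ℤ) := Nat.isCoprime_iff_coprime.mpr h
      obtain ⟨u, v, huv⟩ := h2
      refine ⟨u, fun _ => ⟨-v, ?_⟩⟩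
      push_cast at huv
      linarith [huv]
    · exact ⟨0, fun h' => absurd h' h⟩
  choose y hy using hinv
  have hcopk : Nat.Coprime Y k0 :=
    (Nat.Prime.coprime_iff_not_dvd hY).2 fun h => absurd (Nat.le_of_dvd hk1 h) (by omega)
  have hcopP : Nat.Coprime Y P :=
    (Nat.Prime.coprime_iff_not_dvd hY).2 fun h => absurd (Nat.le_of_dvd hP h) (by omega)
  have hα : (k0:ℤ) • (((5 ^ j : ℕ) : ℤ) • α0) = 0 := by
    rw [smul_comm, hk0, smul_zero]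
  have hord : Nat.Coprime (addOrderOf (((5 ^ j : ℕ):ℤ) • α0)) 5 :=
    order_coprime j k0 α0 hk1 (lt_of_le_of_lt hkg hgN) hk0
  have hen : ‖((5 ^ j : ℕ):ℂ) * e0‖ ≤ 2 * g := by
    rw [norm_mul, Complex.norm_natCast]
    have h1 := Complex.norm_le_abs_re_add_abs_im e0
    have h2 : ‖e0‖ ≤ 2 * ((g:ℝ) / 5 ^ j) := by linarith [her.trans hd, hei.trans hd]
    push_cast
    calc (5:ℝ) ^ j * ‖e0‖ ≤ 5 ^ j * (2 * ((g:ℝ) / 5 ^ j)) := by gcongr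
      _ = 2 * g := by field_simp
  have hbd : Cp * ((k0 * P : ℕ) : ℝ) ^ 2 * (1 + ‖((5 ^ j : ℕ):ℂ) * e0‖) ≤ Y := by
    refine le_trans ?_ hCp
    have h3 : ((k0 * P : ℕ) : ℝ) ≤ ((g * P : ℕ) : ℝ) := by
      exact_mod_cast Nat.mul_le_mul_right P hkg
    gcongr
  have hmain := hpt k0 P Y (((5 ^ j : ℕ):ℤ) • α0) (((5 ^ j : ℕ):ℂ) * e0) y hk1 hP
    (Nat.Coprime.mul_right hcopk hcopP) hα hord hbd
    (fun m hm => hy m (Nat.Coprime.coprime_mul_right_right hm))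
  set Zk : Finset ℕ := (Finset.range Y).filter (fun m => Nat.Coprime (m ^ 2 + Y ^ 2) (k0 * P)) with hZk
  have hRsum : -(1 + ε) * (Zk.card : ℝ) ≤
      ∑ m ∈ Zk, Rm J H Y y (((5 ^ j : ℕ):ℤ) • α0) (((5 ^ j : ℕ):ℂ) * e0) m := by
    refine hmain.trans (le_of_eq ?_)
    unfold Rm
    rw [Finset.sum_comm]
    refine Finset.sum_congr rfl fun i _ => ?_
    rw [Finset.mul_sum]
  have hsub : Zk ⊆ Z := by
    intro m hm
    rw [hZk, Finset.mem_filter] at hm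
    rw [hZ, Finset.mem_filter]
    exact ⟨hm.1, Nat.Coprime.coprime_mul_left_right hm.2⟩
  have hcard : (Zk.card : ℝ) ≤ Z.card := by exact_mod_cast Finset.card_le_card hsub
  have key : ∀ m ∈ Z,
      (if m ∈ Zk then Rm J H Y y (((5 ^ j : ℕ):ℤ) • α0) (((5 ^ j : ℕ):ℂ) * e0) m else 0)
      - (if m = 0 then (2:ℝ) ^ J else 0) - (if m ∈ Zk then (0:ℝ) else 2 ^ J)
      - (if m = 0 then (0:ℝ) else 2 * 2 ^ J * (BB M ρ ⟨m, Y⟩).indicator (fun _ => (1:ℝ)) (s m)) ≤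
      (if m = 0 then (0:ℝ) else Sm J H (5 ^ j) Y m (s m)) := by
    intro m hm
    have hR := abs_le.1 (as_Rm J H Y y (((5 ^ j : ℕ):ℤ) • α0) (((5 ^ j : ℕ):ℂ) * e0) m)
    have hS := abs_le.1 (as_Sm J H (5 ^ j) Y m (s m))
    have h2J : (0:ℝ) < 2 ^ J := by positivity
    by_cases h0 : m = 0
    · rw [if_pos h0, if_pos h0, if_pos h0]
      by_cases hk : m ∈ Zk
      · rw [if_pos hk, if_pos hk]; linarith
      · rw [if_neg hk, if_neg hk]; linarith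
    · rw [if_neg h0, if_neg h0, if_neg h0]
      have hind : 0 ≤ (BB M ρ (⟨m, Y⟩ : Gi)).indicator (fun _ => (1:ℝ)) (s m) :=
        Set.indicator_nonneg (fun _ _ => zero_le_one) _
      by_cases hk : m ∈ Zk
      · rw [if_pos hk, if_pos hk]
        by_cases hb : s m ∈ BB M ρ (⟨m, Y⟩ : Gi)
        · rw [Set.indicator_of_mem hb]; linarith
        · rw [Set.indicator_of_notMem hb]
          have hmY : m < Y := by
            rw [hZ, Finset.mem_filter, Finset.mem_range] at hm; exact hm.1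
          have hcop : Nat.Coprime (m ^ 2 + Y ^ 2) k0 := by
            rw [hZk, Finset.mem_filter] at hk
            exact Nat.Coprime.coprime_mul_right_right hk.2
          have hsm := hs m (Finset.mem_erase.2 ⟨h0, hm⟩)
          have hρ0 : 0 ≤ ρ := le_trans (by positivity) hρ
          have hcz1 : 1 ≤ cz (⟨m, Y⟩ : Gi) := by
            unfold cz
            have : 1 ≤ ((⟨m, Y⟩ : Gi).re.natAbs + (⟨m, Y⟩ : Gi).im.natAbs) := by
              simp; omega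
            exact_mod_cast this
          have hczρ : ρ ≤ cz (⟨m, Y⟩ : Gi) * ρ := le_mul_of_one_le_left hρ0 hcz1
          have hin : (⟨m, Y⟩ : Gi) • s m ∈ AA (⟨m, Y⟩ : Gi) M (cz (⟨m, Y⟩ : Gi) * ρ) := by
            rw [hsm]
            refine ⟨α0, ⟨k0, hk1, hkM, hk0⟩, ⟨(y m : Gi) * star (⟨m, Y⟩ : Gi), ?_⟩,
              hd.trans (hρ.trans hczρ)⟩
            rw [smul_smul]
            obtain ⟨c, hc⟩ := hy m hcop
            have e2 : star (⟨m, Y⟩ : Gi) * (⟨m, Y⟩ : Gi) = (((m:ℤ) * m + (Y:ℤ) * Y : ℤ) : Gi) := by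
              ext
              · simp
              · simp; ring
            have e3 : y m * ((m:ℤ) * m + (Y:ℤ) * Y) = 1 + c * (k0:ℤ) := by linarith [hc]
            have e1 : (y m : Gi) * star (⟨m, Y⟩ : Gi) * (⟨m, Y⟩ : Gi) = ((1 : ℤ) : Gi) + (c : Gi) * ((k0 : ℤ) : Gi) := by
              rw [mul_assoc, e2]
              have e4 := congrArg (Int.cast : ℤ → Gi) e3
              rw [Int.cast_mul, Int.cast_add 1, Int.cast_mul c] at e4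
              exact e4
            rw [e1, add_smul, mul_smul, Int.cast_smul_eq_zsmul, Int.cast_smul_eq_zsmul, Int.cast_smul_eq_zsmul,
              hk0, smul_zero, add_zero, one_smul]
          have hsA : s m ∈ AA (⟨m, Y⟩ : Gi) M ρ := by
            by_contra hn
            exact hb ⟨hin, hn⟩
          have hSR : Sm J H (5 ^ j) Y m (s m) =
              Rm J H Y y (((5 ^ j : ℕ):ℤ) • α0) (((5 ^ j : ℕ):ℂ) * e0) m := by
            unfold Sm Rm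
            refine Finset.sum_congr rfl fun i _ => ?_
            rw [eval_lemma m Y k0 M (H i) (5 ^ j) hYpos hk1 hkM ρ hρ0 (hM m hmY) α0 hk0 e0
              (her.trans (hd.trans (hρ.trans hczρ))) (hei.trans (hd.trans (hρ.trans hczρ))) (y m)
              (hy m hcop) (s m) (by rw [hsm, he0]; abel) hsA]
          linarith
      · rw [if_neg hk, if_neg hk]
        have h7 := mul_nonneg (by positivity : (0:ℝ) ≤ 2 * 2 ^ J) hind
        linarith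
  have hsum := Finset.sum_le_sum key
  simp only [Finset.sum_sub_distrib] at hsum
  have s1 : ∑ m ∈ Z, (if m ∈ Zk then Rm J H Y y (((5 ^ j : ℕ):ℤ) • α0) (((5 ^ j : ℕ):ℂ) * e0) m else 0)
      = ∑ m ∈ Zk, Rm J H Y y (((5 ^ j : ℕ):ℤ) • α0) (((5 ^ j : ℕ):ℂ) * e0) m := by
    rw [← Finset.sum_filter, Finset.filter_mem_eq_inter, Finset.inter_eq_right.2 hsub]
  have s2 : ∑ m ∈ Z, (if m = 0 then (2:ℝ) ^ J else 0) ≤ 2 ^ J := by
    rw [Finset.sum_ite_eq']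
    split_ifs
    · exact le_rfl
    · positivity
  have s3 : ∑ m ∈ Z, (if m ∈ Zk then (0:ℝ) else 2 ^ J) ≤ 2 ^ J * (θ * Z.card) := by
    have e1 : ∀ m ∈ Z, (if m ∈ Zk then (0:ℝ) else 2 ^ J) = if m ∉ Zk then (2:ℝ) ^ J else 0 := by
      intro m _; by_cases h : m ∈ Zk <;> simp [h]
    rw [Finset.sum_congr rfl e1, ← Finset.sum_filter, Finset.sum_const, nsmul_eq_mul, mul_comm]
    refine mul_le_mul_of_nonneg_left ?_ (by positivity)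
    have h4 := hsieve k0 hk1 hkg
    rw [← hZ] at h4
    refine le_trans ?_ h4
    have h5 : Z.filter (fun m => m ∉ Zk) ⊆ (Finset.range Y).filter (fun m => Nat.Coprime (m ^ 2 + Y ^ 2) P ∧
        ¬ Nat.Coprime (m ^ 2 + Y ^ 2) k0) := by
      intro m hm
      rw [Finset.mem_filter, hZ, Finset.mem_filter, hZk, Finset.mem_filter] at hm
      rw [Finset.mem_filter]
      refine ⟨hm.1.1, hm.1.2, fun hc => hm.2 ⟨hm.1.1, Nat.Coprime.mul_right hc hm.1.2⟩⟩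
    exact_mod_cast Finset.card_le_card h5
  rw [s1, as_sumite, as_sumite, ← Finset.mul_sum] at hsum
  have h6 : -(1 + ε) * (Z.card:ℝ) ≤ -(1 + ε) * (Zk.card : ℝ) := by nlinarith
  linarith

theorem as_indint (ν : Measure T2) [IsProbabilityMeasure ν] (W : Gi) (B : Set T2) (hB : MeasurableSet B)
    (η : ℝ) (hη : 0 ≤ η) (h : ν {t | W • t ∈ B} ≤ ENNReal.ofReal η) :
    Integrable (fun t => B.indicator (fun _ => (1:ℝ)) (W • t)) ν ∧
      ∫ t, B.indicator (fun _ => (1:ℝ)) (W • t) ∂ν ≤ η := by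
  have hms : MeasurableSet {t : T2 | W • t ∈ B} := (continuous_smulGi W).measurable hB
  have e : (fun t => B.indicator (fun _ => (1:ℝ)) (W • t)) = ({t : T2 | W • t ∈ B}).indicator (1 : T2 → ℝ) := by
    funext t
    by_cases ht : W • t ∈ B
    · rw [Set.indicator_of_mem ht, Set.indicator_of_mem (show t ∈ {t : T2 | W • t ∈ B} from ht)]; rfl
    · rw [Set.indicator_of_notMem ht, Set.indicator_of_notMem (show t ∉ {t : T2 | W • t ∈ B} from ht)]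
  constructor
  · rw [e]
    exact (integrable_const (1:ℝ)).indicator hms
  · rw [e, integral_indicator_one hms]
    exact ENNReal.toReal_le_of_le_ofReal hη h

/-! TARGETS -/

theorem assemble (J : ℕ) (ε : ℝ) (hε : 0 < ε) (H : Fin J → ℕ) (Cp : ℝ)
    (hpt : ∀ (κ P Y : ℕ) (α : T2) (e : ℂ) (y : ℕ → ℤ), 0 < κ → 0 < P →
      Nat.Coprime Y (κ * P) → (κ:ℤ) • α = 0 → Nat.Coprime (addOrderOf α) 5 →
      Cp * ((κ * P : ℕ) : ℝ) ^ 2 * (1 + ‖e‖) ≤ Y →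
      (∀ m : ℕ, Nat.Coprime (m ^ 2 + Y ^ 2) (κ * P) → (κ:ℤ) ∣ ((m:ℤ) ^ 2 + (Y:ℤ) ^ 2) * y m - 1) →
      -(1 + ε) * ((Finset.range Y).filter (fun m => Nat.Coprime (m ^ 2 + Y ^ 2) (κ * P))).card ≤
        ∑ i : Fin J, (2:ℝ) ^ (i:ℕ) *
          ∑ m ∈ (Finset.range Y).filter (fun m => Nat.Coprime (m ^ 2 + Y ^ 2) (κ * P)),
            (E (((H i : Gi) * (y m : Gi) * (star (⟨m, Y⟩ : Gi)) ^ 2) • α) *
              GG ((H i : ℂ) * e) ((m:ℝ) / Y)).re)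
    (a : Gi → Gi → ℝ) (ha : Rad a) (M0 : ℕ) (hM0 : 0 < M0) (j g P Y M : ℕ) (ρ η θ : ℝ)
    (hη : 0 ≤ η) (hCp0 : 0 ≤ Cp) (hg : 0 < g)
    (hP : 0 < P) (hP2 : 2 ∣ P) (hY : Y.Prime) (hPY : P < Y) (hgY : g < Y) (hgN : g < 5 ^ j) (hgM : g ≤ M)
    (hρ : (g:ℝ) / (5:ℝ) ^ j ≤ ρ) (hM : ∀ m < Y, 4 * cz ⟨m, Y⟩ * ρ * (M:ℝ) ^ 2 < 1)
    (hCp : Cp * ((g * P : ℕ) : ℝ) ^ 2 * (1 + 2 * g) ≤ Y)
    (hbase : (nu a ((5:Gi) ^ j * (M0:Gi))) (SS g ((g:ℝ) / (5:ℝ) ^ j))ᶜ ≤ ENNReal.ofReal η)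
    (hlev : ∀ m : ℕ, 0 < m → m < Y →
      (nu a ((5:Gi) ^ j * ((M0:Gi) * ⟨m, Y⟩))) (SS M ρ)ᶜ ≤ ENNReal.ofReal η)
    (hsieve : ∀ κ : ℕ, 0 < κ → κ ≤ g →
      (((Finset.range Y).filter (fun m => Nat.Coprime (m ^ 2 + Y ^ 2) P ∧
        ¬ Nat.Coprime (m ^ 2 + Y ^ 2) κ)).card : ℝ) ≤
        θ * ((Finset.range Y).filter (fun m => Nat.Coprime (m ^ 2 + Y ^ 2) P)).card) :
    -((1 + ε) + 2 ^ J * (θ + 3 * η)) * ((Finset.range Y).filter (fun m => Nat.Coprime (m ^ 2 + Y ^ 2) P)).card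
        - 2 ^ J ≤
      (∑ i : Fin J, (2:ℝ) ^ (i:ℕ) * a (M0 : Gi) (H i : Gi)) *
        (((Finset.range Y).filter (fun m => Nat.Coprime (m ^ 2 + Y ^ 2) P)).erase 0).card := by
  set Z : Finset ℕ := (Finset.range Y).filter (fun m => Nat.Coprime (m ^ 2 + Y ^ 2) P) with hZ
  have hYpos : 0 < Y := hY.pos
  have hM0' : (M0 : Gi) ≠ 0 := by exact_mod_cast hM0.ne'
  have h5 : (5 : Gi) ^ j ≠ 0 := pow_ne_zero _ (by norm_num)
  have hD0 : (5 : Gi) ^ j * (M0 : Gi) ≠ 0 := mul_ne_zero h5 hM0'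
  obtain ⟨Pr, hPr⟩ : ∃ Pr : Gi, Pr = ∏ m ∈ Z.erase 0, (⟨m, Y⟩ : Gi) := ⟨_, rfl⟩
  have hPr0 : Pr ≠ 0 := by
    rw [hPr]; exact Finset.prod_ne_zero_iff.2 fun m _ => as_zne m Y hYpos
  obtain ⟨W, hW⟩ : ∃ W : ℕ → Gi, W = fun m => ∏ m' ∈ (Z.erase 0).erase m, (⟨m', Y⟩ : Gi) := ⟨_, rfl⟩
  have hW0 : ∀ m, W m ≠ 0 := by
    intro m; rw [hW]; exact Finset.prod_ne_zero_iff.2 fun m _ => as_zne m Y hYpos
  have hPW : ∀ m ∈ Z.erase 0, (⟨m, Y⟩ : Gi) * W m = Pr := by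
    intro m hm
    rw [hPr, hW]
    exact Finset.mul_prod_erase (Z.erase 0) (fun m : ℕ => (⟨m, Y⟩ : Gi)) hm
  obtain ⟨D, hDdef⟩ : ∃ D : Gi, D = (5:Gi) ^ j * (M0:Gi) * Pr := ⟨_, rfl⟩
  have hD : D ≠ 0 := by rw [hDdef]; exact mul_ne_zero hD0 hPr0
  have hDm : ∀ m ∈ Z.erase 0, D = ((5:Gi) ^ j * ((M0:Gi) * ⟨m, Y⟩)) * W m := by
    intro m hm; rw [hDdef, ← hPW m hm]; ring
  have hDm0 : ∀ m : ℕ, (5:Gi) ^ j * ((M0:Gi) * ⟨m, Y⟩) ≠ 0 := fun m =>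
    mul_ne_zero h5 (mul_ne_zero hM0' (as_zne m Y hYpos))
  have hprob := nu_prob a ha D hD
  have hZ' : ∀ m ∈ Z.erase 0, 0 < m ∧ m < Y ∧ ¬ 2 ∣ m ^ 2 + Y ^ 2 := by
    intro m hm
    rw [Finset.mem_erase, hZ, Finset.mem_filter, Finset.mem_range] at hm
    refine ⟨Nat.pos_of_ne_zero hm.1, hm.2.1, fun h2 => ?_⟩
    have h3 := Nat.dvd_gcd h2 hP2
    rw [hm.2.2] at h3
    omega
  -- integrals
  have I1 : ∀ m ∈ Z.erase 0, ∫ t, Sm J H (5 ^ j) Y m (W m • t) ∂(nu a D) =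
      ∑ i : Fin J, (2:ℝ) ^ (i:ℕ) * a (M0 : Gi) (H i : Gi) := by
    intro m hm
    rw [hDm m hm, as_law a ha _ _ (hDm0 m) (hW0 m) _ (as_Smcont J H (5 ^ j) Y m),
      as_Smint a ha J H M0 hM0 j Y m hYpos]
  have I2 : ∀ m ∈ Z.erase 0, Integrable (fun t => Sm J H (5 ^ j) Y m (W m • t)) (nu a D) := by
    intro m hm
    refine Integrable.of_bound ((as_Smcont J H (5 ^ j) Y m).comp (continuous_smulGi _)).aestronglyMeasurable
      (2 ^ J) (Filter.Eventually.of_forall fun t => ?_)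
    exact as_Sm J H (5 ^ j) Y m _
  have I3 : ∀ m ∈ Z.erase 0, (nu a D) {t | W m • t ∈ BB M ρ ⟨m, Y⟩} ≤ ENNReal.ofReal η := by
    intro m hm
    obtain ⟨hm0, hmY, hodd⟩ := hZ' m hm
    rw [hDm m hm, as_lawset a ha _ _ (hDm0 m) (hW0 m) _ (as_BBmeas M ρ _)]
    refine le_trans ?_ (hlev m hm0 hmY)
    rw [← mul_assoc]
    exact good_digit a ha _ hD0 ⟨m, Y⟩ (as_zne m Y hYpos) (coprime_star m Y hY hm0 hmY hodd) M ρ
      (le_trans (by positivity) hρ) (hM m hmY)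
  have I4 := fun m hm => as_indint (nu a D) (W m) (BB M ρ ⟨m, Y⟩) (as_BBmeas M ρ _) η hη (I3 m hm)
  have hSSm : MeasurableSet (SS g ((g:ℝ) / (5:ℝ) ^ j))ᶜ := (isClosed_SS _ _).measurableSet.compl
  have I5 : (nu a D) {t | Pr • t ∈ (SS g ((g:ℝ) / (5:ℝ) ^ j))ᶜ} ≤ ENNReal.ofReal η := by
    rw [hDdef, as_lawset a ha _ _ hD0 hPr0 _ hSSm]
    exact hbase
  have I6 := as_indint (nu a D) Pr _ hSSm η hη I5
  have hcard : ((Z.erase 0).card : ℝ) ≤ Z.card := by exact_mod_cast Finset.card_erase_le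
  have hθ : 0 ≤ θ * (Z.card : ℝ) := le_trans (by positivity) (hsieve 1 one_pos hg)
  have h2J : (0:ℝ) < 2 ^ J := by positivity
  have hpw : ∀ t : T2, (-(1 + ε) * Z.card - 2 ^ J - 2 ^ J * (θ * Z.card))
        - 2 * 2 ^ J * (∑ m ∈ Z.erase 0, (BB M ρ ⟨m, Y⟩).indicator (fun _ => (1:ℝ)) (W m • t))
        - 2 ^ J * Z.card * ((SS g ((g:ℝ) / (5:ℝ) ^ j))ᶜ).indicator (fun _ => (1:ℝ)) (Pr • t) ≤
      ∑ m ∈ Z.erase 0, Sm J H (5 ^ j) Y m (W m • t) := by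
    intro t
    by_cases ht : Pr • t ∈ SS g ((g:ℝ) / (5:ℝ) ^ j)
    · have h1 := as_point J ε hε H Cp hpt j g P Y M ρ θ hCp0 hP hY hPY hgY hgN hgM hρ hM hCp hsieve Z hZ
        (Pr • t) ht (fun m => W m • t) (fun m hm => by rw [smul_smul, hPW m hm])
      rw [Set.indicator_of_notMem (show Pr • t ∉ (SS g ((g:ℝ) / (5:ℝ) ^ j))ᶜ from fun h => h ht)]
      linarith
    · rw [Set.indicator_of_mem (show Pr • t ∈ (SS g ((g:ℝ) / (5:ℝ) ^ j))ᶜ from ht)]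
      have h1 : 0 ≤ ∑ m ∈ Z.erase 0, (BB M ρ (⟨m, Y⟩ : Gi)).indicator (fun _ => (1:ℝ)) (W m • t) :=
        Finset.sum_nonneg fun m _ => Set.indicator_nonneg (fun _ _ => zero_le_one) _
      have h2 : -(2 ^ J * ((Z.erase 0).card : ℝ)) ≤ ∑ m ∈ Z.erase 0, Sm J H (5 ^ j) Y m (W m • t) := by
        have h3 : ∑ m ∈ Z.erase 0, (-(2:ℝ) ^ J) ≤ ∑ m ∈ Z.erase 0, Sm J H (5 ^ j) Y m (W m • t) :=
          Finset.sum_le_sum fun m _ => (abs_le.1 (as_Sm J H (5 ^ j) Y m _)).1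
        rw [Finset.sum_const, nsmul_eq_mul] at h3
        linarith
      have h4 := mul_nonneg (by positivity : (0:ℝ) ≤ 2 * 2 ^ J) h1
      have h5 : (2:ℝ) ^ J * ((Z.erase 0).card : ℝ) ≤ 2 ^ J * Z.card :=
        mul_le_mul_of_nonneg_left hcard h2J.le
      have h6 : 0 ≤ (1 + ε) * (Z.card : ℝ) := by positivity
      have h7 : 0 ≤ (2:ℝ) ^ J * (θ * Z.card) := by positivity
      linarith
  have J1 : Integrable (fun t => ∑ m ∈ Z.erase 0, (BB M ρ ⟨m, Y⟩).indicator (fun _ => (1:ℝ)) (W m • t))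
      (nu a D) := integrable_finsetSum _ fun m hm => (I4 m hm).1
  have J2 : Integrable (fun t => ∑ m ∈ Z.erase 0, Sm J H (5 ^ j) Y m (W m • t)) (nu a D) :=
    integrable_finsetSum _ I2
  obtain ⟨C, hC⟩ : ∃ C : ℝ, C = -(1 + ε) * (Z.card:ℝ) - 2 ^ J - 2 ^ J * (θ * Z.card) := ⟨_, rfl⟩
  rw [← hC] at hpw
  have Q1 : Integrable (fun t => (2 * 2 ^ J) * (∑ m ∈ Z.erase 0, (BB M ρ ⟨m, Y⟩).indicator (fun _ => (1:ℝ)) (W m • t)))
      (nu a D) := J1.const_mul _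
  have Q2 : Integrable (fun t => C - (2 * 2 ^ J) * (∑ m ∈ Z.erase 0, (BB M ρ ⟨m, Y⟩).indicator (fun _ => (1:ℝ)) (W m • t)))
      (nu a D) := (integrable_const C).sub Q1
  have Q3 : Integrable (fun t => 2 ^ J * (Z.card:ℝ) * ((SS g ((g:ℝ) / (5:ℝ) ^ j))ᶜ).indicator (fun _ => (1:ℝ)) (Pr • t))
      (nu a D) := I6.1.const_mul _
  have hint := integral_mono (Q2.sub Q3) J2 hpw
  have K1 : ∫ t, ∑ m ∈ Z.erase 0, Sm J H (5 ^ j) Y m (W m • t) ∂(nu a D) =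
      (∑ i : Fin J, (2:ℝ) ^ (i:ℕ) * a (M0 : Gi) (H i : Gi)) * (Z.erase 0).card := by
    rw [integral_finsetSum _ I2, Finset.sum_congr rfl I1, Finset.sum_const, nsmul_eq_mul, mul_comm]
  rw [K1] at hint
  refine le_trans ?_ hint
  have K0 : ∫ t, (C - (2 * 2 ^ J) * (∑ m ∈ Z.erase 0, (BB M ρ ⟨m, Y⟩).indicator (fun _ => (1:ℝ)) (W m • t))
      - 2 ^ J * (Z.card:ℝ) * ((SS g ((g:ℝ) / (5:ℝ) ^ j))ᶜ).indicator (fun _ => (1:ℝ)) (Pr • t)) ∂(nu a D) =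
      C - (2 * 2 ^ J) * (∑ m ∈ Z.erase 0, ∫ t, (BB M ρ ⟨m, Y⟩).indicator (fun _ => (1:ℝ)) (W m • t) ∂(nu a D))
      - 2 ^ J * (Z.card:ℝ) * ∫ t, ((SS g ((g:ℝ) / (5:ℝ) ^ j))ᶜ).indicator (fun _ => (1:ℝ)) (Pr • t) ∂(nu a D) := by
    rw [integral_sub Q2 Q3, integral_sub (integrable_const _) Q1, integral_const_mul, integral_const_mul,
      integral_const, integral_finsetSum _ (fun m hm => (I4 m hm).1)]
    simp
  refine le_trans ?_ (le_of_eq K0.symm)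
  have K2 : ∑ m ∈ Z.erase 0, ∫ t, (BB M ρ (⟨m, Y⟩ : Gi)).indicator (fun _ => (1:ℝ)) (W m • t) ∂(nu a D) ≤
      Z.card * η := by
    refine (Finset.sum_le_sum fun m hm => (I4 m hm).2).trans ?_
    rw [Finset.sum_const, nsmul_eq_mul]
    exact mul_le_mul_of_nonneg_right hcard hη
  have K3 := mul_le_mul_of_nonneg_left K2 (by positivity : (0:ℝ) ≤ 2 * 2 ^ J)
  have K4 := mul_le_mul_of_nonneg_left I6.2 (by positivity : (0:ℝ) ≤ 2 ^ J * (Z.card:ℝ))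
  rw [hC]
  linarith

end G7
export G7 (assemble)
end Pool.Agent.Helper378.PD
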