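import Pool.Agent.Helper378.PD.Base
import Pool.Agent.Helper378.PD.D1
import Pool.Agent.Helper378.PD.D4
import Pool.Agent.Helper378.PD.D5
import Pool.Agent.Helper378.PD.G1
import Pool.Agent.Helper378.PD.G3
import Pool.Agent.Helper378.PD.G5
import Pool.Agent.Helper378.PD.G6
import Pool.Agent.Helper378.PD.G7
set_option autoImplicit false
open MeasureTheory
namespace Pool.Agent.Helper378.PD
namespace G8
/-! TARGETS -/

lemma norm_five_pow (j : ℕ) : ((5:Gi) ^ j).norm = (5 ^ j) ^ 2 := by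
  have h : (5:Gi) ^ j = ((5 ^ j : ℕ) : Gi) := by push_cast; rfl
  rw [h, Zsqrtd.norm_natCast]
  push_cast
  ring

lemma five_pow_ne (j : ℕ) : (5:Gi) ^ j ≠ 0 := by
  intro h
  have h1 := norm_five_pow j
  rw [h] at h1
  simp only [Zsqrtd.norm_zero] at h1
  have : (0:ℤ) < (5 ^ j) ^ 2 := by positivity
  omega

lemma sqrt_norm_mul (j : ℕ) (y : Gi) :
    Real.sqrt ((((5:Gi) ^ j * y).norm : ℤ) : ℝ) = (5:ℝ) ^ j * Real.sqrt ((y.norm : ℤ) : ℝ) := by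
  rw [Zsqrtd.norm_mul, norm_five_pow]
  push_cast
  rw [Real.sqrt_mul (by positivity), Real.sqrt_sq (by positivity)]

lemma card_ge (P Y g : ℕ) (hP : 0 < P) (hY : Y.Prime) (hPY : P < Y) (hg : P * g ≤ Y) :
    g ≤ ((Finset.range Y).filter (fun m => Nat.Coprime (m ^ 2 + Y ^ 2) P)).card := by
  classical
  have h1 : ((Finset.range g).image (fun k => P * k)).card = g := by
    rw [Finset.card_image_of_injective _ (fun a b hab => Nat.eq_of_mul_eq_mul_left hP hab),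
      Finset.card_range]
  conv_lhs => rw [← h1]
  apply Finset.card_le_card
  intro m hm
  rw [Finset.mem_image] at hm
  obtain ⟨k, hk, rfl⟩ := hm
  rw [Finset.mem_range] at hk
  rw [Finset.mem_filter, Finset.mem_range]
  refine ⟨lt_of_lt_of_le (Nat.mul_lt_mul_of_pos_left hk hP) hg, ?_⟩
  have h2 : (P * k) ^ 2 + Y ^ 2 = Y ^ 2 + P * (P * k ^ 2) := by ring
  rw [h2, Nat.coprime_add_mul_left_left]
  apply Nat.Coprime.pow_left
  exact (Nat.Prime.coprime_iff_not_dvd hY).mpr fun h => absurd (Nat.le_of_dvd hP h) (by omega)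

lemma sum_abs_le (J : ℕ) (a : Gi → Gi → ℝ) (ha : Rad a) (M0 : ℕ) (hM0 : 0 < M0) (H : Fin J → ℕ) :
    |∑ i : Fin J, (2:ℝ) ^ (i:ℕ) * a (M0 : Gi) (H i : Gi)| ≤ 2 ^ J := by
  have hne : (M0 : Gi) ≠ 0 := by exact_mod_cast hM0.ne'
  refine (Finset.abs_sum_le_sum_abs _ _).trans ?_
  have h1 : ∑ i : Fin J, |(2:ℝ) ^ (i:ℕ) * a (M0 : Gi) (H i : Gi)| ≤ ∑ i : Fin J, (2:ℝ) ^ (i:ℕ) := by
    apply Finset.sum_le_sum
    intro i _
    rw [abs_mul, abs_of_nonneg (by positivity : (0:ℝ) ≤ 2 ^ (i:ℕ))]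
    have := a_abs_le a ha (M0 : Gi) hne (H i : Gi)
    have h2 : (0:ℝ) ≤ 2 ^ (i:ℕ) := by positivity
    nlinarith
  refine h1.trans ?_
  rw [Fin.sum_univ_eq_sum_range (fun i => (2:ℝ) ^ i) J]
  have h3 := geom_sum_eq (show (2:ℝ) ≠ 1 by norm_num) J
  rw [h3]
  norm_num

/-- the final arithmetic -/
lemma final_arith (ε S A z z' : ℝ) (hε : 0 < ε) (hA : 1 ≤ A) (hz' : z' = z - 1)
    (hS : |S| ≤ A) (hz : 4 * A ≤ ε * z) (hz0 : 0 < z)
    (h : -((1 + ε / 4) + A * (ε / (16 * A) + 3 * (2 * (ε / (64 * A))))) * z - A ≤ S * z') :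
    -(1 + ε) ≤ S := by
  have hA0 : 0 < A := by linarith
  have e1 : A * (ε / (16 * A) + 3 * (2 * (ε / (64 * A)))) = ε * (5 / 32) := by
    field_simp
    ring
  rw [e1, hz'] at h
  have h2 := abs_le.mp hS
  have h3 : -(1 + ε * (13 / 32)) * z - 2 * A ≤ S * z := by nlinarith [h2.1, h2.2]
  have h4 : -(1 + ε) * z ≤ S * z := by nlinarith
  exact le_of_mul_le_mul_right h4 hz0

/-- the probability bound -/
lemma prob_bound (Cs : ℝ) (a : Gi → Gi → ℝ) (r : ℕ) (hr : 1 ≤ r) (η : ℝ) (hη : 0 < η) (hη1 : η ≤ 1)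
    (hst : ∀ D : Gi, D ≠ 0 → ∀ y : Gi, y ≠ 0 →
      ∀ s η : ℝ, 0 < s → 0 < η → η ≤ 1 → 25 * η ≤ Real.exp s → ∀ (M : ℕ) (ρ : ℝ),
      Cs * (y.norm * Real.exp s / (25 * η)) ^ 3 ≤ M →
      Cs * (y.norm * Real.exp s / (25 * η)) ^ 5 ≤ ρ * Real.sqrt ((D * y).norm) →
      (nu a (D * y)) (SS M ρ)ᶜ ≤ ENNReal.ofReal (η + (Real.log 25 + dd a D) / s))
    (h25 : 25 * η ≤ (5:ℝ) ^ r) (hr4 : 4 ≤ η * r)
    (hdd : dd a ((5:Gi) ^ (1600 * r)) ≤ η * Real.log 5 / 3200 * ((1600 * r : ℕ) : ℝ))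
    (y : Gi) (hy : y ≠ 0) (M : ℕ) (ρ : ℝ)
    (h3 : Cs * (y.norm * (5:ℝ) ^ r / (25 * η)) ^ 3 ≤ M)
    (h5 : Cs * (y.norm * (5:ℝ) ^ r / (25 * η)) ^ 5 ≤ ρ * ((5:ℝ) ^ (1600 * r) * Real.sqrt (y.norm : ℝ))) :
    (nu a ((5:Gi) ^ (1600 * r) * y)) (SS M ρ)ᶜ ≤ ENNReal.ofReal (2 * η) := by
  have hlog : 0 < Real.log 5 := Real.log_pos (by norm_num)
  have hr0 : (0:ℝ) < r := by exact_mod_cast hr
  have hexp : Real.exp (r * Real.log 5) = (5:ℝ) ^ r := by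
    rw [← Real.log_pow, Real.exp_log (by positivity)]
  have h := hst ((5:Gi) ^ (1600 * r)) (five_pow_ne _) y hy (r * Real.log 5) η (by positivity) hη hη1
    (by rw [hexp]; exact h25) M ρ (by rw [hexp]; exact h3) (by
      rw [hexp, sqrt_norm_mul]; exact h5)
  refine h.trans (ENNReal.ofReal_le_ofReal ?_)
  have h25' : Real.log 25 = 2 * Real.log 5 := by
    rw [show (25:ℝ) = 5 ^ 2 by norm_num, Real.log_pow]
    push_cast; ring
  have e1 : (Real.log 25 + dd a ((5:Gi) ^ (1600 * r))) / (r * Real.log 5) ≤ η := by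
    rw [div_le_iff₀ (by positivity), h25']
    push_cast at hdd
    nlinarith
  linarith

lemma arith_hM (X c : ℝ) (hX : 25 ≤ X) (hc : c ≤ 4 * X ^ 48) :
    4 * c * (X ^ 568 / X ^ 1600) * X ^ 688 < 1 := by
  have hX0 : 0 < X := by linarith
  have h1 : 4 * c * (X ^ 568 / X ^ 1600) * X ^ 688 ≤
      4 * (4 * X ^ 48) * (X ^ 568 / X ^ 1600) * X ^ 688 := by
    apply mul_le_mul_of_nonneg_right _ (by positivity)
    apply mul_le_mul_of_nonneg_right _ (by positivity)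
    linarith
  refine h1.trans_lt ?_
  have h4 : X ^ 1600 = X ^ 568 * (X ^ 688 * (X ^ 48 * X ^ 296)) := by
    rw [← pow_add, ← pow_add, ← pow_add]
  have h5 : 4 * (4 * X ^ 48) * (X ^ 568 / X ^ 1600) * X ^ 688 = 16 / X ^ 296 := by
    rw [h4]
    have p1 : X ^ 568 ≠ 0 := by positivity
    have p2 : X ^ 688 ≠ 0 := by positivity
    have p3 : X ^ 48 ≠ 0 := by positivity
    have p4 : X ^ 296 ≠ 0 := by positivity
    generalize X ^ 568 = a at *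
    generalize X ^ 688 = b at *
    generalize X ^ 48 = d at *
    generalize X ^ 296 = e at *
    field_simp
    norm_num
  rw [h5, div_lt_one (by positivity)]
  have h3 : X ^ 1 ≤ X ^ 296 := pow_le_pow_right₀ (by linarith) (by norm_num)
  rw [pow_one] at h3
  linarith

set_option maxHeartbeats 4000000 in
lemma caseII_aux (J : ℕ) (ε : ℝ) (hε : 0 < ε) (hε1 : ε ≤ 1) : ∃ H : Fin J → ℕ, (∀ i, 0 < H i) ∧
    Function.Injective H ∧
    ∀ M0 : ℕ, 0 < M0 → ∀ a : Gi → Gi → ℝ, Rad a →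
    (∀ c : ℝ, 0 < c → ∃ j0 : ℕ, ∀ j ≥ j0, dd a ((5:Gi) ^ j) ≤ c * j) →
    -(1 + ε) ≤ ∑ i : Fin J, (2:ℝ) ^ (i:ℕ) * a (M0 : Gi) (H i : Gi) := by
  classical
  obtain ⟨H, Cp, hH0, hHinj, hCp1, hpt⟩ := pointwise J (ε / 4) (by positivity)
  obtain ⟨w0, hw0⟩ := sieve_all (ε / (16 * 2 ^ J)) (by positivity)
  obtain ⟨Cs, hCs1, hst⟩ := state_prob
  refine ⟨H, hH0, hHinj, ?_⟩
  intro M0 hM0 a ha hdd
  have hA : (1:ℝ) ≤ 2 ^ J := one_le_pow₀ (by norm_num)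
  set A : ℝ := 2 ^ J with hAdef
  set η : ℝ := ε / (64 * A) with hηdef
  have hA0 : 0 < A := by linarith
  have hη : 0 < η := by positivity
  have hη1 : η ≤ 1 := by
    rw [hηdef, div_le_one (by positivity)]
    linarith
  have hlog : 0 < Real.log 5 := Real.log_pos (by norm_num)
  obtain ⟨j0, hj0⟩ := hdd (η * Real.log 5 / 3200) (by positivity)
  have hM0R : (1:ℝ) ≤ M0 := by exact_mod_cast hM0
  set K0 : ℝ := (M0:ℝ) ^ 2 / (25 * η) with hK0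
  have hK0p : 0 < K0 := by positivity
  have hev : ∀ B : ℝ, ∀ᶠ r : ℕ in Filter.atTop, B ≤ (5:ℝ) ^ r := fun B =>
    (tendsto_pow_atTop_atTop_of_one_lt (by norm_num : (1:ℝ) < 5)).eventually_ge_atTop B
  obtain ⟨r, ⟨hr1, hr2⟩, hr3, hr4, hr5⟩ := (((hev (25 + Cs * K0 ^ 3 + Cs * K0 ^ 5 + 8 * K0 + Cs +
    3 * Cp + 4 * A / ε)).and (tendsto_natCast_atTop_atTop.eventually_ge_atTop (4 / η))).and
    ((Filter.eventually_ge_atTop w0).and ((Filter.eventually_ge_atTop j0).and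
      (Filter.eventually_ge_atTop 2)))).exists
  set X : ℝ := (5:ℝ) ^ r with hX
  have q1 : 0 ≤ Cs * K0 ^ 3 := by positivity
  have q2 : 0 ≤ Cs * K0 ^ 5 := by positivity
  have q3 : 0 ≤ 4 * A / ε := by positivity
  have x1 : 25 ≤ X := by linarith
  have x2 : Cs * K0 ^ 3 ≤ X := by linarith
  have x3 : Cs * K0 ^ 5 ≤ X := by linarith
  have x4 : 8 * K0 ≤ X := by linarith
  have x5 : Cs ≤ X := by linarith
  have x6 : 3 * Cp ≤ X := by linarith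
  have x7 : 4 * A / ε ≤ X := by linarith
  have hX1 : 1 ≤ X := by linarith
  have hX0 : 0 < X := by linarith
  have xpow : ∀ {m n : ℕ}, m ≤ n → X ^ m ≤ X ^ n := fun h => pow_le_pow_right₀ hX1 h
  have h4r : (4:ℝ) ^ r ≤ X := pow_le_pow_left₀ (by norm_num) (by norm_num) r
  have hrX : (r:ℝ) ≤ X := by
    have : r < 5 ^ r := Nat.lt_pow_self (by norm_num)
    rw [hX]
    exact_mod_cast this.le
  have hrη : 4 ≤ η * r := by
    rw [div_le_iff₀ hη] at hr2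
    linarith
  set g : ℕ := 5 ^ (8 * r) with hgdef
  have hgX : (g:ℝ) = X ^ 8 := by
    rw [hgdef]; push_cast; rw [hX, ← pow_mul, mul_comm]
  have h5X : (5:ℝ) ^ (1600 * r) = X ^ 1600 := by rw [hX, ← pow_mul, mul_comm]
  have hg0 : 0 < g := by positivity
  clear_value g X
  obtain ⟨Y, hYp, hY1, hY2⟩ := Nat.exists_prime_lt_and_le_two_mul (g ^ 6) (by positivity)
  have hYR1 : X ^ 48 < Y := by
    have : ((g ^ 6 : ℕ) : ℝ) < Y := by exact_mod_cast hY1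
    rw [Nat.cast_pow, hgX, ← pow_mul] at this
    exact this
  have hYR2 : (Y:ℝ) ≤ 2 * X ^ 48 := by
    have : (Y:ℝ) ≤ ((2 * g ^ 6 : ℕ) : ℝ) := by exact_mod_cast hY2
    rw [Nat.cast_mul, Nat.cast_pow, hgX, ← pow_mul] at this
    exact this
  have hY0 : (0:ℝ) < Y := lt_trans (by positivity) hYR1
  set P : ℕ := primorial r with hP
  have hP0 : 0 < P := primorial_pos r
  have hPX : (P:ℝ) ≤ X := by
    have : P ≤ 4 ^ r := primorial_le_four_pow r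
    have : (P:ℝ) ≤ (4:ℝ) ^ r := by exact_mod_cast this
    linarith
  have hPY : P < Y := by
    have : (P:ℝ) < Y := by
      have := xpow (show 1 ≤ 48 by norm_num)
      rw [pow_one] at this
      linarith
    exact_mod_cast this
  have hgY : g < Y := by
    have : (g:ℝ) < Y := by
      rw [hgX]
      exact (xpow (by norm_num)).trans_lt hYR1
    exact_mod_cast this
  have hcop : Nat.Coprime Y P :=
    (Nat.Prime.coprime_iff_not_dvd hYp).mpr fun h => absurd (Nat.le_of_dvd hP0 h) (by omega)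
  have hddr : dd a ((5:Gi) ^ (1600 * r)) ≤ η * Real.log 5 / 3200 * ((1600 * r : ℕ) : ℝ) :=
    hj0 (1600 * r) (by omega)
  have h25 : 25 * η ≤ (5:ℝ) ^ r := by rw [← hX]; linarith
  have hpb := prob_bound Cs a r (by omega) η hη hη1 (hst a ha) h25 hrη hddr
  rw [h5X, ← hX] at hpb
  -- the base
  have hbase : (nu a ((5:Gi) ^ (1600 * r) * (M0:Gi))) (SS g ((g:ℝ) / (5:ℝ) ^ (1600 * r)))ᶜ ≤
      ENNReal.ofReal (2 * η) := by
    have hn : (((M0 : Gi).norm : ℤ) : ℝ) = (M0:ℝ) ^ 2 := by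
      rw [Zsqrtd.norm_natCast]; push_cast; ring
    have e1 : (((M0 : Gi).norm : ℤ) : ℝ) * X / (25 * η) = K0 * X := by
      rw [hn, hK0]; ring
    apply hpb (M0 : Gi) (by exact_mod_cast hM0.ne')
    · rw [e1, hgX, mul_pow]
      calc Cs * (K0 ^ 3 * X ^ 3) = (Cs * K0 ^ 3) * X ^ 3 := by ring
        _ ≤ X * X ^ 3 := mul_le_mul_of_nonneg_right x2 (by positivity)
        _ = X ^ 4 := by ring
        _ ≤ X ^ 8 := xpow (by norm_num)
    · rw [e1, hn, h5X, hgX, Real.sqrt_sq (by positivity), mul_pow]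
      have e2 : X ^ 8 / X ^ 1600 * (X ^ 1600 * (M0:ℝ)) = X ^ 8 * M0 := by
        field_simp
      rw [e2]
      calc Cs * (K0 ^ 5 * X ^ 5) = (Cs * K0 ^ 5) * X ^ 5 := by ring
        _ ≤ X * X ^ 5 := mul_le_mul_of_nonneg_right x3 (by positivity)
        _ = X ^ 6 := by ring
        _ ≤ X ^ 8 := xpow (by norm_num)
        _ ≤ X ^ 8 * M0 := le_mul_of_one_le_right (by positivity) hM0R
  -- the levels
  have hlev : ∀ m : ℕ, 0 < m → m < Y →
      (nu a ((5:Gi) ^ (1600 * r) * ((M0:Gi) * ⟨m, Y⟩)))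
        (SS (g ^ 43) ((g:ℝ) ^ 71 / (5:ℝ) ^ (1600 * r)))ᶜ ≤ ENNReal.ofReal (2 * η) := by
    intro m hm hmY
    have hmR : (m:ℝ) ≤ Y := by exact_mod_cast hmY.le
    have hm1 : (1:ℝ) ≤ m := by exact_mod_cast hm
    have hn : ((((M0 : Gi) * ⟨m, Y⟩).norm : ℤ) : ℝ) = (M0:ℝ) ^ 2 * ((m:ℝ) ^ 2 + (Y:ℝ) ^ 2) := by
      rw [Zsqrtd.norm_mul, Zsqrtd.norm_natCast, Zsqrtd.norm_def]
      push_cast
      ring
    have hne : ((M0 : Gi) * ⟨m, Y⟩) ≠ 0 := by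
      intro h
      rw [h] at hn
      simp only [Zsqrtd.norm_zero, Int.cast_zero] at hn
      have : 0 < (M0:ℝ) ^ 2 * ((m:ℝ) ^ 2 + (Y:ℝ) ^ 2) := by positivity
      linarith
    have e1 : ((((M0 : Gi) * ⟨m, Y⟩).norm : ℤ) : ℝ) * X / (25 * η) =
        K0 * ((m:ℝ) ^ 2 + (Y:ℝ) ^ 2) * X := by
      rw [hn, hK0]; ring
    have e3 : (m:ℝ) ^ 2 + (Y:ℝ) ^ 2 ≤ 8 * X ^ 96 := by
      have h1 : (Y:ℝ) ^ 2 ≤ (2 * X ^ 48) ^ 2 := pow_le_pow_left₀ hY0.le hYR2 2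
      have h2 : (m:ℝ) ^ 2 ≤ (Y:ℝ) ^ 2 := pow_le_pow_left₀ (by positivity) hmR 2
      have h3 : (2 * X ^ 48) ^ 2 = 4 * X ^ 96 := by ring
      linarith
    have e4 : K0 * ((m:ℝ) ^ 2 + (Y:ℝ) ^ 2) * X ≤ X ^ 98 := by
      calc K0 * ((m:ℝ) ^ 2 + (Y:ℝ) ^ 2) * X ≤ K0 * (8 * X ^ 96) * X := by
            apply mul_le_mul_of_nonneg_right _ hX0.le
            exact mul_le_mul_of_nonneg_left e3 hK0p.le
        _ = (8 * K0) * X ^ 97 := by ring
        _ ≤ X * X ^ 97 := mul_le_mul_of_nonneg_right x4 (by positivity)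
        _ = X ^ 98 := by ring
    have e5 : 0 ≤ K0 * ((m:ℝ) ^ 2 + (Y:ℝ) ^ 2) * X := by positivity
    apply hpb _ hne
    · rw [e1, Nat.cast_pow, hgX, ← pow_mul]
      calc Cs * (K0 * ((m:ℝ) ^ 2 + (Y:ℝ) ^ 2) * X) ^ 3 ≤ X * (X ^ 98) ^ 3 :=
            mul_le_mul x5 (pow_le_pow_left₀ e5 e4 3) (by positivity) hX0.le
        _ = X ^ 295 := by ring
        _ ≤ X ^ (8 * 43) := xpow (by norm_num)
    · rw [e1, hn, h5X, hgX, ← pow_mul]
      have e6 : (1:ℝ) ≤ Real.sqrt ((M0:ℝ) ^ 2 * ((m:ℝ) ^ 2 + (Y:ℝ) ^ 2)) := by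
        rw [Real.one_le_sqrt]
        nlinarith [sq_nonneg (Y:ℝ), one_le_pow₀ (n := 2) hM0R, one_le_pow₀ (n := 2) hm1]
      have e7 : X ^ (8 * 71) / X ^ 1600 * (X ^ 1600 *
          Real.sqrt ((M0:ℝ) ^ 2 * ((m:ℝ) ^ 2 + (Y:ℝ) ^ 2))) =
          X ^ 568 * Real.sqrt ((M0:ℝ) ^ 2 * ((m:ℝ) ^ 2 + (Y:ℝ) ^ 2)) := by
        field_simp
      rw [e7]
      calc Cs * (K0 * ((m:ℝ) ^ 2 + (Y:ℝ) ^ 2) * X) ^ 5 ≤ X * (X ^ 98) ^ 5 :=
            mul_le_mul x5 (pow_le_pow_left₀ e5 e4 5) (by positivity) hX0.le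
        _ = X ^ 491 := by ring
        _ ≤ X ^ 568 := xpow (by norm_num)
        _ ≤ _ := le_mul_of_one_le_right (by positivity) e6
  have c1 : (g:ℝ) / (5:ℝ) ^ (1600 * r) ≤ (g:ℝ) ^ 71 / (5:ℝ) ^ (1600 * r) := by
    have h1 : (g:ℝ) ≤ (g:ℝ) ^ 71 := by
      rw [hgX, ← pow_mul]
      exact xpow (by norm_num)
    exact div_le_div_of_nonneg_right h1 (by positivity)
  have c2 : ∀ m < Y, 4 * cz ⟨m, Y⟩ * ((g:ℝ) ^ 71 / (5:ℝ) ^ (1600 * r)) * ((g ^ 43 : ℕ):ℝ) ^ 2 < 1 := by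
    intro m hm
    have hmR : (m:ℝ) ≤ Y := by exact_mod_cast hm.le
    have hcz : cz ⟨m, Y⟩ ≤ 4 * X ^ 48 := by
      unfold cz
      simp only [Int.natAbs_natCast]
      push_cast
      linarith
    rw [Nat.cast_pow, hgX, h5X, ← pow_mul, ← pow_mul, ← pow_mul]
    exact arith_hM X _ x1 hcz
  have c3 : Cp * ((g * P : ℕ) : ℝ) ^ 2 * (1 + 2 * g) ≤ Y := by
    rw [Nat.cast_mul, hgX]
    have h1 : (X ^ 8 * (P:ℝ)) ^ 2 ≤ X ^ 18 := by
      calc (X ^ 8 * (P:ℝ)) ^ 2 ≤ (X ^ 8 * X) ^ 2 := by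
            apply pow_le_pow_left₀ (by positivity)
            exact mul_le_mul_of_nonneg_left hPX (by positivity)
        _ = X ^ 18 := by ring
    have h2 : (1:ℝ) ≤ X ^ 8 := one_le_pow₀ hX1
    calc Cp * (X ^ 8 * (P:ℝ)) ^ 2 * (1 + 2 * X ^ 8) ≤ Cp * X ^ 18 * (3 * X ^ 8) := by
          apply mul_le_mul (mul_le_mul_of_nonneg_left h1 (by linarith)) (by linarith)
            (by positivity) (by positivity)
      _ = (3 * Cp) * X ^ 26 := by ring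
      _ ≤ X * X ^ 26 := mul_le_mul_of_nonneg_right x6 (by positivity)
      _ = X ^ 27 := by ring
      _ ≤ X ^ 48 := xpow (by norm_num)
      _ ≤ Y := hYR1.le
  have c4 : 8 * P * r ≤ Y := by
    have : (8 * (P:ℝ) * r) ≤ Y := by
      calc 8 * (P:ℝ) * r ≤ X * X * X := by
            apply mul_le_mul _ hrX (by positivity) (by positivity)
            apply mul_le_mul _ hPX (by positivity) (by positivity)
            linarith
        _ = X ^ 3 := by ring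
        _ ≤ X ^ 48 := xpow (by norm_num)
        _ ≤ Y := hYR1.le
    exact_mod_cast this
  have c5 : ∀ κ : ℕ, 0 < κ → κ ≤ g →
      (((Finset.range Y).filter (fun m => Nat.Coprime (m ^ 2 + Y ^ 2) P ∧
        ¬ Nat.Coprime (m ^ 2 + Y ^ 2) κ)).card : ℝ) ≤
        (ε / (16 * A)) * ((Finset.range Y).filter (fun m => Nat.Coprime (m ^ 2 + Y ^ 2) P)).card :=
    fun κ hκ hκg => hw0 r hr3 κ Y hκ (by rw [← hgdef]; exact hκg) hcop c4
  have c6 : 2 ∣ P := by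
    rw [hP]
    exact (Nat.prime_two.dvd_primorial_iff).mpr hr5
  have c7 : g < 5 ^ (1600 * r) := by
    rw [hgdef]; exact Nat.pow_lt_pow_right (by norm_num) (by omega)
  have hass := assemble J (ε / 4) (by positivity) H Cp hpt a ha M0 hM0 (1600 * r) g P Y (g ^ 43)
    ((g:ℝ) ^ 71 / (5:ℝ) ^ (1600 * r)) (2 * η) (ε / (16 * A)) (by positivity) (by linarith) hg0 hP0
    c6 hYp hPY hgY c7 (Nat.le_self_pow (by norm_num) g) c1 c2 c3 hbase hlev c5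
  -- conclusion
  set Z := (Finset.range Y).filter (fun m => Nat.Coprime (m ^ 2 + Y ^ 2) P) with hZ
  have h0Z : 0 ∈ Z := by
    rw [hZ, Finset.mem_filter, Finset.mem_range]
    refine ⟨hYp.pos, ?_⟩
    rw [zero_pow (by norm_num), zero_add]
    exact Nat.Coprime.pow_left 2 hcop
  have hcard : g ≤ Z.card := card_ge P Y g hP0 hYp hPY (by
    have : (P:ℝ) * g ≤ Y := by
      rw [hgX]
      calc (P:ℝ) * X ^ 8 ≤ X * X ^ 8 := mul_le_mul_of_nonneg_right hPX (by positivity)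
        _ = X ^ 9 := by ring
        _ ≤ X ^ 48 := xpow (by norm_num)
        _ ≤ Y := hYR1.le
    exact_mod_cast this)
  have hcardR : X ^ 8 ≤ (Z.card : ℝ) := by
    rw [← hgX]; exact_mod_cast hcard
  have her : ((Z.erase 0).card : ℝ) = (Z.card : ℝ) - 1 := by
    rw [Finset.card_erase_of_mem h0Z, Nat.cast_sub (by omega), Nat.cast_one]
  refine final_arith ε _ A (Z.card : ℝ) ((Z.erase 0).card : ℝ) hε hA her
    (sum_abs_le J a ha M0 hM0 H) ?_ (by linarith [xpow (show 0 ≤ 8 by norm_num)]) ?_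
  · have h1 : X ^ 1 ≤ X ^ 8 := xpow (by norm_num)
    rw [pow_one] at h1
    rw [div_le_iff₀ hε] at x7
    nlinarith
  · exact hass

theorem caseII (J : ℕ) (ε : ℝ) (hε : 0 < ε) : ∃ H : Fin J → ℕ, (∀ i, 0 < H i) ∧ Function.Injective H ∧
    ∀ M0 : ℕ, 0 < M0 → ∀ a : Gi → Gi → ℝ, Rad a →
    (∀ c : ℝ, 0 < c → ∃ j0 : ℕ, ∀ j ≥ j0, dd a ((5:Gi) ^ j) ≤ c * j) →
    -(1 + ε) ≤ ∑ i : Fin J, (2:ℝ) ^ (i:ℕ) * a (M0 : Gi) (H i : Gi) := by
  obtain ⟨H, h1, h2, h3⟩ := caseII_aux J (min ε 1) (lt_min hε one_pos) (min_le_right _ _)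
  refine ⟨H, h1, h2, fun M0 hM0 a ha hdd => ?_⟩
  have h4 := h3 M0 hM0 a ha hdd
  have h5 := min_le_left ε 1
  linarith

end G8
export G8 (caseII)
end Pool.Agent.Helper378.PD
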