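import Pool.Agent.Helper378.PD.Base
set_option autoImplicit false
open MeasureTheory
namespace Pool.Agent.Helper378.PD
namespace I1

lemma pp_mul : pp * star pp = 5 := by
  ext <;> simp [pp]

lemma pp_cop : IsCoprime pp (star pp) := by
  refine ⟨⟨1, -1⟩, -1, ?_⟩
  ext <;> simp [pp]

lemma pp_ne : pp ≠ 0 := by
  intro h
  have := congrArg Zsqrtd.re h
  simp [pp] at this

lemma pp_cop_int (N : ℤ) (h : IsCoprime (5 : ℤ) N) : IsCoprime pp (N : Gi) := by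
  have h1 := h.map (Int.castRingHom Gi)
  have h2 : (Int.castRingHom Gi) 5 = pp * star pp := by
    rw [pp_mul]
    simp
  rw [h2] at h1
  exact h1.of_mul_left_left

lemma main_div (z : Gi) (hz : z ≠ 0) : ∃ e : ℕ, ∀ (m : ℕ) (Y : Gi), pp ^ m ∣ z * Y → pp ^ (m - e) ∣ Y := by
  have hN0 : z.norm.natAbs ≠ 0 := by
    intro h
    have h1 : z.norm = 0 := Int.natAbs_eq_zero.1 h
    exact hz (GaussianInt.norm_eq_zero.1 h1)
  obtain ⟨e, N', hN', hN⟩ := Nat.exists_eq_pow_mul_and_not_dvd hN0 5 (by norm_num)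
  refine ⟨e, fun m Y h => ?_⟩
  have h1 : (z * star z : Gi) = ((5 ^ e * N' : ℕ) : Gi) := by
    rw [← Zsqrtd.norm_eq_mul_conj, ← hN]
    have := GaussianInt.natCast_natAbs_norm (α := Gi) z
    rw [this]
  have h2 : pp ^ m ∣ ((N' : ℤ) : Gi) * (star pp ^ e * (pp ^ e * Y)) := by
    have h3 : ((N' : ℤ) : Gi) * (star pp ^ e * (pp ^ e * Y)) = star z * (z * Y) := by
      have h4 : star z * (z * Y) = (z * star z) * Y := by ring
      rw [h4, h1]
      push_cast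
      rw [← pp_mul, mul_pow]
      ring
    rw [h3]
    exact Dvd.dvd.mul_left h _
  have h5 : IsCoprime (5 : ℤ) (N' : ℤ) := by
    have : Nat.Coprime 5 N' := (Nat.Prime.coprime_iff_not_dvd Nat.prime_five).2 hN'
    exact_mod_cast Nat.isCoprime_iff_coprime.2 this
  have h6 := (pp_cop_int _ h5).pow_left (m := m) |>.dvd_of_dvd_mul_left h2
  have h7 : IsCoprime (pp ^ m) (star pp ^ e) := pp_cop.pow
  have h8 := h7.dvd_of_dvd_mul_left h6
  rcases le_or_gt m e with hme | hme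
  · rw [Nat.sub_eq_zero_of_le hme, pow_zero]
    exact one_dvd _
  · have h9 : pp ^ m = pp ^ e * pp ^ (m - e) := by
      rw [← pow_add]
      congr 1
      omega
    rw [h9] at h8
    exact (mul_dvd_mul_iff_left (pow_ne_zero e pp_ne)).1 h8

lemma int_div (s : ℕ) (x : ℤ) (h : pp ^ s ∣ (x : Gi)) : (5 : ℤ) ^ s ∣ x := by
  have h1 : star pp ^ s ∣ (x : Gi) := by
    obtain ⟨c, hc⟩ := h
    refine ⟨star c, ?_⟩
    have := congrArg star hc
    simp only [star_mul', star_pow] at this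
    rw [← this]
    simp
  have h2 : pp ^ s * star pp ^ s ∣ (x : Gi) := (pp_cop.pow).mul_dvd h h1
  rw [← mul_pow, pp_mul] at h2
  have h3 : (((5 : ℤ) ^ s : ℤ) : Gi) ∣ (x : Gi) := by
    push_cast
    exact h2
  exact (Zsqrtd.intCast_dvd_intCast _ _).1 h3

lemma UU_mul (A a : ℕ) (ha : a < A) :
    UU A a * ⟨5 * a, 1⟩ = ⟨5 * a, -1⟩ * (∏ b ∈ Finset.range A, ((25 * b ^ 2 + 1 : ℕ) : Gi)) := by
  have h1 := Finset.mul_prod_erase (Finset.range A) (fun b => ((25 * b ^ 2 + 1 : ℕ) : Gi))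
    (Finset.mem_range.2 ha)
  have h2 : ((⟨5 * a, -1⟩ : Gi)) * ⟨5 * a, 1⟩ = ((25 * a ^ 2 + 1 : ℕ) : Gi) := by
    have h3 : ((25 * a ^ 2 + 1 : ℕ) : Gi) = ((25 * (a : ℤ) ^ 2 + 1 : ℤ) : Gi) := by
      push_cast
      rfl
    rw [h3]
    ext
    · rw [Zsqrtd.re_intCast]
      simp
      ring
    · rw [Zsqrtd.im_intCast]
      simp
  unfold UU
  rw [← h1, ← h2]
  ring

lemma P_cop (A : ℕ) : IsCoprime pp (∏ b ∈ Finset.range A, ((25 * b ^ 2 + 1 : ℕ) : Gi)) := by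
  apply IsCoprime.prod_right
  intro b _
  have h := pp_cop_int ((25 * b ^ 2 + 1 : ℕ) : ℤ) (by
    refine ⟨-(5 * b ^ 2), 1, ?_⟩
    push_cast
    ring)
  simpa using h

/-! TARGETS -/

open Classical in
theorem count_pairs (n : ℕ) (B : Fin n → Gi) (hB : ∀ i, B i ≠ 0) : ∃ C : ℝ, 0 ≤ C ∧ ∀ m k : ℕ,
    ((Finset.univ.filter (fun q : (Fin n × Fin (5 ^ m)) × (Fin n × Fin (5 ^ m)) =>
      pp ^ m ∣ B q.1.1 * UU (5 ^ m) q.1.2 * star pp ^ k - B q.2.1 * UU (5 ^ m) q.2.2 * star pp ^ k)).card : ℝ)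
      ≤ C * (5:ℝ) ^ m := by
  have he : ∀ i, ∃ e : ℕ, ∀ (m : ℕ) (Y : Gi), pp ^ m ∣ B i * Y → pp ^ (m - e) ∣ Y :=
    fun i => main_div (B i) (hB i)
  choose e he using he
  set l := ∑ i, e i with hl
  have hel : ∀ i, e i ≤ l := fun i => Finset.single_le_sum (fun _ _ => Nat.zero_le _) (Finset.mem_univ i)
  refine ⟨(n : ℝ) ^ 2 * 5 ^ (l + 1), by positivity, fun m k => ?_⟩
  set s := m - l - 1 with hs
  -- key divisibility
  have key : ∀ (i j : Fin n) (a a' a'' : Fin (5 ^ m)),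
      pp ^ m ∣ B i * UU (5 ^ m) a * star pp ^ k - B j * UU (5 ^ m) a' * star pp ^ k →
      pp ^ m ∣ B i * UU (5 ^ m) a * star pp ^ k - B j * UU (5 ^ m) a'' * star pp ^ k →
      (5 : ℤ) ^ s ∣ ((a' : ℕ) : ℤ) - ((a'' : ℕ) : ℤ) := by
    intro i j a a' a'' h1 h2
    have h3 : pp ^ m ∣ star pp ^ k * (B j * (UU (5 ^ m) a' - UU (5 ^ m) a'')) := by
      have h4 := dvd_sub h2 h1
      have h5 : B i * UU (5 ^ m) a * star pp ^ k - B j * UU (5 ^ m) a'' * star pp ^ k -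
          (B i * UU (5 ^ m) a * star pp ^ k - B j * UU (5 ^ m) a' * star pp ^ k) =
          star pp ^ k * (B j * (UU (5 ^ m) a' - UU (5 ^ m) a'')) := by ring
      rwa [h5] at h4
    have h6 := (pp_cop.pow (m := m) (n := k)).dvd_of_dvd_mul_left h3
    have h7 := he j m _ h6
    set P : Gi := ∏ b ∈ Finset.range (5 ^ m), ((25 * b ^ 2 + 1 : ℕ) : Gi) with hP
    have u1 := UU_mul (5 ^ m) a' a'.2
    have u2 := UU_mul (5 ^ m) a'' a''.2
    rw [← hP] at u1 u2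
    have h8 : (UU (5 ^ m) a' - UU (5 ^ m) a'') * ((⟨5 * (a' : ℕ), 1⟩ : Gi) * ⟨5 * (a'' : ℕ), 1⟩) =
        P * (((⟨0, 1⟩ : Gi) * 2) * (star pp * (pp * (((((a' : ℕ) : ℤ) - ((a'' : ℕ) : ℤ)) : ℤ) : Gi)))) := by
      have e1 : (UU (5 ^ m) a' - UU (5 ^ m) a'') * ((⟨5 * (a' : ℕ), 1⟩ : Gi) * ⟨5 * (a'' : ℕ), 1⟩) =
          (UU (5 ^ m) a' * ⟨5 * (a' : ℕ), 1⟩) * ⟨5 * (a'' : ℕ), 1⟩ -
          (UU (5 ^ m) a'' * ⟨5 * (a'' : ℕ), 1⟩) * ⟨5 * (a' : ℕ), 1⟩ := by ring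
      rw [e1, u1, u2]
      have e2 : (⟨5 * (a' : ℕ), -1⟩ : Gi) * P * ⟨5 * (a'' : ℕ), 1⟩ - ⟨5 * (a'' : ℕ), -1⟩ * P * ⟨5 * (a' : ℕ), 1⟩ =
          P * ((⟨5 * (a' : ℕ), -1⟩ : Gi) * ⟨5 * (a'' : ℕ), 1⟩ - ⟨5 * (a'' : ℕ), -1⟩ * ⟨5 * (a' : ℕ), 1⟩) := by ring
      rw [e2]
      congr 1
      have e3 : star pp * (pp * (((((a' : ℕ) : ℤ) - ((a'' : ℕ) : ℤ)) : ℤ) : Gi)) =
          5 * (((((a' : ℕ) : ℤ) - ((a'' : ℕ) : ℤ)) : ℤ) : Gi) := by
        rw [← mul_assoc, mul_comm (star pp) pp, pp_mul]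
      rw [e3]
      ext
      · simp
        ring
      · simp
        ring
    have h9 : pp ^ (m - e j) ∣ P * (((⟨0, 1⟩ : Gi) * 2) * (star pp * (pp *
        (((((a' : ℕ) : ℤ) - ((a'' : ℕ) : ℤ)) : ℤ) : Gi)))) := by
      rw [← h8]
      exact Dvd.dvd.mul_right h7 _
    have c1 : IsCoprime (pp ^ (m - e j)) P := (P_cop (5 ^ m)).pow_left
    have c2 : IsCoprime (pp ^ (m - e j)) ((⟨0, 1⟩ : Gi) * 2) := by
      apply IsCoprime.pow_left
      apply IsCoprime.mul_right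
      · refine ⟨0, ⟨0, -1⟩, ?_⟩
        ext <;> simp
      · have := pp_cop_int 2 ⟨1, -2, by norm_num⟩
        simpa using this
    have c3 : IsCoprime (pp ^ (m - e j)) (star pp) := pp_cop.pow_left
    have h10 := c3.dvd_of_dvd_mul_left (c2.dvd_of_dvd_mul_left (c1.dvd_of_dvd_mul_left h9))
    have h11 : pp ^ s ∣ (((((a' : ℕ) : ℤ) - ((a'' : ℕ) : ℤ)) : ℤ) : Gi) := by
      rcases Nat.eq_zero_or_pos (m - e j) with h0 | h0
      · have : s = 0 := by
          have := hel j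
          omega
        rw [this, pow_zero]
        exact one_dvd _
      · have h12 : pp ^ (m - e j) = pp * pp ^ (m - e j - 1) := by
          rw [← pow_succ']
          congr 1
          omega
        rw [h12] at h10
        have h13 := (mul_dvd_mul_iff_left pp_ne).1 h10
        refine (pow_dvd_pow pp ?_).trans h13
        have := hel j
        omega
    exact int_div s _ h11
  have hcard : (Finset.univ.filter (fun q : (Fin n × Fin (5 ^ m)) × (Fin n × Fin (5 ^ m)) =>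
      pp ^ m ∣ B q.1.1 * UU (5 ^ m) q.1.2 * star pp ^ k - B q.2.1 * UU (5 ^ m) q.2.2 * star pp ^ k)).card ≤
      ((Finset.univ : Finset (Fin n × Fin (5 ^ m))) ×ˢ
        ((Finset.univ : Finset (Fin n)) ×ˢ Finset.range (5 ^ (l + 1)))).card := by
    apply Finset.card_le_card_of_injOn (fun q => (q.1, (q.2.1, (q.2.2 : ℕ) / 5 ^ s)))
    · intro q hq
      simp only [Finset.coe_product, Finset.coe_univ, Set.mem_prod, Set.mem_univ, Finset.coe_range,
        Set.mem_Iio, true_and]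
      have h1 : (q.2.2 : ℕ) < 5 ^ m := q.2.2.2
      rw [Nat.div_lt_iff_lt_mul (by positivity), ← pow_add]
      refine h1.trans_le (Nat.pow_le_pow_right (by norm_num) ?_)
      omega
    · intro q hq q' hq' h
      simp only [Prod.mk.injEq] at h
      obtain ⟨h1, h2, h3⟩ := h
      simp only [Finset.coe_filter, Finset.mem_univ, true_and, Set.mem_setOf_eq] at hq hq'
      rw [h1, h2] at hq
      have h4 := key _ _ _ _ _ hq hq'
      have h5 : (q.2.2 : ℕ) % 5 ^ s = (q'.2.2 : ℕ) % 5 ^ s := by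
        have h6 : ((q.2.2 : ℕ) : ℤ) ≡ ((q'.2.2 : ℕ) : ℤ) [ZMOD ((5 ^ s : ℕ) : ℤ)] := by
          apply Int.ModEq.symm
          rw [Int.modEq_iff_dvd]
          push_cast
          exact h4
        exact (Int.natCast_modEq_iff.1 h6)
      have h7 : (q.2.2 : ℕ) = (q'.2.2 : ℕ) := by
        rw [← Nat.div_add_mod (q.2.2 : ℕ) (5 ^ s), ← Nat.div_add_mod (q'.2.2 : ℕ) (5 ^ s), h3, h5]
      apply Prod.ext h1
      exact Prod.ext h2 (Fin.ext h7)
  have h20 : (((Finset.univ : Finset (Fin n × Fin (5 ^ m))) ×ˢ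
        ((Finset.univ : Finset (Fin n)) ×ˢ Finset.range (5 ^ (l + 1)))).card : ℝ) =
      (n : ℝ) ^ 2 * 5 ^ (l + 1) * 5 ^ m := by
    rw [Finset.card_product, Finset.card_product]
    simp only [Finset.card_univ, Fintype.card_prod, Fintype.card_fin, Finset.card_range]
    push_cast
    ring
  calc _ ≤ _ := Nat.cast_le.2 hcard
    _ = _ := h20

end I1
export I1 (count_pairs)
end Pool.Agent.Helper378.PD
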