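import Pool.Agent.Helper378.PD.Base
import Pool.Agent.Helper378.PD.C1
import Pool.Agent.Helper378.PD.D4
import Pool.Agent.Helper378.PD.D5
import Pool.Agent.Helper378.PD.E2
import Pool.Agent.Helper378.PD.E3
import Pool.Agent.Helper378.PD.E4
import Pool.Agent.Helper378.PD.I1
set_option autoImplicit false
open MeasureTheory
namespace Pool.Agent.Helper378.PD
namespace I2

/-! auxiliary -/

lemma toK_coe (w : Gi) : ((toK w : K) : ℂ) = GaussianInt.toComplex w := rfl

lemma toK_mul (w z : Gi) : toK (w * z) = toK w * toK z := by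
  apply Subtype.ext
  simp [toK_coe]

lemma toK_sub (w z : Gi) : toK (w - z) = toK w - toK z := by
  apply Subtype.ext
  simp [toK_coe]

lemma toK_nat (n : ℕ) : toK ((n : ℕ) : Gi) = (n : K) := by
  apply Subtype.ext
  simp [toK_coe]

lemma norm_toK (w : Gi) : (w.norm : ℝ) = ‖((toK w : K) : ℂ)‖ ^ 2 := by
  rw [toK_coe, ← Complex.normSq_eq_norm_sq, GaussianInt.intCast_real_norm]

lemma toK_ne {w : Gi} (hw : w ≠ 0) : toK w ≠ 0 := by
  intro h
  have h1 : ((toK w : K) : ℂ) = 0 := by rw [h]; rfl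
  rw [toK_coe] at h1
  exact hw (GaussianInt.toComplex_eq_zero.1 h1)

lemma norm_nat (n : ℕ) : ((n : Gi)).norm = (n:ℤ) ^ 2 := by
  rw [Zsqrtd.norm_natCast]; ring

lemma norm_pos' {w : Gi} (hw : w ≠ 0) : 0 < (w.norm : ℝ) := by
  have := GaussianInt.norm_pos.2 hw
  exact_mod_cast this

lemma rep (v : K) : ∃ (D0 : ℕ) (w0 : Gi), 0 < D0 ∧ toK w0 = (D0 : K) * v := by
  obtain ⟨z, p, q, rfl⟩ := v
  refine ⟨p.den * q.den, ⟨p.num * q.den, q.num * p.den⟩, Nat.mul_pos p.pos q.pos, ?_⟩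
  apply Subtype.ext
  have hp : (p : ℂ) = p.num / p.den := by exact_mod_cast (Rat.num_div_den p).symm
  have hq : (q : ℂ) = q.num / q.den := by exact_mod_cast (Rat.num_div_den q).symm
  have hp0 : (p.den : ℂ) ≠ 0 := by exact_mod_cast p.den_nz
  have hq0 : (q.den : ℂ) ≠ 0 := by exact_mod_cast q.den_nz
  simp only [toK_coe, GaussianInt.toComplex_def]
  push_cast
  rw [hp, hq]
  field_simp

lemma rep_fam (n : ℕ) (x : Fin n → K) : ∃ (M : ℕ) (B : Fin n → Gi), 0 < M ∧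
    ∀ i, toK (B i) = (M : K) * x i := by
  choose d w hd hw using fun i => rep (x i)
  refine ⟨∏ i, d i, fun i => ((∏ j ∈ Finset.univ.erase i, d j : ℕ) : Gi) * w i,
    Finset.prod_pos fun i _ => hd i, fun i => ?_⟩
  rw [toK_mul, toK_nat, hw, ← mul_assoc, ← Nat.cast_mul, Finset.prod_erase_mul _ _ (Finset.mem_univ i)]

/-- windowed function -/
noncomputable def GG (F : K → ℝ) (x : K) : ℝ := F x * lens (x : ℂ)

lemma aOf_rep (F : K → ℝ) {D0 : ℕ} {w0 : Gi} {x : K} (hD : 0 < D0) (h : toK w0 = (D0 : K) * x) :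
    aOf F (D0 : Gi) w0 = GG F x := by
  have h1 : toK w0 / toK ((D0 : ℕ) : Gi) = x := by
    rw [toK_nat, h]
    have : (D0 : K) ≠ 0 := by exact_mod_cast hD.ne'
    field_simp
  unfold aOf GG
  rw [h1]

lemma aOf_eq {F : K → ℝ} (hF : IsPD F) (x : K) {D w : Gi} (hD : D ≠ 0)
    (h : (w.norm : ℝ) = ‖(x : ℂ)‖ ^ 2 * D.norm) : aOf F D w = GG F x := by
  obtain ⟨D0, w0, hD0, hw0⟩ := rep x
  rw [← aOf_rep F hD0 hw0]
  refine (window F hF).1.norm D (D0 : Gi) w w0 hD (by exact_mod_cast hD0.ne') ?_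
  have h1 : (w0.norm : ℝ) = D0 ^ 2 * ‖(x : ℂ)‖ ^ 2 := by
    rw [norm_toK, hw0]
    push_cast
    rw [norm_mul, mul_pow]
    simp
  have h2 : (((D0 : Gi)).norm : ℝ) = (D0 : ℝ) ^ 2 := by
    rw [norm_nat]; push_cast; ring
  have h3 : (w.norm : ℝ) * ((D0 : Gi)).norm = w0.norm * D.norm := by
    rw [h, h1, h2]; ring
  exact_mod_cast h3

lemma GG_sub {F : K → ℝ} (hF : IsPD F) (x : K) : |GG F x - F x| ≤ 2 * ‖(x : ℂ)‖ := by
  obtain ⟨D0, w0, hD0, hw0⟩ := rep x
  have h := (window F hF).2 (D0 : Gi) w0 (by exact_mod_cast hD0.ne')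
  rw [aOf_rep F hD0 hw0] at h
  have h1 : toK w0 / toK ((D0 : ℕ) : Gi) = x := by
    rw [toK_nat, hw0]
    have : (D0 : K) ≠ 0 := by exact_mod_cast hD0.ne'
    field_simp
  rwa [h1] at h

lemma GG_abs {F : K → ℝ} (hF : IsPD F) (x : K) : |GG F x| ≤ 1 := by
  obtain ⟨D0, w0, hD0, hw0⟩ := rep x
  rw [← aOf_rep F hD0 hw0]
  exact a_abs_le _ (window F hF).1 _ (by exact_mod_cast hD0.ne') _

lemma F_abs {F : K → ℝ} (hF : IsPD F) (x : K) : |F x| ≤ 1 := by
  have h1 := hF.psd 2 ![x, 0] ![1, 1]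
  have h2 := hF.psd 2 ![x, 0] ![1, -1]
  have h3 : F (-x) = F x := hF.rad _ _ (by push_cast; rw [norm_neg])
  simp [Fin.sum_univ_two, hF.one, h3] at h1 h2
  rw [abs_le]
  constructor <;> linarith

lemma psd_fin {a : Gi → Gi → ℝ} (ha : Rad a) {D : Gi} (hD : D ≠ 0) {ι : Type} [Fintype ι]
    (x : ι → Gi) (c : ι → ℝ) : 0 ≤ ∑ i, ∑ j, c i * c j * a D (x i - x j) := by
  let e := (Fintype.equivFin ι).symm
  have h := ha.psd D hD (Fintype.card ι) (fun i => x (e i)) (fun i => c (e i))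
  rw [← Equiv.sum_comp e]
  refine h.trans (le_of_eq (Finset.sum_congr rfl fun i _ => ?_))
  rw [← Equiv.sum_comp e]

open Classical in
lemma host_fin (a : Gi → Gi → ℝ) (ha : Rad a) (D : Gi) (hD : D ≠ 0) (z : Gi) (hz : z ≠ 0)
    {ι : Type} [Fintype ι] (w : ι → Gi) (s : ℝ) (hs : 0 ≤ s) :
    ∫ t in {t | f a (D * z) t ≤ s * (z.norm * f a D (z • t))}, ‖∑ i, E (w i • t)‖ ^ 2 ∂(nu a (D * z)) ≤
      s * z.norm * (Finset.univ.filter (fun p : ι × ι => z ∣ w p.1 - w p.2)).card := by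
  let e := (Fintype.equivFin ι).symm
  have h := host a ha D hD z hz (Fintype.card ι) (fun i => w (e i)) s hs
  have h1 : ∀ t : T2, ∑ i, E (w i • t) = ∑ i, E (w (e i) • t) := fun t => (Equiv.sum_comp e _).symm
  simp_rw [h1]
  refine h.trans (le_of_eq ?_)
  congr 2
  refine Finset.card_bij (fun p _ => (e p.1, e p.2)) ?_ ?_ ?_
  · intro p hp
    simpa using hp
  · intro p _ q _ h
    simp only [Prod.mk.injEq, EmbeddingLike.apply_eq_iff_eq] at h
    exact Prod.ext h.1 h.2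
  · intro q hq
    refine ⟨(e.symm q.1, e.symm q.2), ?_, ?_⟩
    · simpa using hq
    · simp

lemma E_norm (t : T2) : ‖E t‖ = 1 := by
  unfold E; simp

lemma E_add (s t : T2) : E (s + t) = E s * E t := by
  unfold E
  rw [Prod.fst_add, AddCircle.toCircle_add, Circle.coe_mul]

lemma E_sub (s t : T2) : E (s - t) = E s * (starRingEnd ℂ) (E t) := by
  have h1 : E (s - t) * E t = E s := by rw [← E_add]; simp
  have h2 : E t * (starRingEnd ℂ) (E t) = 1 := by
    rw [Complex.mul_conj, Complex.normSq_eq_norm_sq, E_norm]; simp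
  calc E (s - t) = E (s - t) * (E t * (starRingEnd ℂ) (E t)) := by rw [h2, mul_one]
    _ = _ := by rw [← mul_assoc, h1]

lemma smul_cont (z : Gi) : Continuous (fun t : T2 => z • t) := by
  have : (fun t : T2 => z • t) = fun t : T2 => (z.re • t.1 - z.im • t.2, z.im • t.1 + z.re • t.2) := rfl
  rw [this]
  fun_prop

lemma E_cont : Continuous E := by
  unfold E
  have h : Continuous (AddCircle.toCircle : AddCircle (1:ℝ) → Circle) := AddCircle.continuous_toCircle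
  exact continuous_subtype_val.comp (h.comp continuous_fst)

/-! integrals -/

lemma nu_int {a : Gi → Gi → ℝ} (ha : Rad a) {D : Gi} (hD : D ≠ 0) {g : T2 → ℂ}
    (hg : Continuous g) {C : ℝ} (hC : ∀ t, ‖g t‖ ≤ C) : Integrable g (nu a D) := by
  haveI := nu_prob a ha D hD
  exact Integrable.of_bound hg.aestronglyMeasurable C (Filter.Eventually.of_forall hC)

lemma sum_int {a : Gi → Gi → ℝ} (ha : Rad a) {D : Gi} (hD : D ≠ 0) {ι : Type} [Fintype ι]
    (w : ι → Gi) : ∫ t, (∑ i, E (w i • t)) ∂(nu a D) = ((∑ i, a D (w i) : ℝ) : ℂ) := by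
  rw [integral_finsetSum]
  · simp_rw [nu_coeff a ha D hD]
    push_cast
    rfl
  · intro i _
    exact nu_int ha hD (E_cont.comp (smul_cont _)) (C := 1) (fun t => (E_norm _).le)

lemma sum_sq {ι : Type} [Fintype ι] (w : ι → Gi) (t : T2) :
    ((‖∑ i, E (w i • t)‖ ^ 2 : ℝ) : ℂ) = ∑ p : ι × ι, E ((w p.1 - w p.2) • t) := by
  rw [← Complex.normSq_eq_norm_sq, ← Complex.mul_conj, map_sum, Finset.sum_mul_sum,
    Fintype.sum_prod_type]
  refine Finset.sum_congr rfl fun i _ => Finset.sum_congr rfl fun j _ => ?_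
  rw [sub_smul, E_sub]

lemma sumsq_int {a : Gi → Gi → ℝ} (ha : Rad a) {D : Gi} (hD : D ≠ 0) {ι : Type} [Fintype ι]
    (w : ι → Gi) : ∫ t, ‖∑ i, E (w i • t)‖ ^ 2 ∂(nu a D) = ∑ i, ∑ j, a D (w i - w j) := by
  have h1 : ((∫ t, ‖∑ i, E (w i • t)‖ ^ 2 ∂(nu a D) : ℝ) : ℂ) =
      ((∑ i, ∑ j, a D (w i - w j) : ℝ) : ℂ) := by
    rw [← integral_complex_ofReal]
    simp_rw [sum_sq]
    rw [sum_int ha hD (fun p : ι × ι => w p.1 - w p.2), Fintype.sum_prod_type]
  exact_mod_cast h1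

lemma gcont {ι : Type} [Fintype ι] (w : ι → Gi) : Continuous (fun t : T2 => ∑ i, E (w i • t)) :=
  continuous_finsetSum _ fun i _ => E_cont.comp (smul_cont _)

lemma gbd {ι : Type} [Fintype ι] (w : ι → Gi) (t : T2) :
    ‖∑ i, E (w i • t)‖ ≤ Fintype.card ι := by
  refine (norm_sum_le _ _).trans ?_
  simp [E_norm]

/-- the variance identity -/
lemma var_int {a : Gi → Gi → ℝ} (ha : Rad a) {D : Gi} (hD : D ≠ 0) {ι : Type} [Fintype ι]
    (w : ι → Gi) (v : ℝ) (hv : ∀ i, a D (w i) = v) :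
    ∫ t, ‖∑ i, E (w i • t) - ((Fintype.card ι * v : ℝ) : ℂ)‖ ^ 2 ∂(nu a D) =
      ∑ i, ∑ j, a D (w i - w j) - (Fintype.card ι * v) ^ 2 := by
  haveI := nu_prob a ha D hD
  set c : ℝ := Fintype.card ι * v with hc
  have hgi : Integrable (fun t => ∑ i, E (w i • t)) (nu a D) := nu_int ha hD (gcont w) (gbd w)
  have hg2 : Integrable (fun t => ‖∑ i, E (w i • t)‖ ^ 2) (nu a D) := by
    refine Integrable.of_bound (C := (Fintype.card ι : ℝ) ^ 2)
      ((gcont w).norm.pow 2).aestronglyMeasurable (Filter.Eventually.of_forall fun t => ?_)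
    rw [Real.norm_eq_abs, abs_of_nonneg (by positivity)]
    exact pow_le_pow_left₀ (norm_nonneg _) (gbd w t) 2
  have hre : ∫ t, (∑ i, E (w i • t)).re ∂(nu a D) = c := by
    have h1 : (∫ t, (∑ i, E (w i • t)) ∂(nu a D)).re = ∫ t, (∑ i, E (w i • t)).re ∂(nu a D) := by
      have := integral_re hgi
      simpa using this.symm
    rw [← h1, sum_int ha hD w, Complex.ofReal_re]
    simp [hv, hc]
  have hpt : ∀ t : T2, ‖∑ i, E (w i • t) - (c : ℂ)‖ ^ 2 =
      ‖∑ i, E (w i • t)‖ ^ 2 - 2 * c * (∑ i, E (w i • t)).re + c ^ 2 := by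
    intro t
    rw [← Complex.normSq_eq_norm_sq, ← Complex.normSq_eq_norm_sq, Complex.normSq_apply,
      Complex.normSq_apply]
    simp only [Complex.sub_re, Complex.sub_im, Complex.ofReal_re, Complex.ofReal_im]
    ring
  simp_rw [hpt]
  have hrei : Integrable (fun t => (∑ i, E (w i • t)).re) (nu a D) := hgi.re
  have hi1 : Integrable (fun t => 2 * c * (∑ i, E (w i • t)).re) (nu a D) := hrei.const_mul _
  have hi2 : Integrable (fun t => ‖∑ i, E (w i • t)‖ ^ 2 - 2 * c * (∑ i, E (w i • t)).re)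
    (nu a D) := hg2.sub hi1
  rw [integral_add hi2 (integrable_const _),
    integral_sub hg2 hi1, integral_const_mul, hre, sumsq_int ha hD, integral_const]
  simp
  ring

/-! Claim 1 -/

lemma psd_pair {a : Gi → Gi → ℝ} (ha : Rad a) {D : Gi} (hD : D ≠ 0) {n : ℕ} (x y : Fin n → Gi) :
    (∑ i, ∑ j, a D (x i - y j)) + (∑ i, ∑ j, a D (y i - x j)) ≤
      (∑ i, ∑ j, a D (x i - x j)) + ∑ i, ∑ j, a D (y i - y j) := by
  have h := psd_fin ha hD (ι := Fin n ⊕ Fin n) (Sum.elim x y) (Sum.elim (fun _ => 1) (fun _ => -1))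
  simp only [Fintype.sum_sum_type, Sum.elim_inl, Sum.elim_inr, one_mul, mul_one, mul_neg, neg_mul,
    neg_neg, Finset.sum_add_distrib, Finset.sum_neg_distrib] at h
  linarith

lemma claim1 {a : Gi → Gi → ℝ} (ha : Rad a) {D : Gi} (hD : D ≠ 0) {n A : ℕ}
    (w : Fin n × Fin A → Gi) (T : ℝ)
    (hT : ∀ b, ∑ i, ∑ j, a D (w (i, b) - w (j, b)) = T) :
    ∑ p, ∑ q, a D (w p - w q) ≤ (A : ℝ) ^ 2 * T := by
  have h1 : ∑ p, ∑ q, a D (w p - w q) =
      ∑ b, ∑ b', ∑ i, ∑ j, a D (w (i, b) - w (j, b')) := by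
    rw [Fintype.sum_prod_type_right]
    refine Finset.sum_congr rfl fun b _ => ?_
    simp_rw [Fintype.sum_prod_type_right]
    exact Finset.sum_comm
  rw [h1]
  set S : Fin A → Fin A → ℝ := fun b b' => ∑ i, ∑ j, a D (w (i, b) - w (j, b')) with hS
  have h2 : ∀ b b', S b b' + S b' b ≤ 2 * T := by
    intro b b'
    have := psd_pair ha hD (fun i => w (i, b)) (fun i => w (i, b'))
    rw [hT b, hT b'] at this
    simp only [hS]
    linarith
  have h3 : ∑ b, ∑ b', (S b b' + S b' b) ≤ ∑ b : Fin A, ∑ b' : Fin A, 2 * T :=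
    Finset.sum_le_sum fun b _ => Finset.sum_le_sum fun b' _ => h2 b b'
  have h4 : ∑ b, ∑ b', (S b b' + S b' b) = 2 * ∑ b, ∑ b', S b b' := by
    simp_rw [Finset.sum_add_distrib]
    rw [Finset.sum_comm (f := fun b b' => S b' b)]
    ring
  rw [h4] at h3
  simp at h3
  have h5 : ∑ b, ∑ b', S b b' ≤ (A:ℝ) ^ 2 * T := by nlinarith
  exact h5

/-! norms of the points -/

lemma norm_UU (A a : ℕ) (ha : a < A) :
    (UU A a).norm = ((∏ b ∈ Finset.range A, (25 * b ^ 2 + 1) : ℕ) : ℤ) ^ 2 := by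
  unfold UU
  have h1 : (⟨5 * a, -1⟩ : Gi).norm = (25 * a ^ 2 + 1 : ℤ) := by
    simp only [Zsqrtd.norm_def]; ring
  have hm : ∀ x y : Gi, (x * y).norm = x.norm * y.norm := Zsqrtd.norm_mul
  have h2 : (∏ b ∈ (Finset.range A).erase a, ((25 * b ^ 2 + 1 : ℕ) : Gi)).norm =
      (∏ b ∈ (Finset.range A).erase a, ((25 * b ^ 2 + 1 : ℕ) : ℤ)) ^ 2 := by
    rw [← Nat.cast_prod, norm_nat, Nat.cast_prod]
  rw [hm, pow_two, hm, h1, h2]
  rw [← Finset.mul_prod_erase (Finset.range A) _ (Finset.mem_range.2 ha)]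
  push_cast
  ring

lemma norm_pow' (x : Gi) (k : ℕ) : (x ^ k).norm = x.norm ^ k :=
  map_pow (Zsqrtd.normMonoidHom (d := -1)) x k

lemma norm_pp : pp.norm = 5 := by
  unfold pp; simp [Zsqrtd.norm_def]

lemma norm_star_pp (k : ℕ) : (star pp ^ k).norm = 5 ^ k := by
  rw [norm_pow', Zsqrtd.norm_conj, norm_pp]


lemma step_ineq {a : Gi → Gi → ℝ} (ha : Rad a) {D z : Gi} (hD : D ≠ 0) (hz : z ≠ 0)
    {ι : Type} [Fintype ι] (w : ι → Gi) (s : ℝ) (hs : 0 ≤ s) (G : ℝ)
    (hG : ∀ i, a (D * z) (w i) = G) (H V : ℝ)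
    (hH : ∫ t in {t | f a (D * z) t ≤ s * (z.norm * f a D (z • t))},
      ‖∑ i, E (w i • t)‖ ^ 2 ∂(nu a (D * z)) ≤ H)
    (hV : ∑ i, ∑ j, a (D * z) (w i - w j) - (Fintype.card ι * G) ^ 2 ≤ V) :
    (Fintype.card ι * G) ^ 2 * ((nu a (D * z)) {t | f a (D * z) t ≤
      s * (z.norm * f a D (z • t))}).toReal ≤ 2 * H + 2 * V := by
  have hDz : D * z ≠ 0 := mul_ne_zero hD hz
  have := nu_prob a ha (D * z) hDz
  set S := {t | f a (D * z) t ≤ s * (z.norm * f a D (z • t))} with hS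
  have hSm : MeasurableSet S := by
    have hc1 := f_continuous a ha (D * z) hDz
    have hc2 := (f_continuous a ha D hD).comp (smul_cont z)
    exact (isClosed_le hc1 (continuous_const.mul (continuous_const.mul hc2))).measurableSet
  set c : ℝ := Fintype.card ι * G with hc
  rw [← var_int ha hDz w G hG] at hV
  have hg2 : Integrable (fun t => ‖∑ i, E (w i • t)‖ ^ 2) (nu a (D * z)) := by
    refine Integrable.of_bound (C := (Fintype.card ι : ℝ) ^ 2)
      ((gcont w).norm.pow 2).aestronglyMeasurable (Filter.Eventually.of_forall fun t => ?_)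
    rw [Real.norm_eq_abs, abs_of_nonneg (by positivity)]
    exact pow_le_pow_left₀ (norm_nonneg _) (gbd w t) 2
  have hg3 : Integrable (fun t => ‖∑ i, E (w i • t) - (c : ℂ)‖ ^ 2) (nu a (D * z)) := by
    refine Integrable.of_bound (C := ((Fintype.card ι : ℝ) + ‖(c:ℂ)‖) ^ 2)
      (((gcont w).sub continuous_const).norm.pow 2).aestronglyMeasurable
      (Filter.Eventually.of_forall fun t => ?_)
    rw [Real.norm_eq_abs, abs_of_nonneg (by positivity)]
    refine pow_le_pow_left₀ (norm_nonneg _) ((norm_sub_le _ _).trans ?_) 2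
    exact add_le_add (gbd w t) le_rfl
  have h1 : c ^ 2 * ((nu a (D * z)) S).toReal = ∫ t in S, c ^ 2 ∂(nu a (D * z)) := by
    rw [setIntegral_const]
    simp [Measure.real, mul_comm]
  have h2 : ∫ t in S, c ^ 2 ∂(nu a (D * z)) ≤
      ∫ t in S, (2 * ‖∑ i, E (w i • t)‖ ^ 2 + 2 * ‖∑ i, E (w i • t) - (c : ℂ)‖ ^ 2)
        ∂(nu a (D * z)) := by
    refine setIntegral_mono (integrable_const _).integrableOn
      ((hg2.const_mul 2).add (hg3.const_mul 2)).integrableOn ?_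
    intro t
    have h3 : ‖(c:ℂ)‖ ≤ ‖∑ i, E (w i • t)‖ + ‖∑ i, E (w i • t) - (c : ℂ)‖ := by
      have := norm_sub_le (∑ i, E (w i • t)) (∑ i, E (w i • t) - (c : ℂ))
      rwa [sub_sub_cancel] at this
    have h4 : c ^ 2 = ‖(c:ℂ)‖ ^ 2 := by rw [Complex.norm_real, Real.norm_eq_abs, sq_abs]
    show c ^ 2 ≤ _
    rw [h4]
    nlinarith [norm_nonneg (c:ℂ), norm_nonneg (∑ i, E (w i • t)),
      norm_nonneg (∑ i, E (w i • t) - (c : ℂ)),
      sq_nonneg (‖∑ i, E (w i • t)‖ - ‖∑ i, E (w i • t) - (c : ℂ)‖)]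
  have h5 : ∫ t in S, (2 * ‖∑ i, E (w i • t)‖ ^ 2 + 2 * ‖∑ i, E (w i • t) - (c : ℂ)‖ ^ 2)
        ∂(nu a (D * z)) = 2 * ∫ t in S, ‖∑ i, E (w i • t)‖ ^ 2 ∂(nu a (D * z)) +
        2 * ∫ t in S, ‖∑ i, E (w i • t) - (c : ℂ)‖ ^ 2 ∂(nu a (D * z)) := by
    rw [integral_add (hg2.const_mul 2).integrableOn (hg3.const_mul 2).integrableOn,
      integral_const_mul, integral_const_mul]
  have h6 : ∫ t in S, ‖∑ i, E (w i • t) - (c : ℂ)‖ ^ 2 ∂(nu a (D * z)) ≤
      ∫ t, ‖∑ i, E (w i • t) - (c : ℂ)‖ ^ 2 ∂(nu a (D * z)) :=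
    setIntegral_le_integral hg3 (Filter.Eventually.of_forall fun t => by positivity)
  rw [h1]
  linarith

/-! TARGETS -/

theorem caseI_small (F : K → ℝ) (hF : IsPD F) (hEB : EB F) (c : ℝ) (hc : 0 < c)
    (h : ∀ k0 : ℕ, ∃ k ≥ k0, c * k ≤ dd (aOf F) (pp ^ k)) :
    ∃ C : ℝ, 0 ≤ C ∧ ∀ v : K, v ≠ 0 → ‖(v : ℂ)‖ ≤ 1 / 4 → F v ^ 2 ≤ C * ‖(v : ℂ)‖ := by
  classical
  have hlog5 : 0 < Real.log 5 := Real.log_pos (by norm_num)
  have ha := (window F hF).1
  set κ : ℝ := min 1 (c / (2 * Real.log 5)) with hκ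
  have hκ0 : 0 < κ := lt_min one_pos (by positivity)
  have hκ1 : κ ≤ 1 := min_le_left _ _
  have hκ2 : κ * Real.log 5 ≤ c / 2 := by
    calc κ * Real.log 5 ≤ c / (2 * Real.log 5) * Real.log 5 :=
          mul_le_mul_of_nonneg_right (min_le_right _ _) hlog5.le
      _ = c / 2 := by field_simp
  refine ⟨256 / κ + 4, by positivity, ?_⟩
  intro v hv hv4
  set N := ‖(v : ℂ)‖ with hN
  have hN0 : 0 < N := by
    rw [hN, norm_pos_iff]
    intro h0
    exact hv (Subtype.ext h0)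
  set G := GG F v with hGdef
  have hG1 : |G| ≤ 1 := GG_abs hF v
  have hF1 : |F v| ≤ 1 := F_abs hF v
  have hGF : |G - F v| ≤ 2 * N := GG_sub hF v
  have hFG : F v ^ 2 - G ^ 2 ≤ 4 * N := by
    have e1 : F v ^ 2 - G ^ 2 = (F v - G) * (F v + G) := by ring
    have e2 : |(F v - G) * (F v + G)| ≤ (2 * N) * 2 := by
      rw [abs_mul]
      refine mul_le_mul ?_ ?_ (abs_nonneg _) (by positivity)
      · rw [abs_sub_comm]; exact hGF
      · exact (abs_add_le _ _).trans (by linarith)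
    rw [e1]
    exact (le_abs_self _).trans (e2.trans (by linarith))
  -- main step
  have key : ∀ ε : ℝ, 0 < ε → G ^ 2 * (κ / 16) ≤ 16 * N + 4 * ε := by
    intro ε hε
    obtain ⟨n, b, hn, hb, hsum⟩ := hEB v ε hε
    obtain ⟨Mb, B, hMb, hB⟩ := rep_fam n (fun i => b i * v)
    have hbn : ∀ i, b i ≠ 0 := by
      intro i h0
      have := hb i
      rw [h0] at this
      simp at this
    have hB0 : ∀ i, B i ≠ 0 := by
      intro i h0
      have h1 := hB i
      rw [h0] at h1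
      have h2 : toK (0 : Gi) = 0 := by apply Subtype.ext; simp [toK_coe]
      rw [h2] at h1
      have h3 : (Mb : K) * (b i * v) ≠ 0 :=
        mul_ne_zero (by exact_mod_cast hMb.ne') (mul_ne_zero (hbn i) hv)
      exact h3 h1.symm
    obtain ⟨C0, hC0, hcount⟩ := count_pairs n B hB0
    have hn0 : (0:ℝ) < n := by exact_mod_cast hn
    -- choice of m
    obtain ⟨m, hm1, hm2, hm3⟩ : ∃ m : ℕ, 1 ≤ m ∧ 4 / κ ≤ (5:ℝ) ^ m ∧
        Real.exp (-(κ / 4) * (m * Real.log 5)) * (C0 / n ^ 2) ≤ ε := by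
      have t1 : Filter.Tendsto (fun m : ℕ => (5:ℝ) ^ m) Filter.atTop Filter.atTop :=
        tendsto_pow_atTop_atTop_of_one_lt (by norm_num)
      have t2 : Filter.Tendsto (fun m : ℕ => Real.exp (-(κ / 4) * (m * Real.log 5)) * (C0 / n ^ 2))
          Filter.atTop (nhds 0) := by
        have t3 : Filter.Tendsto (fun m : ℕ => -((κ / 4 * Real.log 5) * (m : ℝ))) Filter.atTop
            Filter.atBot := by
          refine Filter.tendsto_neg_atTop_atBot.comp ?_
          exact (tendsto_natCast_atTop_atTop).const_mul_atTop (by positivity)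
        have t4 := (Real.tendsto_exp_atBot.comp t3).mul_const (C0 / n ^ 2)
        rw [zero_mul] at t4
        refine t4.congr fun m => ?_
        simp only [Function.comp]
        congr 2
        ring
      obtain ⟨m, hm⟩ := ((Filter.eventually_ge_atTop 1).and
        ((t1.eventually_ge_atTop (4 / κ)).and (t2.eventually_le_const hε))).exists
      exact ⟨m, hm.1, hm.2.1, hm.2.2⟩
    set P : ℕ := ∏ b ∈ Finset.range (5 ^ m), (25 * b ^ 2 + 1) with hP
    have hP0 : 0 < P := Finset.prod_pos fun b _ => by positivity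
    set M1 : Gi := ((Mb * P : ℕ) : Gi) with hM1
    have hM10 : M1 ≠ 0 := by
      rw [hM1]; exact_mod_cast (Nat.mul_pos hMb hP0).ne'
    have hpp0 : pp ≠ 0 := by unfold pp; decide
    obtain ⟨l, hl⟩ := chain (aOf F) ha c hc h m hm1 M1 hM10
    set D := M1 * pp ^ (m * l) with hDdef
    set z := pp ^ m with hzdef
    set k := m * (l + 1) with hk
    have hD : D ≠ 0 := mul_ne_zero hM10 (pow_ne_zero _ hpp0)
    have hz : z ≠ 0 := pow_ne_zero _ hpp0
    have hDz : D * z ≠ 0 := mul_ne_zero hD hz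
    have hDz2 : D * z = M1 * pp ^ k := by
      rw [hDdef, hzdef, mul_assoc, ← pow_add, hk]; congr 2
    have hznorm : z.norm = 5 ^ m := by rw [hzdef, norm_pow', norm_pp]
    have hznormR : (z.norm : ℝ) = 5 ^ m := by rw [hznorm]; push_cast; rfl
    have hlogz : Real.log z.norm = m * Real.log 5 := by rw [hznormR, Real.log_pow]
    set s := Real.exp (-(κ / 4) * Real.log z.norm) with hs
    have hs0 : 0 ≤ s := (Real.exp_pos _).le
    have hspread := dd_spread (aOf F) ha D hD z hz κ hκ0 hκ1 (by rw [hznormR]; exact hm2) (by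
      have e1 : dd (aOf F) (D * z) = dd (aOf F) (M1 * (⟨2, 1⟩ : Gi) ^ (m * (l + 1))) := by
        rw [hDz2]; rfl
      have e2 : dd (aOf F) D = dd (aOf F) (M1 * (⟨2, 1⟩ : Gi) ^ (m * l)) := rfl
      rw [e1, e2]
      refine le_trans ?_ hl
      rw [hlogz]
      have : (0:ℝ) ≤ m := Nat.cast_nonneg m
      nlinarith)
    -- the points
    set w : Fin n × Fin (5 ^ m) → Gi := fun p => B p.1 * UU (5 ^ m) p.2 * star pp ^ k with hw
    have hnDz : ((D * z).norm : ℝ) = (Mb:ℝ) ^ 2 * (P:ℝ) ^ 2 * 5 ^ k := by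
      rw [hDz2, Zsqrtd.norm_mul, hM1, norm_nat, norm_pow', norm_pp]
      push_cast
      ring
    have hnorm : ∀ (X : Gi) (q : Fin (5 ^ m)), ((X * UU (5 ^ m) q * star pp ^ k).norm : ℝ) =
        X.norm * (P:ℝ) ^ 2 * 5 ^ k := by
      intro X q
      rw [Zsqrtd.norm_mul, Zsqrtd.norm_mul, norm_UU _ _ q.2, norm_star_pp]
      push_cast
      rw [hP]
      push_cast
      ring
    have hw1 : ∀ p, aOf F (D * z) (w p) = G := by
      intro p
      refine aOf_eq hF v hDz ?_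
      rw [hw]
      simp only
      rw [hnorm, hnDz, norm_toK, hB]
      push_cast
      rw [norm_mul, norm_mul, hb, one_mul, ← hN]
      simp
      ring
    have hw2 : ∀ i j q, aOf F (D * z) (w (i, q) - w (j, q)) = GG F ((b i - b j) * v) := by
      intro i j q
      refine aOf_eq hF _ hDz ?_
      have e1 : w (i, q) - w (j, q) = (B i - B j) * UU (5 ^ m) q * star pp ^ k := by
        rw [hw]; simp only; ring
      rw [e1, hnorm, hnDz, norm_toK, toK_sub, hB, hB]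
      have e2 : (Mb : K) * (b i * v) - (Mb : K) * (b j * v) = (Mb : K) * ((b i - b j) * v) := by ring
      rw [e2]
      push_cast
      rw [norm_mul (Mb : ℂ)]
      simp
      ring
    set T : ℝ := ∑ i, ∑ j, GG F ((b i - b j) * v) with hT
    have hcl1 : ∑ p, ∑ q, aOf F (D * z) (w p - w q) ≤ ((5 ^ m : ℕ) : ℝ) ^ 2 * T :=
      claim1 ha hDz w T (fun q => by simp_rw [hw2]; rfl)
    have hT2 : T ≤ (n:ℝ) ^ 2 * (F v ^ 2 + ε + 4 * N) := by
      have e1 : ∀ i j, GG F ((b i - b j) * v) ≤ F ((b i - b j) * v) + 4 * N := by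
        intro i j
        have e2 := (abs_le.1 (GG_sub hF ((b i - b j) * v))).2
        have e3 : ‖(((b i - b j) * v : K) : ℂ)‖ ≤ 2 * N := by
          push_cast
          rw [norm_mul]
          refine mul_le_mul_of_nonneg_right ((norm_sub_le _ _).trans ?_) (norm_nonneg _)
          rw [hb, hb]; norm_num
        linarith
      have e4 : T ≤ ∑ i : Fin n, ∑ j : Fin n, (F ((b i - b j) * v) + 4 * N) :=
        Finset.sum_le_sum fun i _ => Finset.sum_le_sum fun j _ => e1 i j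
      simp_rw [Finset.sum_add_distrib] at e4
      simp at e4
      nlinarith
    have hcard : (Fintype.card (Fin n × Fin (5 ^ m)) : ℝ) = n * ((5 ^ m : ℕ) : ℝ) := by
      simp
    set A : ℝ := ((5 ^ m : ℕ) : ℝ) with hA
    have hA0 : 0 < A := by rw [hA]; positivity
    have hA5 : A = 5 ^ m := by rw [hA]; push_cast; rfl
    have hV : ∑ i, ∑ j, aOf F (D * z) (w i - w j) -
        ((Fintype.card (Fin n × Fin (5 ^ m)) : ℝ) * G) ^ 2 ≤ A ^ 2 * n ^ 2 * (ε + 8 * N) := by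
      rw [hcard]
      have e1 : A ^ 2 * T ≤ A ^ 2 * ((n:ℝ) ^ 2 * (F v ^ 2 + ε + 4 * N)) :=
        mul_le_mul_of_nonneg_left hT2 (by positivity)
      have e2 : A ^ 2 * (n:ℝ) ^ 2 * (F v ^ 2 - G ^ 2) ≤ A ^ 2 * (n:ℝ) ^ 2 * (4 * N) :=
        mul_le_mul_of_nonneg_left hFG (by positivity)
      nlinarith [hcl1, e1, e2]
    have hH : ∫ t in {t | f (aOf F) (D * z) t ≤ s * (z.norm * f (aOf F) D (z • t))},
        ‖∑ i, E (w i • t)‖ ^ 2 ∂(nu (aOf F) (D * z)) ≤ s * A * (C0 * A) := by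
      refine (host_fin (aOf F) ha D hD z hz w s hs0).trans ?_
      rw [hznormR, ← hA5]
      refine mul_le_mul_of_nonneg_left ?_ (by positivity)
      have := hcount m k
      rw [← hA5] at this
      convert this using 2
    have hfin := step_ineq ha hD hz w s hs0 G hw1 _ _ hH hV
    rw [hcard] at hfin
    set νS := ((nu (aOf F) (D * z)) {t | f (aOf F) (D * z) t ≤
      s * (z.norm * f (aOf F) D (z • t))}).toReal with hνS
    have hm3' : s * (C0 / n ^ 2) ≤ ε := by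
      rw [hs, hlogz]; exact hm3
    have e1 : G ^ 2 * νS ≤ 2 * (s * (C0 / n ^ 2)) + 2 * (ε + 8 * N) := by
      have e2 : (n:ℝ) ^ 2 * A ^ 2 * (G ^ 2 * νS) ≤
          (n:ℝ) ^ 2 * A ^ 2 * (2 * (s * (C0 / n ^ 2)) + 2 * (ε + 8 * N)) := by
        have e3 : (n:ℝ) ^ 2 * A ^ 2 * (2 * (s * (C0 / n ^ 2)) + 2 * (ε + 8 * N)) =
            2 * (s * A * (C0 * A)) + 2 * (A ^ 2 * n ^ 2 * (ε + 8 * N)) := by
          field_simp
        rw [e3]
        refine le_trans (le_of_eq ?_) hfin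
        ring
      exact le_of_mul_le_mul_left e2 (by positivity)
    have e4 : G ^ 2 * (κ / 16) ≤ G ^ 2 * νS := mul_le_mul_of_nonneg_left hspread (sq_nonneg _)
    linarith
  have key2 : G ^ 2 * (κ / 16) ≤ 16 * N := by
    refine le_of_forall_pos_le_add fun ε hε => ?_
    have := key (ε / 4) (by positivity)
    linarith
  have e1 : G ^ 2 ≤ 256 / κ * N := by
    rw [div_mul_eq_mul_div, le_div_iff₀ hκ0]
    linarith
  nlinarith
end I2
export I2 (caseI_small)
end Pool.Agent.Helper378.PD
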