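import Pool.Agent.Helper378.PD.Base
set_option autoImplicit false
open MeasureTheory
namespace Pool.Agent.Helper378.PD
namespace I3
/-! TARGETS -/


noncomputable def IK : K := ⟨Complex.I, 0, 1, by simp⟩

noncomputable def gK (m : ℕ) : K := ((m : K) - IK) / ((m : K) + IK)

theorem gK_coe (m : ℕ) : ((gK m : K) : ℂ) = ((m:ℂ) - Complex.I) / ((m:ℂ) + Complex.I) := by
  unfold gK IK
  push_cast
  rfl

theorem mI_norm (m : ℕ) : (m:ℝ) ≤ ‖(m:ℂ) + Complex.I‖ ∧ (m:ℂ) + Complex.I ≠ 0 := by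
  constructor
  · have h := Complex.abs_re_le_norm ((m:ℂ) + Complex.I)
    simpa using h
  · intro h0
    have := congrArg Complex.im h0
    simp at this

theorem gK_norm (m : ℕ) : ‖((gK m : K) : ℂ)‖ = 1 := by
  rw [gK_coe, norm_div]
  have h : ‖(m:ℂ) - Complex.I‖ = ‖(m:ℂ) + Complex.I‖ := by
    have h1 : (m:ℂ) - Complex.I = (starRingEnd ℂ) ((m:ℂ) + Complex.I) := by
      simp [sub_eq_add_neg]
    rw [h1, Complex.norm_conj]
  rw [h, div_self]
  exact norm_ne_zero_iff.mpr (mI_norm m).2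

theorem gK_sub (m n : ℕ) : ((gK m - gK n : K) : ℂ) =
    (2 * Complex.I * ((m:ℂ) - n)) / (((m:ℂ) + Complex.I) * ((n:ℂ) + Complex.I)) := by
  have h : ((gK m - gK n : K) : ℂ) = ((gK m : K) : ℂ) - ((gK n : K) : ℂ) := by push_cast; rfl
  rw [h, gK_coe, gK_coe, div_sub_div _ _ (mI_norm m).2 (mI_norm n).2]
  congr 1
  ring

theorem gK_sub_ne (m n : ℕ) (hmn : m ≠ n) : gK m - gK n ≠ 0 := by
  intro h0
  have h := gK_sub m n
  rw [h0] at h
  have h1 : (((m:ℂ) + Complex.I) * ((n:ℂ) + Complex.I)) ≠ 0 :=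
    mul_ne_zero (mI_norm m).2 (mI_norm n).2
  have h2 : (2 * Complex.I * ((m:ℂ) - n)) = 0 := by
    have h3 : ((0 : K) : ℂ) = 0 := rfl
    rw [h3] at h
    rcases (div_eq_zero_iff.mp h.symm) with h4 | h4
    · exact h4
    · exact absurd h4 h1
  have h5 : (m:ℂ) - n = 0 := by
    have h6 : (2 * Complex.I) ≠ 0 := by simp
    exact (mul_eq_zero.mp h2).resolve_left h6
  exact hmn (by exact_mod_cast sub_eq_zero.mp h5)

theorem gK_sub_norm (X N i j : ℕ) (hX : 0 < X) (hi : i < N) (hj : j < N) :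
    ‖((gK (X + i) - gK (X + j) : K) : ℂ)‖ ≤ 2 * N / X := by
  rw [gK_sub, norm_div, norm_mul, norm_mul, norm_mul]
  have hX' : (1:ℝ) ≤ X := by exact_mod_cast hX
  have h1 : (X:ℝ) ≤ ‖((X + i : ℕ):ℂ) + Complex.I‖ := by
    refine le_trans ?_ (mI_norm (X + i)).1
    push_cast; linarith [(Nat.cast_nonneg i : (0:ℝ) ≤ i)]
  have h2 : (X:ℝ) ≤ ‖((X + j : ℕ):ℂ) + Complex.I‖ := by
    refine le_trans ?_ (mI_norm (X + j)).1
    push_cast; linarith [(Nat.cast_nonneg j : (0:ℝ) ≤ j)]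
  have h3 : ‖((X + i : ℕ):ℂ) - ((X + j : ℕ) : ℂ)‖ ≤ N := by
    have : ((X + i : ℕ):ℂ) - ((X + j : ℕ) : ℂ) = (((i:ℝ) - (j:ℝ) : ℝ) : ℂ) := by push_cast; ring
    rw [this, Complex.norm_real, Real.norm_eq_abs, abs_le]
    have hi' : (i:ℝ) < N := by exact_mod_cast hi
    have hj' : (j:ℝ) < N := by exact_mod_cast hj
    have hi0 : (0:ℝ) ≤ i := Nat.cast_nonneg _
    have hj0 : (0:ℝ) ≤ j := Nat.cast_nonneg _
    constructor <;> linarith
  have h4 : ‖(2:ℂ)‖ = 2 := by simp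
  rw [h4, Complex.norm_I, mul_one]
  have h5 : (X:ℝ) ≤ ‖((X + i : ℕ):ℂ) + Complex.I‖ * ‖((X + j : ℕ):ℂ) + Complex.I‖ := by nlinarith
  apply div_le_div₀ (by positivity) (by linarith) (by linarith) h5

theorem psd_ineq (F : K → ℝ) (hF : IsPD F) (v : K) (N : ℕ) (g : Fin N → K)
    (hg : ∀ i, ‖((g i : K) : ℂ)‖ = 1) :
    (N:ℝ) ^ 2 * F v ^ 2 ≤ ∑ i, ∑ j, F ((g i - g j) * v) := by
  have h := hF.psd (N + 1) (Fin.cons 0 (fun i => g i * v)) (Fin.cons (-(N:ℝ) * F v) (fun _ => 1))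
  rw [Fin.sum_univ_succ] at h
  simp only [Fin.sum_univ_succ, Fin.cons_zero, Fin.cons_succ] at h
  have e1 : ∀ i, F (0 - g i * v) = F v := by
    intro i
    apply hF.rad
    simp [hg]
  have e2 : ∀ i, F (g i * v) = F v := by
    intro i
    apply hF.rad
    simp [hg]
  have e3 : ∀ i j, F (g i * v - g j * v) = F ((g i - g j) * v) := by
    intro i j; rw [sub_mul]
  simp only [e1, e2, e3, sub_zero, hF.one, one_mul, mul_one] at h
  rw [Finset.sum_add_distrib] at h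
  simp only [Finset.sum_const, Finset.card_univ, Fintype.card_fin, nsmul_eq_mul] at h
  nlinarith [h]

theorem caseI_final (F : K → ℝ) (hF : IsPD F) (C : ℝ) (hC : 0 ≤ C)
    (h : ∀ v : K, v ≠ 0 → ‖(v : ℂ)‖ ≤ 1 / 4 → F v ^ 2 ≤ C * ‖(v : ℂ)‖) (v : K) (hv : v ≠ 0) : F v = 0 := by
  by_contra hne
  set t : ℝ := F v ^ 2 with ht
  have ht0 : 0 < t := by positivity
  have hvn : 0 < ‖(v:ℂ)‖ := by
    rw [norm_pos_iff]
    intro h0
    exact hv (Subtype.ext h0)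
  obtain ⟨N, hN⟩ := exists_nat_gt (2 / t)
  have hN0 : (0:ℝ) < N := lt_trans (by positivity) hN
  have hNt : 2 < N * t := by
    rw [div_lt_iff₀ ht0] at hN; exact hN
  -- choose X
  obtain ⟨X, hX⟩ := exists_nat_gt (max (8 * N * ‖(v:ℂ)‖) (8 * N * C * ‖(v:ℂ)‖ / t ^ 2))
  have hX1 : 8 * N * ‖(v:ℂ)‖ < X := lt_of_le_of_lt (le_max_left _ _) hX
  have hX2 : 8 * N * C * ‖(v:ℂ)‖ / t ^ 2 < X := lt_of_le_of_lt (le_max_right _ _) hX
  have hX0 : (0:ℝ) < X := lt_of_le_of_lt (by positivity) hX1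
  have hX0' : 0 < X := by exact_mod_cast hX0
  have hsmall : ∀ i j : Fin N, i ≠ j → F ((gK (X + i) - gK (X + j)) * v) ≤ t / 2 := by
    intro i j hij
    have h1 := gK_sub_norm X N i j hX0' i.2 j.2
    have h2 : gK (X + i) - gK (X + j) ≠ 0 := by
      apply gK_sub_ne
      intro h0
      exact hij (Fin.ext (by omega))
    have h3 : ‖(((gK (X + i) - gK (X + j)) * v : K) : ℂ)‖ ≤ 2 * N / X * ‖(v:ℂ)‖ := by
      have : (((gK (X + i) - gK (X + j)) * v : K) : ℂ) = ((gK (X + i) - gK (X + j) : K) : ℂ) * (v:ℂ) := by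
        push_cast; rfl
      rw [this, norm_mul]
      exact mul_le_mul_of_nonneg_right h1 (norm_nonneg _)
    have h4 : 2 * N / X * ‖(v:ℂ)‖ ≤ 1 / 4 := by
      rw [div_mul_eq_mul_div, div_le_iff₀ hX0]
      linarith
    have h5 := h _ (mul_ne_zero h2 hv) (h3.trans h4)
    have h6 : C * ‖(((gK (X + i) - gK (X + j)) * v : K) : ℂ)‖ ≤ C * (2 * N / X * ‖(v:ℂ)‖) :=
      mul_le_mul_of_nonneg_left h3 hC
    have h7 : C * (2 * N / X * ‖(v:ℂ)‖) ≤ (t / 2) ^ 2 := by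
      rw [div_lt_iff₀ (by positivity)] at hX2
      have : C * (2 * N / X * ‖(v:ℂ)‖) = (2 * N * C * ‖(v:ℂ)‖) / X := by ring
      rw [this, div_le_iff₀ hX0]
      nlinarith
    exact (abs_le_of_sq_le_sq' (h5.trans (h6.trans h7)) (by positivity)).2
  have hps := psd_ineq F hF v N (fun i => gK (X + i)) (fun i => gK_norm _)
  have hup : ∑ i : Fin N, ∑ j : Fin N, F ((gK (X + i) - gK (X + j)) * v) ≤ N + N ^ 2 * (t / 2) := by
    have h1 : ∀ i j : Fin N, F ((gK (X + i) - gK (X + j)) * v) ≤ (if i = j then 1 else 0) + t / 2 := by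
      intro i j
      by_cases hij : i = j
      · subst hij
        rw [sub_self, zero_mul, hF.one, if_pos rfl]
        linarith
      · rw [if_neg hij, zero_add]
        exact hsmall i j hij
    calc ∑ i : Fin N, ∑ j : Fin N, F ((gK (X + i) - gK (X + j)) * v)
        ≤ ∑ i : Fin N, ∑ j : Fin N, ((if i = j then (1:ℝ) else 0) + t / 2) :=
          Finset.sum_le_sum fun i _ => Finset.sum_le_sum fun j _ => h1 i j
      _ = N + N ^ 2 * (t / 2) := by
          simp only [Finset.sum_add_distrib, Finset.sum_ite_eq, Finset.mem_univ, if_true,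
            Finset.sum_const, Finset.card_univ, Fintype.card_fin, nsmul_eq_mul]
          ring
  have hfin : (N:ℝ) ^ 2 * t ≤ N + N ^ 2 * (t / 2) := hps.trans hup
  nlinarith

end I3
export I3 (caseI_final)
end Pool.Agent.Helper378.PD
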