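import Pool.Agent.Helper378.PD.A1
import Pool.Agent.Helper378.PD.A2
import Pool.Agent.Helper378.PD.B1
import Pool.Agent.Helper378.PD.B2
import Pool.Agent.Helper378.PD.C1
import Pool.Agent.Helper378.PD.D5
import Pool.Agent.Helper378.PD.I2
import Pool.Agent.Helper378.PD.I3
import Pool.Agent.Helper378.PD.G8
set_option autoImplicit false
open MeasureTheory
namespace Pool.Agent.Helper378.PD

theorem toK_natCast (n : ℕ) : toK (n : Gi) = (n : K) := by
  apply Subtype.ext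
  simp [toK]

theorem extreme_case (J : ℕ) (ε : ℝ) (hε : 0 < ε) (H : Fin J → ℕ) (hH : ∀ i, 0 < H i)
    (hII : ∀ M0 : ℕ, 0 < M0 → ∀ a : Gi → Gi → ℝ, Rad a →
      (∀ c : ℝ, 0 < c → ∃ j0 : ℕ, ∀ j ≥ j0, dd a ((5:Gi) ^ j) ≤ c * j) →
      -(1 + ε) ≤ ∑ i : Fin J, (2:ℝ) ^ (i:ℕ) * a (M0 : Gi) (H i : Gi))
    (M0 : ℕ) (hM0 : 0 < M0)
    (hbig : ∑ i : Fin J, (2:ℝ) ^ (i:ℕ) * (2 * ((H i : ℝ) / M0)) ≤ ε)
    (F : K → ℝ) (hF : F ∈ Set.extremePoints ℝ {F : K → ℝ | IsPD F}) :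
    -(1 + 2 * ε) ≤ ∑ i : Fin J, (2:ℝ) ^ (i:ℕ) * F ((H i : K) / (M0 : K)) := by
  have hFP : IsPD F := hF.1
  have hM0K : ((M0 : ℕ) : K) ≠ 0 := by exact_mod_cast hM0.ne'
  by_cases h : ∃ c : ℝ, 0 < c ∧ ∀ k0 : ℕ, ∃ k ≥ k0, c * k ≤ dd (aOf F) (pp ^ k)
  · obtain ⟨c, hc, h⟩ := h
    have hEB : EB F := fun v ε hε => extreme_mean_bound (exists_mean Kˣ) F hF v ε hε
    obtain ⟨C, hC, hs⟩ := caseI_small F hFP hEB c hc h
    have h0 := caseI_final F hFP C hC hs
    have : ∑ i : Fin J, (2:ℝ) ^ (i:ℕ) * F ((H i : K) / (M0 : K)) = 0 := by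
      apply Finset.sum_eq_zero
      intro i _
      have hi : ((H i : ℕ) : K) ≠ 0 := by exact_mod_cast (hH i).ne'
      rw [h0 _ (div_ne_zero hi hM0K), mul_zero]
    rw [this]; linarith
  · push Not at h
    obtain ⟨hR, hw⟩ := window F hFP
    have h1 := hII M0 hM0 (aOf F) hR (by
      intro c hc
      obtain ⟨k0, hk0⟩ := h (c / 2) (by linarith)
      refine ⟨k0, fun j hj => ?_⟩
      have h2 := hk0 (2 * j) (by omega)
      have hn : ((5:Gi) ^ j).norm = (pp ^ (2 * j)).norm := by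
        have e1 : (5:Gi).norm = 25 := by decide
        have e2 : (pp ^ 2).norm = 25 := by decide
        have e3 : ∀ (z : Gi) (n : ℕ), (z ^ n).norm = z.norm ^ n := by
          intro z n
          induction n with
          | zero => simp
          | succ n ih => rw [pow_succ, pow_succ, Zsqrtd.norm_mul, ih]
        rw [pow_mul, e3, e3, e1, e2]
      have h5 : (5:Gi) ^ j ≠ 0 := pow_ne_zero _ (by decide)
      have hp : pp ^ (2 * j) ≠ 0 := pow_ne_zero _ (by decide)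
      have hf := f_norm (aOf F) hR _ h5 _ hp hn
      have hd : dd (aOf F) ((5:Gi) ^ j) = dd (aOf F) (pp ^ (2 * j)) := by
        unfold dd
        rw [hf, hn]
      rw [hd]
      push_cast at h2
      linarith)
    have h3 : ∀ i : Fin J, aOf F (M0 : Gi) (H i : Gi) ≤ F ((H i : K) / (M0 : K)) + 2 * ((H i : ℝ) / M0) := by
      intro i
      have h4 := hw (M0 : Gi) (H i : Gi) (by exact_mod_cast hM0.ne')
      rw [toK_natCast, toK_natCast] at h4
      have h5 : ‖(((H i : K) / (M0 : K) : K) : ℂ)‖ = (H i : ℝ) / M0 := by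
        push_cast
        rw [norm_div]
        simp
      rw [h5] at h4
      have := (abs_le.1 h4).2
      linarith
    have h6 : ∑ i : Fin J, (2:ℝ) ^ (i:ℕ) * aOf F (M0 : Gi) (H i : Gi) ≤
        ∑ i : Fin J, (2:ℝ) ^ (i:ℕ) * F ((H i : K) / (M0 : K)) +
          ∑ i : Fin J, (2:ℝ) ^ (i:ℕ) * (2 * ((H i : ℝ) / M0)) := by
      rw [← Finset.sum_add_distrib]
      apply Finset.sum_le_sum
      intro i _
      rw [← mul_add]
      exact mul_le_mul_of_nonneg_left (h3 i) (by positivity)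
    linarith

theorem key : Key := by
  intro J ε hε
  obtain ⟨H, hH, hinj, hII⟩ := caseII J (ε / 2) (by linarith)
  obtain ⟨M0, hM0⟩ := exists_nat_gt ((∑ i : Fin J, (2:ℝ) ^ (i:ℕ) * (2 * (H i : ℝ))) / (ε / 2))
  have hS : 0 ≤ (∑ i : Fin J, (2:ℝ) ^ (i:ℕ) * (2 * (H i : ℝ))) / (ε / 2) := by positivity
  have hM0' : (0:ℝ) < M0 := lt_of_le_of_lt hS hM0
  have hM0n : 0 < M0 := by exact_mod_cast hM0'
  refine ⟨fun i => (H i : ℚ) / M0, fun i => ?_, fun i j hij => ?_, fun F hF => ?_⟩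
  · have := hH i
    positivity
  · have h1 : (H i : ℚ) / M0 = (H j : ℚ) / M0 := hij
    have hq : (M0 : ℚ) ≠ 0 := by exact_mod_cast hM0n.ne'
    rw [div_left_inj' hq] at h1
    exact hinj (by exact_mod_cast h1)
  · have hbig : ∑ i : Fin J, (2:ℝ) ^ (i:ℕ) * (2 * ((H i : ℝ) / M0)) ≤ ε / 2 := by
      have e : ∑ i : Fin J, (2:ℝ) ^ (i:ℕ) * (2 * ((H i : ℝ) / M0)) =
          (∑ i : Fin J, (2:ℝ) ^ (i:ℕ) * (2 * (H i : ℝ))) / M0 := by
        rw [Finset.sum_div]
        apply Finset.sum_congr rfl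
        intro i _
        ring
      rw [e, div_le_iff₀ hM0']
      rw [div_lt_iff₀ (by linarith)] at hM0
      linarith
    have h := krein_milman_reduction J (fun i => (H i : K) / (M0 : K)) (fun i => (2:ℝ) ^ (i:ℕ)) (-(1 + ε)) (by
      intro G hG
      have := extreme_case J (ε / 2) (by linarith) H hH hII M0 hM0n hbig G hG
      have e : 2 * (ε / 2) = ε := by ring
      rw [e] at this
      exact this) F hF
    refine h.trans (le_of_eq ?_)
    apply Finset.sum_congr rfl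
    intro i _
    congr 2
    push_cast
    rfl

theorem final (J : ℕ) :
    ∃ H : Finset ℝ, H.card = J ∧ (∀ h ∈ H, 0 < h) ∧
      ∀ (n : ℕ) (col : EuclideanSpace ℝ (Fin 2) → Fin n),
        (∀ x y, dist x y ∈ H → col x ≠ col y) → 2 ^ J ≤ n :=
  result_of_key (fun A _ => exists_mean A) key J

end Pool.Agent.Helper378.PD
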