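import Mathlib
set_option autoImplicit false
namespace Pool.Agent.Helper378.PD

abbrev Pl := EuclideanSpace ℝ (Fin 2)

/-- colour of a point in the plane with scaled coordinates -/
noncomputable def c7 (X Y : ℝ) : ℤ := ⌊X - 5 / 2 * (⌊Y⌋ : ℝ)⌋ % 7

theorem c7_aux (X Y X' Y' : ℝ) (hj : ⌊Y⌋ ≤ ⌊Y'⌋) (h : (X - X') ^ 2 + (Y - Y') ^ 2 = 2) : c7 X Y ≠ c7 X' Y' := by
  intro hc
  unfold c7 at hc
  set j := ⌊Y⌋ with hj0
  set j' := ⌊Y'⌋ with hj'0
  set i := ⌊X - 5 / 2 * (j : ℝ)⌋ with hi0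
  set i' := ⌊X' - 5 / 2 * (j' : ℝ)⌋ with hi'0
  obtain ⟨k, hk⟩ : (7:ℤ) ∣ i' - i := Int.ModEq.dvd hc
  have a1 : (j : ℝ) ≤ Y := Int.floor_le Y
  have a2 : Y < j + 1 := Int.lt_floor_add_one Y
  have a3 : (j' : ℝ) ≤ Y' := Int.floor_le Y'
  have a4 : Y' < j' + 1 := Int.lt_floor_add_one Y'
  have b1 : (i : ℝ) ≤ X - 5 / 2 * (j : ℝ) := Int.floor_le _
  have b2 : X - 5 / 2 * (j : ℝ) < i + 1 := Int.lt_floor_add_one _
  have b3 : (i' : ℝ) ≤ X' - 5 / 2 * (j' : ℝ) := Int.floor_le _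
  have b4 : X' - 5 / 2 * (j' : ℝ) < i' + 1 := Int.lt_floor_add_one _
  have hkr : (i' : ℝ) - i = 7 * k := by exact_mod_cast hk
  -- difference of rows
  obtain ⟨d, hd⟩ : ∃ d : ℤ, j' = j + d := ⟨j' - j, by ring⟩
  have hdr : (j' : ℝ) = j + d := by exact_mod_cast hd
  have hd0 : 0 ≤ d := by omega
  have hd2 : d ≤ 2 := by
    by_contra hcon
    have : (3:ℤ) ≤ d := by omega
    have : (3:ℝ) ≤ d := by exact_mod_cast this
    nlinarith [sq_nonneg (X - X')]
  have hx : ∀ u : ℝ, 0 ≤ u → (u ≤ X' - X ∨ u ≤ X - X') → u ^ 2 ≤ (X - X') ^ 2 := by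
    intro u hu h
    rcases h with h | h <;> nlinarith
  have hY2 := sq_nonneg (Y - Y')
  have hk3 : k ≤ -2 ∨ k = -1 ∨ k = 0 ∨ 1 ≤ k := by omega
  interval_cases d
  · -- same row
    rcases hk3 with h1 | h1 | h1 | h1
    · have : (k:ℝ) ≤ -2 := by exact_mod_cast h1
      have := hx 13 (by norm_num) (Or.inr (by push_cast at hdr; linarith))
      linarith
    · subst h1
      have := hx 6 (by norm_num) (Or.inr (by push_cast at hdr hkr; linarith))
      linarith
    · subst h1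
      push_cast at hdr hkr
      have e1 : X - X' < 1 := by linarith
      have e2 : -1 < X - X' := by linarith
      have e3 : Y - Y' < 1 := by linarith
      have e4 : -1 < Y - Y' := by linarith
      nlinarith
    · have : (1:ℝ) ≤ (k:ℝ) := by exact_mod_cast h1
      have := hx 6 (by norm_num) (Or.inl (by push_cast at hdr; linarith))
      linarith
  · -- next row
    rcases hk3 with h1 | h1 | h1 | h1
    · have : (k:ℝ) ≤ -2 := by exact_mod_cast h1
      have := hx 3 (by norm_num) (Or.inr (by push_cast at hdr; linarith))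
      linarith
    · subst h1
      have := hx 3 (by norm_num) (Or.inr (by push_cast at hdr hkr; linarith))
      linarith
    · subst h1
      have := hx (3/2) (by norm_num) (Or.inl (by push_cast at hdr hkr; linarith))
      linarith
    · have : (1:ℝ) ≤ (k:ℝ) := by exact_mod_cast h1
      have := hx 3 (by norm_num) (Or.inl (by push_cast at hdr; linarith))
      linarith
  · -- two rows
    rcases hk3 with h1 | h1 | h1 | h1
    · have : (k:ℝ) ≤ -2 := by exact_mod_cast h1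
      have := hx 3 (by norm_num) (Or.inr (by push_cast at hdr; linarith))
      linarith
    · subst h1
      push_cast at hdr hkr
      have e1 : 1 < X - X' := by linarith
      have e3 : 1 < Y' - Y := by linarith
      nlinarith
    · subst h1
      have := hx 3 (by norm_num) (Or.inl (by push_cast at hdr hkr; linarith))
      linarith
    · have : (1:ℝ) ≤ (k:ℝ) := by exact_mod_cast h1
      have := hx 3 (by norm_num) (Or.inl (by push_cast at hdr; linarith))
      linarith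

theorem c7_ne (X Y X' Y' : ℝ) (h : (X - X') ^ 2 + (Y - Y') ^ 2 = 2) : c7 X Y ≠ c7 X' Y' := by
  rcases le_total ⌊Y⌋ ⌊Y'⌋ with hj | hj
  · exact c7_aux X Y X' Y' hj h
  · exact (c7_aux X' Y' X Y hj (by linarith [h, sq_nonneg (X - X')])).symm

theorem upper_one (h : ℝ) (hh : 0 < h) : ∃ c : Pl → Fin 7, ∀ x y, dist x y = h → c x ≠ c y := by
  refine ⟨fun x => ⟨(c7 (Real.sqrt 2 * x 0 / h) (Real.sqrt 2 * x 1 / h)).toNat, ?_⟩, fun x y hxy => ?_⟩
  · have h1 : 0 ≤ c7 (Real.sqrt 2 * x 0 / h) (Real.sqrt 2 * x 1 / h) := Int.emod_nonneg _ (by norm_num)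
    have h2 : c7 (Real.sqrt 2 * x 0 / h) (Real.sqrt 2 * x 1 / h) < 7 := Int.emod_lt_of_pos _ (by norm_num)
    omega
  · intro he
    have he' : (c7 (Real.sqrt 2 * x 0 / h) (Real.sqrt 2 * x 1 / h)).toNat =
        (c7 (Real.sqrt 2 * y 0 / h) (Real.sqrt 2 * y 1 / h)).toNat := congrArg Fin.val he
    have h1 : 0 ≤ c7 (Real.sqrt 2 * x 0 / h) (Real.sqrt 2 * x 1 / h) := Int.emod_nonneg _ (by norm_num)
    have h2 : 0 ≤ c7 (Real.sqrt 2 * y 0 / h) (Real.sqrt 2 * y 1 / h) := Int.emod_nonneg _ (by norm_num)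
    have h3 : c7 (Real.sqrt 2 * x 0 / h) (Real.sqrt 2 * x 1 / h) =
        c7 (Real.sqrt 2 * y 0 / h) (Real.sqrt 2 * y 1 / h) := by omega
    refine c7_ne _ _ _ _ ?_ h3
    have h4 : (x 0 - y 0) ^ 2 + (x 1 - y 1) ^ 2 = h ^ 2 := by
      rw [EuclideanSpace.dist_eq] at hxy
      rw [← hxy, Real.sq_sqrt (by positivity)]
      simp [Fin.sum_univ_two, Real.dist_eq, sq_abs]
    have h5 : Real.sqrt 2 ^ 2 = 2 := Real.sq_sqrt (by norm_num)
    have e1 : (Real.sqrt 2 * x 0 / h - Real.sqrt 2 * y 0 / h) ^ 2 + (Real.sqrt 2 * x 1 / h - Real.sqrt 2 * y 1 / h) ^ 2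
       = Real.sqrt 2 ^ 2 * ((x 0 - y 0) ^ 2 + (x 1 - y 1) ^ 2) / h ^ 2 := by
      field_simp
    rw [e1, h4, h5]
    field_simp

theorem upper (H : Finset ℝ) (hH : ∀ h ∈ H, 0 < h) :
    ∃ col : Pl → (Fin H.card → Fin 7), ∀ x y, dist x y ∈ H → col x ≠ col y := by
  choose c hc using fun h : H => upper_one h.1 (hH h.1 h.2)
  refine ⟨fun x i => c (H.equivFin.symm i) x, fun x y hxy he => ?_⟩
  have h1 := congrFun he (H.equivFin ⟨dist x y, hxy⟩)
  simp only [Equiv.symm_apply_apply] at h1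
  exact hc ⟨dist x y, hxy⟩ x y rfl h1

end Pool.Agent.Helper378.PD
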